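import Pool.Agent.H13.VM.B1

/-! MODULE B2 (about 100 lines). MONOTONICITY. For `F` contained in `E0` put `a(F)` = number of `B` in `Mats n r` with `X` in `B` and `zer B X cap E0 = F`.

Step: for `e = (y, z)` in `F`: `a(F) <= a(F.erase e)`: the map `B -> fl r B z y (ex X y z)` (`fill`; `e` in `zer B X`, so `ex X y z` is not in `B`) sends the first set into the
second; it is injective by `unflip` (`ex X y z` in `Sct r B z y` for all these `B`). So by induction on `(E0 \\ F).card` (remove elements one by one)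
`a(E0) <= a(F)` for every `F` contained in `E0`. The sets of matroids counted by `a(F)`, `F` in `E0.powerset`, are disjoint subsets of `Mats n r`, so
`2 ^ E0.card * a(E0) <= sum of a(F) <= (Mats n r).card`, and `a(E0)` counts the `B` with `X` in `B`, `E0` contained in `zer B X`. -/

open scoped BigOperators
open Filter

namespace Pool.Agent.H13.VM

open Pool.Agent.H28.Johnson

open Classical in
private theorem B2_step {n r : ℕ} (X : Finset (Fin n)) (E0 F : Finset (Fin n × Fin n))
    {e : Fin n × Fin n} (he : e ∈ F) :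
    ((Mats n r).filter fun B => X ∈ B ∧ zer B X ∩ E0 = F).card ≤
      ((Mats n r).filter fun B => X ∈ B ∧ zer B X ∩ E0 = F.erase e).card := by
  obtain ⟨y, z⟩ := e
  have key : ∀ B ∈ (Mats n r).filter fun B => X ∈ B ∧ zer B X ∩ E0 = F,
      IsMat n r B ∧ X ∈ B ∧ y ∈ X ∧ z ∉ X ∧ ex X y z ∉ B ∧ zer B X ∩ E0 = F := by
    intro B hB
    rw [Finset.mem_filter, mem_Mats] at hB
    have h1 : (y, z) ∈ zer B X ∩ E0 := by rw [hB.2.2]; exact he
    have h2 := mem_zer.mp (Finset.mem_inter.mp h1).1
    exact ⟨hB.1, hB.2.1, h2.1, h2.2.1, h2.2.2, hB.2.2⟩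
  refine Finset.card_le_card_of_injOn (fun B => fl r B z y (ex X y z)) ?_ ?_
  · intro B hB
    obtain ⟨h1, h2, h3, h4, h5, h6⟩ := key B hB
    obtain ⟨_, k2, k3, k4⟩ := fill h1 h2 h3 h4 h5
    rw [Finset.mem_coe, Finset.mem_filter, mem_Mats]
    refine ⟨k2, k3, ?_⟩
    rw [k4, Finset.erase_inter, h6]
  · intro B hB B' hB' hBB
    obtain ⟨h1, h2, h3, h4, h5, _⟩ := key B hB
    obtain ⟨h1', h2', _, _, h5', _⟩ := key B' hB'
    exact unflip h1 h1' (fill h1 h2 h3 h4 h5).1 (fill h1' h2' h3 h4 h5').1 hBB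

open Classical in
theorem fill_count {n r : ℕ} (X : Finset (Fin n)) (E0 : Finset (Fin n × Fin n)) :
    2 ^ E0.card * ((Mats n r).filter fun B => X ∈ B ∧ E0 ⊆ zer B X).card ≤ (Mats n r).card := by
  have hmono : ∀ D : Finset (Fin n × Fin n), D ⊆ E0 →
      ((Mats n r).filter fun B => X ∈ B ∧ zer B X ∩ E0 = E0).card ≤
      ((Mats n r).filter fun B => X ∈ B ∧ zer B X ∩ E0 = E0 \ D).card := by
    intro D
    induction D using Finset.induction_on with
    | empty => intro _; rw [Finset.sdiff_empty]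
    | insert d D hd ih =>
      intro hD
      rw [Finset.insert_subset_iff] at hD
      refine (ih hD.2).trans ?_
      have h1 : E0 \ insert d D = (E0 \ D).erase d := by
        ext x
        simp only [Finset.mem_sdiff, Finset.mem_insert, Finset.mem_erase]
        tauto
      rw [h1]
      exact B2_step X E0 (E0 \ D) (Finset.mem_sdiff.mpr ⟨hD.1, hd⟩)
  have hle : ∀ F ∈ E0.powerset,
      ((Mats n r).filter fun B => X ∈ B ∧ E0 ⊆ zer B X).card ≤
      ((Mats n r).filter fun B => X ∈ B ∧ zer B X ∩ E0 = F).card := by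
    intro F hF
    rw [Finset.mem_powerset] at hF
    have h1 := hmono (E0 \ F) Finset.sdiff_subset
    rw [Finset.sdiff_sdiff_eq_self hF] at h1
    refine le_trans (le_of_eq ?_) h1
    congr 1
    ext B
    rw [Finset.mem_filter, Finset.mem_filter, Finset.inter_eq_right]
  have hsum : ∑ F ∈ E0.powerset, ((Mats n r).filter fun B => X ∈ B ∧ zer B X ∩ E0 = F).card ≤
      (Mats n r).card := by
    have h1 : ∀ B ∈ (Mats n r).filter fun B => X ∈ B, zer B X ∩ E0 ∈ E0.powerset := by
      intro B _
      rw [Finset.mem_powerset]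
      exact Finset.inter_subset_right
    have h2 := Finset.card_eq_sum_card_fiberwise h1
    refine le_trans (le_of_eq ?_) (Finset.card_filter_le (Mats n r) (fun B => X ∈ B))
    rw [h2]
    refine Finset.sum_congr rfl fun F _ => ?_
    rw [Finset.filter_filter]
  calc 2 ^ E0.card * ((Mats n r).filter fun B => X ∈ B ∧ E0 ⊆ zer B X).card
      = ∑ _F ∈ E0.powerset, ((Mats n r).filter fun B => X ∈ B ∧ E0 ⊆ zer B X).card := by
        rw [Finset.sum_const, Finset.card_powerset, smul_eq_mul]
    _ ≤ _ := Finset.sum_le_sum hle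
    _ ≤ _ := hsum

end Pool.Agent.H13.VM
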