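import Pool.Agent.H13.VM.B3

/-! MODULE B4 (about 130 lines). Few matroids have few bases.

The number of families `B` of `r`-sets with at most `a = N/n^2` members is `sum_(j <= a) C(N, j) <= (a+1) (e N / a)^a` or simply `<= (2 e n^2)^(a) ...`; any bound of
the form `exp(a (3 log n + 3))` is enough: for instance `C(N, j) <= (e N / j)^j` is increasing in `j <= N`, so `C(N, j) <= (e n^2)^(a)` up to rounding (take `a` real and
use `Nat.choose_le_pow_div`/`(e N / j)^j`; or bound `sum_(j <= a) C(N,j) x^0 <= (1 + x)^N / x^a` with `x = 1/n^2`: `sum_(j<=a) C(N,j) <= n^(2a) (1 + 1/n^2)^N <=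
exp(2 a log n + N/n^2)`: this is the shortest proof). With `a = N/n^2`: `<= exp((N/n^2)(2 log n + 1)) <= 2^(N/(2n))` for large `n`. `mats_lower`: `m >= 2^(N/n)`.
So the number is at most `m 2^(-N/(2n)) <= m 2^(-n)`, since `N/(2n) >= n` (`2^n <= n^3 N`). Here `1 <= r < n` follows from `Cen` for large `n`. -/

open scoped BigOperators
open Filter

namespace Pool.Agent.H13.VM

open Pool.Agent.H28.Johnson

open Classical in
private theorem B4_few_sets {α : Type*} (B : Finset α) (x w : ℝ) (hx0 : 0 < x) (hx1 : x ≤ 1) :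
    ((B.powerset.filter fun W => (W.card : ℝ) ≤ w).card : ℝ) ≤
      Real.exp (x * B.card - w * Real.log x) := by
  have h1 : ∑ W ∈ B.powerset, x ^ W.card = (x + 1) ^ B.card := by
    have := Finset.sum_pow_mul_eq_add_pow x 1 B
    simpa using this
  have h2 : ((B.powerset.filter fun W => (W.card : ℝ) ≤ w).card : ℝ) * Real.exp (w * Real.log x) ≤
      ∑ W ∈ B.powerset, x ^ W.card := by
    rw [← nsmul_eq_mul]
    refine le_trans (Finset.card_nsmul_le_sum _ (fun W => x ^ W.card) _ fun W hW => ?_)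
      (Finset.sum_le_sum_of_subset_of_nonneg (Finset.filter_subset _ _)
        fun _ _ _ => by positivity)
    have hWw := (Finset.mem_filter.mp hW).2
    have e1 : x ^ W.card = Real.exp (W.card * Real.log x) := by
      rw [← Real.log_pow, Real.exp_log (by positivity)]
    rw [e1]
    apply Real.exp_le_exp.mpr
    have hlog : Real.log x ≤ 0 := Real.log_nonpos hx0.le hx1
    nlinarith
  have h3 : (x + 1) ^ B.card ≤ Real.exp (x * B.card) := by
    have h4 : x + 1 ≤ Real.exp x := Real.add_one_le_exp x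
    calc (x + 1) ^ B.card ≤ (Real.exp x) ^ B.card := pow_le_pow_left₀ (by positivity) h4 _
      _ = Real.exp (x * B.card) := by rw [← Real.exp_nat_mul, mul_comm]
  have h4 : ((B.powerset.filter fun W => (W.card : ℝ) ≤ w).card : ℝ) * Real.exp (w * Real.log x) ≤
      Real.exp (x * B.card) := (h2.trans (le_of_eq h1)).trans h3
  have h5 : Real.exp (x * B.card - w * Real.log x) =
      Real.exp (x * B.card) / Real.exp (w * Real.log x) := Real.exp_sub _ _
  rw [h5, le_div_iff₀ (Real.exp_pos _)]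
  exact h4

private theorem B4_log : ∀ᶠ n : ℕ in atTop,
    (1 + 2 * Real.log (n : ℝ)) / (n : ℝ) ≤ Real.log 2 / 2 := by
  have h1 : Tendsto (fun x : ℝ => (1 + 2 * Real.log x) / x) atTop (nhds 0) := by
    have h2 : Tendsto (fun x : ℝ => Real.log x / x) atTop (nhds 0) :=
      Real.isLittleO_log_id_atTop.tendsto_div_nhds_zero
    have h3 : Tendsto (fun x : ℝ => x⁻¹) atTop (nhds 0) := tendsto_inv_atTop_zero
    have h4 := h3.add (h2.const_mul 2)
    rw [mul_zero, add_zero] at h4
    refine h4.congr' ?_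
    filter_upwards [eventually_gt_atTop 0] with x hx
    ring
  exact (h1.comp tendsto_natCast_atTop_atTop).eventually_le_const
    (by have := Real.log_pos (by norm_num : (1 : ℝ) < 2); positivity)

private theorem B4_pow : ∀ᶠ n : ℕ in atTop, 2 * n ^ 5 ≤ 2 ^ n := by
  have h : Tendsto (fun n : ℕ => (n : ℝ) ^ 5 / (2 : ℝ) ^ n) atTop (nhds 0) :=
    tendsto_pow_const_div_const_pow_of_one_lt 5 (by norm_num)
  filter_upwards [h.eventually_le_const (by norm_num : (0 : ℝ) < 1 / 2)] with n hn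
  rw [div_le_iff₀ (by positivity)] at hn
  have : (2 : ℝ) * (n : ℝ) ^ 5 ≤ 2 ^ n := by linarith
  exact_mod_cast this

open Classical in
theorem few_bases : ∀ᶠ n : ℕ in atTop, ∀ r : ℕ, Cen n r →
    (((Mats n r).filter fun B => B.card * n ^ 2 ≤ n.choose r).card : ℝ) ≤
      (2 : ℝ) ^ (-(n : ℝ)) * (Mats n r).card := by
  filter_upwards [B4_log, B4_pow, eventually_ge_atTop 100] with n hlog hpow hn100 r hc
  obtain ⟨hc1, hc2, hc3⟩ := hc
  have hn0 : (0 : ℝ) < n := by
    have : 0 < n := by omega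
    exact_mod_cast this
  have hn1 : (1 : ℝ) ≤ n := by
    have : 1 ≤ n := by omega
    exact_mod_cast this
  have hN : 2 * n ^ 2 ≤ n.choose r := by
    have h1 : n ^ 3 * (2 * n ^ 2) ≤ n ^ 3 * n.choose r := by
      calc n ^ 3 * (2 * n ^ 2) = 2 * n ^ 5 := by ring
        _ ≤ 2 ^ n := hpow
        _ ≤ _ := hc1
    exact Nat.le_of_mul_le_mul_left h1 (by positivity)
  have hN' : 2 * (n : ℝ) ^ 2 ≤ (n.choose r : ℝ) := by exact_mod_cast hN
  set N : ℝ := (n.choose r : ℝ) with hNdef
  have hN0 : 0 ≤ N := Nat.cast_nonneg _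
  have hml := mats_lower (n := n) (r := r) (by omega) (by omega)
  rw [← hNdef] at hml
  -- the count
  have hx0 : 0 < 1 / (n : ℝ) ^ 2 := by positivity
  have hx1 : 1 / (n : ℝ) ^ 2 ≤ 1 := by
    rw [div_le_one (by positivity)]
    exact one_le_pow₀ hn1
  have h3 := B4_few_sets (Base n r) (1 / (n : ℝ) ^ 2) (N / n ^ 2) hx0 hx1
  rw [card_Base, ← hNdef] at h3
  have hsub : (((Mats n r).filter fun B => B.card * n ^ 2 ≤ n.choose r).card : ℝ) ≤
      (((Base n r).powerset.filter fun W => (W.card : ℝ) ≤ N / n ^ 2).card : ℝ) := by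
    have : ((Mats n r).filter fun B => B.card * n ^ 2 ≤ n.choose r).card ≤
        ((Base n r).powerset.filter fun W => (W.card : ℝ) ≤ N / n ^ 2).card := by
      refine Finset.card_le_card fun B hB => ?_
      rw [Finset.mem_filter, mem_Mats] at hB
      rw [Finset.mem_filter, Finset.mem_powerset]
      refine ⟨hB.1.1, ?_⟩
      rw [le_div_iff₀ (by positivity), hNdef]
      exact_mod_cast hB.2
    exact_mod_cast this
  have h4 : 1 / (n : ℝ) ^ 2 * N - N / n ^ 2 * Real.log (1 / (n : ℝ) ^ 2) ≤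
      Real.log 2 * (1 / 2 * (N / n)) := by
    have e1 : Real.log (1 / (n : ℝ) ^ 2) = -(2 * Real.log n) := by
      rw [one_div, Real.log_inv, Real.log_pow]
      norm_num
    rw [e1]
    have e2 : 1 / (n : ℝ) ^ 2 * N - N / n ^ 2 * -(2 * Real.log n) =
        (N / n) * ((1 + 2 * Real.log n) / n) := by
      field_simp
      ring
    rw [e2]
    have e3 := mul_le_mul_of_nonneg_left hlog (show 0 ≤ N / n by positivity)
    linarith
  have h5 : (((Mats n r).filter fun B => B.card * n ^ 2 ≤ n.choose r).card : ℝ) ≤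
      (2 : ℝ) ^ (1 / 2 * (N / n)) := by
    rw [Real.rpow_def_of_pos (by norm_num)]
    exact (hsub.trans h3).trans (Real.exp_le_exp.mpr h4)
  have h6 : 1 / 2 * (N / n) ≤ -(n : ℝ) + N / n := by
    have : (n : ℝ) ≤ 1 / 2 * (N / n) := by
      have e : 1 / 2 * (N / (n : ℝ)) = N / (2 * n) := by
        field_simp
      rw [e, le_div_iff₀ (by positivity)]
      nlinarith
    linarith
  calc (((Mats n r).filter fun B => B.card * n ^ 2 ≤ n.choose r).card : ℝ)
      ≤ (2 : ℝ) ^ (1 / 2 * (N / n)) := h5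
    _ ≤ (2 : ℝ) ^ (-(n : ℝ) + N / n) := Real.rpow_le_rpow_of_exponent_le (by norm_num) h6
    _ = (2 : ℝ) ^ (-(n : ℝ)) * (2 : ℝ) ^ (N / n) := Real.rpow_add (by norm_num) _ _
    _ ≤ (2 : ℝ) ^ (-(n : ℝ)) * (Mats n r).card :=
        mul_le_mul_of_nonneg_left hml (by positivity)

end Pool.Agent.H13.VM
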