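import Pool.Agent.H13.VM.C1

/-! MODULE C2 (about 130 lines). The dual of C1 for a codependent set `S` with `S.erase s` not codependent (`s` in `S`): many bases `X` with `s` in `X` and
`X` disjoint from `S.erase s`; for `z` outside `X`, `z` not in `S`: `ex X s z` is disjoint from `S`, so not a base: `{s} x (complement of X cup S)` is contained in `zer B X`.

Proof (direct, as in C1 with dual exchange `dual_exch`; no duality functor needed): for every base `X0` there is a base `X` disjoint from `S.erase s` with
`X0 \\ (S.erase s)` contained in `X` (take `X` disjoint from `S.erase s` with `(X0 \\ X).card` minimal; if `y` in `X0`, not in `X`, not in `S.erase s`: `dual_exch (X, X0, y)` gives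
`x` in `X`, not in `X0` with `ex X x y` in `B`, disjoint from `S.erase s`, closer). Since `X` meets `S` (codependent), `s` in `X`. Given `X`, `X0` is determined by
`X0 \\ X` (subset of `S.erase s`) and `X \\ X0` (at most `g` elements). `(X cup S)` has at most `r + g` elements. -/

open scoped BigOperators
open Filter

namespace Pool.Agent.H13.VM

open Pool.Agent.H28.Johnson

private theorem c2_step {n r : ℕ} {B : Finset (Finset (Fin n))} (h : IsMat n r B)
    {T X0 : Finset (Fin n)} (hmin : ¬ Codep B T) (hX0 : X0 ∈ B) :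
    ∃ X ∈ B, Disjoint T X ∧ X0 \ T ⊆ X := by
  have h0 : ∃ X ∈ B, Disjoint T X := by
    by_contra hc
    exact hmin fun X hX hd => hc ⟨X, hX, hd⟩
  obtain ⟨X1, hX1, hd1⟩ := h0
  suffices H : ∀ k : ℕ, ∀ X ∈ B, Disjoint T X → (X0 \ X).card = k →
      ∃ X ∈ B, Disjoint T X ∧ X0 \ T ⊆ X from H _ X1 hX1 hd1 rfl
  intro k
  induction k using Nat.strong_induction_on with
  | _ k ih =>
    intro X hX hd hk
    by_cases hsub : X0 \ T ⊆ X
    · exact ⟨X, hX, hd, hsub⟩
    · rw [Finset.not_subset] at hsub
      obtain ⟨y, hy, hyX⟩ := hsub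
      rw [Finset.mem_sdiff] at hy
      obtain ⟨x, hx, hxX0, hB⟩ := dual_exch h hX hX0 hy.1 hyX
      have hsub2 : X0 \ ex X x y ⊆ (X0 \ X).erase y := by
        intro w hw
        rw [Finset.mem_sdiff, mem_ex, not_or, not_and] at hw
        obtain ⟨h1, h2, h3⟩ := hw
        rw [Finset.mem_erase, Finset.mem_sdiff]
        exact ⟨h2, h1, h3 fun h4 => hxX0 (h4 ▸ h1)⟩
      have hlt : (X0 \ ex X x y).card < k := by
        have h2 := Finset.card_le_card hsub2
        have h3 := Finset.card_erase_lt_of_mem (Finset.mem_sdiff.mpr ⟨hy.1, hyX⟩)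
        omega
      refine ih _ hlt _ hB ?_ rfl
      rw [Finset.disjoint_left] at hd ⊢
      intro a ha hax
      rw [mem_ex] at hax
      rcases hax with h1 | ⟨_, h1⟩
      · exact hy.2 (h1 ▸ ha)
      · exact hd ha h1

private theorem c2_small (n g : ℕ) :
    ((Finset.univ : Finset (Finset (Fin n))).filter fun D => D.card ≤ g).card ≤
      ∑ j ∈ Finset.range (g + 1), n.choose j := by
  have h1 : ((Finset.univ : Finset (Finset (Fin n))).filter fun D => D.card ≤ g) ⊆
      (Finset.range (g + 1)).biUnion fun j => (Finset.univ : Finset (Fin n)).powersetCard j := by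
    intro D hD
    rw [Finset.mem_filter] at hD
    rw [Finset.mem_biUnion]
    exact ⟨D.card, Finset.mem_range.mpr (by omega),
      Finset.mem_powersetCard.mpr ⟨Finset.subset_univ _, rfl⟩⟩
  refine (Finset.card_le_card h1).trans (Finset.card_biUnion_le.trans ?_)
  refine Finset.sum_le_sum fun j _ => ?_
  rw [Finset.card_powersetCard, Finset.card_univ, Fintype.card_fin]

open Classical in
theorem seen_codep {n r : ℕ} {B : Finset (Finset (Fin n))} (h : IsMat n r B) {g : ℕ} {S : Finset (Fin n)} (hS : Codep B S)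
    (hc : S.card ≤ g) {s : Fin n} (hs : s ∈ S) (hmin : ¬ Codep B (S.erase s)) :
    B.card ≤ 2 ^ g * (∑ j ∈ Finset.range (g + 1), n.choose j) *
      (B.filter fun X => s ∈ X ∧ ({s} ×ˢ (X ∪ S)ᶜ) ⊆ zer B X ∧ n ≤ (X ∪ S)ᶜ.card + r + g).card := by
  choose! f hfB hfD hfS using fun X0 hX0 => c2_step (X0 := X0) h hmin hX0
  set Q := B.filter fun X => s ∈ X ∧ ({s} ×ˢ (X ∪ S)ᶜ) ⊆ zer B X ∧ n ≤ (X ∪ S)ᶜ.card + r + g
    with hQ
  have hfQ : ∀ X0 ∈ B, f X0 ∈ Q := by
    intro X0 hX0
    have hXB := hfB X0 hX0
    have hd := hfD X0 hX0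
    rw [Finset.disjoint_left] at hd
    have hsX : s ∈ f X0 := by
      by_contra hsX
      refine hS _ hXB ?_
      rw [Finset.disjoint_left]
      intro a ha haX
      by_cases h1 : a = s
      · exact hsX (h1 ▸ haX)
      · exact hd (Finset.mem_erase.mpr ⟨h1, ha⟩) haX
    rw [hQ, Finset.mem_filter]
    refine ⟨hXB, hsX, ?_, ?_⟩
    · rintro ⟨a, z⟩ hp
      rw [Finset.mem_product, Finset.mem_singleton, Finset.mem_compl, Finset.mem_union,
        not_or] at hp
      obtain ⟨rfl, hzX, hzS⟩ := hp
      rw [mem_zer]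
      refine ⟨hsX, hzX, fun hB => hS _ hB ?_⟩
      rw [Finset.disjoint_left]
      intro b hb hbX
      rw [mem_ex] at hbX
      rcases hbX with h1 | ⟨h1, h2⟩
      · exact hzS (h1 ▸ hb)
      · exact hd (Finset.mem_erase.mpr ⟨h1, hb⟩) h2
    · have h1 : (f X0 ∪ S).card ≤ r + g := by
        have h2 := Finset.card_union_le (f X0) S
        have h3 := h.card_eq hXB
        omega
      have h2 := Finset.card_add_card_compl (f X0 ∪ S)
      rw [Fintype.card_fin] at h2
      omega
  have hmain := Finset.card_le_mul_card_image_of_maps_to (f := f) (s := B) (t := Q) hfQ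
    (2 ^ g * ∑ j ∈ Finset.range (g + 1), n.choose j) ?_
  · exact hmain
  · intro X hX
    have hXB : X ∈ B := (Finset.mem_filter.mp hX).1
    have h1 : (B.filter fun X0 => f X0 = X).card ≤
        ((S.erase s).powerset ×ˢ
          ((Finset.univ : Finset (Finset (Fin n))).filter fun D => D.card ≤ g)).card := by
      refine Finset.card_le_card_of_injOn (fun X0 => (X0 \ X, X \ X0)) ?_ ?_
      · intro X0 hX0
        rw [Finset.mem_coe, Finset.mem_filter] at hX0
        obtain ⟨hX0B, hfX⟩ := hX0
        have hsub : X0 \ X ⊆ S.erase s := by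
          intro a ha
          rw [Finset.mem_sdiff] at ha
          by_contra hna
          have := hfS X0 hX0B (Finset.mem_sdiff.mpr ⟨ha.1, hna⟩)
          rw [hfX] at this
          exact ha.2 this
        rw [Finset.mem_coe, Finset.mem_product, Finset.mem_powerset, Finset.mem_filter]
        refine ⟨hsub, Finset.mem_univ _, ?_⟩
        have h2 : (X \ X0).card + (X ∩ X0).card = X.card :=
          Finset.card_sdiff_add_card_inter X X0
        have h3 : (X0 \ X).card + (X0 ∩ X).card = X0.card :=
          Finset.card_sdiff_add_card_inter X0 X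
        rw [Finset.inter_comm X0 X] at h3
        have h4 := h.card_eq hXB
        have h5 := h.card_eq hX0B
        have h6 := Finset.card_le_card hsub
        have h7 := Finset.card_erase_le (s := S) (a := s)
        show (X \ X0).card ≤ g
        omega
      · intro X0 _ X1 _ he
        have he1 : X0 \ X = X1 \ X := (Prod.mk.injEq _ _ _ _ ▸ he).1
        have he2 : X \ X0 = X \ X1 := (Prod.mk.injEq _ _ _ _ ▸ he).2
        ext a
        have ha1 : a ∈ X0 \ X ↔ a ∈ X1 \ X := by rw [he1]
        have ha2 : a ∈ X \ X0 ↔ a ∈ X \ X1 := by rw [he2]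
        rw [Finset.mem_sdiff, Finset.mem_sdiff] at ha1 ha2
        tauto
    refine h1.trans ?_
    rw [Finset.card_product, Finset.card_powerset]
    refine Nat.mul_le_mul ?_ (c2_small n g)
    refine Nat.pow_le_pow_right (by norm_num) ?_
    have := Finset.card_erase_le (s := S) (a := s)
    omega

end Pool.Agent.H13.VM
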