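import Pool.Agent.H13.VM.C1
import Pool.Agent.H13.VM.C2
import Pool.Agent.H13.VM.B2
import Pool.Agent.H13.VM.B4

/-! MODULE C3 (about 200 lines; may be split). GIRTH AND COGIRTH.

Let `g = gg n`, `T = sum_(j<=g) C(n,j) <= (n+1)^g`, `a = 2^g T`. `g log (n+1) <= n^0.99 log(n+1)`, so `a, T <= 2^(0.01 n)` for large `n`.
Let `D1` = matroids in `Mats n r` with more than `N/n^2` bases that have a dependent set with at most `g` elements. Each of them has a minimal one `S` (nonempty because `B` is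
nonempty); `s` in `S`. By `seen_dep` the number of bases `X` with `s` not in `X`, `(X \\ S) x {s}` in `zer B X`, `(X \\ S).card >= r - g` is at least `|B|/a >= N/(n^2 a)`.
Double counting of the triples `(B, X, (S, s))`: for fixed `X, S, s` with `(X \\ S).card >= r - g` the number of `B` is `<= m 2^(-(r-g))` by `fill_count` with
`E0 = (X \\ S) x {s}`. There are `N` sets `X`, at most `T` sets `S`, `n` elements `s`. So `#D1 * N/(n^2 a) <= N T n m 2^(-(r-g))`, `#D1 <= n^3 a T 2^g 2^(-r) m <=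
2^(-0.45 n) m` for large `n` (`r >= 0.49 n`). The same for codependent sets with `seen_codep` (`n - r >= 0.49 n`). Add `few_bases`: total `<= 2^(-0.4 n) m`. -/

open scoped BigOperators
open Filter

namespace Pool.Agent.H13.VM

open Pool.Agent.H28.Johnson

private theorem C3_T_le (n g : ℕ) :
    ∑ j ∈ Finset.range (g + 1), n.choose j ≤ (n + 1) ^ g := by
  rw [add_pow]
  refine Finset.sum_le_sum fun j hj => ?_
  rw [one_pow, mul_one]
  have h1 : n.choose j ≤ n ^ j := Nat.choose_le_pow n j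
  have h2 : 1 ≤ g.choose j := Nat.choose_pos (by have := Finset.mem_range.mp hj; omega)
  calc n.choose j ≤ n ^ j * 1 := by rw [mul_one]; exact h1
    _ ≤ n ^ j * g.choose j := Nat.mul_le_mul_left _ h2

open Classical in
private theorem C3_card_small (n g : ℕ) :
    ((Finset.univ : Finset (Finset (Fin n))).filter fun S => S.card ≤ g).card ≤
      ∑ j ∈ Finset.range (g + 1), n.choose j := by
  have : ((Finset.univ : Finset (Finset (Fin n))).filter fun S => S.card ≤ g) ⊆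
      (Finset.range (g + 1)).biUnion fun j =>
        (Finset.univ : Finset (Fin n)).powersetCard j := by
    intro S hS
    rw [Finset.mem_filter] at hS
    rw [Finset.mem_biUnion]
    exact ⟨S.card, Finset.mem_range.mpr (by omega),
      Finset.mem_powersetCard.mpr ⟨Finset.subset_univ _, rfl⟩⟩
  refine (Finset.card_le_card this).trans (Finset.card_biUnion_le.trans (le_of_eq ?_))
  refine Finset.sum_congr rfl fun j _ => ?_
  rw [Finset.card_powersetCard, Finset.card_univ, Fintype.card_fin]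

open Classical in
/-- the double counting, in abstract form -/
private theorem C3_count {n r g k : ℕ} (P : Finset (Finset (Fin n)) → Prop)
    (E : Finset (Fin n) → Finset (Fin n) → Fin n → Finset (Fin n × Fin n))
    (hP : ∀ B ∈ Mats n r, P B → n.choose r < B.card * n ^ 2 ∧
      ∃ S : Finset (Fin n), S.card ≤ g ∧ ∃ s : Fin n,
        B.card ≤ 2 ^ g * (∑ j ∈ Finset.range (g + 1), n.choose j) *
          (B.filter fun X => E X S s ⊆ zer B X ∧ k ≤ (E X S s).card).card) :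
    ((Mats n r).filter P).card * 2 ^ k ≤
      n ^ 3 * (2 ^ g * (∑ j ∈ Finset.range (g + 1), n.choose j) ^ 2) * (Mats n r).card := by
  set T := ∑ j ∈ Finset.range (g + 1), n.choose j with hT
  set D := (Mats n r).filter P with hD
  set Sm := (Finset.univ : Finset (Finset (Fin n))).filter fun S => S.card ≤ g with hSm
  -- the triples
  set W : Finset ((Finset (Fin n)) × (Finset (Fin n)) × Fin n) :=
    Base n r ×ˢ (Sm ×ˢ Finset.univ) with hW
  have hWc : W.card ≤ n.choose r * (T * n) := by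
    rw [hW, Finset.card_product, Finset.card_product, card_Base, Finset.card_univ,
      Fintype.card_fin]
    exact Nat.mul_le_mul_left _ (Nat.mul_le_mul_right _ (C3_card_small n g))
  -- lower bound
  have hlow : D.card * n.choose r ≤ n ^ 2 * (2 ^ g * T) *
      ∑ B ∈ D, (W.filter fun w => w.1 ∈ B ∧ E w.1 w.2.1 w.2.2 ⊆ zer B w.1 ∧
        k ≤ (E w.1 w.2.1 w.2.2).card).card := by
    rw [Finset.mul_sum, ← smul_eq_mul]
    refine Finset.card_nsmul_le_sum _ _ _ fun B hB => ?_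
    rw [hD, Finset.mem_filter] at hB
    obtain ⟨h1, S, hS, s, h2⟩ := hP B hB.1 hB.2
    have h3 : (B.filter fun X => E X S s ⊆ zer B X ∧ k ≤ (E X S s).card).card ≤
        (W.filter fun w => w.1 ∈ B ∧ E w.1 w.2.1 w.2.2 ⊆ zer B w.1 ∧
          k ≤ (E w.1 w.2.1 w.2.2).card).card := by
      refine Finset.card_le_card_of_injOn (fun X => (X, S, s)) ?_ ?_
      · intro X hX
        rw [Finset.mem_coe, Finset.mem_filter] at hX
        rw [Finset.mem_coe, Finset.mem_filter, hW, Finset.mem_product, Finset.mem_product, hSm,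
          Finset.mem_filter]
        exact ⟨⟨(mem_Mats.mp hB.1).1 hX.1, ⟨Finset.mem_univ _, hS⟩, Finset.mem_univ _⟩, hX.1,
          hX.2.1, hX.2.2⟩
      · intro X _ Y _ h
        exact (Prod.ext_iff.mp h).1
    calc n.choose r ≤ n ^ 2 * B.card := by rw [mul_comm]; exact h1.le
      _ ≤ n ^ 2 * (2 ^ g * T * (B.filter fun X => E X S s ⊆ zer B X ∧
          k ≤ (E X S s).card).card) := Nat.mul_le_mul_left _ h2
      _ ≤ n ^ 2 * (2 ^ g * T * (W.filter fun w => w.1 ∈ B ∧ E w.1 w.2.1 w.2.2 ⊆ zer B w.1 ∧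
          k ≤ (E w.1 w.2.1 w.2.2).card).card) :=
          Nat.mul_le_mul_left _ (Nat.mul_le_mul_left _ h3)
      _ = _ := by ring
  -- upper bound
  have hup : 2 ^ k * ∑ B ∈ D, (W.filter fun w => w.1 ∈ B ∧ E w.1 w.2.1 w.2.2 ⊆ zer B w.1 ∧
      k ≤ (E w.1 w.2.1 w.2.2).card).card ≤ W.card * (Mats n r).card := by
    have e1 : ∑ B ∈ D, (W.filter fun w => w.1 ∈ B ∧ E w.1 w.2.1 w.2.2 ⊆ zer B w.1 ∧
        k ≤ (E w.1 w.2.1 w.2.2).card).card =
        ∑ w ∈ W, (D.filter fun B => w.1 ∈ B ∧ E w.1 w.2.1 w.2.2 ⊆ zer B w.1 ∧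
          k ≤ (E w.1 w.2.1 w.2.2).card).card := by
      simp_rw [Finset.card_filter]
      rw [Finset.sum_comm]
    rw [e1, Finset.mul_sum, ← smul_eq_mul (a := W.card)]
    refine Finset.sum_le_card_nsmul _ _ _ fun w _ => ?_
    by_cases hk : k ≤ (E w.1 w.2.1 w.2.2).card
    · calc 2 ^ k * (D.filter fun B => w.1 ∈ B ∧ E w.1 w.2.1 w.2.2 ⊆ zer B w.1 ∧
            k ≤ (E w.1 w.2.1 w.2.2).card).card
          ≤ 2 ^ (E w.1 w.2.1 w.2.2).card * ((Mats n r).filter fun B => w.1 ∈ B ∧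
            E w.1 w.2.1 w.2.2 ⊆ zer B w.1).card := by
            refine Nat.mul_le_mul (Nat.pow_le_pow_right (by norm_num) hk)
              (Finset.card_le_card fun B hB => ?_)
            rw [hD, Finset.mem_filter, Finset.mem_filter] at hB
            rw [Finset.mem_filter]
            exact ⟨hB.1.1, hB.2.1, hB.2.2.1⟩
        _ ≤ (Mats n r).card := fill_count _ _
    · have : (D.filter fun B => w.1 ∈ B ∧ E w.1 w.2.1 w.2.2 ⊆ zer B w.1 ∧
          k ≤ (E w.1 w.2.1 w.2.2).card) = ∅ := by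
        rw [Finset.filter_eq_empty_iff]
        intro B _ h
        exact hk h.2.2
      rw [this, Finset.card_empty, mul_zero]
      exact Nat.zero_le _
  -- conclusion
  rcases Nat.eq_zero_or_pos (n.choose r) with h0 | hpos
  · -- no `r`-sets, no matroids
    have : D = ∅ := by
      rw [Finset.eq_empty_iff_forall_notMem]
      intro B hB
      rw [hD, Finset.mem_filter, mem_Mats] at hB
      obtain ⟨X, hX⟩ := hB.1.2.1
      have h1 : X ∈ Base n r := hB.1.1 hX
      have h2 : (Base n r).card = 0 := by rw [card_Base]; exact h0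
      rw [Finset.card_eq_zero] at h2
      rw [h2] at h1
      simp at h1
    rw [this, Finset.card_empty, zero_mul]
    exact Nat.zero_le _
  · refine Nat.le_of_mul_le_mul_right ?_ hpos
    set Q := ∑ B ∈ D, (W.filter fun w => w.1 ∈ B ∧ E w.1 w.2.1 w.2.2 ⊆ zer B w.1 ∧
        k ≤ (E w.1 w.2.1 w.2.2).card).card with hQ
    calc D.card * 2 ^ k * n.choose r = 2 ^ k * (D.card * n.choose r) := by ring
      _ ≤ 2 ^ k * (n ^ 2 * (2 ^ g * T) * Q) := Nat.mul_le_mul_left _ hlow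
      _ = n ^ 2 * (2 ^ g * T) * (2 ^ k * Q) := by ring
      _ ≤ n ^ 2 * (2 ^ g * T) * (W.card * (Mats n r).card) := Nat.mul_le_mul_left _ hup
      _ ≤ n ^ 2 * (2 ^ g * T) * (n.choose r * (T * n) * (Mats n r).card) :=
          Nat.mul_le_mul_left _ (Nat.mul_le_mul_right _ hWc)
      _ = _ := by ring

/-- a minimal subset with a property -/
private theorem C3_min {n g : ℕ} (P : Finset (Fin n) → Prop) (h0 : ¬ P ∅)
    (h : ∃ S : Finset (Fin n), P S ∧ S.card ≤ g) :
    ∃ S : Finset (Fin n), P S ∧ S.card ≤ g ∧ ∃ s ∈ S, ¬ P (S.erase s) := by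
  classical
  obtain ⟨S, hS, hSg⟩ := h
  obtain ⟨S', hS', hmin⟩ := Finset.exists_min_image
    ((Finset.univ : Finset (Finset (Fin n))).filter fun S => P S) Finset.card
    ⟨S, Finset.mem_filter.mpr ⟨Finset.mem_univ _, hS⟩⟩
  have hP := (Finset.mem_filter.mp hS').2
  have hle := hmin S (Finset.mem_filter.mpr ⟨Finset.mem_univ _, hS⟩)
  have hne : S'.Nonempty := by
    rw [Finset.nonempty_iff_ne_empty]
    rintro rfl
    exact h0 hP
  obtain ⟨s, hs⟩ := hne
  refine ⟨S', hP, hle.trans hSg, s, hs, fun h => ?_⟩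
  have := hmin _ (Finset.mem_filter.mpr ⟨Finset.mem_univ _, h⟩)
  rw [Finset.card_erase_of_mem hs] at this
  have := Finset.card_pos.mpr ⟨s, hs⟩
  omega

open Classical in
private theorem C3_dep {n r g : ℕ} :
    ((Mats n r).filter fun B => n.choose r < B.card * n ^ 2 ∧
      ∃ S : Finset (Fin n), Dep B S ∧ S.card ≤ g).card * 2 ^ (r - g) ≤
      n ^ 3 * (2 ^ g * (∑ j ∈ Finset.range (g + 1), n.choose j) ^ 2) * (Mats n r).card := by
  have key := C3_count (r := r) (g := g) (k := r - g) (fun B => n.choose r < B.card * n ^ 2 ∧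
    ∃ S : Finset (Fin n), Dep B S ∧ S.card ≤ g) (fun X S s => (X \ S) ×ˢ {s}) ?_
  · convert key
  rintro B hB ⟨h1, h2⟩
  have hM := mem_Mats.mp hB
  refine ⟨h1, ?_⟩
  obtain ⟨S, hS, hSg, s, hs, hmin⟩ := C3_min (Dep B) (by
    intro h
    obtain ⟨X, hX⟩ := hM.2.1
    exact h X hX (Finset.empty_subset _)) h2
  refine ⟨S, hSg, s, (seen_dep hM hS hSg hs hmin).trans (Nat.mul_le_mul_left _ ?_)⟩
  refine Finset.card_le_card fun X hX => ?_
  rw [Finset.mem_filter] at hX ⊢
  refine ⟨hX.1, hX.2.2.1, ?_⟩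
  rw [Finset.card_product, Finset.card_singleton, mul_one]
  have := hX.2.2.2
  omega

open Classical in
private theorem C3_codep {n r g : ℕ} :
    ((Mats n r).filter fun B => n.choose r < B.card * n ^ 2 ∧
      ∃ S : Finset (Fin n), Codep B S ∧ S.card ≤ g).card * 2 ^ (n - r - g) ≤
      n ^ 3 * (2 ^ g * (∑ j ∈ Finset.range (g + 1), n.choose j) ^ 2) * (Mats n r).card := by
  have key := C3_count (r := r) (g := g) (k := n - r - g) (fun B => n.choose r < B.card * n ^ 2 ∧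
    ∃ S : Finset (Fin n), Codep B S ∧ S.card ≤ g) (fun X S s => {s} ×ˢ (X ∪ S)ᶜ) ?_
  · convert key
  rintro B hB ⟨h1, h2⟩
  have hM := mem_Mats.mp hB
  refine ⟨h1, ?_⟩
  obtain ⟨S, hS, hSg, s, hs, hmin⟩ := C3_min (Codep B) (by
    intro h
    obtain ⟨X, hX⟩ := hM.2.1
    exact h X hX (Finset.disjoint_empty_left _)) h2
  refine ⟨S, hSg, s, (seen_codep hM hS hSg hs hmin).trans (Nat.mul_le_mul_left _ ?_)⟩
  refine Finset.card_le_card fun X hX => ?_
  rw [Finset.mem_filter] at hX ⊢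
  refine ⟨hX.1, hX.2.2.1, ?_⟩
  rw [Finset.card_product, Finset.card_singleton, one_mul]
  have := hX.2.2.2
  omega

/-- `g log (n+1)` is small -/
private theorem C3_num : ∀ᶠ n : ℕ in atTop,
    ((n : ℝ) ^ 3 * (2 ^ (gg n) * ((n : ℝ) + 1) ^ (2 * gg n))) * 2 ^ (gg n) ≤
      (2 : ℝ) ^ ((0.05 : ℝ) * n) := by
  have hlog2 := Real.log_pos (by norm_num : (1 : ℝ) < 2)
  -- `log (n + 1) n^0.99 / n -> 0`
  have h1 : Tendsto (fun x : ℝ => Real.log x / x ^ (0.01 : ℝ)) atTop (nhds 0) :=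
    (isLittleO_log_rpow_atTop (by norm_num : (0 : ℝ) < 0.01)).tendsto_div_nhds_zero
  have h2 : ∀ᶠ n : ℕ in atTop, Real.log (n : ℝ) / (n : ℝ) ^ (0.01 : ℝ) ≤
      0.05 * Real.log 2 / 11 :=
    (h1.comp tendsto_natCast_atTop_atTop).eventually_le_const (by positivity)
  filter_upwards [h2, eventually_ge_atTop 3] with n hn hn3
  have hn0 : (0 : ℝ) < n := by
    have : 0 < n := by omega
    exact_mod_cast this
  have hn3' : (3 : ℝ) ≤ n := by exact_mod_cast hn3
  set L := Real.log (n : ℝ) with hL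
  have hL1 : 1 ≤ L := by
    rw [hL, Real.le_log_iff_exp_le hn0]
    exact (Real.exp_one_lt_d9.le.trans (by norm_num)).trans hn3'
  have hp : (1 : ℝ) ≤ (n : ℝ) ^ (0.99 : ℝ) := Real.one_le_rpow (by linarith) (by norm_num)
  have hg : (gg n : ℝ) ≤ (n : ℝ) ^ (0.99 : ℝ) := Nat.floor_le (by positivity)
  have hL2 : Real.log ((n : ℝ) + 1) ≤ 2 * L := by
    rw [hL, ← Real.log_rpow hn0]
    apply Real.log_le_log (by positivity)
    norm_num
    nlinarith
  have hlog2' : Real.log 2 ≤ 1 := by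
    have := Real.log_two_lt_d9
    linarith
  rw [← Real.log_le_log_iff (by positivity) (by positivity)]
  have e1 : Real.log (((n : ℝ) ^ 3 * (2 ^ (gg n) * ((n : ℝ) + 1) ^ (2 * gg n))) * 2 ^ (gg n)) =
      3 * L + 2 * gg n * Real.log 2 + 2 * gg n * Real.log ((n : ℝ) + 1) := by
    rw [Real.log_mul (by positivity) (by positivity), Real.log_mul (by positivity) (by positivity),
      Real.log_mul (by positivity) (by positivity), Real.log_pow, Real.log_pow, Real.log_pow,
      ← hL]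
    push_cast
    ring
  have e2 : Real.log ((2 : ℝ) ^ ((0.05 : ℝ) * n)) = 0.05 * n * Real.log 2 :=
    Real.log_rpow (by norm_num) _
  rw [e1, e2]
  set p := (n : ℝ) ^ (0.99 : ℝ) with hpdef
  have h3 : 3 * L ≤ 3 * (p * L) := by nlinarith
  have h4 : 2 * (gg n : ℝ) * Real.log 2 ≤ 2 * (p * L) := by
    have : (gg n : ℝ) * Real.log 2 ≤ p * L :=
      mul_le_mul hg (hlog2'.trans hL1) hlog2.le (by positivity)
    linarith
  have h5 : 2 * (gg n : ℝ) * Real.log ((n : ℝ) + 1) ≤ 4 * (p * L) := by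
    have : (gg n : ℝ) * Real.log ((n : ℝ) + 1) ≤ p * (2 * L) :=
      mul_le_mul hg hL2 (Real.log_nonneg (by linarith)) (by positivity)
    linarith
  have h6 : 11 * (p * L) ≤ 0.05 * n * Real.log 2 := by
    have hq : (0 : ℝ) < (n : ℝ) ^ (0.01 : ℝ) := by positivity
    rw [div_le_iff₀ hq] at hn
    have h7 : p * (n : ℝ) ^ (0.01 : ℝ) = n := by
      rw [hpdef, ← Real.rpow_add hn0]
      norm_num
    have h8 := mul_le_mul_of_nonneg_left hn (show 0 ≤ 11 * p by positivity)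
    calc 11 * (p * L) = 11 * p * L := by ring
      _ ≤ 11 * p * (0.05 * Real.log 2 / 11 * (n : ℝ) ^ (0.01 : ℝ)) := h8
      _ = 0.05 * Real.log 2 * (p * (n : ℝ) ^ (0.01 : ℝ)) := by ring
      _ = 0.05 * n * Real.log 2 := by rw [h7]; ring
  have h9 : 0 ≤ p * L := by positivity
  linarith

open Classical in
theorem girth : ∀ᶠ n : ℕ in atTop, ∀ r : ℕ, Cen n r →
    (((Mats n r).filter fun B => ¬ GG (gg n) B).card : ℝ) ≤
      (2 : ℝ) ^ (-(0.4 : ℝ) * n) * (Mats n r).card := by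
  filter_upwards [few_bases, C3_num, eventually_ge_atTop 200] with n hfb hnum hn r hc
  have hfb := hfb r hc
  obtain ⟨hc1, hc2, hc3⟩ := hc
  set g := gg n with hg
  set T := ∑ j ∈ Finset.range (g + 1), n.choose j with hT
  set m : ℝ := ((Mats n r).card : ℝ) with hm
  have hm0 : 0 ≤ m := Nat.cast_nonneg _
  have hn' : (200 : ℝ) ≤ n := by exact_mod_cast hn
  have h49 : 49 * (n : ℝ) ≤ 100 * r := by exact_mod_cast hc2
  have h51 : 100 * (r : ℝ) ≤ 51 * n := by exact_mod_cast hc3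
  -- the general bound
  have key : ∀ (c k : ℕ), c * 2 ^ (k - g) ≤
      n ^ 3 * (2 ^ g * T ^ 2) * (Mats n r).card → 49 * n ≤ 100 * k →
      (c : ℝ) ≤ (2 : ℝ) ^ (-(0.44 : ℝ) * n) * m := by
    intro c k h hk
    have hk' : 49 * (n : ℝ) ≤ 100 * k := by exact_mod_cast hk
    have h1 : c * 2 ^ k ≤ n ^ 3 * (2 ^ g * T ^ 2) * (Mats n r).card * 2 ^ g := by
      calc c * 2 ^ k ≤ c * (2 ^ (k - g) * 2 ^ g) := by
            rw [← pow_add]
            exact Nat.mul_le_mul_left _ (Nat.pow_le_pow_right (by norm_num) (by omega))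
        _ = c * 2 ^ (k - g) * 2 ^ g := by ring
        _ ≤ _ := Nat.mul_le_mul_right _ h
    have h2 : (c : ℝ) * 2 ^ k ≤ (n : ℝ) ^ 3 * (2 ^ g * (T : ℝ) ^ 2) * m * 2 ^ g := by
      rw [hm]
      exact_mod_cast h1
    have hT2 : (T : ℝ) ≤ ((n : ℝ) + 1) ^ g := by
      exact_mod_cast C3_T_le n g
    have h3 : (T : ℝ) ^ 2 ≤ ((n : ℝ) + 1) ^ (2 * g) := by
      rw [mul_comm 2 g, pow_mul]
      exact pow_le_pow_left₀ (Nat.cast_nonneg _) hT2 2
    have h4 : (c : ℝ) * 2 ^ k ≤ (2 : ℝ) ^ ((0.05 : ℝ) * n) * m := by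
      calc (c : ℝ) * 2 ^ k ≤ (n : ℝ) ^ 3 * (2 ^ g * (T : ℝ) ^ 2) * m * 2 ^ g := h2
        _ ≤ (n : ℝ) ^ 3 * (2 ^ g * ((n : ℝ) + 1) ^ (2 * g)) * m * 2 ^ g := by gcongr
        _ = ((n : ℝ) ^ 3 * (2 ^ g * ((n : ℝ) + 1) ^ (2 * g))) * 2 ^ g * m := by ring
        _ ≤ _ := mul_le_mul_of_nonneg_right hnum hm0
    have h5 : (2 : ℝ) ^ ((0.49 : ℝ) * n) ≤ (2 : ℝ) ^ k := by
      rw [← Real.rpow_natCast]
      apply Real.rpow_le_rpow_of_exponent_le (by norm_num)
      linarith
    have h6 : (c : ℝ) * (2 : ℝ) ^ ((0.49 : ℝ) * n) ≤ (2 : ℝ) ^ ((0.05 : ℝ) * n) * m :=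
      (mul_le_mul_of_nonneg_left h5 (Nat.cast_nonneg _)).trans h4
    have h7 : (2 : ℝ) ^ ((0.05 : ℝ) * n) =
        (2 : ℝ) ^ (-(0.44 : ℝ) * n) * (2 : ℝ) ^ ((0.49 : ℝ) * n) := by
      rw [← Real.rpow_add (by norm_num)]
      congr 1
      ring
    rw [h7] at h6
    have h8 : (c : ℝ) * (2 : ℝ) ^ ((0.49 : ℝ) * n) ≤
        (2 : ℝ) ^ (-(0.44 : ℝ) * n) * m * (2 : ℝ) ^ ((0.49 : ℝ) * n) := by
      calc _ ≤ _ := h6
        _ = _ := by ring
    exact le_of_mul_le_mul_right h8 (by positivity)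
  have hd := key _ r (C3_dep (n := n) (r := r) (g := g)) hc2
  have hcd := key _ (n - r) (C3_codep (n := n) (r := r) (g := g)) (by omega)
  have hcov : (Mats n r).filter (fun B => ¬ GG g B) ⊆
      ((Mats n r).filter fun B => B.card * n ^ 2 ≤ n.choose r) ∪
      (((Mats n r).filter fun B => n.choose r < B.card * n ^ 2 ∧
        ∃ S : Finset (Fin n), Dep B S ∧ S.card ≤ g) ∪
      ((Mats n r).filter fun B => n.choose r < B.card * n ^ 2 ∧
        ∃ S : Finset (Fin n), Codep B S ∧ S.card ≤ g)) := by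
    intro B hB
    rw [Finset.mem_filter] at hB
    rw [Finset.mem_union, Finset.mem_union, Finset.mem_filter, Finset.mem_filter,
      Finset.mem_filter]
    by_cases h1 : B.card * n ^ 2 ≤ n.choose r
    · exact Or.inl ⟨hB.1, h1⟩
    · right
      push Not at h1
      have h2 := hB.2
      rw [GG, not_and_or] at h2
      push Not at h2
      rcases h2 with h2 | h2
      · exact Or.inl ⟨hB.1, h1, h2⟩
      · exact Or.inr ⟨hB.1, h1, h2⟩
  have hcard := (Finset.card_le_card hcov).trans ((Finset.card_union_le _ _).trans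
    (Nat.add_le_add_left (Finset.card_union_le _ _) _))
  have hcard' : (((Mats n r).filter fun B => ¬ GG g B).card : ℝ) ≤
      (((Mats n r).filter fun B => B.card * n ^ 2 ≤ n.choose r).card : ℝ) +
      ((((Mats n r).filter fun B => n.choose r < B.card * n ^ 2 ∧
        ∃ S : Finset (Fin n), Dep B S ∧ S.card ≤ g).card : ℝ) +
      (((Mats n r).filter fun B => n.choose r < B.card * n ^ 2 ∧
        ∃ S : Finset (Fin n), Codep B S ∧ S.card ≤ g).card : ℝ)) := by
    exact_mod_cast hcard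
  have h1 : (2 : ℝ) ^ (-(n : ℝ)) ≤ (2 : ℝ) ^ (-(0.44 : ℝ) * n) :=
    Real.rpow_le_rpow_of_exponent_le (by norm_num) (by linarith)
  have h2 := mul_le_mul_of_nonneg_right h1 hm0
  have h3 : 3 * (2 : ℝ) ^ (-(0.44 : ℝ) * n) ≤ (2 : ℝ) ^ (-(0.4 : ℝ) * n) := by
    have e1 : (2 : ℝ) ^ (-(0.4 : ℝ) * n) =
        (2 : ℝ) ^ ((0.04 : ℝ) * n) * (2 : ℝ) ^ (-(0.44 : ℝ) * n) := by
      rw [← Real.rpow_add (by norm_num)]
      congr 1
      ring
    rw [e1]
    apply mul_le_mul_of_nonneg_right _ (by positivity)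
    have e2 : (2 : ℝ) ^ (2 : ℝ) ≤ (2 : ℝ) ^ ((0.04 : ℝ) * n) :=
      Real.rpow_le_rpow_of_exponent_le (by norm_num) (by linarith)
    have e3 : (2 : ℝ) ^ (2 : ℝ) = 4 := by norm_num
    linarith
  have h4 := mul_le_mul_of_nonneg_right h3 hm0
  linarith

end Pool.Agent.H13.VM
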