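import Pool.Agent.H13.VM.D7c

/-! MODULE D7 (about 80 lines). THEOREM D. `s0 n r = N 2^(-n^0.05)`, `N = n.choose r`. `|hvy r B| <= N` (`hvy` is contained in `NB r B`, in `Base n r`). Sum `heavy_s` over the natural numbers `s` with `s0 n r <= s <= N`: at most
`(N + 1) 2^(-0.3 s0/n) m`. `N <= 2^n` and `s0/n >= 2^n n^(-4) 2^(-n^0.05)` (`Cen`), so `(N+1) 2^(-0.3 s0/n) <= 2^(n + 1 - 0.3 * 2^n n^(-4) 2^(-n^0.05)) <= 2^(-n)` for large `n`. -/

open scoped BigOperators
open Filter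

namespace Pool.Agent.H13.VM

open Pool.Agent.H28.Johnson

/-- large `n`: `2^(n/2)` beats every polynomial -/
private lemma D7_E1 : ∀ᶠ n : ℕ in atTop, (3 * (n : ℝ)) * (n : ℝ) ^ 4 ≤
    0.3 * (2 : ℝ) ^ ((n : ℝ) / 2) := by
  have hl2 : 0 < Real.log 2 := Real.log_pos (by norm_num)
  have h := (tendsto_rpow_mul_exp_neg_mul_atTop_nhds_zero 5 (Real.log 2 / 2)
    (by positivity)).comp tendsto_natCast_atTop_atTop
  have h2 := h.eventually_le_const (show (0 : ℝ) < 0.1 by norm_num)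
  filter_upwards [h2] with n hn
  simp only [Function.comp_apply] at hn
  have e1 : (n : ℝ) ^ (5 : ℝ) = (n : ℝ) ^ 5 := by
    exact_mod_cast Real.rpow_natCast (n : ℝ) 5
  rw [e1] at hn
  have e2 : Real.exp (-(Real.log 2 / 2) * (n : ℝ)) * (2 : ℝ) ^ ((n : ℝ) / 2) = 1 := by
    rw [Real.rpow_def_of_pos (by norm_num), ← Real.exp_add]
    rw [show -(Real.log 2 / 2) * (n : ℝ) + Real.log 2 * ((n : ℝ) / 2) = 0 by ring, Real.exp_zero]
  have h0 : (0 : ℝ) < (2 : ℝ) ^ ((n : ℝ) / 2) := by positivity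
  calc (3 * (n : ℝ)) * (n : ℝ) ^ 4
      = 3 * ((n : ℝ) ^ 5 * (Real.exp (-(Real.log 2 / 2) * (n : ℝ)) *
        (2 : ℝ) ^ ((n : ℝ) / 2))) := by rw [e2]; ring
    _ = 3 * ((n : ℝ) ^ 5 * Real.exp (-(Real.log 2 / 2) * (n : ℝ))) *
        (2 : ℝ) ^ ((n : ℝ) / 2) := by ring
    _ ≤ 3 * 0.1 * (2 : ℝ) ^ ((n : ℝ) / 2) := by gcongr
    _ = 0.3 * (2 : ℝ) ^ ((n : ℝ) / 2) := by norm_num

/-- large `n`: `n^0.05 <= n/2` -/
private lemma D7_E2 : ∀ᶠ n : ℕ in atTop, (n : ℝ) ^ (0.05 : ℝ) ≤ (n : ℝ) / 2 := by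
  have h := (tendsto_rpow_atTop (by norm_num : (0 : ℝ) < 0.95)).comp tendsto_natCast_atTop_atTop
  filter_upwards [h.eventually_ge_atTop (2 : ℝ), eventually_ge_atTop 1] with n hn hn1
  simp only [Function.comp_apply] at hn
  have hn0 : (0 : ℝ) < n := by exact_mod_cast hn1
  have e : (n : ℝ) ^ (0.05 : ℝ) * (n : ℝ) ^ (0.95 : ℝ) = n := by
    rw [← Real.rpow_add hn0]
    norm_num
  have h5 : (0 : ℝ) ≤ (n : ℝ) ^ (0.05 : ℝ) := by positivity
  nlinarith

open Classical in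
theorem heavy_small : ∀ᶠ n : ℕ in atTop, ∀ r : ℕ, Cen n r →
    (((Mats n r).filter fun B => GG (gg n) B ∧ s0 n r ≤ (hvy r B).card).card : ℝ) ≤
      (2 : ℝ) ^ (-(n : ℝ)) * (Mats n r).card := by
  filter_upwards [heavy_s, D7_E1, D7_E2, eventually_ge_atTop 3] with n hH h1 h2 hn3
  intro r hc
  have hn1 : 1 ≤ n := by omega
  have hn0 : (0 : ℝ) < n := by exact_mod_cast hn1
  have hn3' : (3 : ℝ) ≤ n := by exact_mod_cast hn3
  set N := n.choose r with hN
  set S := (Finset.range (N + 1)).filter fun s : ℕ => s0 n r ≤ s with hS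
  have hcov : ((Mats n r).filter fun B => GG (gg n) B ∧ s0 n r ≤ (hvy r B).card) ⊆
      S.biUnion fun s => (Mats n r).filter fun B => GG (gg n) B ∧ (hvy r B).card = s := by
    intro B hB
    rw [Finset.mem_filter] at hB
    rw [Finset.mem_biUnion]
    refine ⟨(hvy r B).card, ?_, ?_⟩
    · rw [hS, Finset.mem_filter, Finset.mem_range]
      refine ⟨?_, hB.2.2⟩
      have hle : (hvy r B).card ≤ (Base n r).card := by
        apply Finset.card_le_card
        intro X hX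
        have hX' : X ∈ NB r B := by
          rw [hvy, Finset.mem_filter] at hX
          exact hX.1
        rw [mem_NB] at hX'
        exact mem_Base.mpr hX'.1
      have hb : (Base n r).card = N := by
        first
          | exact card_Base
          | (rw [hN]; simp [Base])
      omega
    · rw [Finset.mem_filter]
      exact ⟨hB.1, hB.2.1, rfl⟩
  have hs0 : (0 : ℝ) ≤ s0 n r := by unfold s0; positivity
  have hm0 : (0 : ℝ) ≤ (Mats n r).card := Nat.cast_nonneg _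
  have hsum : (((Mats n r).filter fun B => GG (gg n) B ∧ s0 n r ≤ (hvy r B).card).card : ℝ) ≤
      ∑ s ∈ S, (2 : ℝ) ^ (-(0.3 : ℝ) * s0 n r / n) * (Mats n r).card := by
    calc (((Mats n r).filter fun B => GG (gg n) B ∧ s0 n r ≤ (hvy r B).card).card : ℝ)
        ≤ ((S.biUnion fun s => (Mats n r).filter fun B =>
            GG (gg n) B ∧ (hvy r B).card = s).card : ℝ) := by
          exact_mod_cast Finset.card_le_card hcov
      _ ≤ ((∑ s ∈ S, ((Mats n r).filter fun B =>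
            GG (gg n) B ∧ (hvy r B).card = s).card : ℕ) : ℝ) := by
          exact_mod_cast Finset.card_biUnion_le
      _ = ∑ s ∈ S, (((Mats n r).filter fun B =>
            GG (gg n) B ∧ (hvy r B).card = s).card : ℝ) := by push_cast; rfl
      _ ≤ ∑ s ∈ S, (2 : ℝ) ^ (-(0.3 : ℝ) * s0 n r / n) * (Mats n r).card := by
          apply Finset.sum_le_sum
          intro s hs
          rw [hS, Finset.mem_filter] at hs
          refine (hH r hc s hs.2).trans ?_
          apply mul_le_mul_of_nonneg_right _ hm0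
          apply Real.rpow_le_rpow_of_exponent_le (by norm_num)
          have := hs.2
          rw [div_le_div_iff_of_pos_right hn0]
          nlinarith
  rw [Finset.sum_const, nsmul_eq_mul] at hsum
  have hScard : (S.card : ℝ) ≤ (2 : ℝ) ^ ((n : ℝ) + 1) := by
    have h3 : S.card ≤ N + 1 := by
      calc S.card ≤ (Finset.range (N + 1)).card := Finset.card_filter_le _ _
        _ = N + 1 := Finset.card_range _
    have h4 : N ≤ 2 ^ n := Nat.choose_le_two_pow n r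
    have h5 : 1 ≤ 2 ^ n := Nat.one_le_two_pow
    have h6 : S.card ≤ 2 ^ (n + 1) := by rw [pow_succ]; omega
    calc (S.card : ℝ) ≤ ((2 ^ (n + 1) : ℕ) : ℝ) := by exact_mod_cast h6
      _ = (2 : ℝ) ^ ((n : ℝ) + 1) := by
        rw [Nat.cast_pow, ← Real.rpow_natCast]
        push_cast
        rfl
  have hexp : 2 * (n : ℝ) + 1 ≤ 0.3 * s0 n r / n := by
    have q1 := D7c_s0 hn1 hc
    have q2 : (2 : ℝ) ^ ((n : ℝ) / 2) ≤ (2 : ℝ) ^ n * (2 : ℝ) ^ (-((n : ℝ) ^ (0.05 : ℝ))) := by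
      rw [← Real.rpow_natCast (2 : ℝ) n, ← Real.rpow_add (by norm_num)]
      apply Real.rpow_le_rpow_of_exponent_le (by norm_num)
      linarith
    have hn4 : (0 : ℝ) < (n : ℝ) ^ 4 := by positivity
    have q3 : (3 * (n : ℝ)) * (n : ℝ) ^ 4 ≤ (0.3 * s0 n r / n) * (n : ℝ) ^ 4 := by
      calc (3 * (n : ℝ)) * (n : ℝ) ^ 4 ≤ 0.3 * (2 : ℝ) ^ ((n : ℝ) / 2) := h1
        _ ≤ 0.3 * (s0 n r * (n : ℝ) ^ 3) := by
          have := q2.trans q1
          linarith
        _ = (0.3 * s0 n r / n) * (n : ℝ) ^ 4 := by field_simp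
    have q4 := le_of_mul_le_mul_right q3 hn4
    linarith
  refine hsum.trans ?_
  rw [← mul_assoc]
  apply mul_le_mul_of_nonneg_right _ hm0
  calc (S.card : ℝ) * (2 : ℝ) ^ (-(0.3 : ℝ) * s0 n r / n)
      ≤ (2 : ℝ) ^ ((n : ℝ) + 1) * (2 : ℝ) ^ (-(0.3 : ℝ) * s0 n r / n) := by gcongr
    _ = (2 : ℝ) ^ ((n : ℝ) + 1 + -(0.3 : ℝ) * s0 n r / n) := by
        rw [← Real.rpow_add (by norm_num : (0 : ℝ) < 2)]
    _ ≤ (2 : ℝ) ^ (-(n : ℝ)) := by
        apply Real.rpow_le_rpow_of_exponent_le (by norm_num)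
        have : -(0.3 : ℝ) * s0 n r / n = -(0.3 * s0 n r / n) := by ring
        rw [this]
        linarith

end Pool.Agent.H13.VM
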