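import Pool.Agent.H13.VM.Bas

/-! MODULE A5 (about 70 lines). Available bases can be made nonbases.

`del_one`: exchange for `X, Y` in `B.erase S`, `x` in `X`, not in `Y`: exchange in `B` gives `y` in `Y`, not in `X`, with `ex X x y` in `B`. If it
is not `S`, done. If `ex X x y = S`: `Y \ X` has another element `y'` (otherwise `(Y \ X).card = 1 = (X \ Y).card`, `X \ Y = {x}` and `Y = ex X x y = S`,
but `Y` is in `B.erase S`); `ex X x y'` is adjacent to `S = ex X x y` (both are `I + .` with `I = X.erase x`), so it is in `B`, and it is not `S`. Nonempty: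
`S` has a neighbour (`1 <= r < n`), which is in `B` and is not `S`.
`del_stable`: induction over `J`; the members of `J` are pairwise nonadjacent, so after deleting some of them the others are still
available (their neighbours are not in `J`). -/

open scoped BigOperators
open Filter

namespace Pool.Agent.H13.VM

open Pool.Agent.H28.Johnson

theorem del_one {n r : ℕ} {B : Finset (Finset (Fin n))} (h : IsMat n r B) (hr : 1 ≤ r) (hrn : r < n) {S : Finset (Fin n)}
    (hS : S ∈ B) (hav : ∀ X ∈ Base n r, adj r S X → X ∈ B) : IsMat n r (B.erase S) := by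
  have hSr := h.card_eq hS
  refine ⟨(Finset.erase_subset _ _).trans h.1, ?_, ?_⟩
  · obtain ⟨y, hy⟩ := Finset.card_pos.mp (show 0 < S.card by omega)
    obtain ⟨z, hz⟩ : ∃ z, z ∉ S := by
      by_contra hall
      push Not at hall
      have h1 : S = Finset.univ := Finset.eq_univ_iff_forall.mpr hall
      rw [h1, Finset.card_univ, Fintype.card_fin] at hSr
      omega
    have h1 := adj_ex hSr hy hz
    refine ⟨ex S y z, Finset.mem_erase.mpr ⟨h1.1.symm, hav _ ?_ h1⟩⟩
    rw [mem_Base, ex_card hy hz, hSr]
  · intro X hX Y hY x hx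
    rw [Finset.mem_erase] at hX hY
    rw [Finset.mem_sdiff] at hx
    have hXr := h.card_eq hX.2
    have hYr := h.card_eq hY.2
    obtain ⟨y, hy, hyX, hB⟩ := h.exch hX.2 hY.2 hx.1 hx.2
    by_cases h1 : ex X x y = S
    · by_cases h2 : ∃ y' ∈ Y, y' ∉ X ∧ y' ≠ y
      · obtain ⟨y', hy', hyX', hne⟩ := h2
        have hI : (X.erase x).card + 1 = r := by
          rw [Finset.card_erase_of_mem hx.1]
          omega
        have h3 : adj r S (ex X x y') := by
          rw [← h1]
          exact adj_insert_insert hI (fun h4 => hyX (Finset.mem_of_mem_erase h4))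
            (fun h4 => hyX' (Finset.mem_of_mem_erase h4)) hne.symm
        refine ⟨y', Finset.mem_sdiff.mpr ⟨hy', hyX'⟩, ?_⟩
        change ex X x y' ∈ B.erase S
        rw [Finset.mem_erase]
        refine ⟨h3.1.symm, hav _ ?_ h3⟩
        rw [mem_Base, ex_card hx.1 hyX', hXr]
      · exfalso
        push Not at h2
        have hYX : Y \ X = {y} := by
          ext w
          rw [Finset.mem_sdiff, Finset.mem_singleton]
          constructor
          · rintro ⟨h2', h3⟩
            exact h2 w h2' h3
          · rintro rfl
            exact ⟨hy, hyX⟩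
        have h3 : (X \ Y).card + (X ∩ Y).card = X.card := Finset.card_sdiff_add_card_inter X Y
        have h4 : (Y \ X).card + (Y ∩ X).card = Y.card := Finset.card_sdiff_add_card_inter Y X
        rw [Finset.inter_comm Y X, hYX, Finset.card_singleton] at h4
        obtain ⟨x', hx'⟩ := Finset.card_eq_one.mp (show (X \ Y).card = 1 by omega)
        have h5 : x ∈ X \ Y := Finset.mem_sdiff.mpr hx
        rw [hx', Finset.mem_singleton] at h5
        have h6 : ex X x y = Y := by
          apply Finset.eq_of_subset_of_card_le
          · intro w hw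
            rw [mem_ex] at hw
            rcases hw with rfl | ⟨h7, h8⟩
            · exact hy
            · by_contra h9
              have : w ∈ X \ Y := Finset.mem_sdiff.mpr ⟨h8, h9⟩
              rw [hx', ← h5] at this
              exact h7 (Finset.mem_singleton.mp this)
          · rw [ex_card hx.1 hyX]
            omega
        exact hY.1 (h6.symm.trans h1)
    · exact ⟨y, Finset.mem_sdiff.mpr ⟨hy, hyX⟩, Finset.mem_erase.mpr ⟨h1, hB⟩⟩

theorem del_stable {n r : ℕ} {B : Finset (Finset (Fin n))} (h : IsMat n r B) (hr : 1 ≤ r) (hrn : r < n)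
    {J : Finset (Finset (Fin n))} (hJ : J ⊆ B) (hst : ∀ a ∈ J, ∀ b ∈ J, ¬ adj r a b)
    (hav : ∀ S ∈ J, ∀ X ∈ Base n r, adj r S X → X ∈ B) : IsMat n r (B \ J) := by
  induction J using Finset.induction_on with
  | empty => rw [Finset.sdiff_empty]; exact h
  | insert S J' hS ih =>
    have h1 := ih (fun a ha => hJ (Finset.mem_insert_of_mem ha))
      (fun a ha b hb => hst a (Finset.mem_insert_of_mem ha) b (Finset.mem_insert_of_mem hb))
      (fun a ha => hav a (Finset.mem_insert_of_mem ha))
    rw [Finset.sdiff_insert]
    refine del_one h1 hr hrn (Finset.mem_sdiff.mpr ⟨hJ (Finset.mem_insert_self _ _), hS⟩) ?_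
    intro X hX hadj
    rw [Finset.mem_sdiff]
    exact ⟨hav S (Finset.mem_insert_self _ _) X hX hadj, fun h2 =>
      hst S (Finset.mem_insert_self _ _) X (Finset.mem_insert_of_mem h2) hadj⟩

end Pool.Agent.H13.VM
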