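import Pool.Agent.H13.VM.Bas

/-! MODULE A1 (about 50 lines). Dual exchange. If `X, Y` are bases and `y` is in `Y`, not in `X`, then some `x` in
`X`, not in `Y`, has `X - x + y` in `B`.

Proof. Induction on `(X \ Y).card` (equal to `(Y \ X).card`, it is positive). If it is `1` then `X \ Y = {x}`,
`Y \ X = {y}` and `Y = X - x + y`. Otherwise take `y' <> y` in `Y \ X`; exchange (`IsMat.exch`) for `(Y, X, y')` gives
`x'` in `X`, not in `Y`, with `Y' = Y - y' + x'` in `B`; `y` is in `Y'`, `X \ Y' = (X \ Y) \ {x'}` is smaller; by induction some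
`x` in `X \ Y'` (so in `X \ Y`) works. -/

open scoped BigOperators
open Filter

namespace Pool.Agent.H13.VM

open Pool.Agent.H28.Johnson

private theorem base_card {n r : ℕ} {B : Finset (Finset (Fin n))} (h : IsMat n r B)
    {X : Finset (Fin n)} (hX : X ∈ B) : X.card = r := by
  have := h.1 hX
  simpa [Base] using this

theorem dual_exch {n r : ℕ} {B : Finset (Finset (Fin n))} (h : IsMat n r B) {X Y : Finset (Fin n)}
    (hX : X ∈ B) (hY : Y ∈ B) {y : Fin n} (hy : y ∈ Y) (hyX : y ∉ X) :
    ∃ x ∈ X, x ∉ Y ∧ ex X x y ∈ B := by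
  suffices H : ∀ k : ℕ, ∀ Y ∈ B, y ∈ Y → (X \ Y).card = k → ∃ x ∈ X, x ∉ Y ∧ ex X x y ∈ B from
    H _ Y hY hy rfl
  intro k
  induction k using Nat.strong_induction_on with
  | _ k ih =>
    intro Y hY hy hk
    by_cases h1 : ∃ y' ∈ Y, y' ∉ X ∧ y' ≠ y
    · obtain ⟨y', hy', hyX', hne⟩ := h1
      obtain ⟨x', hx', hxY', hB⟩ := h.exch hY hX hy' hyX'
      have hyY : y ∈ ex Y y' x' := mem_ex.mpr (Or.inr ⟨hne.symm, hy⟩)
      have hsub : X \ ex Y y' x' ⊆ (X \ Y).erase x' := by
        intro w hw
        rw [Finset.mem_sdiff, mem_ex, not_or, not_and] at hw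
        obtain ⟨h2, h3, h4⟩ := hw
        rw [Finset.mem_erase, Finset.mem_sdiff]
        exact ⟨h3, h2, h4 (fun h5 => hyX' (h5 ▸ h2))⟩
      have hlt : (X \ ex Y y' x').card < k := by
        have h2 := Finset.card_le_card hsub
        have h3 := Finset.card_erase_lt_of_mem (Finset.mem_sdiff.mpr ⟨hx', hxY'⟩)
        omega
      obtain ⟨x, hx, hxY, hxB⟩ := ih _ hlt _ hB hyY rfl
      refine ⟨x, hx, ?_, hxB⟩
      have h2 := hsub (Finset.mem_sdiff.mpr ⟨hx, hxY⟩)
      exact (Finset.mem_sdiff.mp (Finset.mem_of_mem_erase h2)).2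
    · push Not at h1
      have hYX : Y \ X = {y} := by
        ext w
        rw [Finset.mem_sdiff, Finset.mem_singleton]
        constructor
        · rintro ⟨h2, h3⟩
          exact h1 w h2 h3
        · rintro rfl
          exact ⟨hy, hyX⟩
      have h2 : (X \ Y).card + (X ∩ Y).card = X.card := Finset.card_sdiff_add_card_inter X Y
      have h3 : (Y \ X).card + (Y ∩ X).card = Y.card := Finset.card_sdiff_add_card_inter Y X
      rw [Finset.inter_comm Y X, hYX, Finset.card_singleton] at h3
      have h4 := base_card h hX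
      have h5 := base_card h hY
      obtain ⟨x, hx⟩ := Finset.card_eq_one.mp (show (X \ Y).card = 1 by omega)
      have hx' : x ∈ X \ Y := by rw [hx]; exact Finset.mem_singleton_self _
      rw [Finset.mem_sdiff] at hx'
      refine ⟨x, hx'.1, hx'.2, ?_⟩
      have h6 : ex X x y = Y := by
        apply Finset.eq_of_subset_of_card_le
        · intro w hw
          rw [mem_ex] at hw
          rcases hw with rfl | ⟨h7, h8⟩
          · exact hy
          · by_contra h9
            have : w ∈ X \ Y := Finset.mem_sdiff.mpr ⟨h8, h9⟩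
            rw [hx] at this
            exact h7 (Finset.mem_singleton.mp this)
        · rw [ex_card hx'.1 hyX]
          omega
      rw [h6]
      exact hY

end Pool.Agent.H13.VM
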