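import Pool.Agent.H13.VM.A9

/-! MODULE A10 (about 100 lines). Uniqueness of circuits and hyperplanes.

`CX_eq`: `X, X'` in `NB1`, `CX B X` contained in `X'`. If `y` in `CX B X'`: `ex X' y z'` in `B` for some `z'`; since `CX B X` is dependent (`CX_dep`) it is not contained in
`ex X' y z'`, so `y` in `CX B X`. Hence `CX B X'` is contained in `CX B X`, so in `X`; by the same argument with the roles exchanged `CX B X` is contained in `CX B X'`.
`HX_eq` is dual: `X'` contained in `HX B X`; if `z` in `DX B X'`: `ex X' y z` in `B`, not contained in `HX B X` (`HX_no_base`), so `z` in `DX B X`. So `DX B X'` is contained in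
`DX B X`, `HX B X` in `HX B X'`, so `X` is contained in `HX B X'` and the same argument gives the other inclusion.
`nb_of_circuit`: an `r`-set containing `CX B X` is a nonbase. `nb_of_hyp` dual. `card_CX`, `card_DX`: from (G). `NB1_of_circuit`: if `X` in `NB1`, `Y` in `B` adjacent to the
`r`-set `X'` containing `CX B X`, then `X'` in `NB1` and `CX B X' = CX B X`. -/

open scoped BigOperators
open Filter

namespace Pool.Agent.H13.VM

open Pool.Agent.H28.Johnson

private theorem A10_CX {n r : ℕ} {B : Finset (Finset (Fin n))} (h : IsMat n r B)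
    {X X' : Finset (Fin n)} (hX : X ∈ NB1 r B) (hsub : CX B X ⊆ X') : CX B X' ⊆ CX B X := by
  intro y hy
  obtain ⟨hyX, z', hz', hb⟩ := mem_CX.1 hy
  have h1 := CX_dep h hX _ hb
  obtain ⟨w, hw, hw'⟩ := Finset.not_subset.1 h1
  have hwX : w ∈ X' := hsub hw
  have hwy : w = y := by
    by_contra hne
    exact hw' (mem_ex.2 (Or.inr ⟨hne, hwX⟩))
  rw [← hwy]
  exact hw

private theorem A10_DX {n r : ℕ} {B : Finset (Finset (Fin n))} (h : IsMat n r B)
    {X X' : Finset (Fin n)} (hX : X ∈ NB1 r B) (hsub : X' ⊆ HX B X) : DX B X' ⊆ DX B X := by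
  intro z hz
  obtain ⟨hzX, y, hy, hb⟩ := mem_DX.1 hz
  have h1 := HX_no_base h hX _ hb
  obtain ⟨w, hw, hw'⟩ := Finset.not_subset.1 h1
  have hwD : w ∈ DX B X := by
    by_contra hne
    exact hw' (mem_HX.2 hne)
  rcases mem_ex.1 hw with h2 | h2
  · rw [← h2]
    exact hwD
  · exact absurd (hsub h2.2) hw'

theorem CX_eq {n r : ℕ} {B : Finset (Finset (Fin n))} (h : IsMat n r B) {X X' : Finset (Fin n)} (hX : X ∈ NB1 r B)
    (hX' : X' ∈ NB1 r B) (hsub : CX B X ⊆ X') : CX B X' = CX B X := by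
  have h1 := A10_CX h hX hsub
  exact Finset.Subset.antisymm h1 (A10_CX h hX' (h1.trans (CX_subset B X)))

theorem HX_eq {n r : ℕ} {B : Finset (Finset (Fin n))} (h : IsMat n r B) {X X' : Finset (Fin n)} (hX : X ∈ NB1 r B)
    (hX' : X' ∈ NB1 r B) (hsub : X' ⊆ HX B X) : HX B X' = HX B X := by
  have h1 := A10_DX h hX hsub
  have h2 : X ⊆ HX B X' := by
    intro x hx
    exact mem_HX.2 fun hd => mem_HX.1 (subset_HX B X hx) (h1 hd)
  have h3 := A10_DX h hX' h2
  have h4 : DX B X' = DX B X := Finset.Subset.antisymm h1 h3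
  unfold HX
  rw [h4]

theorem nb_of_circuit {n r : ℕ} {B : Finset (Finset (Fin n))} (h : IsMat n r B) {X X' : Finset (Fin n)} (hX : X ∈ NB1 r B)
    (hc : X'.card = r) (hsub : CX B X ⊆ X') : X' ∈ NB r B :=
  mem_NB.2 ⟨hc, fun hb => CX_dep h hX X' hb hsub⟩

theorem nb_of_hyp {n r : ℕ} {B : Finset (Finset (Fin n))} (h : IsMat n r B) {X X' : Finset (Fin n)} (hX : X ∈ NB1 r B)
    (hc : X'.card = r) (hsub : X' ⊆ HX B X) : X' ∈ NB r B :=
  mem_NB.2 ⟨hc, fun hb => HX_no_base h hX X' hb hsub⟩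

theorem card_CX {n r : ℕ} {B : Finset (Finset (Fin n))} (h : IsMat n r B) {g : ℕ} (hg : GG g B) {X : Finset (Fin n)}
    (hX : X ∈ NB1 r B) : g < (CX B X).card :=
  hg.1 _ (CX_dep h hX)

theorem card_DX {n r : ℕ} {B : Finset (Finset (Fin n))} (h : IsMat n r B) {g : ℕ} (hg : GG g B) {X : Finset (Fin n)}
    (hX : X ∈ NB1 r B) : g < (DX B X).card :=
  hg.2 _ (DX_codep h hX)

end Pool.Agent.H13.VM
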