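import Pool.Agent.H13.VM.A10

/-! MODULE A11 (about 140 lines). Dependent sets contain circuits `CX B X`.

`dep_contains`: `S` dependent, `S.card <= r`. Let `C` be a minimal dependent subset of `S` (`Finset.exists_minimal...` on the subsets of `S` that are dependent). `C` is
nonempty (`B` is nonempty). Take `c` in `C`; `C.erase c` is not dependent: a base `X1` contains it, and `c` is not in `X1` (otherwise `X1` contains `C`). `X1` has
`r` elements, `C.erase c` at most `r - 1`, so there is `y` in `X1`, not in `C`. `X = ex X1 y c` contains `C`, so it is a nonbase, and `ex X c y = X1` is a base, so `X`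
in `NB1`. `CX B X = C`: if `y'` in `CX B X` then `ex X y' z'` in `B` does not contain `C`, so `y'` in `C`; so `CX B X` is contained in `C`; it is dependent
(`CX_dep`), so equal to `C` by minimality.
`codep_contains`: dual, for a codependent set `S` with `S.card <= n - r`: minimal codependent subset `D`, `d` in `D`, a base `X1` disjoint from `D.erase d`, so `d` in `X1`;
the complement of `X1` has `n - r` elements, `D.erase d` at most `n - r - 1`: there is `z` outside `X1` and outside `D`; `X = ex X1 d z` is disjoint from `D`, a nonbase,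
`ex X z d = X1`; `DX B X = D`.
`line_cases`: a full line `L` is `bas`ic or contains `CX B X` with at most `r - 2` elements (I-line), or is contained in `HX B X` with at least `r + 2` elements (U-line), for some `X`
in `NB1`: for an I-line `I` (dependent: a base containing `I` would be `insert z I`), `dep_contains`: `CX B X` inside `I`, card `<= r - 1`; if `= r - 1` then `CX B X = I`.
For a U-line `U`: the complement of `U` is codependent with `n - r - 1` elements; `DX B X` is contained in it, so `U` in `HX B X`. -/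

open scoped BigOperators
open Filter

namespace Pool.Agent.H13.VM

open Pool.Agent.H28.Johnson

theorem dep_contains {n r : ℕ} {B : Finset (Finset (Fin n))} (h : IsMat n r B) {S : Finset (Fin n)} (hS : Dep B S)
    (hc : S.card ≤ r) : ∃ X ∈ NB1 r B, CX B X ⊆ S := by
  classical
  have hne : ((S.powerset).filter (fun C => Dep B C)).Nonempty :=
    ⟨S, Finset.mem_filter.mpr ⟨Finset.mem_powerset_self S, hS⟩⟩
  obtain ⟨C, hC, hmin⟩ := Finset.exists_min_image _ Finset.card hne
  rw [Finset.mem_filter, Finset.mem_powerset] at hC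
  obtain ⟨hCS, hCd⟩ := hC
  obtain ⟨B0, hB0⟩ := h.2.1
  have hCne : C.Nonempty := by
    rw [Finset.nonempty_iff_ne_empty]
    rintro rfl
    exact hCd B0 hB0 (Finset.empty_subset _)
  obtain ⟨c, hcC⟩ := hCne
  have hpos := Finset.card_pos.mpr ⟨c, hcC⟩
  have h1 : ¬ Dep B (C.erase c) := by
    intro hd
    have h2 := hmin (C.erase c) (Finset.mem_filter.mpr
      ⟨Finset.mem_powerset.mpr ((Finset.erase_subset _ _).trans hCS), hd⟩)
    rw [Finset.card_erase_of_mem hcC] at h2
    omega
  unfold Dep at h1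
  push Not at h1
  obtain ⟨X1, hX1, hsub⟩ := h1
  have hcX1 : c ∉ X1 := by
    intro hc1
    apply hCd X1 hX1
    intro x hx
    by_cases hxc : x = c
    · exact hxc ▸ hc1
    · exact hsub (Finset.mem_erase.mpr ⟨hxc, hx⟩)
  obtain ⟨y, hy, hyC⟩ : ∃ y ∈ X1, y ∉ C := by
    by_contra hcon
    push Not at hcon
    have h2 : X1 ⊆ C.erase c := fun x hx =>
      Finset.mem_erase.mpr ⟨fun hh => hcX1 (hh ▸ hx), hcon x hx⟩
    have h3 := Finset.card_le_card h2
    rw [Finset.card_erase_of_mem hcC, h.card_eq hX1] at h3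
    have h4 := Finset.card_le_card hCS
    omega
  have hyc : y ≠ c := fun hh => hyC (hh ▸ hcC)
  have hCX : C ⊆ ex X1 y c := by
    intro x hx
    rw [mem_ex]
    by_cases hxc : x = c
    · exact Or.inl hxc
    · exact Or.inr ⟨fun hh => hyC (hh ▸ hx), hsub (Finset.mem_erase.mpr ⟨hxc, hx⟩)⟩
  have hXcard : (ex X1 y c).card = r := (ex_card hy hcX1).trans (h.card_eq hX1)
  have hXNB : ex X1 y c ∉ B := fun hX => hCd _ hX hCX
  have hback : ex (ex X1 y c) c y = X1 := ex_back hy hcX1
  have hyX : y ∉ ex X1 y c := notMem_ex hyc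
  have hN1 : ex X1 y c ∈ NB1 r B :=
    mem_NB1.mpr ⟨mem_NB.mpr ⟨hXcard, hXNB⟩, c, left_mem_ex, y, hyX, hback.symm ▸ hX1⟩
  refine ⟨_, hN1, ?_⟩
  refine Finset.Subset.trans ?_ hCS
  intro y' hy'
  rw [mem_CX] at hy'
  obtain ⟨_, z', _, hb⟩ := hy'
  by_contra hn
  apply hCd _ hb
  intro x hx
  rw [mem_ex]
  exact Or.inr ⟨fun hh => hn (hh ▸ hx), hCX hx⟩

theorem codep_contains {n r : ℕ} {B : Finset (Finset (Fin n))} (h : IsMat n r B) {S : Finset (Fin n)} (hS : Codep B S)
    (hc : S.card + r ≤ n) : ∃ X ∈ NB1 r B, DX B X ⊆ S := by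
  classical
  have hne : ((S.powerset).filter (fun C => Codep B C)).Nonempty :=
    ⟨S, Finset.mem_filter.mpr ⟨Finset.mem_powerset_self S, hS⟩⟩
  obtain ⟨D, hD, hmin⟩ := Finset.exists_min_image _ Finset.card hne
  rw [Finset.mem_filter, Finset.mem_powerset] at hD
  obtain ⟨hDS, hDd⟩ := hD
  obtain ⟨B0, hB0⟩ := h.2.1
  have hDne : D.Nonempty := by
    rw [Finset.nonempty_iff_ne_empty]
    rintro rfl
    exact hDd B0 hB0 (Finset.disjoint_empty_left _)
  obtain ⟨d, hdD⟩ := hDne
  have hpos := Finset.card_pos.mpr ⟨d, hdD⟩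
  have h1 : ¬ Codep B (D.erase d) := by
    intro hd
    have h2 := hmin (D.erase d) (Finset.mem_filter.mpr
      ⟨Finset.mem_powerset.mpr ((Finset.erase_subset _ _).trans hDS), hd⟩)
    rw [Finset.card_erase_of_mem hdD] at h2
    omega
  unfold Codep at h1
  push Not at h1
  obtain ⟨X1, hX1, hdis⟩ := h1
  have hdis' : ∀ x ∈ D, x ≠ d → x ∉ X1 := fun x hx hxd hx1 =>
    Finset.disjoint_left.mp hdis (Finset.mem_erase.mpr ⟨hxd, hx⟩) hx1
  have hdX1 : d ∈ X1 := by
    by_contra hd1
    apply hDd X1 hX1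
    rw [Finset.disjoint_left]
    intro x hx hx1
    by_cases hxd : x = d
    · exact hd1 (hxd ▸ hx1)
    · exact hdis' x hx hxd hx1
  obtain ⟨z, hz, hzD⟩ : ∃ z, z ∉ X1 ∧ z ∉ D := by
    by_contra hcon
    push Not at hcon
    have h2 : X1ᶜ ⊆ D.erase d := fun x hx => by
      rw [Finset.mem_compl] at hx
      exact Finset.mem_erase.mpr ⟨fun hh => hx (hh ▸ hdX1), hcon x hx⟩
    have h3 := Finset.card_le_card h2
    rw [Finset.card_erase_of_mem hdD, Finset.card_compl, Fintype.card_fin, h.card_eq hX1] at h3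
    have h4 := Finset.card_le_card hDS
    omega
  have hzd : d ≠ z := fun hh => hz (hh ▸ hdX1)
  have hDX : ∀ x ∈ D, x ∉ ex X1 d z := by
    intro x hx
    rw [mem_ex]
    rintro (hh | ⟨h2, h3⟩)
    · exact hzD (hh ▸ hx)
    · exact hdis' x hx h2 h3
  have hXcard : (ex X1 d z).card = r := (ex_card hdX1 hz).trans (h.card_eq hX1)
  have hXNB : ex X1 d z ∉ B := fun hX => hDd _ hX (Finset.disjoint_left.mpr hDX)
  have hback : ex (ex X1 d z) z d = X1 := ex_back hdX1 hz
  have hdX : d ∉ ex X1 d z := notMem_ex hzd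
  have hN1 : ex X1 d z ∈ NB1 r B :=
    mem_NB1.mpr ⟨mem_NB.mpr ⟨hXcard, hXNB⟩, z, left_mem_ex, d, hdX, hback.symm ▸ hX1⟩
  refine ⟨_, hN1, ?_⟩
  refine Finset.Subset.trans ?_ hDS
  intro z' hz'
  rw [mem_DX] at hz'
  obtain ⟨_, y', _, hb⟩ := hz'
  by_contra hn
  apply hDd _ hb
  rw [Finset.disjoint_left]
  intro x hx
  rw [mem_ex]
  rintro (hh | ⟨_, h3⟩)
  · exact hn (hh ▸ hx)
  · exact hDX x hx h3

theorem fullI_cases {n r : ℕ} {B : Finset (Finset (Fin n))} (h : IsMat n r B) {L : Finset (Fin n)} (hL : L ∈ fullI r B) :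
    (∃ X ∈ NB1 r B, CX B X = L) ∨ ∃ X ∈ NB1 r B, CX B X ⊆ L ∧ (CX B X).card + 2 ≤ r := by
  classical
  rw [mem_fullI] at hL
  have hdep : Dep B L := by
    intro X hX hLX
    have h1 : X.card = r := h.card_eq hX
    have h2 : (X \ L).Nonempty := by
      rw [Finset.nonempty_iff_ne_empty]
      intro h3
      rw [Finset.sdiff_eq_empty_iff_subset] at h3
      have := Finset.card_le_card h3
      omega
    obtain ⟨z, hz⟩ := h2
    rw [Finset.mem_sdiff] at hz
    apply hL.2 z hz.2
    have h3 : insert z L ⊆ X := Finset.insert_subset hz.1 hLX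
    have h4 : insert z L = X := Finset.eq_of_subset_of_card_le h3
      (by rw [Finset.card_insert_of_notMem hz.2]; omega)
    rw [h4]
    exact hX
  obtain ⟨X, hX, hsub⟩ := dep_contains h hdep (by omega)
  have hle := Finset.card_le_card hsub
  by_cases heq : L.card ≤ (CX B X).card
  · exact Or.inl ⟨X, hX, Finset.eq_of_subset_of_card_le hsub heq⟩
  · exact Or.inr ⟨X, hX, hsub, by omega⟩

theorem fullU_cases {n r : ℕ} {B : Finset (Finset (Fin n))} (h : IsMat n r B) {L : Finset (Fin n)} (hL : L ∈ fullU r B) :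
    (∃ X ∈ NB1 r B, HX B X = L) ∨ ∃ X ∈ NB1 r B, L ⊆ HX B X ∧ r + 2 ≤ (HX B X).card := by
  classical
  rw [mem_fullU] at hL
  have hcodep : Codep B Lᶜ := by
    intro X hX hdis
    have h1 : X.card = r := h.card_eq hX
    have hXL : X ⊆ L := by
      intro x hx
      by_contra hn
      exact Finset.disjoint_left.mp hdis (Finset.mem_compl.mpr hn) hx
    have h2 : (L \ X).Nonempty := by
      rw [Finset.nonempty_iff_ne_empty]
      intro h3
      rw [Finset.sdiff_eq_empty_iff_subset] at h3
      have := Finset.card_le_card h3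
      omega
    obtain ⟨y, hy⟩ := h2
    rw [Finset.mem_sdiff] at hy
    apply hL.2 y hy.1
    have h3 : X ⊆ L.erase y := fun x hx =>
      Finset.mem_erase.mpr ⟨fun hh => hy.2 (hh ▸ hx), hXL hx⟩
    have h4 : X = L.erase y := Finset.eq_of_subset_of_card_le h3
      (by rw [Finset.card_erase_of_mem hy.1]; omega)
    rw [← h4]
    exact hX
  have hcc : Lᶜ.card = n - L.card := by rw [Finset.card_compl, Fintype.card_fin]
  have hLn : L.card ≤ n := by
    have := Finset.card_le_univ L
    rwa [Fintype.card_fin] at this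
  obtain ⟨X, hX, hsub⟩ := codep_contains h hcodep (by omega)
  have hsub' : L ⊆ HX B X := by
    intro x hx
    rw [mem_HX]
    intro hx2
    exact Finset.mem_compl.mp (hsub hx2) hx
  have hle := Finset.card_le_card hsub'
  by_cases heq : (HX B X).card ≤ L.card
  · exact Or.inl ⟨X, hX, (Finset.eq_of_subset_of_card_le hsub' heq).symm⟩
  · exact Or.inr ⟨X, hX, hsub', by omega⟩

end Pool.Agent.H13.VM
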