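import Pool.Agent.H13.VM.A11

/-! MODULE A12 (about 170 lines). Under (G) every object has many own nonbases.

Key step `step_circuit`: `h, hg : GG g B`, `X` in `NB1`, `y1` in `X`, not in `CX B X`. Then at least `g` elements `w` (outside `X`) satisfy `ex X y1 w` in `NB1` and `CX B (ex X y1 w) = CX B X`.
Proof: `X1 = ex X y0 z0` in `B` with `y0` in `CX B X`, `z0` in `DX B X` (both nonempty). `y1` in `X1` (`y1 <> y0`). The set `coc B X1 y1` is codependent: a base `Y` disjoint from it would miss `y1`;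
exchange `(X1, Y, y1)` gives `w` in `Y`, not in `X1`, `ex X1 y1 w` in `B`, so `w` in `coc B X1 y1`. So it has `> g` elements by (G), so at least `g` elements `w` not in `X1`
with `ex X1 y1 w` in `B`. `w <> y0`: `ex X1 y1 y0 = ex X y1 z0` contains `CX B X`, so is a nonbase. So `w` is not in `X`, `X' = ex X y1 w` contains `CX B X` (a nonbase) and `ex X' y0 z0 = ex X1 y1 w` in `B`:
`X'` in `NB1`, `CX_eq`.
`own_circuit`: if `CX B X` has `<= r - 1` elements take any `y1` in `X`, not in `CX`: the sets `ex X y1 w` are different: at least `g`.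
`own_circuit2`: if `CX B X` has `<= r - 2` elements take `y1 <> y2` in `X`, not in `CX`. For each `w1` as above (`X' = ex X y1 w1`, `y2` in `X'`, not in `CX B X' = CX B X`), at least `g` elements `w2` with
`ex X' y2 w2` in `NB1` with the same circuit. At least `g ^ 2` pairs `(w1, w2)`; a set `Z = ex (ex X y1 w1) y2 w2` determines the pair up to order (if `w2 <> y1`: `Z \\ X = {w1, w2}`; if `w2 = y1`:
`Z \\ X = {w1}` and `y1` in `Z`): at most two pairs. The hyperplane versions are dual (`step_hyp`: `z1` outside `X` and outside `DX`; at least `g` elements `w` of `X` with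
`ex X w z1` in `NB1` and the same `HX`; use `cir B X1 z1`, which is dependent). -/

open scoped BigOperators
open Filter

namespace Pool.Agent.H13.VM

open Pool.Agent.H28.Johnson

theorem cir_dep {n r : ℕ} {B : Finset (Finset (Fin n))} (h : IsMat n r B) {X : Finset (Fin n)} (hX : X ∈ B) {z : Fin n}
    (hz : z ∉ X) : Dep B (cir B X z) := by
  intro Y hY hsub
  obtain ⟨x, hx, hxY, hB⟩ := dual_exch h hX hY (hsub (mem_cir.mpr (Or.inl rfl))) hz
  exact hxY (hsub (mem_cir.mpr (Or.inr ⟨hx, hB⟩)))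

theorem coc_codep {n r : ℕ} {B : Finset (Finset (Fin n))} (h : IsMat n r B) {X : Finset (Fin n)} (hX : X ∈ B) {y : Fin n}
    (hy : y ∈ X) : Codep B (coc B X y) := by
  intro Y hY hdis
  rw [Finset.disjoint_left] at hdis
  obtain ⟨w, hw, hwX, hB⟩ := h.exch hX hY hy (hdis (mem_coc.mpr (Or.inl rfl)))
  exact hdis (mem_coc.mpr (Or.inr ⟨hwX, hB⟩)) hw

private lemma a12_cardX {n r : ℕ} {B : Finset (Finset (Fin n))} {X : Finset (Fin n)} (hX : X ∈ NB1 r B) :
    X.card = r := (mem_NB.mp (mem_NB1.mp hX).1).1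

open Classical in
/-- the elements `w` outside `X` such that `X - y1 + w` is a nonbase with the same circuit -/
private noncomputable def a12W {n : ℕ} (r : ℕ) (B : Finset (Finset (Fin n))) (X : Finset (Fin n)) (y1 : Fin n) :
    Finset (Fin n) :=
  Finset.univ.filter fun w => w ∉ X ∧ ex X y1 w ∈ NB1 r B ∧ CX B (ex X y1 w) = CX B X

private lemma a12_memW {n r : ℕ} {B : Finset (Finset (Fin n))} {X : Finset (Fin n)} {y1 w : Fin n} :
    w ∈ a12W r B X y1 ↔ w ∉ X ∧ ex X y1 w ∈ NB1 r B ∧ CX B (ex X y1 w) = CX B X := by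
  classical
  simp [a12W]

open Classical in
/-- the elements `w` of `X` such that `X - w + z1` is a nonbase with the same hyperplane -/
private noncomputable def a12V {n : ℕ} (r : ℕ) (B : Finset (Finset (Fin n))) (X : Finset (Fin n)) (z1 : Fin n) :
    Finset (Fin n) :=
  Finset.univ.filter fun w => w ∈ X ∧ ex X w z1 ∈ NB1 r B ∧ HX B (ex X w z1) = HX B X

private lemma a12_memV {n r : ℕ} {B : Finset (Finset (Fin n))} {X : Finset (Fin n)} {z1 w : Fin n} :
    w ∈ a12V r B X z1 ↔ w ∈ X ∧ ex X w z1 ∈ NB1 r B ∧ HX B (ex X w z1) = HX B X := by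
  classical
  simp [a12V]

private lemma a12_comm {n : ℕ} {X : Finset (Fin n)} {y0 z0 y1 w : Fin n} (hy0 : y0 ∈ X) (hz0 : z0 ∉ X)
    (hy1 : y1 ∈ X) (hw : w ∉ X) : ex (ex X y1 w) y0 z0 = ex (ex X y0 z0) y1 w := by
  have h1 : z0 ≠ y1 := fun e => hz0 (e ▸ hy1)
  have h2 : w ≠ y0 := fun e => hw (e ▸ hy0)
  ext x
  rw [mem_ex, mem_ex, mem_ex, mem_ex]
  constructor
  · rintro (e | ⟨e1, e2 | ⟨e3, e4⟩⟩)
    · exact Or.inr ⟨fun e' => h1 (e ▸ e'), Or.inl e⟩
    · exact Or.inl e2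
    · exact Or.inr ⟨e3, Or.inr ⟨e1, e4⟩⟩
  · rintro (e | ⟨e1, e2 | ⟨e3, e4⟩⟩)
    · exact Or.inr ⟨fun e' => h2 (e ▸ e'), Or.inl e⟩
    · exact Or.inl e2
    · exact Or.inr ⟨e3, Or.inr ⟨e1, e4⟩⟩

private lemma a12_step_circuit {n r : ℕ} {B : Finset (Finset (Fin n))} (h : IsMat n r B) {g : ℕ} (hg : GG g B)
    {X : Finset (Fin n)} (hX : X ∈ NB1 r B) {y1 : Fin n} (hy1 : y1 ∈ X) (hy1' : y1 ∉ CX B X) :
    g ≤ (a12W r B X y1).card := by
  classical
  have hcX := a12_cardX hX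
  obtain ⟨-, y0, hy0, z0, hz0, hB⟩ := mem_NB1.mp hX
  have hy0C : y0 ∈ CX B X := mem_CX.mpr ⟨hy0, z0, hz0, hB⟩
  have hne : y1 ≠ y0 := fun e => hy1' (e ▸ hy0C)
  have hy1X1 : y1 ∈ ex X y0 z0 := mem_ex.mpr (Or.inr ⟨hne, hy1⟩)
  have hcard := hg.2 _ (coc_codep h hB hy1X1)
  have hsub : (coc B (ex X y0 z0) y1).erase y1 ⊆ a12W r B X y1 := by
    intro w hw
    rw [Finset.mem_erase, mem_coc] at hw
    obtain ⟨hw1, hw2⟩ := hw
    rcases hw2 with hw2 | ⟨hw2, hw3⟩
    · exact absurd hw2 hw1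
    rw [mem_ex, not_or, not_and] at hw2
    obtain ⟨hwz, hw4⟩ := hw2
    have hwy0 : w ≠ y0 := by
      intro e
      subst e
      refine CX_dep h hX _ hw3 ?_
      intro x hx
      have hxX := CX_subset B X hx
      rw [mem_ex, mem_ex]
      by_cases hxw : x = w
      · exact Or.inl hxw
      · exact Or.inr ⟨fun e => hy1' (e ▸ hx), Or.inr ⟨hxw, hxX⟩⟩
    have hwX : w ∉ X := hw4 hwy0
    have hsub' : CX B X ⊆ ex X y1 w := by
      intro x hx
      exact mem_ex.mpr (Or.inr ⟨fun e => hy1' (e ▸ hx), CX_subset B X hx⟩)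
    have hc' : (ex X y1 w).card = r := by rw [ex_card hy1 hwX, hcX]
    have hNB : ex X y1 w ∈ NB r B := nb_of_circuit h hX hc' hsub'
    have hNB1 : ex X y1 w ∈ NB1 r B := by
      refine mem_NB1.mpr ⟨hNB, y0, mem_ex.mpr (Or.inr ⟨hne.symm, hy0⟩), z0, ?_, ?_⟩
      · rw [mem_ex, not_or, not_and]
        exact ⟨fun e => hwz e.symm, fun _ => hz0⟩
      · rw [a12_comm hy0 hz0 hy1 hwX]
        exact hw3
    exact a12_memW.mpr ⟨hwX, hNB1, CX_eq h hX hNB1 hsub'⟩
  have h2 := Finset.card_le_card hsub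
  rw [Finset.card_erase_of_mem (mem_coc.mpr (Or.inl rfl))] at h2
  omega

private lemma a12_step_hyp {n r : ℕ} {B : Finset (Finset (Fin n))} (h : IsMat n r B) {g : ℕ} (hg : GG g B)
    {X : Finset (Fin n)} (hX : X ∈ NB1 r B) {z1 : Fin n} (hz1 : z1 ∉ X) (hz1' : z1 ∈ HX B X) :
    g ≤ (a12V r B X z1).card := by
  classical
  have hcX := a12_cardX hX
  obtain ⟨-, y0, hy0, z0, hz0, hB⟩ := mem_NB1.mp hX
  have hz0D : z0 ∈ DX B X := mem_DX.mpr ⟨hz0, y0, hy0, hB⟩
  have hne : z1 ≠ z0 := fun e => (mem_HX.mp hz1') (e ▸ hz0D)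
  have hz1X1 : z1 ∉ ex X y0 z0 := by
    rw [mem_ex, not_or, not_and]
    exact ⟨hne, fun _ => hz1⟩
  have hcard := hg.1 _ (cir_dep h hB hz1X1)
  have hsub : (cir B (ex X y0 z0) z1).erase z1 ⊆ a12V r B X z1 := by
    intro w hw
    rw [Finset.mem_erase, mem_cir] at hw
    obtain ⟨hw1, hw2⟩ := hw
    rcases hw2 with hw2 | ⟨hw2, hw3⟩
    · exact absurd hw2 hw1
    have hwz0 : w ≠ z0 := by
      intro e
      subst e
      refine HX_no_base h hX _ hw3 ?_
      intro x hx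
      rw [mem_ex, mem_ex] at hx
      rcases hx with hx | ⟨hx1, hx | ⟨_, hx⟩⟩
      · rw [hx]; exact hz1'
      · exact absurd hx hx1
      · exact subset_HX B X hx
    rw [mem_ex] at hw2
    rcases hw2 with hw2 | ⟨hwy0, hwX⟩
    · exact absurd hw2 hwz0
    have hsub' : ex X w z1 ⊆ HX B X := by
      intro x hx
      rw [mem_ex] at hx
      rcases hx with hx | ⟨_, hx⟩
      · rw [hx]; exact hz1'
      · exact subset_HX B X hx
    have hc' : (ex X w z1).card = r := by rw [ex_card hwX hz1, hcX]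
    have hNB : ex X w z1 ∈ NB r B := nb_of_hyp h hX hc' hsub'
    have hNB1 : ex X w z1 ∈ NB1 r B := by
      refine mem_NB1.mpr ⟨hNB, y0, mem_ex.mpr (Or.inr ⟨hwy0.symm, hy0⟩), z0, ?_, ?_⟩
      · rw [mem_ex, not_or, not_and]
        exact ⟨hne.symm, fun _ => hz0⟩
      · rw [a12_comm hy0 hz0 hwX hz1]
        exact hw3
    exact a12_memV.mpr ⟨hwX, hNB1, HX_eq h hX hNB1 hsub'⟩
  have h2 := Finset.card_le_card hsub
  rw [Finset.card_erase_of_mem (mem_cir.mpr (Or.inl rfl))] at h2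
  omega

private lemma a12_fib {n : ℕ} {X : Finset (Fin n)} {y1 y2 a b w1 w2 : Fin n} (hy1 : y1 ∈ X) (hy2 : y2 ∈ X)
    (ha : a ∉ X) (hw1 : w1 ∉ X) (hb : b ∉ ex X y1 a) (hw2 : w2 ∉ ex X y1 w1)
    (hE : ex (ex X y1 w1) y2 w2 = ex (ex X y1 a) y2 b) : (w1 = a ∧ w2 = b) ∨ (w1 = b ∧ w2 = a) := by
  have n1 : w1 ≠ y1 := fun e => hw1 (e ▸ hy1)
  have n2 : w1 ≠ y2 := fun e => hw1 (e ▸ hy2)
  have n3 : a ≠ y1 := fun e => ha (e ▸ hy1)
  have n4 : a ≠ y2 := fun e => ha (e ▸ hy2)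
  have e1 : w1 = b ∨ w1 = a := by
    have h : w1 ∈ ex (ex X y1 a) y2 b := by
      rw [← hE]
      exact mem_ex.mpr (Or.inr ⟨n2, left_mem_ex⟩)
    rw [mem_ex, mem_ex] at h
    rcases h with h | ⟨_, h | ⟨_, h⟩⟩
    · exact Or.inl h
    · exact Or.inr h
    · exact absurd h hw1
  have e3 : a = w2 ∨ a = w1 := by
    have h : a ∈ ex (ex X y1 w1) y2 w2 := by
      rw [hE]
      exact mem_ex.mpr (Or.inr ⟨n4, left_mem_ex⟩)
    rw [mem_ex, mem_ex] at h
    rcases h with h | ⟨_, h | ⟨_, h⟩⟩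
    · exact Or.inl h
    · exact Or.inr h
    · exact absurd h ha
  by_cases h1 : w1 = a
  · left
    refine ⟨h1, ?_⟩
    subst h1
    have h : w2 ∈ ex (ex X y1 w1) y2 b := by
      rw [← hE]
      exact left_mem_ex
    rw [mem_ex] at h
    rcases h with h | ⟨_, h⟩
    · exact h
    · exact absurd h hw2
  · right
    exact ⟨e1.resolve_right h1, (e3.resolve_right fun e => h1 e.symm).symm⟩

private lemma a12_fibV {n : ℕ} {X : Finset (Fin n)} {z1 z2 a b w1 w2 : Fin n} (hz1 : z1 ∉ X) (hz2 : z2 ∉ X)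
    (hz : z2 ≠ z1) (ha : a ∈ X) (hw1 : w1 ∈ X) (hb : b ∈ ex X a z1) (hw2 : w2 ∈ ex X w1 z1)
    (hE : ex (ex X w1 z1) w2 z2 = ex (ex X a z1) b z2) : (w1 = a ∧ w2 = b) ∨ (w1 = b ∧ w2 = a) := by
  have n1 : w1 ≠ z1 := fun e => hz1 (e ▸ hw1)
  have n2 : w1 ≠ z2 := fun e => hz2 (e ▸ hw1)
  have n3 : a ≠ z1 := fun e => hz1 (e ▸ ha)
  have n4 : a ≠ z2 := fun e => hz2 (e ▸ ha)
  have e1 : w1 = b ∨ w1 = a := by
    by_contra hcon
    rw [not_or] at hcon
    have h : w1 ∈ ex (ex X a z1) b z2 :=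
      mem_ex.mpr (Or.inr ⟨hcon.1, mem_ex.mpr (Or.inr ⟨hcon.2, hw1⟩)⟩)
    rw [← hE, mem_ex, mem_ex] at h
    rcases h with h | ⟨_, h | ⟨h, _⟩⟩
    · exact n2 h
    · exact n1 h
    · exact h rfl
  have e3 : a = w2 ∨ a = w1 := by
    by_contra hcon
    rw [not_or] at hcon
    have h : a ∈ ex (ex X w1 z1) w2 z2 :=
      mem_ex.mpr (Or.inr ⟨hcon.1, mem_ex.mpr (Or.inr ⟨hcon.2, ha⟩)⟩)
    rw [hE, mem_ex, mem_ex] at h
    rcases h with h | ⟨_, h | ⟨h, _⟩⟩
    · exact n4 h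
    · exact n3 h
    · exact h rfl
  by_cases h1 : w1 = a
  · left
    refine ⟨h1, ?_⟩
    subst h1
    by_contra hcon
    have h : w2 ∈ ex (ex X w1 z1) b z2 := mem_ex.mpr (Or.inr ⟨hcon, hw2⟩)
    rw [← hE, mem_ex] at h
    rcases h with h | ⟨h, _⟩
    · rw [h, mem_ex] at hw2
      rcases hw2 with h3 | ⟨_, h3⟩
      · exact hz h3
      · exact hz2 h3
    · exact h rfl
  · right
    exact ⟨e1.resolve_right h1, (e3.resolve_right fun e => h1 e.symm).symm⟩

theorem own_circuit {n r : ℕ} {B : Finset (Finset (Fin n))} (h : IsMat n r B) {g : ℕ} (hg : GG g B) {X : Finset (Fin n)}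
    (hX : X ∈ NB1 r B) (hc : (CX B X).card + 1 ≤ r) :
    g ≤ ((NB1 r B).filter fun X' => CX B X' = CX B X).card := by
  classical
  have hcX := a12_cardX hX
  obtain ⟨y1, hy1, hy1'⟩ : ∃ y1 ∈ X, y1 ∉ CX B X :=
    Finset.exists_mem_notMem_of_card_lt_card (by omega)
  refine (a12_step_circuit h hg hX hy1 hy1').trans ?_
  refine Finset.card_le_card_of_injOn (fun w => ex X y1 w) ?_ ?_
  · intro w hw
    have hw' := a12_memW.mp hw
    exact Finset.mem_coe.mpr (Finset.mem_filter.mpr ⟨hw'.2.1, hw'.2.2⟩)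
  · intro w hw v _ hwv
    have hw' := a12_memW.mp hw
    have h1 : w ∈ ex X y1 v := by
      rw [← (show ex X y1 w = ex X y1 v from hwv)]
      exact left_mem_ex
    rw [mem_ex] at h1
    rcases h1 with h1 | ⟨_, h1⟩
    · exact h1
    · exact absurd h1 hw'.1

theorem own_circuit2 {n r : ℕ} {B : Finset (Finset (Fin n))} (h : IsMat n r B) {g : ℕ} (hg : GG g B) {X : Finset (Fin n)}
    (hX : X ∈ NB1 r B) (hc : (CX B X).card + 2 ≤ r) :
    g ^ 2 ≤ 2 * ((NB1 r B).filter fun X' => CX B X' = CX B X).card := by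
  classical
  have hcX := a12_cardX hX
  obtain ⟨y1, hy1, hy1'⟩ : ∃ y1 ∈ X, y1 ∉ CX B X :=
    Finset.exists_mem_notMem_of_card_lt_card (by omega)
  obtain ⟨y2, hy2, hy2'⟩ : ∃ y2 ∈ X, y2 ∉ insert y1 (CX B X) :=
    Finset.exists_mem_notMem_of_card_lt_card (by
      rw [Finset.card_insert_of_notMem hy1']
      omega)
  rw [Finset.mem_insert, not_or] at hy2'
  obtain ⟨hy21, hy2C⟩ := hy2'
  -- the pairs
  set P : Finset (Fin n × Fin n) := Finset.univ.filter fun p =>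
    p.1 ∈ a12W r B X y1 ∧ p.2 ∈ a12W r B (ex X y1 p.1) y2 with hP
  have hPc : g ^ 2 ≤ P.card := by
    have h1 : P.card = ∑ w ∈ a12W r B X y1, (a12W r B (ex X y1 w) y2).card := by
      rw [← Finset.card_sigma]
      refine Finset.card_bij' (fun p _ => ⟨p.1, p.2⟩) (fun p _ => (p.1, p.2)) ?_ ?_ ?_ ?_
      · intro p hp
        rw [hP, Finset.mem_filter] at hp
        exact Finset.mem_sigma.mpr hp.2
      · intro p hp
        rw [hP, Finset.mem_filter]
        exact ⟨Finset.mem_univ _, Finset.mem_sigma.mp hp⟩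
      · intro p _
        rfl
      · intro p _
        rfl
    have h2 : ∀ w ∈ a12W r B X y1, g ≤ (a12W r B (ex X y1 w) y2).card := by
      intro w hw
      have hw' := a12_memW.mp hw
      refine a12_step_circuit h hg hw'.2.1 (mem_ex.mpr (Or.inr ⟨hy21, hy2⟩)) ?_
      rw [hw'.2.2]
      exact hy2C
    have h3 : (a12W r B X y1).card • g ≤ P.card := by
      rw [h1]
      exact Finset.card_nsmul_le_sum _ _ _ h2
    have h4 := a12_step_circuit h hg hX hy1 hy1'
    have h5 : g * g ≤ (a12W r B X y1).card * g := Nat.mul_le_mul_right g h4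
    rw [smul_eq_mul] at h3
    nlinarith
  refine hPc.trans ?_
  refine Finset.card_le_mul_card_image_of_maps_to (f := fun p => ex (ex X y1 p.1) y2 p.2) ?_ 2 ?_
  · intro p hp
    rw [hP, Finset.mem_filter] at hp
    have h1 := a12_memW.mp hp.2.1
    have h2 := a12_memW.mp hp.2.2
    exact Finset.mem_filter.mpr ⟨h2.2.1, h2.2.2.trans h1.2.2⟩
  · intro Z _
    rcases Finset.eq_empty_or_nonempty (P.filter fun p => ex (ex X y1 p.1) y2 p.2 = Z) with h0 | ⟨⟨a, b⟩, hab⟩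
    · rw [h0]; simp
    refine (Finset.card_le_card (t := {(a, b), (b, a)}) ?_).trans Finset.card_le_two
    rw [Finset.mem_filter, hP, Finset.mem_filter] at hab
    obtain ⟨⟨-, ha, hb⟩, hZ⟩ := hab
    dsimp only at ha hb hZ
    have ha1 := (a12_memW.mp ha).1
    have hb1 := (a12_memW.mp hb).1
    rintro ⟨w1, w2⟩ hw
    rw [Finset.mem_filter, hP, Finset.mem_filter] at hw
    obtain ⟨⟨-, hw1, hw2⟩, hZ'⟩ := hw
    dsimp only at hw1 hw2 hZ'
    have hw1' := (a12_memW.mp hw1).1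
    have hw2' := (a12_memW.mp hw2).1
    rcases a12_fib hy1 hy2 ha1 hw1' hb1 hw2' (hZ'.trans hZ.symm) with ⟨h1, h2⟩ | ⟨h1, h2⟩
    · rw [h1, h2]
      exact Finset.mem_insert_self _ _
    · rw [h1, h2]
      exact Finset.mem_insert_of_mem (Finset.mem_singleton_self _)

theorem own_hyp {n r : ℕ} {B : Finset (Finset (Fin n))} (h : IsMat n r B) {g : ℕ} (hg : GG g B) {X : Finset (Fin n)}
    (hX : X ∈ NB1 r B) (hc : r + 1 ≤ (HX B X).card) :
    g ≤ ((NB1 r B).filter fun X' => HX B X' = HX B X).card := by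
  classical
  have hcX := a12_cardX hX
  obtain ⟨z1, hz1, hz1'⟩ : ∃ z1 ∈ HX B X, z1 ∉ X :=
    Finset.exists_mem_notMem_of_card_lt_card (by omega)
  refine (a12_step_hyp h hg hX hz1' hz1).trans ?_
  refine Finset.card_le_card_of_injOn (fun w => ex X w z1) ?_ ?_
  · intro w hw
    have hw' := a12_memV.mp hw
    exact Finset.mem_coe.mpr (Finset.mem_filter.mpr ⟨hw'.2.1, hw'.2.2⟩)
  · intro w hw v hv hwv
    have hw' := a12_memV.mp hw
    have hv' := a12_memV.mp hv
    by_contra hne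
    have h1 : w ∈ ex X v z1 := mem_ex.mpr (Or.inr ⟨hne, hw'.1⟩)
    rw [← (show ex X w z1 = ex X v z1 from hwv)] at h1
    exact notMem_ex (ne_of_mem_notMem hw'.1 hz1') h1

theorem own_hyp2 {n r : ℕ} {B : Finset (Finset (Fin n))} (h : IsMat n r B) {g : ℕ} (hg : GG g B) {X : Finset (Fin n)}
    (hX : X ∈ NB1 r B) (hc : r + 2 ≤ (HX B X).card) :
    g ^ 2 ≤ 2 * ((NB1 r B).filter fun X' => HX B X' = HX B X).card := by
  classical
  have hcX := a12_cardX hX
  obtain ⟨z1, hz1, hz1'⟩ : ∃ z1 ∈ HX B X, z1 ∉ X :=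
    Finset.exists_mem_notMem_of_card_lt_card (by omega)
  obtain ⟨z2, hz2, hz2'⟩ : ∃ z2 ∈ HX B X, z2 ∉ insert z1 X :=
    Finset.exists_mem_notMem_of_card_lt_card (by
      rw [Finset.card_insert_of_notMem hz1']
      omega)
  rw [Finset.mem_insert, not_or] at hz2'
  obtain ⟨hz21, hz2X⟩ := hz2'
  -- the pairs
  set P : Finset (Fin n × Fin n) := Finset.univ.filter fun p =>
    p.1 ∈ a12V r B X z1 ∧ p.2 ∈ a12V r B (ex X p.1 z1) z2 with hP
  have hPc : g ^ 2 ≤ P.card := by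
    have h1 : P.card = ∑ w ∈ a12V r B X z1, (a12V r B (ex X w z1) z2).card := by
      rw [← Finset.card_sigma]
      refine Finset.card_bij' (fun p _ => ⟨p.1, p.2⟩) (fun p _ => (p.1, p.2)) ?_ ?_ ?_ ?_
      · intro p hp
        rw [hP, Finset.mem_filter] at hp
        exact Finset.mem_sigma.mpr hp.2
      · intro p hp
        rw [hP, Finset.mem_filter]
        exact ⟨Finset.mem_univ _, Finset.mem_sigma.mp hp⟩
      · intro p _
        rfl
      · intro p _
        rfl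
    have h2 : ∀ w ∈ a12V r B X z1, g ≤ (a12V r B (ex X w z1) z2).card := by
      intro w hw
      have hw' := a12_memV.mp hw
      refine a12_step_hyp h hg hw'.2.1 ?_ ?_
      · rw [mem_ex, not_or, not_and]
        exact ⟨hz21, fun _ => hz2X⟩
      · rw [hw'.2.2]
        exact hz2
    have h3 : (a12V r B X z1).card • g ≤ P.card := by
      rw [h1]
      exact Finset.card_nsmul_le_sum _ _ _ h2
    have h4 := a12_step_hyp h hg hX hz1' hz1
    have h5 : g * g ≤ (a12V r B X z1).card * g := Nat.mul_le_mul_right g h4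
    rw [smul_eq_mul] at h3
    nlinarith
  refine hPc.trans ?_
  refine Finset.card_le_mul_card_image_of_maps_to (f := fun p => ex (ex X p.1 z1) p.2 z2) ?_ 2 ?_
  · intro p hp
    rw [hP, Finset.mem_filter] at hp
    have h1 := a12_memV.mp hp.2.1
    have h2 := a12_memV.mp hp.2.2
    exact Finset.mem_filter.mpr ⟨h2.2.1, h2.2.2.trans h1.2.2⟩
  · intro Z _
    rcases Finset.eq_empty_or_nonempty (P.filter fun p => ex (ex X p.1 z1) p.2 z2 = Z) with h0 | ⟨⟨a, b⟩, hab⟩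
    · rw [h0]; simp
    refine (Finset.card_le_card (t := {(a, b), (b, a)}) ?_).trans Finset.card_le_two
    rw [Finset.mem_filter, hP, Finset.mem_filter] at hab
    obtain ⟨⟨-, ha, hb⟩, hZ⟩ := hab
    dsimp only at ha hb hZ
    have ha1 := (a12_memV.mp ha).1
    have hb1 := (a12_memV.mp hb).1
    rintro ⟨w1, w2⟩ hw
    rw [Finset.mem_filter, hP, Finset.mem_filter] at hw
    obtain ⟨⟨-, hw1, hw2⟩, hZ'⟩ := hw
    dsimp only at hw1 hw2 hZ'
    have hw1' := (a12_memV.mp hw1).1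
    have hw2' := (a12_memV.mp hw2).1
    rcases a12_fibV hz1' hz2X hz21 ha1 hw1' hb1 hw2' (hZ'.trans hZ.symm) with ⟨h1, h2⟩ | ⟨h1, h2⟩
    · rw [h1, h2]
      exact Finset.mem_insert_self _ _
    · rw [h1, h2]
      exact Finset.mem_insert_of_mem (Finset.mem_singleton_self _)

end Pool.Agent.H13.VM
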