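import Pool.Agent.H13.VM.Bas

/-! MODULE A2 (about 60 lines). The local test.

Proof. By `exists_ex`, `X' = X - a + b`; put `I = X.erase a = X cap X'`, `U = insert b X = X cup X'` (`inter_ex`, `union_ex`). Suppose
`I` is not in `fullI` and `U` is not in `fullU`: there are `z` not in `I` with `insert z I` in `B` and `y` in `U` with `U.erase y` in `B`.
`z <> a` (otherwise `insert z I = X` is a nonbase), `z <> b` (otherwise it is `X'`), so `z` is not in `U`; `y <> a` (`U.erase a = X'`), `y <> b`
(`U.erase b = X`), so `y` is in `I`. Exchange for `(insert z I, U.erase y, z)`: some `w` in `U.erase y`, not in `insert z I`, with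
`ex (insert z I) z w` in `B`; `w` is `a` or `b` and `ex (insert z I) z w = insert w I` is `X` or `X'`: contradiction. -/

open scoped BigOperators
open Filter

namespace Pool.Agent.H13.VM

open Pool.Agent.H28.Johnson

private theorem local_test_aux {n r : ℕ} {B : Finset (Finset (Fin n))} (h : IsMat n r B)
    {X : Finset (Fin n)} {y z : Fin n} (hX : X ∈ NB r B) (hy : y ∈ X) (hz : z ∉ X)
    (hY : ex X y z ∉ B) : X.erase y ∈ fullI r B ∨ insert z X ∈ fullU r B := by
  classical
  rw [mem_NB] at hX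
  obtain ⟨hXc, hXB⟩ := hX
  have hyz : y ≠ z := ne_of_mem_notMem hy hz
  by_contra hcon
  rw [not_or, mem_fullI, mem_fullU] at hcon
  obtain ⟨h1, h2⟩ := hcon
  have hc1 : (X.erase y).card + 1 = r := by
    rw [Finset.card_erase_of_mem hy]
    have := Finset.card_pos.mpr ⟨y, hy⟩
    omega
  have hc2 : (insert z X).card = r + 1 := by
    rw [Finset.card_insert_of_notMem hz, hXc]
  rw [not_and] at h1 h2
  have h1' := h1 hc1
  have h2' := h2 hc2
  rw [not_forall] at h1' h2'
  obtain ⟨w, hw⟩ := h1'
  obtain ⟨v, hv⟩ := h2'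
  rw [Classical.not_imp, not_not] at hw hv
  obtain ⟨hwI, hwB⟩ := hw
  obtain ⟨hvU, hvB⟩ := hv
  -- w ≠ y, w ≠ z
  have hwy : w ≠ y := by
    rintro rfl
    rw [Finset.insert_erase hy] at hwB
    exact hXB hwB
  have hwz : w ≠ z := by
    rintro rfl
    exact hY hwB
  have hwX : w ∉ X := fun hwX => hwI (Finset.mem_erase.mpr ⟨hwy, hwX⟩)
  have hwU : w ∉ (insert z X).erase v := by
    intro hw1
    have hw2 := Finset.mem_of_mem_erase hw1
    rw [Finset.mem_insert] at hw2
    exact hw2.elim hwz hwX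
  have hvz : v ≠ z := by
    rintro rfl
    rw [Finset.erase_insert hz] at hvB
    exact hXB hvB
  have hvy : v ≠ y := by
    rintro rfl
    rw [Finset.erase_insert_of_ne (Ne.symm hvz)] at hvB
    exact hY hvB
  obtain ⟨u, huY, huX, huB⟩ := h.exch hwB hvB (Finset.mem_insert_self w _) hwU
  rw [Finset.mem_erase, Finset.mem_insert] at huY
  rw [Finset.mem_insert, not_or, Finset.mem_erase, not_and_or, not_not] at huX
  have hex : ex (insert w (X.erase y)) w u = insert u (X.erase y) := by
    rw [ex, Finset.erase_insert hwI]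
  rw [hex] at huB
  rcases huY.2 with hu | hu
  · rw [hu] at huB
    exact hY huB
  · rcases huX.2 with hu2 | hu2
    · rw [hu2, Finset.insert_erase hy] at huB
      exact hXB huB
    · exact hu2 hu

theorem local_test {n r : ℕ} {B : Finset (Finset (Fin n))} (h : IsMat n r B) {X Y : Finset (Fin n)}
    (hX : X ∈ NB r B) (hY : Y ∈ NB r B) (hXY : adj r X Y) :
    X ∩ Y ∈ fullI r B ∨ X ∪ Y ∈ fullU r B := by
  obtain ⟨y, hy, z, hz, _, _, rfl⟩ := exists_ex (mem_NB.mp hX).1 (mem_NB.mp hY).1 hXY
  rw [inter_ex hy hz, union_ex hy hz]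
  exact local_test_aux h hX hy hz (mem_NB.mp hY).2

/-- the same with `Y = X - y + z` -/
theorem local_test' {n r : ℕ} {B : Finset (Finset (Fin n))} (h : IsMat n r B) {X : Finset (Fin n)} {y z : Fin n}
    (hX : X ∈ NB r B) (hy : y ∈ X) (hz : z ∉ X) (hY : ex X y z ∉ B) :
    X.erase y ∈ fullI r B ∨ insert z X ∈ fullU r B :=
  local_test_aux h hX hy hz hY

end Pool.Agent.H13.VM
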