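import Pool.Agent.H13.VM.Bas
import Pool.Agent.H13.VM.A1

/-! MODULE A3 (about 50 lines). No base inside `I cup Y`, and the dual statement.

`no_base`: let `X` be a base contained in `I cup Y`. `insert x I` is a base, `x` is in it and not in `X` (`x` is not in `I cup Y`). Exchange
gives `w` in `X`, not in `insert x I`, with `ex (insert x I) x w = insert w I` in `B`; `w` is in `Y`: contradiction.
`no_base_dual`: let `X` be a base containing `U \ Y` (all the elements of `U` outside `Y`). `U.erase x` is a base, `x` is in `U`, not in `Y`, so `x` is in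
`X` and not in `U.erase x`; dual exchange (`dual_exch` for `(U.erase x, X, x)`) gives `w` in `U.erase x`, not in `X`, with
`ex (U.erase x) w x = U.erase w` in `B`; `w` is in `Y` (it is in `U`, not in `X`): contradiction. -/

open scoped BigOperators
open Filter

namespace Pool.Agent.H13.VM

open Pool.Agent.H28.Johnson

theorem no_base {n r : ℕ} {B : Finset (Finset (Fin n))} (h : IsMat n r B) {I Y : Finset (Fin n)} {x : Fin n}
    (hxI : x ∉ I) (hxY : x ∉ Y) (hI : insert x I ∈ B) (hY : ∀ y ∈ Y, y ∉ I → insert y I ∉ B) :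
    ∀ X ∈ B, ¬ X ⊆ I ∪ Y := by
  intro X hX hs
  have hxX : x ∉ X := fun hx => (Finset.mem_union.1 (hs hx)).elim hxI hxY
  obtain ⟨w, hwX, hw, h1⟩ := h.exch hI hX (Finset.mem_insert_self x I) hxX
  rw [ex, Finset.erase_insert hxI] at h1
  have hwI : w ∉ I := fun hwI => hw (Finset.mem_insert_of_mem hwI)
  have hwY : w ∈ Y := (Finset.mem_union.1 (hs hwX)).resolve_left hwI
  exact hY w hwY hwI h1

theorem no_base_dual {n r : ℕ} {B : Finset (Finset (Fin n))} (h : IsMat n r B) {U Y : Finset (Fin n)} {x : Fin n}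
    (hxU : x ∈ U) (hxY : x ∉ Y) (hU : U.erase x ∈ B) (hY : ∀ y ∈ Y, y ∈ U → U.erase y ∉ B) :
    ∀ X ∈ B, ¬ U \ Y ⊆ X := by
  intro X hX hs
  have hxX : x ∈ X := hs (Finset.mem_sdiff.2 ⟨hxU, hxY⟩)
  obtain ⟨w, hw, hwX, h1⟩ := dual_exch h hU hX hxX (Finset.notMem_erase x U)
  obtain ⟨hwx, hwU⟩ := Finset.mem_erase.1 hw
  have e1 : ex (U.erase x) w x = U.erase w := by
    ext y
    rw [mem_ex, Finset.mem_erase, Finset.mem_erase]
    constructor
    · rintro (rfl | ⟨h2, h3, h4⟩)
      · exact ⟨Ne.symm hwx, hxU⟩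
      · exact ⟨h2, h4⟩
    · rintro ⟨h2, h3⟩
      by_cases hyx : y = x
      · exact Or.inl hyx
      · exact Or.inr ⟨h2, hyx, h3⟩
  rw [e1] at h1
  have hwY : w ∈ Y := by
    by_contra hc
    exact hwX (hs (Finset.mem_sdiff.2 ⟨hwU, hc⟩))
  exact hY w hwY hwU h1

end Pool.Agent.H13.VM
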