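import Pool.Agent.H13.VM.Bas

/-! MODULE Cn (about 120 lines). Connected components, elementary.

`Conn r S X Y` is the reflexive transitive closure of the relation: both in `S` and adjacent. Facts: it is symmetric (`adj_symm`), transitive;
`comp r S X` is closed (a union of components) and a closed set which contains `X` contains `comp r S X`; components of
connected points are equal. `conn_super`: all `r`-sets between `A` and `D` (`A` inside, `D` outside bound) are connected inside any
`S` which contains them: induction on `(X \ Y).card`: if `X <> Y` (both have `r` elements) take `x` in `X \ Y`, `y` in `Y \ X`;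
`ex X x y` contains `A` (`x` is not in `A` because `A` is contained in `Y`) and is contained in `D`. -/

open scoped BigOperators
open Filter

namespace Pool.Agent.H13.VM

open Pool.Agent.H28.Johnson

theorem conn_symm {n r : ℕ} {S : Finset (Finset (Fin n))} {X Y : Finset (Fin n)}
    (h : Conn r S X Y) : Conn r S Y X := by
  induction h with
  | refl => exact Relation.ReflTransGen.refl
  | tail _ h2 ih => exact Relation.ReflTransGen.head ⟨h2.2.1, h2.1, adj_symm h2.2.2⟩ ih

theorem comp_closed {n r : ℕ} (S : Finset (Finset (Fin n))) (X : Finset (Fin n)) :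
    Closed r S (comp r S X) := by
  refine ⟨fun Y hY => (mem_comp.1 hY).1, fun Y hY Z hZ hYZ => ?_⟩
  rw [mem_comp] at hY ⊢
  exact ⟨hZ, hY.2.tail ⟨hY.1, hZ, hYZ⟩⟩

theorem self_mem_comp {n r : ℕ} {S : Finset (Finset (Fin n))} {X : Finset (Fin n)} (h : X ∈ S) :
    X ∈ comp r S X :=
  mem_comp.2 ⟨h, Relation.ReflTransGen.refl⟩

/-- a closed set containing `X` contains the component of `X` -/
theorem comp_subset_of_closed {n r : ℕ} {S G : Finset (Finset (Fin n))} {X : Finset (Fin n)}
    (hG : Closed r S G) (hX : X ∈ G) : comp r S X ⊆ G := by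
  intro Y hY
  have h := (mem_comp.1 hY).2
  induction h with
  | refl => exact hX
  | tail _ h2 ih => exact hG.2 _ (ih (mem_comp.2 ⟨h2.1, by assumption⟩)) _ h2.2.1 h2.2.2

theorem comp_eq_of_mem {n r : ℕ} {S : Finset (Finset (Fin n))} {X Y : Finset (Fin n)}
    (h : Y ∈ comp r S X) : comp r S Y = comp r S X := by
  rw [mem_comp] at h
  ext Z
  rw [mem_comp, mem_comp]
  exact ⟨fun hZ => ⟨hZ.1, h.2.trans hZ.2⟩, fun hZ => ⟨hZ.1, (conn_symm h.2).trans hZ.2⟩⟩

/-- induction along a component -/
theorem comp_induction {n r : ℕ} {S : Finset (Finset (Fin n))} {X : Finset (Fin n)}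
    (p : Finset (Fin n) → Prop) (h0 : p X)
    (h1 : ∀ Y ∈ comp r S X, ∀ Z ∈ comp r S X, adj r Y Z → p Y → p Z) :
    ∀ Y ∈ comp r S X, p Y := by
  intro Y hY
  have h := (mem_comp.1 hY).2
  induction h with
  | refl => exact h0
  | tail h3 h2 ih =>
    have hb := mem_comp.2 ⟨h2.1, h3⟩
    exact h1 _ hb _ hY h2.2.2 (ih hb)

/-- all `r`-sets between `A` and `D` are in one component -/
theorem conn_between {n r : ℕ} {S : Finset (Finset (Fin n))} {A D : Finset (Fin n)}
    (hS : ∀ Z : Finset (Fin n), Z.card = r → A ⊆ Z → Z ⊆ D → Z ∈ S) {X Y : Finset (Fin n)}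
    (hX : X.card = r) (hAX : A ⊆ X) (hXD : X ⊆ D) (hY : Y.card = r) (hAY : A ⊆ Y) (hYD : Y ⊆ D) :
    Y ∈ comp r S X := by
  have key : ∀ k : ℕ, ∀ X : Finset (Fin n), (X \ Y).card = k → X.card = r → A ⊆ X → X ⊆ D →
      Conn r S X Y := by
    intro k
    induction k with
    | zero =>
      intro X hk hX _ _
      have h1 : X ⊆ Y := by
        rw [Finset.card_eq_zero, Finset.sdiff_eq_empty_iff_subset] at hk
        exact hk
      have h2 : X = Y := Finset.eq_of_subset_of_card_le h1 (by omega)
      rw [h2]
      exact Relation.ReflTransGen.refl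
    | succ k ih =>
      intro X hk hX hAX hXD
      have h1 : (X \ Y).card + (X ∩ Y).card = X.card := Finset.card_sdiff_add_card_inter X Y
      have h2 : (Y \ X).card + (Y ∩ X).card = Y.card := Finset.card_sdiff_add_card_inter Y X
      rw [Finset.inter_comm Y X] at h2
      obtain ⟨x, hx⟩ := Finset.card_pos.1 (by omega : 0 < (X \ Y).card)
      obtain ⟨y, hy⟩ := Finset.card_pos.1 (by omega : 0 < (Y \ X).card)
      rw [Finset.mem_sdiff] at hx hy
      have hc : (ex X x y).card = r := by rw [ex_card hx.1 hy.2, hX]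
      have hA : A ⊆ ex X x y := by
        intro z hz
        rw [mem_ex]
        exact Or.inr ⟨fun h => hx.2 (hAY (h ▸ hz)), hAX hz⟩
      have hD : ex X x y ⊆ D := by
        intro z hz
        rw [mem_ex] at hz
        rcases hz with rfl | hz
        · exact hYD hy.1
        · exact hXD hz.2
      have hk' : (ex X x y \ Y).card = k := by
        have e : ex X x y \ Y = (X \ Y).erase x := by
          ext z
          rw [Finset.mem_sdiff, mem_ex, Finset.mem_erase, Finset.mem_sdiff]
          constructor
          · rintro ⟨rfl | h, h'⟩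
            · exact absurd hy.1 h'
            · exact ⟨h.1, h.2, h'⟩
          · rintro ⟨h, h', h''⟩
            exact ⟨Or.inr ⟨h, h'⟩, h''⟩
        rw [e, Finset.card_erase_of_mem (Finset.mem_sdiff.2 hx), hk]
        rfl
      exact Relation.ReflTransGen.head ⟨hS X hX hAX hXD, hS _ hc hA hD, adj_ex hX hx.1 hy.2⟩
        (ih _ hk' hc hA hD)
  exact mem_comp.2 ⟨hS Y hY hAY hYD, key _ X rfl hX hAX hXD⟩

end Pool.Agent.H13.VM
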