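import Pool.Agent.H13.VM.A3
import Pool.Agent.H13.VM.Cn

/-! MODULE A4 (about 80 lines). Removing a union of components of the nonbases.

Let `G` be closed in `NB r B`. `B cup G` is contained in `Base n r`, nonempty. Exchange for `B1, B2` in `B cup G`, `x` in `B1`, not in `B2`.
* `B1` in `G`: take any `z` in `B2`, not in `B1` (exists since the cards are equal and `x` is in `B1 \ B2`); `ex B1 x z` is adjacent to `B1` (`adj_ex`);
  if it is a base fine, otherwise it is in `NB r B`, so in `G` because `G` is closed.
* `B1` in `B`, `B2` in `B`: exchange of `B`.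
* `B1` in `B`, `B2` in `G`. Suppose no `z` works. `I = B1.erase x`. For all `z` in `B2`, not in `B1`: `insert z I` is not in `B` and not in `G`. By `no_base`
  (`insert x I = B1`, `x` not in `B2`) no base is contained in `I cup B2`, so all `r`-sets contained in `I cup B2` are in `NB r B`, hence (`conn_between` with
  `A = empty`, `D = I cup B2`) they are in the component of `B2`, which is contained in `G` (`comp_subset_of_closed`). Take `z` in `B2 \ B1`: `insert z I` is in
  `G`: contradiction.
`delete`: with `B` replaced: `iso` version below is a corollary: `G = {X}` for an isolated nonbase `X`. -/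

open scoped BigOperators
open Filter

namespace Pool.Agent.H13.VM

open Pool.Agent.H28.Johnson

theorem add_components {n r : ℕ} {B : Finset (Finset (Fin n))} (h : IsMat n r B) {G : Finset (Finset (Fin n))}
    (hG : Closed r (NB r B) G) : IsMat n r (B ∪ G) := by
  classical
  have hcard : ∀ X ∈ B ∪ G, X.card = r := by
    intro X hX
    rcases Finset.mem_union.mp hX with hX | hX
    · exact h.card_eq hX
    · exact (mem_NB.mp (hG.1 hX)).1
  refine ⟨fun X hX => mem_Base.mpr (hcard X hX), h.2.1.mono Finset.subset_union_left, ?_⟩
  intro B1 hB1 B2 hB2 x hx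
  rw [Finset.mem_sdiff] at hx
  obtain ⟨hx1, hx2⟩ := hx
  have hc1 := hcard B1 hB1
  have hc2 := hcard B2 hB2
  -- there is an element of `B2` outside `B1`
  obtain ⟨z0, hz0, hz0'⟩ : ∃ z ∈ B2, z ∉ B1 := by
    by_contra hcon
    push Not at hcon
    have h1 : B2 = B1 := Finset.eq_of_subset_of_card_le hcon (by omega)
    exact hx2 (h1 ▸ hx1)
  rcases Finset.mem_union.mp hB1 with hB1' | hB1'
  · rcases Finset.mem_union.mp hB2 with hB2' | hB2'
    · obtain ⟨y, hy, hyB, hex⟩ := h.exch hB1' hB2' hx1 hx2
      exact ⟨y, Finset.mem_sdiff.mpr ⟨hy, hyB⟩, Finset.mem_union_left _ hex⟩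
    · by_contra hcon
      push Not at hcon
      have hI : insert x (B1.erase x) ∈ B := by rw [Finset.insert_erase hx1]; exact hB1'
      have hno := no_base h (I := B1.erase x) (Y := B2) (x := x) (Finset.notMem_erase x B1) hx2 hI (by
        intro y hy hyI hyB
        have hyB1 : y ∉ B1 := by
          intro hy1
          by_cases hyx : y = x
          · exact hx2 (hyx ▸ hy)
          · exact hyI (Finset.mem_erase.mpr ⟨hyx, hy1⟩)
        exact hcon y (Finset.mem_sdiff.mpr ⟨hy, hyB1⟩) (Finset.mem_union_left _ hyB))
      have hmem : insert z0 (B1.erase x) ∈ comp r (NB r B) B2 := by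
        refine conn_between (A := ∅) (D := B1.erase x ∪ B2) ?_ hc2 (Finset.empty_subset _)
          Finset.subset_union_right ?_ (Finset.empty_subset _) ?_
        · intro Z hZ _ hZD
          exact mem_NB.mpr ⟨hZ, fun hZB => hno Z hZB hZD⟩
        · have := ex_card (X := B1) hx1 hz0'
          rw [ex] at this
          omega
        · intro a ha
          rw [Finset.mem_insert] at ha
          rcases ha with rfl | ha
          · exact Finset.mem_union_right _ hz0
          · exact Finset.mem_union_left _ ha
      exact hcon z0 (Finset.mem_sdiff.mpr ⟨hz0, hz0'⟩)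
        (Finset.mem_union_right _ (comp_subset_of_closed hG hB2' hmem))
  · refine ⟨z0, Finset.mem_sdiff.mpr ⟨hz0, hz0'⟩, ?_⟩
    by_cases hb : insert z0 (B1.erase x) ∈ B
    · exact Finset.mem_union_left _ hb
    · refine Finset.mem_union_right _ (hG.2 B1 hB1' _ ?_ (adj_ex hc1 hx1 hz0'))
      exact mem_NB.mpr ⟨(ex_card hx1 hz0').trans hc1, hb⟩

end Pool.Agent.H13.VM
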