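import Pool.Agent.H13.VM.A3
import Pool.Agent.H13.VM.Cn

/-! MODULE A6 (about 200 lines). THE FLIP LEMMA. `G` a union of components of `Sct r B c t` (nonbases `X` with `c` in `X`, `t` not in
`X`, `X^ := ex X c t` in `B`); then `B cup G` is a matroid.

Let `x` in `B1`, not in `B2`, `B1, B2` in `B cup G`. (`B1, B2` in `B`: exchange.)
(a) `B1` in `G`, `x = c`: then `c` is not in `B2`, so `B2` in `B`. If `t` in `B2` take `z = t` (`ex B1 c t` in `B`). If `t` not in `B2`: exchange
    `(B1^, B2, t)`: `z` in `B2`, not in `B1^`, `ex B1^ t z` in `B`; `z <> c`, so `z` is not in `B1`, and `ex B1^ t z = ex B1 c z`.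
(b) `B1` in `G`, `x <> c`, `B2` in `G`: exchange `(B1^, B2^, x)`: `z` in `B2^`, not in `B1^`, `ex B1^ x z` in `B`. `z <> t`, `z <> c`, so `z` in `B2 \ B1`. Let
    `Z = ex B1 x z`; `Z^ = ex B1^ x z` in `B`. `Z` in `B`: done. Otherwise `Z` in `Sct` (`c` in `Z`, `t` not in `Z`), adjacent to `B1`: in `G`.
(c) `B1` in `G`, `x <> c`, `B2` in `B`: exchange `(B1^, B2, x)`: `z` in `B2`, not in `B1^` (so `z <> t`), `ex B1^ x z` in `B`. If `z <> c`: as in (b). If `z = c`:
    `ex B1^ x c = ex B1 x t` in `B`. If `t` in `B2`: take `t`. If not: exchange `(ex B1 x t, B2, t)` gives `w` in `B2`, not in `ex B1 x t`, with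
    `ex (ex B1 x t) t w = ex B1 x w` in `B`; `w <> x` because `x` is not in `B2`; so `w` is not in `B1`.
(d) `B1` in `B`, `B2` in `G`. `I = B1.erase x`. Suppose for all `z` in `B2`, not in `B1`: `insert z I` is neither in `B` nor in `G`. By `no_base`
    (`x` not in `B2`) no base is contained in `F = I cup B2`. Hence `t` not in `F` (otherwise `B2^` is contained in `F`).
    `insert t I` in `B`: clear if `t = x`; if `t <> x` then `t` is not in `B1`; exchange `(B1, B2^, x)` (`x` not in `B2^`) gives `z` in `B2^`, not in `B1`,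
    `insert z I` in `B`, so `z` is not in `B2`, so `z = t`.
    Claim 1: there is `z` in `B2`, not in `B1`, with `Z = insert z I` in `Sct r B c t`. If `c` not in `I`: then `c` is not in `B1` (`c = x` is impossible since
    `c` in `B2`); `z = c`: `ex Z c t = insert t I` in `B`. If `c` in `I`: exchange `(insert t I, B2^, c)`: `c` is not in `B2^`; `z` in `B2^`, not in
    `insert t I`, `ex (insert t I) c z` in `B`; `z <> t`, `z` in `B2`, `z <> x`, so `z` not in `B1`; `ex (insert z I) c t = ex (insert t I) c z`.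
    `Z` is a nonbase since it is contained in `F`.
    Claim 2: every `Z` in `Sct r B c t` contained in `F` is in the component of `B2` (so in `G`). Induction on `(Z \ B2).card`: if `0`, `Z = B2`. Otherwise
    `x'` in `Z`, not in `B2`, `x' <> c`; exchange `(Z^, B2^, x')` (`x' <> t`, `x'` not in `B2^`): `z'` in `B2^`, not in `Z^`, so `z'` in `B2`, not in `Z` (`z' <> t`, `z' <> c`),
    `ex Z^ x' z'` in `B`. `Z' = ex Z x' z'` is contained in `F`, so a nonbase, `Z'^ = ex Z^ x' z'`, so `Z'` in `Sct`, adjacent to `Z`.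
    Contradiction: the `Z` of claim 1 is in `G`. -/

open scoped BigOperators
open Filter

namespace Pool.Agent.H13.VM

open Pool.Agent.H28.Johnson

private lemma A6_back {n : ℕ} {X : Finset (Fin n)} {c t z : Fin n} (ht : t ∉ X) :
    ex (ex X c t) t z = ex X c z := by
  ext w
  rw [mem_ex, mem_ex, mem_ex]
  constructor
  · rintro (h | ⟨h1, h2 | h2⟩)
    · exact Or.inl h
    · exact absurd h2 h1
    · exact Or.inr h2
  · rintro (h | h)
    · exact Or.inl h
    · exact Or.inr ⟨fun h3 => ht (h3 ▸ h.2), Or.inr h⟩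

private lemma A6_swap {n : ℕ} {X : Finset (Fin n)} {c t x z : Fin n} (hxt : x ≠ t) (hzc : z ≠ c) :
    ex (ex X c t) x z = ex (ex X x z) c t := by
  ext w
  rw [mem_ex, mem_ex, mem_ex, mem_ex]
  constructor
  · rintro (h | ⟨h1, h2 | h2⟩)
    · exact Or.inr ⟨by rw [h]; exact hzc, Or.inl h⟩
    · exact Or.inl h2
    · exact Or.inr ⟨h2.1, Or.inr ⟨h1, h2.2⟩⟩
  · rintro (h | ⟨h1, h2 | h2⟩)
    · exact Or.inr ⟨by rw [h]; exact hxt.symm, Or.inl h⟩
    · exact Or.inl h2
    · exact Or.inr ⟨h2.1, Or.inr ⟨h1, h2.2⟩⟩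

private lemma A6_third {n : ℕ} {X : Finset (Fin n)} {c t x : Fin n} (hxt : x ≠ t) (hxc : x ≠ c)
    (hc : c ∈ X) : ex (ex X c t) x c = ex X x t := by
  ext w
  rw [mem_ex, mem_ex, mem_ex]
  constructor
  · rintro (h | ⟨h1, h2 | h2⟩)
    · exact Or.inr ⟨by rw [h]; exact hxc.symm, by rw [h]; exact hc⟩
    · exact Or.inl h2
    · exact Or.inr ⟨h1, h2.2⟩
  · rintro (h | ⟨h1, h2⟩)
    · exact Or.inr ⟨by rw [h]; exact hxt.symm, Or.inl h⟩
    · by_cases hw : w = c
      · exact Or.inl hw
      · exact Or.inr ⟨h1, Or.inr ⟨hw, h2⟩⟩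

/-- one step inside a component -/
private lemma A6_step {n r : ℕ} {B G : Finset (Finset (Fin n))} {c t : Fin n}
    (hG : Closed r (Sct r B c t) G) {X : Finset (Fin n)} (hX : X ∈ G) {x z : Fin n} (hx : x ∈ X)
    (hxc : x ≠ c) (hz : z ∉ X) (hzt : z ≠ t) (hB : ex (ex X c t) x z ∈ B) :
    ex X x z ∈ B ∪ G := by
  by_cases hZ : ex X x z ∈ B
  · exact Finset.mem_union_left _ hZ
  · refine Finset.mem_union_right _ ?_
    obtain ⟨h1, hc, ht, h2⟩ := mem_Sct.mp (hG.1 hX)
    have hcard : X.card = r := (mem_NB.mp h1).1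
    have hzc : z ≠ c := fun h => hz (h ▸ hc)
    have hxt : x ≠ t := fun h => ht (h ▸ hx)
    refine hG.2 X hX _ ?_ (adj_ex hcard hx hz)
    refine mem_Sct.mpr ⟨mem_NB.mpr ⟨(ex_card hx hz).trans hcard, hZ⟩, ?_, ?_, ?_⟩
    · exact mem_ex.mpr (Or.inr ⟨hxc.symm, hc⟩)
    · rw [mem_ex]
      rintro (h | h)
      · exact hzt h.symm
      · exact ht h.2
    · rw [← A6_swap hxt hzc]
      exact hB

/-- case (d): `X` in `B`, `Y` in `G` -/
private lemma A6_d {n r : ℕ} {B : Finset (Finset (Fin n))} (h : IsMat n r B) {c t : Fin n}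
    (hct : c ≠ t) {G : Finset (Finset (Fin n))} (hG : Closed r (Sct r B c t) G)
    {X Y : Finset (Fin n)} (hX : X ∈ B) (hY : Y ∈ G) {x : Fin n} (hx : x ∈ X) (hxY : x ∉ Y) :
    ∃ y ∈ Y, y ∉ X ∧ ex X x y ∈ B ∪ G := by
  by_contra hcon
  push Not at hcon
  obtain ⟨hYN, hcY, htY, hYB⟩ := mem_Sct.mp (hG.1 hY)
  have hXc : X.card = r := h.card_eq hX
  have hYc : Y.card = r := (mem_NB.mp hYN).1
  have hxI : x ∉ X.erase x := Finset.notMem_erase _ _
  have hins : insert x (X.erase x) = X := Finset.insert_erase hx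
  have hIc : (X.erase x).card + 1 = r := by
    rw [Finset.card_erase_of_mem hx]
    have := Finset.card_pos.mpr ⟨x, hx⟩
    omega
  have hnX : ∀ y ∈ Y, y ∉ X.erase x → y ∉ X := by
    intro y hy hyI hyX
    exact hyI (Finset.mem_erase.mpr ⟨fun h1 => hxY (h1 ▸ hy), hyX⟩)
  have hno : ∀ Z ∈ B, ¬ Z ⊆ X.erase x ∪ Y := by
    refine no_base h hxI hxY (by rw [hins]; exact hX) ?_
    intro y hy hyI hyB
    exact hcon y hy (hnX y hy hyI) (Finset.mem_union_left _ hyB)
  have hxc : x ≠ c := fun h1 => hxY (h1 ▸ hcY)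
  -- `t` is not in `F`
  have htI : t ∉ X.erase x := by
    intro h1
    refine hno _ hYB ?_
    intro w hw
    rcases mem_ex.mp hw with h2 | h2
    · rw [h2]; exact Finset.mem_union_left _ h1
    · exact Finset.mem_union_right _ h2.2
  have hcYt : c ∉ ex Y c t := notMem_ex hct
  have hYsub : ∀ w ∈ ex Y c t, w ≠ t → w ∈ Y := by
    intro w hw hwt
    rcases mem_ex.mp hw with h2 | h2
    · exact absurd h2 hwt
    · exact h2.2
  -- `insert t I` is a base
  have htB : insert t (X.erase x) ∈ B := by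
    by_cases htx : t = x
    · rw [htx, hins]; exact hX
    · have htX : t ∉ X := fun h1 => htI (Finset.mem_erase.mpr ⟨htx, h1⟩)
      have hxYt : x ∉ ex Y c t := by
        rw [mem_ex]
        rintro (h2 | h2)
        · exact htx h2.symm
        · exact hxY h2.2
      obtain ⟨z, hz, hzX, hzB⟩ := h.exch hX hYB hx hxYt
      by_cases hzt : z = t
      · rw [hzt] at hzB; exact hzB
      · exact absurd (Finset.mem_union_left _ hzB) (hcon z (hYsub z hz hzt) hzX)
  -- subsets of `F` with `r` elements are nonbases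
  have hNB : ∀ Z : Finset (Fin n), Z.card = r → Z ⊆ X.erase x ∪ Y → Z ∈ NB r B := by
    intro Z hZc hZF
    exact mem_NB.mpr ⟨hZc, fun hZB => hno Z hZB hZF⟩
  have hinsc : ∀ z, z ∉ X.erase x → (insert z (X.erase x)).card = r := by
    intro z hz
    rw [Finset.card_insert_of_notMem hz]
    exact hIc
  have hinsF : ∀ z ∈ Y, insert z (X.erase x) ⊆ X.erase x ∪ Y := by
    intro z hz
    exact Finset.insert_subset (Finset.mem_union_right _ hz) Finset.subset_union_left
  -- claim 1
  have hcl1 : ∃ z ∈ Y, z ∉ X ∧ insert z (X.erase x) ∈ Sct r B c t := by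
    by_cases hcI : c ∈ X.erase x
    · have hcT : c ∈ insert t (X.erase x) := Finset.mem_insert_of_mem hcI
      obtain ⟨z, hz, hzT, hzB⟩ := h.exch htB hYB hcT hcYt
      have hzt : z ≠ t := fun h1 => hzT (h1 ▸ Finset.mem_insert_self _ _)
      have hzI : z ∉ X.erase x := fun h1 => hzT (Finset.mem_insert_of_mem h1)
      have hzY : z ∈ Y := hYsub z hz hzt
      have hzc : z ≠ c := fun h1 => hcYt (h1 ▸ hz)
      refine ⟨z, hzY, hnX z hzY hzI, mem_Sct.mpr ⟨hNB _ (hinsc z hzI) (hinsF z hzY), ?_, ?_, ?_⟩⟩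
      · exact Finset.mem_insert_of_mem hcI
      · rw [Finset.mem_insert]
        rintro (h2 | h2)
        · exact hzt h2.symm
        · exact htI h2
      · have h3 : ex (insert z (X.erase x)) c t = ex (insert t (X.erase x)) c z := by
          ext w
          rw [mem_ex, mem_ex, Finset.mem_insert, Finset.mem_insert]
          constructor
          · rintro (h4 | ⟨h4, h5 | h5⟩)
            · exact Or.inr ⟨by rw [h4]; exact hct.symm, Or.inl h4⟩
            · exact Or.inl h5
            · exact Or.inr ⟨h4, Or.inr h5⟩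
          · rintro (h4 | ⟨h4, h5 | h5⟩)
            · exact Or.inr ⟨by rw [h4]; exact hzc, Or.inl h4⟩
            · exact Or.inl h5
            · exact Or.inr ⟨h4, Or.inr h5⟩
        rw [h3]
        exact hzB
    · refine ⟨c, hcY, hnX c hcY hcI, mem_Sct.mpr ⟨hNB _ (hinsc c hcI) (hinsF c hcY), ?_, ?_, ?_⟩⟩
      · exact Finset.mem_insert_self _ _
      · rw [Finset.mem_insert]
        rintro (h2 | h2)
        · exact hct h2.symm
        · exact htI h2
      · have h3 : ex (insert c (X.erase x)) c t = insert t (X.erase x) := by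
          unfold ex
          rw [Finset.erase_insert hcI]
        rw [h3]
        exact htB
  -- claim 2
  have hcl2 : ∀ (k : ℕ) (Z : Finset (Fin n)), (Z \ Y).card = k → Z ∈ Sct r B c t →
      Z ⊆ X.erase x ∪ Y → Z ∈ G := by
    intro k
    induction k with
    | zero =>
      intro Z hk hZ _
      obtain ⟨hZN, _, _, _⟩ := mem_Sct.mp hZ
      have hZY : Z ⊆ Y := Finset.sdiff_eq_empty_iff_subset.mp (Finset.card_eq_zero.mp hk)
      have hZe : Z = Y := Finset.eq_of_subset_of_card_le hZY (by rw [hYc, (mem_NB.mp hZN).1])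
      rw [hZe]; exact hY
    | succ k ih =>
      intro Z hk hZ hZF
      obtain ⟨hZN, hcZ, htZ, hZB⟩ := mem_Sct.mp hZ
      have hZc : Z.card = r := (mem_NB.mp hZN).1
      have hne : (Z \ Y).Nonempty := Finset.card_pos.mp (by omega)
      obtain ⟨x', hx'⟩ := hne
      have hx'Z : x' ∈ Z := (Finset.mem_sdiff.mp hx').1
      have hx'Y : x' ∉ Y := (Finset.mem_sdiff.mp hx').2
      have hx'c : x' ≠ c := fun h1 => hx'Y (h1 ▸ hcY)
      have hx't : x' ≠ t := fun h1 => htZ (h1 ▸ hx'Z)
      have h1 : x' ∈ ex Z c t := mem_ex.mpr (Or.inr ⟨hx'c, hx'Z⟩)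
      have h2 : x' ∉ ex Y c t := by
        rw [mem_ex]
        rintro (h3 | h3)
        · exact hx't h3
        · exact hx'Y h3.2
      obtain ⟨z, hz, hzZ, hzB⟩ := h.exch hZB hYB h1 h2
      have hzt : z ≠ t := fun h3 => hzZ (h3 ▸ left_mem_ex)
      have hzY : z ∈ Y := hYsub z hz hzt
      have hzc : z ≠ c := fun h3 => hcYt (h3 ▸ hz)
      have hzZ' : z ∉ Z := fun h3 => hzZ (mem_ex.mpr (Or.inr ⟨hzc, h3⟩))
      have hcard : (ex Z x' z).card = r := (ex_card hx'Z hzZ').trans hZc
      have hF : ex Z x' z ⊆ X.erase x ∪ Y := by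
        intro w hw
        rcases mem_ex.mp hw with h3 | h3
        · rw [h3]; exact Finset.mem_union_right _ hzY
        · exact hZF h3.2
      have hS : ex Z x' z ∈ Sct r B c t := by
        refine mem_Sct.mpr ⟨hNB _ hcard hF, mem_ex.mpr (Or.inr ⟨hx'c.symm, hcZ⟩), ?_, ?_⟩
        · rw [mem_ex]
          rintro (h3 | h3)
          · exact hzt h3.symm
          · exact htZ h3.2
        · rw [← A6_swap hx't hzc]
          exact hzB
      have hk' : (ex Z x' z \ Y).card = k := by
        have h3 : ex Z x' z \ Y = (Z \ Y).erase x' := by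
          ext w
          rw [Finset.mem_sdiff, mem_ex, Finset.mem_erase, Finset.mem_sdiff]
          constructor
          · rintro ⟨h4 | h4, h5⟩
            · exact absurd (h4 ▸ hzY) h5
            · exact ⟨h4.1, h4.2, h5⟩
          · rintro ⟨h4, h5, h6⟩
            exact ⟨Or.inr ⟨h4, h5⟩, h6⟩
        rw [h3, Finset.card_erase_of_mem hx', hk]
        omega
      have hZG := ih _ hk' hS hF
      refine hG.2 _ hZG Z hZ ?_
      exact adj_symm (adj_ex hZc hx'Z hzZ')
  obtain ⟨z, hzY, hzX, hzS⟩ := hcl1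
  have hzI : z ∉ X.erase x := fun h1 => hzX (Finset.mem_of_mem_erase h1)
  have := hcl2 _ _ rfl hzS (hinsF z hzY)
  exact hcon z hzY hzX (Finset.mem_union_right _ this)

theorem flip {n r : ℕ} {B : Finset (Finset (Fin n))} (h : IsMat n r B) {c t : Fin n} (hct : c ≠ t)
    {G : Finset (Finset (Fin n))} (hG : Closed r (Sct r B c t) G) : IsMat n r (B ∪ G) := by
  refine ⟨?_, ?_, ?_⟩
  · intro X hX
    rcases Finset.mem_union.mp hX with h1 | h1
    · exact h.1 h1
    · exact mem_Base.mpr (mem_NB.mp (mem_Sct.mp (hG.1 h1)).1).1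
  · exact h.2.1.mono Finset.subset_union_left
  · intro X hX Y hY x hx
    rw [Finset.mem_sdiff] at hx
    obtain ⟨hxX, hxY⟩ := hx
    suffices hs : ∃ y ∈ Y, y ∉ X ∧ ex X x y ∈ B ∪ G by
      obtain ⟨y, h1, h2, h3⟩ := hs
      exact ⟨y, Finset.mem_sdiff.mpr ⟨h1, h2⟩, h3⟩
    rcases Finset.mem_union.mp hX with hXB | hXG
    · rcases Finset.mem_union.mp hY with hYB | hYG
      · obtain ⟨y, h1, h2, h3⟩ := h.exch hXB hYB hxX hxY
        exact ⟨y, h1, h2, Finset.mem_union_left _ h3⟩
      · exact A6_d h hct hG hXB hYG hxX hxY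
    · obtain ⟨hXN, hcX, htX, hXB⟩ := mem_Sct.mp (hG.1 hXG)
      have hXc : X.card = r := (mem_NB.mp hXN).1
      by_cases hxc : x = c
      · -- case (a)
        subst hxc
        have hYB : Y ∈ B := by
          rcases Finset.mem_union.mp hY with h1 | h1
          · exact h1
          · exact absurd (mem_Sct.mp (hG.1 h1)).2.1 hxY
        by_cases htY : t ∈ Y
        · exact ⟨t, htY, htX, Finset.mem_union_left _ hXB⟩
        · obtain ⟨z, hz, hzX, hzB⟩ := h.exch hXB hYB left_mem_ex htY
          have hzc : z ≠ x := fun h1 => hxY (h1 ▸ hz)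
          refine ⟨z, hz, fun h1 => hzX (mem_ex.mpr (Or.inr ⟨hzc, h1⟩)), ?_⟩
          rw [A6_back htX] at hzB
          exact Finset.mem_union_left _ hzB
      · have hxt : x ≠ t := fun h1 => htX (h1 ▸ hxX)
        have hxe : x ∈ ex X c t := mem_ex.mpr (Or.inr ⟨hxc, hxX⟩)
        by_cases hYG : Y ∈ G
        · -- case (b)
          obtain ⟨hYN, hcY, htY, hYB⟩ := mem_Sct.mp (hG.1 hYG)
          have hxYe : x ∉ ex Y c t := by
            rw [mem_ex]
            rintro (h1 | h1)
            · exact hxt h1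
            · exact hxY h1.2
          obtain ⟨z, hz, hzX, hzB⟩ := h.exch hXB hYB hxe hxYe
          have hzt : z ≠ t := fun h1 => hzX (h1 ▸ left_mem_ex)
          have hzc : z ≠ c := fun h1 => notMem_ex hct (h1 ▸ hz)
          have hzY : z ∈ Y := by
            rcases mem_ex.mp hz with h1 | h1
            · exact absurd h1 hzt
            · exact h1.2
          have hzX' : z ∉ X := fun h1 => hzX (mem_ex.mpr (Or.inr ⟨hzc, h1⟩))
          exact ⟨z, hzY, hzX', A6_step hG hXG hxX hxc hzX' hzt hzB⟩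
        · -- case (c)
          have hYB : Y ∈ B := by
            rcases Finset.mem_union.mp hY with h1 | h1
            · exact h1
            · exact absurd h1 hYG
          obtain ⟨z, hz, hzX, hzB⟩ := h.exch hXB hYB hxe hxY
          have hzt : z ≠ t := fun h1 => hzX (h1 ▸ left_mem_ex)
          by_cases hzc : z = c
          · rw [hzc, A6_third hxt hxc hcX] at hzB
            by_cases htY : t ∈ Y
            · exact ⟨t, htY, htX, Finset.mem_union_left _ hzB⟩
            · obtain ⟨w, hw, hwX, hwB⟩ := h.exch hzB hYB left_mem_ex htY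
              have hwx : w ≠ x := fun h1 => hxY (h1 ▸ hw)
              refine ⟨w, hw, fun h1 => hwX (mem_ex.mpr (Or.inr ⟨hwx, h1⟩)), ?_⟩
              rw [A6_back htX] at hwB
              exact Finset.mem_union_left _ hwB
          · have hzX' : z ∉ X := fun h1 => hzX (mem_ex.mpr (Or.inr ⟨hzc, h1⟩))
            exact ⟨z, hz, hzX', A6_step hG hXG hxX hxc hzX' hzt hzB⟩

end Pool.Agent.H13.VM
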