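import Pool.Agent.H13.VM.A2

/-! MODULE A7 (about 80 lines). GROWTH. `B1, B2` matroids with the same bases among the `r`-sets without `c`, and every nonbase of `B1`
containing `c` and `t` is a nonbase of `B2`. If `X, Y` in `Sct r B1 c t` are adjacent and `X` is a nonbase of `B2` then so is `Y`.

Proof. `exists_ex`: `Y = ex X y z`, `y` in `X`, not in `Y`, `z` in `Y`, not in `X`; `c` in `Y` gives `y <> c`, `t` not in `Y` gives `z <> t`. `local_test'` in `B1`
(`ex X y z` not in `B1`): case 1: `X.erase y` in `fullI r B1`. Then `ex X y t` is not in `B1`; it contains `c` and `t`, so it is not in `B2`.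
`local_test'` in `B2` for `X` and `ex X y t`: either `X.erase y` in `fullI r B2`, so `Y = insert z (X.erase y)` is not in `B2`: done; or `insert t X` in
`fullU r B2`, then `(insert t X).erase c = ex X c t` is not in `B2`; but it is in `B1` and does not contain `c`: contradiction.
Case 2: `insert z X` in `fullU r B1`: `(insert z X).erase c = ex X c z` is not in `B1`, does not contain `c`, so is not in `B2`. `local_test'` in `B2` for `X` and
`ex X c z`: `X.erase c` in `fullI r B2` is impossible (`ex X c t` is in `B2`, as before); so `insert z X` in `fullU r B2` and `Y = (insert z X).erase y` is not in `B2`. -/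

open scoped BigOperators
open Filter

namespace Pool.Agent.H13.VM

open Pool.Agent.H28.Johnson

theorem growth {n r : ℕ} {B1 B2 : Finset (Finset (Fin n))} (h1 : IsMat n r B1) (h2 : IsMat n r B2)
    {c t : Fin n} (hc : ∀ X : Finset (Fin n), c ∉ X → (X ∈ B1 ↔ X ∈ B2))
    (ht : ∀ X ∈ NB r B1, c ∈ X → t ∈ X → X ∉ B2) {X Y : Finset (Fin n)}
    (hX : X ∈ Sct r B1 c t) (hY : Y ∈ Sct r B1 c t) (hXY : adj r X Y) (hX2 : X ∉ B2) : Y ∉ B2 := by
  classical
  rw [mem_Sct] at hX hY
  obtain ⟨hXN, hcX, htX, hXt⟩ := hX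
  obtain ⟨hYN, hcY, htY, hYt⟩ := hY
  obtain ⟨y, hy, z, hz, hyY, hzY, rfl⟩ := exists_ex (mem_NB.mp hXN).1 (mem_NB.mp hYN).1 hXY
  have hct : c ≠ t := fun h => htX (h ▸ hcX)
  have hyc : y ≠ c := fun h => hyY (h ▸ hcY)
  have hzt : z ≠ t := fun h => htY (h ▸ hzY)
  have hXr : X.card = r := (mem_NB.mp hXN).1
  have hX2N : X ∈ NB r B2 := mem_NB.mpr ⟨hXr, hX2⟩
  -- `ex X c t` is a base of `B2`
  have hcex : c ∉ ex X c t := notMem_ex hct
  have hXt2 : ex X c t ∈ B2 := (hc _ hcex).mp hXt
  rcases local_test' h1 hXN hy hz (mem_NB.mp hYN).2 with hI | hU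
  · -- the I-line of `X - y` is full in `B1`
    rw [mem_fullI] at hI
    have h3 : ex X y t ∉ B1 := by
      apply hI.2
      intro h
      exact htX (Finset.mem_of_mem_erase h)
    have h4 : ex X y t ∈ NB r B1 := by
      rw [mem_NB]
      exact ⟨by rw [ex_card hy htX, hXr], h3⟩
    have h5 : ex X y t ∉ B2 := by
      refine ht _ h4 ?_ left_mem_ex
      rw [mem_ex]
      exact Or.inr ⟨hyc.symm, hcX⟩
    rcases local_test' h2 hX2N hy htX h5 with h6 | h6
    · rw [mem_fullI] at h6
      apply h6.2
      intro h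
      exact hz (Finset.mem_of_mem_erase h)
    · exfalso
      rw [mem_fullU] at h6
      have h7 := h6.2 c (Finset.mem_insert_of_mem hcX)
      rw [Finset.erase_insert_of_ne hct.symm] at h7
      exact h7 hXt2
  · -- the U-line of `X + z` is full in `B1`
    rw [mem_fullU] at hU
    have hcz : c ≠ z := fun h => hz (h ▸ hcX)
    have h3 : ex X c z ∉ B1 := by
      have h7 := hU.2 c (Finset.mem_insert_of_mem hcX)
      rw [Finset.erase_insert_of_ne hcz.symm] at h7
      exact h7
    have h4 : ex X c z ∉ B2 := fun h => h3 ((hc _ (notMem_ex hcz)).mpr h)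
    rcases local_test' h2 hX2N hcX hz h4 with h6 | h6
    · exfalso
      rw [mem_fullI] at h6
      apply h6.2 t _ hXt2
      intro h
      exact htX (Finset.mem_of_mem_erase h)
    · rw [mem_fullU] at h6
      have h7 := h6.2 y (Finset.mem_insert_of_mem hy)
      rw [Finset.erase_insert_of_ne (ne_of_mem_notMem hy hz).symm] at h7
      exact h7

end Pool.Agent.H13.VM
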