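import Pool.Agent.H13.VM.A6
import Pool.Agent.H13.VM.A7

/-! MODULE A8 (about 90 lines). Flips and their inverse.

`fl_isMat`: `comp_closed` and `flip`. `fl_out`: outside block(c,t) nothing changes; `fl_base`: only nonbases in the block become bases. `fl_seed`: `X0` becomes a base.
`unflip`: let `B' = fl r B1 c t X0 = fl r B2 c t X0`, `X0` in `Sct r Bi c t`. For every `r`-set outside the block (`c` not in `X` or `t` in `X`) membership in
`B1`, `B'`, `B2` agree. Show `comp r (Sct r B1 c t) X0` is contained in `comp r (Sct r B2 c t) X0`: by `comp_induction` the property `Y` in the second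
component propagates: if `Y` has it and `Z` in `Sct r B1 c t` is adjacent to `Y`: `growth` (hypotheses hold: agreement outside the block) gives `Z` not in `B2`; `ex Z c t`
does not contain `c`, is in `B1`, so in `B2`; so `Z` in `Sct r B2 c t`, adjacent to `Y`: in the component (`comp_closed`). By symmetry the two components are
equal; `B1 = B'` minus it (a component consists of nonbases), same for `B2`. -/

open scoped BigOperators
open Filter

namespace Pool.Agent.H13.VM

open Pool.Agent.H28.Johnson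

theorem fl_isMat {n r : ℕ} {B : Finset (Finset (Fin n))} (h : IsMat n r B) {c t : Fin n} (hct : c ≠ t) (X0 : Finset (Fin n)) :
    IsMat n r (fl r B c t X0) :=
  flip h hct (comp_closed _ _)

theorem subset_fl {n r : ℕ} {B : Finset (Finset (Fin n))} (c t : Fin n) (X0 : Finset (Fin n)) : B ⊆ fl r B c t X0 :=
  fun _ hX => mem_fl.mpr (Or.inl hX)

/-- only nonbases in block(c,t) change -/
theorem fl_block {n r : ℕ} {B : Finset (Finset (Fin n))} {c t : Fin n} {X0 X : Finset (Fin n)}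
    (hX : X ∈ fl r B c t X0) (hB : X ∉ B) : X ∈ NB r B ∧ c ∈ X ∧ t ∉ X := by
  rcases mem_fl.mp hX with h | h
  · exact absurd h hB
  · have h1 := mem_Sct.mp (mem_comp.mp h).1
    exact ⟨h1.1, h1.2.1, h1.2.2.1⟩

theorem fl_seed {n r : ℕ} {B : Finset (Finset (Fin n))} {c t : Fin n} {X0 : Finset (Fin n)} (h0 : X0 ∈ Sct r B c t) :
    X0 ∈ fl r B c t X0 :=
  mem_fl.mpr (Or.inr (self_mem_comp h0))

/-- agreement outside the block -/
private theorem unflip_out {n r : ℕ} {B1 B2 : Finset (Finset (Fin n))}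
    {c t : Fin n} {X0 : Finset (Fin n)} (heq : fl r B1 c t X0 = fl r B2 c t X0)
    {X : Finset (Fin n)} (hX : c ∉ X ∨ t ∈ X) (h : X ∈ B1) : X ∈ B2 := by
  by_contra h2
  have h3 : X ∈ fl r B2 c t X0 := heq ▸ (subset_fl c t X0 h)
  have h4 := fl_block h3 h2
  exact hX.elim (fun h5 => h5 h4.2.1) (fun h5 => h4.2.2 h5)

private theorem unflip_comp {n r : ℕ} {B1 B2 : Finset (Finset (Fin n))} (h1 : IsMat n r B1) (h2 : IsMat n r B2)
    {c t : Fin n} {X0 : Finset (Fin n)} (k2 : X0 ∈ Sct r B2 c t)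
    (heq : fl r B1 c t X0 = fl r B2 c t X0) :
    comp r (Sct r B1 c t) X0 ⊆ comp r (Sct r B2 c t) X0 := by
  intro Y hY
  refine comp_induction (fun Y => Y ∈ comp r (Sct r B2 c t) X0) (self_mem_comp k2) ?_ Y hY
  intro Y hY1 Z hZ1 hYZ hY2
  have hYS1 := (mem_comp.mp hY1).1
  have hZS1 := (mem_comp.mp hZ1).1
  have hYS2 := (mem_comp.mp hY2).1
  have hag : ∀ X : Finset (Fin n), (c ∉ X ∨ t ∈ X) → (X ∈ B1 ↔ X ∈ B2) := fun X hX =>
    ⟨fun h => unflip_out heq hX h, fun h => unflip_out heq.symm hX h⟩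
  have hZ2 : Z ∉ B2 := by
    refine growth h1 h2 (fun X hX => hag X (Or.inl hX)) ?_ hYS1 hZS1 hYZ
      (mem_NB.mp (mem_Sct.mp hYS2).1).2
    intro X hX _ htX hXB
    exact (mem_NB.mp hX).2 ((hag X (Or.inr htX)).mpr hXB)
  have hZS := mem_Sct.mp hZS1
  have hct : c ≠ t := fun h => hZS.2.2.1 (h ▸ hZS.2.1)
  have hZS2 : Z ∈ Sct r B2 c t :=
    mem_Sct.mpr ⟨mem_NB.mpr ⟨(mem_NB.mp hZS.1).1, hZ2⟩, hZS.2.1, hZS.2.2.1,
      (hag _ (Or.inl (notMem_ex hct))).mp hZS.2.2.2⟩
  exact (comp_closed _ _).2 Y hY2 Z hZS2 hYZ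

theorem unflip {n r : ℕ} {B1 B2 : Finset (Finset (Fin n))} (h1 : IsMat n r B1) (h2 : IsMat n r B2)
    {c t : Fin n} {X0 : Finset (Fin n)} (k1 : X0 ∈ Sct r B1 c t) (k2 : X0 ∈ Sct r B2 c t)
    (heq : fl r B1 c t X0 = fl r B2 c t X0) : B1 = B2 := by
  have hcomp : comp r (Sct r B1 c t) X0 = comp r (Sct r B2 c t) X0 :=
    Finset.Subset.antisymm (unflip_comp h1 h2 k2 heq) (unflip_comp h2 h1 k1 heq.symm)
  have key : ∀ {B B' : Finset (Finset (Fin n))}, fl r B c t X0 = fl r B' c t X0 →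
      comp r (Sct r B c t) X0 = comp r (Sct r B' c t) X0 → B ⊆ B' := by
    intro B B' he hc X hX
    have h3 : X ∈ fl r B' c t X0 := he ▸ (subset_fl c t X0 hX)
    rcases mem_fl.mp h3 with h4 | h4
    · exact h4
    · rw [← hc] at h4
      exact absurd hX (mem_NB.mp (mem_Sct.mp (mem_comp.mp h4).1).1).2
  exact Finset.Subset.antisymm (key heq hcomp) (key heq.symm hcomp.symm)

end Pool.Agent.H13.VM
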