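import Pool.Agent.H13.VM.A2
import Pool.Agent.H13.VM.A3

/-! MODULE A9 (about 120 lines). The neighbourhood of a nonbase `X` in `NB1` is a rectangle.

`rect`: `ex X y z` in `B` iff `y` in `CX`, `z` in `DX` (`y` in `X`, `z` not in `X`). Left to right: definitions. Right to left: `y` in `CX`: some `z'` with
`ex X y z'` in `B`; `z` in `DX`: some `y'` with `ex X y' z` in `B`. If `ex X y z` is not in `B`: `local_test'` for `X`: `X.erase y` in `fullI` contradicts
`insert z' (X.erase y) = ex X y z'` in `B`; `insert z X` in `fullU` contradicts `(insert z X).erase y' = ex X y' z` in `B`.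
`lineI_iff`: for `y` in `X`: `X.erase y` in `fullI r B` iff `y` not in `CX B X` (`insert y (X.erase y) = X` is a nonbase; the others are `ex X y z`). `lineU_iff` similarly.
`CX_dep`: `CX B X` is contained in no base. Let `B0` be a base containing `CX`. `X` in `NB1`: `X1 = ex X y0 z0` in `B`, `y0` in `CX`, `z0` in `DX`. `y0` in `B0`, not in
`X1`; `dual_exch (X1, B0, y0)`: `y'` in `X1`, not in `B0`, `ex X1 y' y0` in `B`. `y' = z0`: `ex X1 z0 y0 = X`, a nonbase. Otherwise `y'` in `X`, and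
`ex X1 y' y0 = ex X y' z0` in `B`, so `y'` in `CX`, contained in `B0`: contradiction.
`CX_erase`: for `y` in `CX` and any `z` in `DX`, `(CX).erase y` is contained in the base `ex X y z`. `HX_no_base`: no base is contained in `HX B X` (dual argument
with exchange: base `B0` inside `HX`, `z0` in `X1`, not in `B0`; exchange `(X1, B0, z0)`: `w` in `B0`, not in `X1`, `ex X1 z0 w` in `B`; `w = y0` gives `X`; otherwise
`w` not in `X`, `ex X1 z0 w = ex X y0 w` in `B`, so `w` in `DX`). `X` is contained in `HX`, `CX` in `X`. -/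

open scoped BigOperators
open Filter

namespace Pool.Agent.H13.VM

open Pool.Agent.H28.Johnson

theorem rect {n r : ℕ} {B : Finset (Finset (Fin n))} (h : IsMat n r B) {X : Finset (Fin n)} (hX : X ∈ NB r B)
    {y z : Fin n} (hy : y ∈ X) (hz : z ∉ X) : ex X y z ∈ B ↔ y ∈ CX B X ∧ z ∈ DX B X := by
  constructor
  · intro hB
    exact ⟨mem_CX.mpr ⟨hy, z, hz, hB⟩, mem_DX.mpr ⟨hz, y, hy, hB⟩⟩
  · rintro ⟨h1, h2⟩
    obtain ⟨_, z', hz', hB1⟩ := mem_CX.mp h1
    obtain ⟨_, y', hy', hB2⟩ := mem_DX.mp h2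
    by_contra hB
    rcases local_test' h hX hy hz hB with h3 | h3
    · refine (mem_fullI.mp h3).2 z' (fun h4 => hz' (Finset.mem_of_mem_erase h4)) ?_
      exact hB1
    · refine (mem_fullU.mp h3).2 y' (Finset.mem_insert_of_mem hy') ?_
      have h4 : (insert z X).erase y' = ex X y' z := by
        unfold ex
        rw [Finset.erase_insert_of_ne]
        exact fun h5 => hz (h5 ▸ hy')
      rw [h4]
      exact hB2

theorem lineI_iff {n r : ℕ} {B : Finset (Finset (Fin n))} {X : Finset (Fin n)} (hX : X ∈ NB r B) {y : Fin n} (hy : y ∈ X) :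
    X.erase y ∈ fullI r B ↔ y ∉ CX B X := by
  obtain ⟨hc, hXB⟩ := mem_NB.mp hX
  constructor
  · intro h1 h2
    obtain ⟨_, z, hz, hB⟩ := mem_CX.mp h2
    exact (mem_fullI.mp h1).2 z (fun h4 => hz (Finset.mem_of_mem_erase h4)) hB
  · intro h1
    refine mem_fullI.mpr ⟨?_, ?_⟩
    · rw [Finset.card_erase_of_mem hy]
      have := Finset.card_pos.mpr ⟨y, hy⟩
      omega
    · intro z hz hB
      by_cases hzX : z ∈ X
      · have hzy : z = y := by
          by_contra h3
          exact hz (Finset.mem_erase.mpr ⟨h3, hzX⟩)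
        rw [hzy, Finset.insert_erase hy] at hB
        exact hXB hB
      · exact h1 (mem_CX.mpr ⟨hy, z, hzX, hB⟩)

theorem lineU_iff {n r : ℕ} {B : Finset (Finset (Fin n))} {X : Finset (Fin n)} (hX : X ∈ NB r B) {z : Fin n} (hz : z ∉ X) :
    insert z X ∈ fullU r B ↔ z ∉ DX B X := by
  obtain ⟨hc, hXB⟩ := mem_NB.mp hX
  have hex : ∀ y ∈ X, (insert z X).erase y = ex X y z := by
    intro y hy
    unfold ex
    rw [Finset.erase_insert_of_ne]
    exact fun h5 => hz (h5 ▸ hy)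
  constructor
  · intro h1 h2
    obtain ⟨_, y, hy, hB⟩ := mem_DX.mp h2
    refine (mem_fullU.mp h1).2 y (Finset.mem_insert_of_mem hy) ?_
    rw [hex y hy]
    exact hB
  · intro h1
    refine mem_fullU.mpr ⟨?_, ?_⟩
    · rw [Finset.card_insert_of_notMem hz, hc]
    · intro y hy hB
      rcases Finset.mem_insert.mp hy with h2 | h2
      · rw [h2, Finset.erase_insert hz] at hB
        exact hXB hB
      · rw [hex y h2] at hB
        exact h1 (mem_DX.mpr ⟨hz, y, h2, hB⟩)

theorem CX_dep {n r : ℕ} {B : Finset (Finset (Fin n))} (h : IsMat n r B) {X : Finset (Fin n)} (hX : X ∈ NB1 r B) :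
    Dep B (CX B X) := by
  obtain ⟨hXN, y0, hy0, z0, hz0, hB0⟩ := mem_NB1.mp hX
  intro B0 hB hsub
  have hy0C : y0 ∈ CX B X := mem_CX.mpr ⟨hy0, z0, hz0, hB0⟩
  have hy1 : y0 ∉ ex X y0 z0 := notMem_ex (ne_of_mem_notMem hy0 hz0)
  obtain ⟨y', hy', hy'B, hB'⟩ := dual_exch h hB0 hB (hsub hy0C) hy1
  rcases mem_ex.mp hy' with h1 | ⟨h1, h2⟩
  · rw [h1, ex_back hy0 hz0] at hB'
    exact (mem_NB.mp hXN).2 hB'
  · have h3 : ex (ex X y0 z0) y' y0 = ex X y' z0 := by
      ext w
      rw [mem_ex, mem_ex, mem_ex]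
      constructor
      · rintro (h4 | ⟨h4, h5 | h5⟩)
        · exact Or.inr ⟨by rw [h4]; exact h1.symm, by rw [h4]; exact hy0⟩
        · exact Or.inl h5
        · exact Or.inr ⟨h4, h5.2⟩
      · rintro (h4 | ⟨h4, h5⟩)
        · exact Or.inr ⟨by rw [h4]; exact fun h6 => hz0 (h6 ▸ h2), Or.inl h4⟩
        · by_cases hw : w = y0
          · exact Or.inl hw
          · exact Or.inr ⟨h4, Or.inr ⟨hw, h5⟩⟩
    rw [h3] at hB'
    exact hy'B (hsub (mem_CX.mpr ⟨h2, z0, hz0, hB'⟩))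

theorem HX_no_base {n r : ℕ} {B : Finset (Finset (Fin n))} (h : IsMat n r B) {X : Finset (Fin n)} (hX : X ∈ NB1 r B) :
    ∀ Y ∈ B, ¬ Y ⊆ HX B X := by
  obtain ⟨hXN, y0, hy0, z0, hz0, hB0⟩ := mem_NB1.mp hX
  intro Y hY hsub
  have hz0D : z0 ∈ DX B X := mem_DX.mpr ⟨hz0, y0, hy0, hB0⟩
  have hz0Y : z0 ∉ Y := fun h1 => mem_HX.mp (hsub h1) hz0D
  obtain ⟨w, hw, hwX, hB'⟩ := h.exch hB0 hY left_mem_ex hz0Y
  have hyz := ne_of_mem_notMem hy0 hz0
  by_cases hwy : w = y0
  · rw [hwy, ex_back hy0 hz0] at hB'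
    exact (mem_NB.mp hXN).2 hB'
  · have hwX' : w ∉ X := fun h1 => hwX (mem_ex.mpr (Or.inr ⟨hwy, h1⟩))
    have h3 : ex (ex X y0 z0) z0 w = ex X y0 w := by
      ext v
      rw [mem_ex, mem_ex, mem_ex]
      constructor
      · rintro (h4 | ⟨h4, h5 | h5⟩)
        · exact Or.inl h4
        · exact absurd h5 h4
        · exact Or.inr h5
      · rintro (h4 | h4)
        · exact Or.inl h4
        · exact Or.inr ⟨fun h6 => hz0 (h6 ▸ h4.2), Or.inr h4⟩
    rw [h3] at hB'
    exact mem_HX.mp (hsub hw) (mem_DX.mpr ⟨hwX', y0, hy0, hB'⟩)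

theorem DX_codep {n r : ℕ} {B : Finset (Finset (Fin n))} (h : IsMat n r B) {X : Finset (Fin n)} (hX : X ∈ NB1 r B) :
    Codep B (DX B X) := by
  intro Y hY hdis
  refine HX_no_base h hX Y hY ?_
  intro w hw
  rw [mem_HX]
  exact fun h1 => Finset.disjoint_left.mp hdis h1 hw

theorem CX_subset {n : ℕ} (B : Finset (Finset (Fin n))) (X : Finset (Fin n)) : CX B X ⊆ X := by
  intro y hy
  exact (mem_CX.mp hy).1

theorem subset_HX {n : ℕ} (B : Finset (Finset (Fin n))) (X : Finset (Fin n)) : X ⊆ HX B X := by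
  intro y hy
  rw [mem_HX]
  exact fun h1 => (mem_DX.mp h1).1 hy

end Pool.Agent.H13.VM
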