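import Pool.Agent.H13.VM.A8

/-! MODULE B1 (about 60 lines). FILLING A ZERO. `X` in `B`, `y` in `X`, `z` not in `X`, `X' = ex X y z` not in `B`. Then `X'` in `Sct r B z y`:
`z` in `X'`, `y` not in `X'`, `ex X' z y = X` in `B` (`ex_back`). The flip `fl r B z y X'` is a matroid (`fl_isMat`). Its bases outside `B` are nonbases
in block(z, y) (`fl_block`). The neighbours `ex X y' z'` of `X` (`y'` in `X`, `z'` not in `X`) in block(z, y): `z` in it forces `z' = z` (`z` is not in `X`),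
`y` not in it forces `y' = y` (`y <> z'`). So only `X'` changes, and it does (`fl_seed`): `zer` loses exactly `(y, z)`. -/

open scoped BigOperators
open Filter

namespace Pool.Agent.H13.VM

open Pool.Agent.H28.Johnson

theorem fill {n r : ℕ} {B : Finset (Finset (Fin n))} (h : IsMat n r B) {X : Finset (Fin n)} (hX : X ∈ B) {y z : Fin n}
    (hy : y ∈ X) (hz : z ∉ X) (hyz : ex X y z ∉ B) :
    ex X y z ∈ Sct r B z y ∧ IsMat n r (fl r B z y (ex X y z)) ∧ X ∈ fl r B z y (ex X y z) ∧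
      zer (fl r B z y (ex X y z)) X = (zer B X).erase (y, z) := by
  have hne : y ≠ z := ne_of_mem_notMem hy hz
  have hS : ex X y z ∈ Sct r B z y := by
    rw [mem_Sct, mem_NB, ex_back hy hz]
    exact ⟨⟨by rw [ex_card hy hz]; exact h.card_eq hX, hyz⟩, left_mem_ex, notMem_ex hne, hX⟩
  refine ⟨hS, fl_isMat h hne.symm _, subset_fl _ _ _ hX, ?_⟩
  ext ⟨y', z'⟩
  rw [Finset.mem_erase, mem_zer, mem_zer]
  constructor
  · rintro ⟨h1, h2, h3⟩
    refine ⟨?_, h1, h2, fun h4 => h3 (subset_fl _ _ _ h4)⟩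
    intro h4
    obtain ⟨rfl, rfl⟩ := Prod.mk.inj h4
    exact h3 (fl_seed hS)
  · rintro ⟨h0, h1, h2, h3⟩
    refine ⟨h1, h2, fun h4 => h0 ?_⟩
    obtain ⟨_, h5, h6⟩ := fl_block h4 h3
    have e1 : z' = z := by
      rcases mem_ex.mp h5 with h7 | h7
      · exact h7.symm
      · exact absurd h7.2 hz
    have e2 : y' = y := by
      by_contra h7
      exact h6 (mem_ex.mpr (Or.inr ⟨fun h8 => h7 h8.symm, hy⟩))
    rw [e1, e2]

end Pool.Agent.H13.VM
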