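import Pool.Agent.H13.VM.A5
import Pool.Agent.H8.VM.A3a_Lower

/-! MODULE B3 (about 80 lines). Many matroids. `unif`: all `r`-sets form a matroid (`r <= n`): exchange: any `y` in `Y \ X` (nonempty because the cards are
equal and `x` in `X \ Y`). `stab_isMat`: for a stable set `I` of `J(n, r)` (`stables n r` of H28), `Base n r \ I` is a matroid: `del_stable` from `unif`. The map
`I -> Base n r \ I` is injective on subsets of `Base n r`. With `Pool.Agent.H8.VM.stables_lower`: `mats_lower`. -/

open scoped BigOperators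
open Filter

namespace Pool.Agent.H13.VM

open Pool.Agent.H28.Johnson

private theorem B3_ne {n r : ℕ} {X Y : Finset (Fin n)} (hX : X.card = r) (hY : Y.card = r) {x : Fin n}
    (hx : x ∈ X \ Y) : (Y \ X).Nonempty := by
  rw [← Finset.card_pos]
  have h0 : (Y \ X).card = (X \ Y).card := by
    have e1 := Finset.card_sdiff_add_card_inter X Y
    have e2 := Finset.card_sdiff_add_card_inter Y X
    rw [Finset.inter_comm] at e2
    omega
  rw [h0]
  exact Finset.card_pos.mpr ⟨x, hx⟩

theorem unif {n r : ℕ} (hrn : r ≤ n) : IsMat n r (Base n r) := by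
  refine ⟨Finset.Subset.refl _, ?_, ?_⟩
  · obtain ⟨T, _, hT⟩ := Finset.exists_subset_card_eq
      (s := (Finset.univ : Finset (Fin n))) (n := r) (by simpa using hrn)
    exact ⟨T, mem_Base.mpr hT⟩
  · intro X hX Y hY x hx
    rw [mem_Base] at hX hY
    obtain ⟨y, hy⟩ := B3_ne hX hY hx
    rw [Finset.mem_sdiff] at hx
    refine ⟨y, hy, ?_⟩
    rw [mem_Base, Finset.card_insert_of_notMem
      fun h => (Finset.mem_sdiff.mp hy).2 (Finset.mem_of_mem_erase h),
      Finset.card_erase_add_one hx.1]
    exact hX

open Classical in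
theorem stab_isMat {n r : ℕ} (hr : 1 ≤ r) (hrn : r < n) {I : Finset (Finset (Fin n))}
    (hI : I ∈ stabs r (Base n r)) : IsMat n r (Base n r \ I) := by
  have hst := (mem_stabs.mp hI).2
  refine ⟨Finset.sdiff_subset, ?_, ?_⟩
  · -- two adjacent `r`-sets
    obtain ⟨T, hT⟩ : ∃ T : Finset (Fin n), T.card = r - 1 := by
      obtain ⟨T, _, hT⟩ := Finset.exists_subset_card_eq
        (s := (Finset.univ : Finset (Fin n))) (n := r - 1) (by simp; omega)
      exact ⟨T, hT⟩
    have hc : 2 ≤ (Tᶜ).card := by
      rw [Finset.card_compl, Fintype.card_fin]; omega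
    obtain ⟨y, hy, z, hz, hyz⟩ := Finset.one_lt_card.mp hc
    rw [Finset.mem_compl] at hy hz
    have h1 : insert y T ∈ Base n r := by
      rw [mem_Base, Finset.card_insert_of_notMem hy]; omega
    have h2 : insert z T ∈ Base n r := by
      rw [mem_Base, Finset.card_insert_of_notMem hz]; omega
    have h3 : adj r (insert y T) (insert z T) := adj_insert_insert (by omega) hy hz hyz
    by_cases h4 : insert y T ∈ I
    · exact ⟨insert z T, Finset.mem_sdiff.mpr ⟨h2, fun h5 => hst _ h4 _ h5 h3⟩⟩
    · exact ⟨insert y T, Finset.mem_sdiff.mpr ⟨h1, h4⟩⟩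
  · intro X hX Y hY x hx
    rw [Finset.mem_sdiff] at hX hY hx
    have hXc := mem_Base.mp hX.1
    have hYc := mem_Base.mp hY.1
    have hcard : (X.erase x).card + 1 = r := by
      rw [Finset.card_erase_add_one hx.1]; exact hXc
    have hins : ∀ y, y ∈ Y \ X → insert y (X.erase x) ∈ Base n r := by
      intro y hy
      rw [Finset.mem_sdiff] at hy
      rw [mem_Base, Finset.card_insert_of_notMem fun h => hy.2 (Finset.mem_of_mem_erase h)]
      exact hcard
    by_cases h1 : (Y \ X).card ≤ 1
    · -- `Y = X - x + y`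
      have h0 : (Y \ X).card = (X \ Y).card := by
        have e1 := Finset.card_sdiff_add_card_inter X Y
        have e2 := Finset.card_sdiff_add_card_inter Y X
        rw [Finset.inter_comm] at e2
        omega
      have h2 : 0 < (X \ Y).card := Finset.card_pos.mpr ⟨x, Finset.mem_sdiff.mpr hx⟩
      obtain ⟨y, hy⟩ := Finset.card_eq_one.mp (by omega : (Y \ X).card = 1)
      obtain ⟨x', hx'⟩ := Finset.card_eq_one.mp (by omega : (X \ Y).card = 1)
      have hxx : x = x' := by
        have : x ∈ X \ Y := Finset.mem_sdiff.mpr hx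
        rw [hx', Finset.mem_singleton] at this
        exact this
      have hyY : y ∈ Y \ X := by rw [hy]; exact Finset.mem_singleton_self y
      refine ⟨y, hyY, ?_⟩
      have hYe : insert y (X.erase x) = Y := by
        ext z
        rw [Finset.mem_insert, Finset.mem_erase]
        constructor
        · rintro (rfl | ⟨h3, h4⟩)
          · exact (Finset.mem_sdiff.mp hyY).1
          · by_contra h5
            have : z ∈ X \ Y := Finset.mem_sdiff.mpr ⟨h4, h5⟩
            rw [hx', Finset.mem_singleton] at this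
            exact h3 (this.trans hxx.symm)
        · intro hz
          by_cases hzX : z ∈ X
          · exact Or.inr ⟨fun h => hx.2 (h ▸ hz), hzX⟩
          · left
            have : z ∈ Y \ X := Finset.mem_sdiff.mpr ⟨hz, hzX⟩
            rw [hy, Finset.mem_singleton] at this
            exact this
      rw [hYe, Finset.mem_sdiff]
      exact hY
    · push Not at h1
      obtain ⟨y, hy, z, hz, hyz⟩ := Finset.one_lt_card.mp h1
      have hy' := Finset.mem_sdiff.mp hy
      have hz' := Finset.mem_sdiff.mp hz
      have hadj : adj r (insert y (X.erase x)) (insert z (X.erase x)) :=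
        adj_insert_insert hcard (fun h => hy'.2 (Finset.mem_of_mem_erase h))
          (fun h => hz'.2 (Finset.mem_of_mem_erase h)) hyz
      by_cases h4 : insert y (X.erase x) ∈ I
      · exact ⟨z, hz, Finset.mem_sdiff.mpr ⟨hins z hz, fun h5 => hst _ h4 _ h5 hadj⟩⟩
      · exact ⟨y, hy, Finset.mem_sdiff.mpr ⟨hins y hy, h4⟩⟩

theorem card_stabs_le {n r : ℕ} (hr : 1 ≤ r) (hrn : r < n) :
    (stabs r (Base n r)).card ≤ (Mats n r).card := by
  classical
  refine Finset.card_le_card_of_injOn (fun I => Base n r \ I) ?_ ?_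
  · intro I hI
    rw [Finset.mem_coe, mem_Mats]
    exact stab_isMat hr hrn hI
  · intro I hI J hJ h
    have hI' := (mem_stabs.mp (Finset.mem_coe.mp hI)).1
    have hJ' := (mem_stabs.mp (Finset.mem_coe.mp hJ)).1
    have h' : Base n r \ I = Base n r \ J := h
    rw [← Finset.sdiff_sdiff_eq_self hI', ← Finset.sdiff_sdiff_eq_self hJ', h']

theorem mats_lower {n r : ℕ} (hr : 1 ≤ r) (hrn : r < n) :
    (2 : ℝ) ^ ((n.choose r : ℝ) / n) ≤ ((Mats n r).card : ℝ) := by
  have h1 := Pool.Agent.H8.VM.stables_lower (n := n) (r := r) (by omega) (by omega)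
  have hst : Pool.Agent.H28.Windows.stables n r = stabs r (Base n r) := by
    ext I
    rw [Pool.Agent.H28.Windows.mem_stables, mem_stabs]
    exact Iff.rfl
  rw [hst] at h1
  have hne : (stabs r (Base n r)).Nonempty := ⟨∅, by
    rw [mem_stabs]; exact ⟨Finset.empty_subset _, by intro a ha; simp at ha⟩⟩
  have hpos : (0 : ℝ) < ((stabs r (Base n r)).card : ℝ) := by
    exact_mod_cast Finset.card_pos.mpr hne
  have h2 : (2 : ℝ) ^ ((n.choose r : ℝ) / n) ≤ ((stabs r (Base n r)).card : ℝ) := by
    rw [Real.rpow_def_of_pos (by norm_num)]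
    calc Real.exp (Real.log 2 * ((n.choose r : ℝ) / n)) ≤
        Real.exp (Real.log ((stabs r (Base n r)).card)) := by
          apply Real.exp_le_exp.mpr
          rw [mul_comm]
          exact h1
      _ = ((stabs r (Base n r)).card : ℝ) := Real.exp_log hpos
  exact h2.trans (by exact_mod_cast card_stabs_le hr hrn)

end Pool.Agent.H13.VM
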