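import Pool.Agent.H13.VM.Defs

/-! # Elementary facts on exchanges `ex X y z = X - y + z` and on adjacency -/

namespace Pool.Agent.H13.VM

open Pool.Agent.H28.Johnson

variable {n r : ℕ} {X Y : Finset (Fin n)} {x y z w : Fin n}

lemma mem_ex : x ∈ ex X y z ↔ x = z ∨ (x ≠ y ∧ x ∈ X) := by
  rw [ex, Finset.mem_insert, Finset.mem_erase]

lemma ex_card (hy : y ∈ X) (hz : z ∉ X) : (ex X y z).card = X.card := by
  rw [ex, Finset.card_insert_of_notMem (fun h => hz (Finset.mem_of_mem_erase h)),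
    Finset.card_erase_of_mem hy]
  have := Finset.card_pos.mpr ⟨y, hy⟩
  omega

lemma left_mem_ex : z ∈ ex X y z := Finset.mem_insert_self _ _

lemma notMem_ex (hyz : y ≠ z) : y ∉ ex X y z := by
  rw [mem_ex]
  rintro (h | h)
  · exact hyz h
  · exact h.1 rfl

lemma ne_of_mem_notMem (hy : y ∈ X) (hz : z ∉ X) : y ≠ z := fun h => hz (h ▸ hy)

lemma ex_ne_self (hy : y ∈ X) (hz : z ∉ X) : X ≠ ex X y z := fun h => hz (h ▸ left_mem_ex)

lemma inter_ex (hy : y ∈ X) (hz : z ∉ X) : X ∩ ex X y z = X.erase y := by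
  ext x
  rw [Finset.mem_inter, mem_ex, Finset.mem_erase]
  constructor
  · rintro ⟨h1, h2 | h2⟩
    · exact absurd (h2 ▸ h1) hz
    · exact ⟨h2.1, h1⟩
  · rintro ⟨h1, h2⟩
    exact ⟨h2, Or.inr ⟨h1, h2⟩⟩

lemma union_ex (hy : y ∈ X) (_hz : z ∉ X) : X ∪ ex X y z = insert z X := by
  ext x
  rw [Finset.mem_union, mem_ex, Finset.mem_insert]
  constructor
  · rintro (h | h | h)
    · exact Or.inr h
    · exact Or.inl h
    · exact Or.inr h.2
  · rintro (h | h)
    · exact Or.inr (Or.inl h)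
    · exact Or.inl h

lemma ex_back (hy : y ∈ X) (hz : z ∉ X) : ex (ex X y z) z y = X := by
  have hyz := ne_of_mem_notMem hy hz
  ext x
  rw [mem_ex, mem_ex]
  constructor
  · rintro (h | ⟨h1, h2 | h2⟩)
    · rw [h]; exact hy
    · exact absurd h2 h1
    · exact h2.2
  · intro h
    by_cases hxy : x = y
    · exact Or.inl hxy
    · exact Or.inr ⟨fun h1 => hz (h1 ▸ h), Or.inr ⟨hxy, h⟩⟩

lemma adj_ex (hX : X.card = r) (hy : y ∈ X) (hz : z ∉ X) : adj r X (ex X y z) := by
  refine ⟨ex_ne_self hy hz, ?_⟩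
  rw [inter_ex hy hz, Finset.card_erase_of_mem hy]
  omega

/-- adjacent `r`-sets differ by one exchange -/
lemma exists_ex (hX : X.card = r) (hY : Y.card = r) (h : adj r X Y) :
    ∃ y ∈ X, ∃ z, z ∉ X ∧ y ∉ Y ∧ z ∈ Y ∧ Y = ex X y z := by
  obtain ⟨hne, hc⟩ := h
  have h1 : (X \ Y).card + (X ∩ Y).card = X.card := Finset.card_sdiff_add_card_inter X Y
  have h2 : (Y \ X).card + (Y ∩ X).card = Y.card := Finset.card_sdiff_add_card_inter Y X
  rw [Finset.inter_comm Y X] at h2
  have h3 : X \ Y ≠ ∅ := by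
    intro h0
    rw [Finset.sdiff_eq_empty_iff_subset] at h0
    exact hne (Finset.eq_of_subset_of_card_le h0 (by omega))
  have h4 : (X \ Y).card = 1 := by
    have := Finset.card_pos.mpr (Finset.nonempty_iff_ne_empty.mpr h3)
    omega
  have h5 : (Y \ X).card = 1 := by omega
  obtain ⟨y, hy⟩ := Finset.card_eq_one.mp h4
  obtain ⟨z, hz⟩ := Finset.card_eq_one.mp h5
  have hy' : y ∈ X \ Y := by rw [hy]; exact Finset.mem_singleton_self _
  have hz' : z ∈ Y \ X := by rw [hz]; exact Finset.mem_singleton_self _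
  rw [Finset.mem_sdiff] at hy' hz'
  refine ⟨y, hy'.1, z, hz'.2, hy'.2, hz'.1, ?_⟩
  ext x
  rw [mem_ex]
  constructor
  · intro hx
    by_cases hxX : x ∈ X
    · exact Or.inr ⟨fun h => hy'.2 (h ▸ hx), hxX⟩
    · left
      have : x ∈ Y \ X := Finset.mem_sdiff.mpr ⟨hx, hxX⟩
      rw [hz] at this
      exact Finset.mem_singleton.mp this
  · rintro (h | ⟨h, hx⟩)
    · rw [h]; exact hz'.1
    · by_contra hxY
      have : x ∈ X \ Y := Finset.mem_sdiff.mpr ⟨hx, hxY⟩
      rw [hy] at this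
      exact h (Finset.mem_singleton.mp this)

lemma adj_iff_ex (hX : X.card = r) (hY : Y.card = r) :
    adj r X Y ↔ ∃ y ∈ X, ∃ z, z ∉ X ∧ Y = ex X y z := by
  constructor
  · intro h
    obtain ⟨y, hy, z, hz, _, _, h⟩ := exists_ex hX hY h
    exact ⟨y, hy, z, hz, h⟩
  · rintro ⟨y, hy, z, hz, rfl⟩
    exact adj_ex hX hy hz

/-- two different members `I + a`, `I + b` of a line are adjacent -/
lemma adj_insert_insert {I : Finset (Fin n)} (hI : I.card + 1 = r) (hz : z ∉ I) (hw : w ∉ I)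
    (hzw : z ≠ w) : adj r (insert z I) (insert w I) := by
  refine ⟨?_, ?_⟩
  · intro h
    have h1 : z ∈ insert w I := h ▸ Finset.mem_insert_self z I
    rw [Finset.mem_insert] at h1
    exact h1.elim hzw hz
  · have h1 : I ⊆ insert z I ∩ insert w I :=
      Finset.subset_inter (Finset.subset_insert _ _) (Finset.subset_insert _ _)
    have := Finset.card_le_card h1
    omega

/-- two different members `U - x`, `U - y` of a line are adjacent -/
lemma adj_erase_erase {U : Finset (Fin n)} (hU : U.card = r + 1) (hx : x ∈ U) (hy : y ∈ U)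
    (hxy : x ≠ y) : adj r (U.erase x) (U.erase y) := by
  refine ⟨?_, ?_⟩
  · intro h
    have h1 : y ∈ U.erase x := Finset.mem_erase.mpr ⟨hxy.symm, hy⟩
    rw [h] at h1
    exact Finset.notMem_erase _ _ h1
  · have h1 : (U.erase x).erase y ⊆ U.erase x ∩ U.erase y := by
      refine Finset.subset_inter (Finset.erase_subset _ _) ?_
      exact Finset.erase_subset_erase _ (Finset.erase_subset _ _)
    have h2 := Finset.card_le_card h1
    rw [Finset.card_erase_of_mem (Finset.mem_erase.mpr ⟨hxy.symm, hy⟩),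
      Finset.card_erase_of_mem hx] at h2
    omega

/-- the exchange property in terms of `ex` -/
lemma IsMat.exch {B : Finset (Finset (Fin n))} (h : IsMat n r B) (hX : X ∈ B) (hY : Y ∈ B)
    (hx : x ∈ X) (hxY : x ∉ Y) : ∃ y ∈ Y, y ∉ X ∧ ex X x y ∈ B := by
  obtain ⟨y, hy, h1⟩ := h.2.2 X hX Y hY x (Finset.mem_sdiff.mpr ⟨hx, hxY⟩)
  rw [Finset.mem_sdiff] at hy
  exact ⟨y, hy.1, hy.2, h1⟩

end Pool.Agent.H13.VM
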