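import Pool.Agent.H13.VM.A1

/-! MODULE C1 (about 150 lines). A small minimal dependent set is seen from many bases.

`S` dependent, `S.card <= g`, `s` in `S`, `S.erase s` not dependent. Let `Q` = bases `X` with `S.erase s` contained in `X`; then `s` is not in `X`.
AUGMENTATION: for every base `X0` there is a base `X` with `S.erase s` contained in `X` and `X` contained in `(S.erase s) cup X0`: among the bases containing
`S.erase s` take `X` with `(X \\ X0).card` minimal; if some `x` in `X` is not in `(S.erase s) cup X0`, exchange `(X, X0, x)` gives a base `ex X x y`, `y` in `X0`,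
which still contains `S.erase s` and has smaller difference: contradiction.
COUNT: map `X0 -> X`. Given `X`, `X0` is determined by `X \\ X0` (a subset of `S.erase s`: at most `2 ^ g` possibilities) and `X0 \\ X` (a set with
`(X0 \\ X).card = (X \\ X0).card <= g` elements: at most `sum_(j <= g) C(n, j)`). So `B.card <= 2^g (sum_(j<=g) C(n,j)) Q.card`.
ZEROS: for `y` in `X`, `y` not in `S`: `ex X y s` contains `S`, so it is not in `B`. -/

open scoped BigOperators
open Filter

namespace Pool.Agent.H13.VM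

open Pool.Agent.H28.Johnson

open Classical in
private theorem c1_aug {n r : ℕ} {B : Finset (Finset (Fin n))} (h : IsMat n r B) {T : Finset (Fin n)}
    (hT : ¬ Dep B T) {X0 : Finset (Fin n)} (h0 : X0 ∈ B) :
    ∃ X ∈ B, T ⊆ X ∧ X ⊆ T ∪ X0 := by
  have hne : (B.filter fun X => T ⊆ X).Nonempty := by
    rw [Dep] at hT
    push Not at hT
    obtain ⟨X, hX, hTX⟩ := hT
    exact ⟨X, Finset.mem_filter.mpr ⟨hX, hTX⟩⟩
  obtain ⟨X, hX, hmin⟩ := Finset.exists_min_image (B.filter fun X => T ⊆ X)
    (fun X => (X \ X0).card) hne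
  rw [Finset.mem_filter] at hX
  refine ⟨X, hX.1, hX.2, ?_⟩
  intro x hx
  by_contra hxn
  rw [Finset.mem_union, not_or] at hxn
  obtain ⟨y, hy, hyX, hB⟩ := h.exch hX.1 h0 hx hxn.2
  have hT' : T ⊆ ex X x y := by
    intro w hw
    rw [mem_ex]
    exact Or.inr ⟨fun h1 => hxn.1 (h1 ▸ hw), hX.2 hw⟩
  have h1 := hmin _ (Finset.mem_filter.mpr ⟨hB, hT'⟩)
  have hsub : ex X x y \ X0 ⊆ (X \ X0).erase x := by
    intro w hw
    rw [Finset.mem_sdiff, mem_ex] at hw
    obtain ⟨h2 | h2, h3⟩ := hw
    · exact absurd (h2 ▸ hy) h3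
    · exact Finset.mem_erase.mpr ⟨h2.1, Finset.mem_sdiff.mpr ⟨h2.2, h3⟩⟩
  have h2 := Finset.card_le_card hsub
  have h3 := Finset.card_erase_lt_of_mem (Finset.mem_sdiff.mpr ⟨hx, hxn.2⟩)
  omega

open Classical in
private theorem c1_small (n g : ℕ) :
    ((Finset.univ : Finset (Finset (Fin n))).filter fun Z => Z.card ≤ g).card
      ≤ ∑ j ∈ Finset.range (g + 1), n.choose j := by
  have hsub : ((Finset.univ : Finset (Finset (Fin n))).filter fun Z => Z.card ≤ g)
      ⊆ (Finset.range (g + 1)).biUnion fun j => Base n j := by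
    intro Z hZ
    rw [Finset.mem_filter] at hZ
    rw [Finset.mem_biUnion]
    exact ⟨Z.card, Finset.mem_range.mpr (by omega), mem_Base.mpr rfl⟩
  refine (Finset.card_le_card hsub).trans (Finset.card_biUnion_le.trans ?_)
  apply Finset.sum_le_sum
  intro j _
  rw [card_Base]

open Classical in
theorem seen_dep {n r : ℕ} {B : Finset (Finset (Fin n))} (h : IsMat n r B) {g : ℕ} {S : Finset (Fin n)} (hS : Dep B S)
    (hc : S.card ≤ g) {s : Fin n} (hs : s ∈ S) (hmin : ¬ Dep B (S.erase s)) :
    B.card ≤ 2 ^ g * (∑ j ∈ Finset.range (g + 1), n.choose j) *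
      (B.filter fun X => s ∉ X ∧ ((X \ S) ×ˢ {s}) ⊆ zer B X ∧ r ≤ (X \ S).card + g).card := by
  have haug : ∀ X0 : Finset (Fin n), ∃ X : Finset (Fin n), X0 ∈ B →
      X ∈ B ∧ S.erase s ⊆ X ∧ X ⊆ S.erase s ∪ X0 := by
    intro X0
    by_cases h0 : X0 ∈ B
    · obtain ⟨X, h1, h2, h3⟩ := c1_aug h hmin h0
      exact ⟨X, fun _ => ⟨h1, h2, h3⟩⟩
    · exact ⟨∅, fun h1 => absurd h1 h0⟩
  choose f hf using haug
  apply Finset.card_le_mul_card_image_of_maps_to (f := f)
  · intro X0 h0
    obtain ⟨h1, h2, h3⟩ := hf X0 h0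
    have hsX : s ∉ f X0 := by
      intro h4
      apply hS _ h1
      intro w hw
      by_cases hws : w = s
      · rw [hws]; exact h4
      · exact h2 (Finset.mem_erase.mpr ⟨hws, hw⟩)
    rw [Finset.mem_filter]
    refine ⟨h1, hsX, ?_, ?_⟩
    · intro p hp
      rw [Finset.mem_product, Finset.mem_sdiff, Finset.mem_singleton] at hp
      obtain ⟨⟨h4, h5⟩, h6⟩ := hp
      rw [mem_zer, h6]
      refine ⟨h4, hsX, ?_⟩
      intro h7
      apply hS _ h7
      intro w hw
      rw [mem_ex]
      by_cases hws : w = s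
      · exact Or.inl hws
      · exact Or.inr ⟨fun h8 => h5 (h8 ▸ hw), h2 (Finset.mem_erase.mpr ⟨hws, hw⟩)⟩
    · have h4 : (f X0 \ S).card + (f X0 ∩ S).card = (f X0).card :=
        Finset.card_sdiff_add_card_inter _ _
      have h5 := h.card_eq h1
      have h6 : (f X0 ∩ S).card ≤ S.card := Finset.card_le_card Finset.inter_subset_right
      omega
  · intro X _
    have hbd : ((S.erase s).powerset ×ˢ
        ((Finset.univ : Finset (Finset (Fin n))).filter fun Z => Z.card ≤ g)).card
        ≤ 2 ^ g * (∑ j ∈ Finset.range (g + 1), n.choose j) := by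
      rw [Finset.card_product, Finset.card_powerset]
      apply Nat.mul_le_mul _ (c1_small n g)
      apply Nat.pow_le_pow_right (by norm_num)
      exact (Finset.card_le_card (Finset.erase_subset _ _)).trans hc
    refine le_trans (Finset.card_le_card_of_injOn (fun X0 => (X \ X0, X0 \ X)) ?_ ?_) hbd
    · intro X0 h0
      rw [Finset.mem_coe, Finset.mem_filter] at h0
      obtain ⟨hB0, hfX⟩ := h0
      obtain ⟨h1, h2, h3⟩ := hf X0 hB0
      rw [hfX] at h1 h2 h3
      have hsub : X \ X0 ⊆ S.erase s := by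
        intro w hw
        rw [Finset.mem_sdiff] at hw
        rcases Finset.mem_union.mp (h3 hw.1) with h4 | h4
        · exact h4
        · exact absurd h4 hw.2
      rw [Finset.mem_coe, Finset.mem_product]
      refine ⟨Finset.mem_powerset.mpr hsub, Finset.mem_filter.mpr ⟨Finset.mem_univ _, ?_⟩⟩
      have h4 : (X \ X0).card + (X ∩ X0).card = X.card := Finset.card_sdiff_add_card_inter X X0
      have h5 : (X0 \ X).card + (X0 ∩ X).card = X0.card := Finset.card_sdiff_add_card_inter X0 X
      rw [Finset.inter_comm X0 X] at h5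
      have h6 := h.card_eq h1
      have h7 := h.card_eq hB0
      have h8 := Finset.card_le_card hsub
      have h9 := Finset.card_le_card (Finset.erase_subset s S)
      simp only
      omega
    · intro X0 _ X1 _ h01
      simp only [Prod.mk.injEq] at h01
      have key : ∀ Z : Finset (Fin n), Z = (X \ (X \ Z)) ∪ (Z \ X) := by
        intro Z
        ext w
        simp only [Finset.mem_union, Finset.mem_sdiff]
        tauto
      rw [key X0, key X1, h01.1, h01.2]

end Pool.Agent.H13.VM
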