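import Pool.Agent.H13.VM.A11
import Pool.Agent.H13.VM.Cn

/-! MODULE D1a (about 90 lines). First facts on `P = hvy r B`.

`hvy_closed`: `P` is a union of components of the nonbases: if `X` in `P` and `Y` in `NB r B` is adjacent to `X`, then `Y` in `comp r (NB r B) X` (`comp_closed`,
`self_mem_comp`), so `comp r (NB r B) Y = comp r (NB r B) X` (`comp_eq_of_mem`), which is heavy.
`comp_sub_hvy`: the whole component of a member of `P` is in `P`.
`small_circuit_hvy`: `Y` contains the small circuit `C = CX B Z` (`Z` in `NB1`): `Y` is a nonbase (`nb_of_circuit`). `Y \ C` has two elements `y1, y2`; `Y.erase y1`, `Y.erase y2`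
contain `C`, so they are full I-lines (all `insert z (Y.erase y1)`, `z` not in `Y.erase y1`, have `r` elements and contain `C`: nonbases), they are different and
below `Y`: `2 <= (thrI r B Y).card`, and `Y` is in its own component.
`big_hyp_hvy`: dual: two elements `z1, z2` of `HX B Z \ Y`, the U-lines `insert z1 Y`, `insert z2 Y` are contained in `HX B Z`, so full (`nb_of_hyp`).
`not_NB1_hvy`: all `ex Y y z` are nonbases, so all `Y.erase y` (`y` in `Y`) are full I-lines (`insert z (Y.erase y)` is `Y` or `ex Y y z`); there are `r >= 2` of them. -/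

open scoped BigOperators
open Filter

namespace Pool.Agent.H13.VM

open Pool.Agent.H28.Johnson

private theorem D1a_two {n r : ℕ} {B : Finset (Finset (Fin n))} {Y : Finset (Fin n)} {y1 y2 : Fin n}
    (h2 : y2 ∈ Y) (hne : y1 ≠ y2) (h3 : Y.erase y1 ∈ fullI r B)
    (h4 : Y.erase y2 ∈ fullI r B) : 2 ≤ (thrI r B Y).card := by
  refine Finset.one_lt_card.2 ⟨Y.erase y1, mem_thrI.2 ⟨h3, Finset.erase_subset _ _⟩,
    Y.erase y2, mem_thrI.2 ⟨h4, Finset.erase_subset _ _⟩, ?_⟩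
  intro h
  have h5 : y2 ∈ Y.erase y1 := Finset.mem_erase.2 ⟨hne.symm, h2⟩
  rw [h] at h5
  exact Finset.notMem_erase _ _ h5

private theorem D1a_twoU {n r : ℕ} {B : Finset (Finset (Fin n))} {Y : Finset (Fin n)} {z1 z2 : Fin n}
    (h1 : z1 ∉ Y) (hne : z1 ≠ z2) (h3 : insert z1 Y ∈ fullU r B)
    (h4 : insert z2 Y ∈ fullU r B) : 2 ≤ (thrU r B Y).card := by
  refine Finset.one_lt_card.2 ⟨insert z1 Y, mem_thrU.2 ⟨h3, Finset.subset_insert _ _⟩,
    insert z2 Y, mem_thrU.2 ⟨h4, Finset.subset_insert _ _⟩, ?_⟩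
  intro h
  have h5 : z1 ∈ insert z2 Y := h ▸ Finset.mem_insert_self z1 Y
  rw [Finset.mem_insert] at h5
  exact h5.elim hne h1

theorem hvy_closed {n : ℕ} (r : ℕ) (B : Finset (Finset (Fin n))) :
    Closed r (NB r B) (hvy r B) := by
  refine ⟨fun X hX => (mem_hvy.1 hX).1, fun X hX Y hY hXY => ?_⟩
  obtain ⟨h1, h2⟩ := mem_hvy.1 hX
  have h3 : Y ∈ comp r (NB r B) X := (comp_closed _ X).2 X (self_mem_comp h1) Y hY hXY
  rw [mem_hvy, comp_eq_of_mem h3]
  exact ⟨hY, h2⟩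

theorem comp_sub_hvy {n r : ℕ} {B : Finset (Finset (Fin n))} {X : Finset (Fin n)} (hX : X ∈ hvy r B) :
    comp r (NB r B) X ⊆ hvy r B :=
  comp_subset_of_closed (hvy_closed r B) hX

theorem small_circuit_hvy {n r : ℕ} {B : Finset (Finset (Fin n))} (h : IsMat n r B) {Z : Finset (Fin n)} (hZ : Z ∈ NB1 r B)
    (hc : (CX B Z).card + 2 ≤ r) {Y : Finset (Fin n)} (hY : Y.card = r) (hs : CX B Z ⊆ Y) :
    Y ∈ hvy r B := by
  have hYN : Y ∈ NB r B := nb_of_circuit h hZ hY hs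
  have h1 : 1 < (Y \ CX B Z).card := by
    rw [Finset.card_sdiff_of_subset hs]
    omega
  obtain ⟨y1, hy1, y2, hy2, hne⟩ := Finset.one_lt_card.1 h1
  rw [Finset.mem_sdiff] at hy1 hy2
  have key : ∀ y ∈ Y, y ∉ CX B Z → Y.erase y ∈ fullI r B := by
    intro y hy hyC
    rw [mem_fullI]
    refine ⟨by rw [Finset.card_erase_of_mem hy]; omega, fun z _ hb => ?_⟩
    refine CX_dep h hZ _ hb ?_
    intro w hw
    exact Finset.mem_insert_of_mem (Finset.mem_erase.2 ⟨fun e => hyC (e ▸ hw), hs hw⟩)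
  exact mem_hvy.2 ⟨hYN, Or.inl ⟨Y, self_mem_comp hYN,
    Or.inl (D1a_two hy2.1 hne (key y1 hy1.1 hy1.2) (key y2 hy2.1 hy2.2))⟩⟩

theorem big_hyp_hvy {n r : ℕ} {B : Finset (Finset (Fin n))} (h : IsMat n r B) {Z : Finset (Fin n)} (hZ : Z ∈ NB1 r B)
    (hc : r + 2 ≤ (HX B Z).card) {Y : Finset (Fin n)} (hY : Y.card = r) (hs : Y ⊆ HX B Z) :
    Y ∈ hvy r B := by
  have hYN : Y ∈ NB r B := nb_of_hyp h hZ hY hs
  have h1 : 1 < (HX B Z \ Y).card := by
    rw [Finset.card_sdiff_of_subset hs]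
    omega
  obtain ⟨z1, hz1, z2, hz2, hne⟩ := Finset.one_lt_card.1 h1
  rw [Finset.mem_sdiff] at hz1 hz2
  have key : ∀ z ∈ HX B Z, z ∉ Y → insert z Y ∈ fullU r B := by
    intro z hz hzY
    rw [mem_fullU]
    refine ⟨by rw [Finset.card_insert_of_notMem hzY]; omega, fun y _ hb => ?_⟩
    exact HX_no_base h hZ _ hb
      ((Finset.erase_subset _ _).trans (Finset.insert_subset hz hs))
  exact mem_hvy.2 ⟨hYN, Or.inl ⟨Y, self_mem_comp hYN,
    Or.inr (D1a_twoU hz1.2 hne (key z1 hz1.1 hz1.2) (key z2 hz2.1 hz2.2))⟩⟩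

theorem not_NB1_hvy {n r : ℕ} {B : Finset (Finset (Fin n))} (hr : 2 ≤ r) {Y : Finset (Fin n)}
    (hY : Y ∈ NB r B) (h1 : Y ∉ NB1 r B) : Y ∈ hvy r B := by
  have h2 : 1 < Y.card := by
    have := (mem_NB.1 hY).1
    omega
  obtain ⟨y1, hy1, y2, hy2, hne⟩ := Finset.one_lt_card.1 h2
  have key : ∀ y ∈ Y, Y.erase y ∈ fullI r B := fun y hy =>
    (lineI_iff hY hy).2 fun h3 => h1 (mem_NB1.2 ⟨hY, y, hy, (mem_CX.1 h3).2⟩)
  exact mem_hvy.2 ⟨hY, Or.inl ⟨Y, self_mem_comp hY,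
    Or.inl (D1a_two hy2 hne (key y1 hy1) (key y2 hy2))⟩⟩

end Pool.Agent.H13.VM
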