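import Pool.Agent.H13.VM.D1a

/-! MODULE D1b (about 140 lines). What a heavy component contains.

Let `G = comp r (NB r B) X`. Suppose the first alternative fails. Then every full line `L` which meets `G`, say `Y` in `G` on `L`, is basic: if `L` in `fullI`: `fullI_cases`: either
`CX B Z = L`, `Z` in `NB1`: basic; or `CX B Z` is contained in `L` with `card + 2 <= r`; `L` has `r - 1` elements, so `onl L Y` means `L` contained in `Y`: then the first alternative
holds: contradiction. `L` in `fullU` similarly with `fullU_cases`.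
`X` in `hvy`: `G` is heavy. Case (i): some `Y` in `G` has two full I-lines (or two full U-lines) through it. If `Y` in `NB1`: two different members of `thrI r B Y` are `Y.erase y1`,
`Y.erase y2`, `y1 <> y2` (an `(r-1)`-subset of `Y`), and by `lineI_iff` `y1, y2` are not in `CX B Y`, so `(CX B Y).card + 2 <= r`: first alternative with `Z = Y` (`CX_subset`). (U: `lineU_iff`,
`z1, z2` not in `DX B Y`, so in `HX B Y`, not in `Y`; `subset_HX`.) If `Y` is not in `NB1`: all the `r` sets `Y.erase y` are full I-lines, all basic, all on `Y`: the filter has at least `r` elements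
and `r ^ 2 >= n`. Case (ii): `n <= (linesOf r B G).card ^ 2` and `linesOf` is contained in the filter of the second alternative. -/

open scoped BigOperators
open Filter

namespace Pool.Agent.H13.VM

open Pool.Agent.H28.Johnson

/-- a full line which meets the component is basic, unless the first alternative holds -/
private theorem D1b_basic {n r : ℕ} {B : Finset (Finset (Fin n))} (h : IsMat n r B)
    {X : Finset (Fin n)}
    (hno : ¬ ∃ Y ∈ comp r (NB r B) X, ∃ Z ∈ NB1 r B, (CX B Z ⊆ Y ∧ (CX B Z).card + 2 ≤ r) ∨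
      (Y ⊆ HX B Z ∧ r + 2 ≤ (HX B Z).card)) {Y L : Finset (Fin n)}
    (hY : Y ∈ comp r (NB r B) X) (hL : L ∈ full r B) (hon : onl L Y) : L ∈ bas r B := by
  have hYc : Y.card = r := (mem_NB.1 (mem_comp.1 hY).1).1
  rw [mem_bas]
  refine ⟨hL, ?_⟩
  rcases mem_full.1 hL with hI | hU
  · have hLc : L.card + 1 = r := (mem_fullI.1 hI).1
    have hLY : L ⊆ Y := by
      rcases hon with h1 | h1
      · exact h1
      · have := Finset.card_le_card h1
        omega
    rcases fullI_cases h hI with ⟨Z, hZ, h1⟩ | ⟨Z, hZ, h1, h2⟩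
    · exact ⟨Z, hZ, Or.inl h1⟩
    · exact absurd ⟨Y, hY, Z, hZ, Or.inl ⟨h1.trans hLY, h2⟩⟩ hno
  · have hLc : L.card = r + 1 := (mem_fullU.1 hU).1
    have hLY : Y ⊆ L := by
      rcases hon with h1 | h1
      · have := Finset.card_le_card h1
        omega
      · exact h1
    rcases fullU_cases h hU with ⟨Z, hZ, h1⟩ | ⟨Z, hZ, h1, h2⟩
    · exact ⟨Z, hZ, Or.inr h1⟩
    · exact absurd ⟨Y, hY, Z, hZ, Or.inr ⟨hLY.trans h1, h2⟩⟩ hno

open Classical in
/-- a member outside `NB1` gives many basic lines -/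
private theorem D1b_out {n r : ℕ} {B : Finset (Finset (Fin n))} (h : IsMat n r B)
    (hn : n ≤ r ^ 2) {X : Finset (Fin n)}
    (hno : ¬ ∃ Y ∈ comp r (NB r B) X, ∃ Z ∈ NB1 r B, (CX B Z ⊆ Y ∧ (CX B Z).card + 2 ≤ r) ∨
      (Y ⊆ HX B Z ∧ r + 2 ≤ (HX B Z).card)) {Y : Finset (Fin n)}
    (hY : Y ∈ comp r (NB r B) X) (hY1 : Y ∉ NB1 r B) :
    n ≤ ((bas r B).filter fun L => ∃ Y ∈ comp r (NB r B) X, onl L Y).card ^ 2 := by
  have hYN : Y ∈ NB r B := (mem_comp.1 hY).1
  have hYc : Y.card = r := (mem_NB.1 hYN).1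
  refine hn.trans (Nat.pow_le_pow_left ?_ 2)
  have hcard : (Y.image fun y => Y.erase y).card = r := by
    rw [Finset.card_image_of_injOn, hYc]
    intro a ha b hb hab
    by_contra hne
    have h5 : b ∈ Y.erase a := Finset.mem_erase.2 ⟨fun e => hne e.symm, hb⟩
    have hab' : Y.erase a = Y.erase b := hab
    rw [hab'] at h5
    exact Finset.notMem_erase _ _ h5
  have hsub : (Y.image fun y => Y.erase y) ⊆
      (bas r B).filter fun L => ∃ Y ∈ comp r (NB r B) X, onl L Y := by
    intro L hL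
    obtain ⟨y, hy, rfl⟩ := Finset.mem_image.1 hL
    have hI : Y.erase y ∈ fullI r B := (lineI_iff hYN hy).2 fun h3 =>
      hY1 (mem_NB1.2 ⟨hYN, y, hy, (mem_CX.1 h3).2⟩)
    have hon : onl (Y.erase y) Y := Or.inl (Finset.erase_subset _ _)
    exact Finset.mem_filter.2 ⟨D1b_basic h hno hY (mem_full.2 (Or.inl hI)) hon, Y, hY, hon⟩
  have h6 := Finset.card_le_card hsub
  rw [hcard] at h6
  exact h6

/-- an `(r-1)`-subset of an `r`-set -/
private theorem D1b_erase {n r : ℕ} {Y L : Finset (Fin n)} (hY : Y.card = r)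
    (hL : L.card + 1 = r) (hs : L ⊆ Y) : ∃ y ∈ Y, y ∉ L ∧ L = Y.erase y := by
  have h1 : (Y \ L).card = 1 := by
    rw [Finset.card_sdiff_of_subset hs]
    omega
  obtain ⟨y, hy⟩ := Finset.card_eq_one.1 h1
  have hy' : y ∈ Y \ L := by rw [hy]; exact Finset.mem_singleton_self _
  rw [Finset.mem_sdiff] at hy'
  refine ⟨y, hy'.1, hy'.2, Finset.eq_of_subset_of_card_le ?_ ?_⟩
  · intro w hw
    exact Finset.mem_erase.2 ⟨fun e => hy'.2 (e ▸ hw), hs hw⟩
  · rw [Finset.card_erase_of_mem hy'.1]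
    omega

/-- an `(r+1)`-set around an `r`-set -/
private theorem D1b_insert {n r : ℕ} {Y L : Finset (Fin n)} (hY : Y.card = r)
    (hL : L.card = r + 1) (hs : Y ⊆ L) : ∃ z ∈ L, z ∉ Y ∧ L = insert z Y := by
  have h1 : (L \ Y).card = 1 := by
    rw [Finset.card_sdiff_of_subset hs]
    omega
  obtain ⟨z, hz⟩ := Finset.card_eq_one.1 h1
  have hz' : z ∈ L \ Y := by rw [hz]; exact Finset.mem_singleton_self _
  rw [Finset.mem_sdiff] at hz'
  refine ⟨z, hz'.1, hz'.2, (Finset.eq_of_subset_of_card_le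
    (Finset.insert_subset hz'.1 hs) ?_).symm⟩
  rw [Finset.card_insert_of_notMem hz'.2]
  omega

open Classical in
theorem hvy_cases {n r : ℕ} {B : Finset (Finset (Fin n))} (h : IsMat n r B) (hr : 2 ≤ r) (hn : n ≤ r ^ 2) {X : Finset (Fin n)} (hX : X ∈ hvy r B) :
    (∃ Y ∈ comp r (NB r B) X, ∃ Z ∈ NB1 r B, (CX B Z ⊆ Y ∧ (CX B Z).card + 2 ≤ r) ∨
      (Y ⊆ HX B Z ∧ r + 2 ≤ (HX B Z).card)) ∨
    n ≤ ((bas r B).filter fun L => ∃ Y ∈ comp r (NB r B) X, onl L Y).card ^ 2 := by
  by_cases hno : ∃ Y ∈ comp r (NB r B) X, ∃ Z ∈ NB1 r B, (CX B Z ⊆ Y ∧ (CX B Z).card + 2 ≤ r) ∨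
      (Y ⊆ HX B Z ∧ r + 2 ≤ (HX B Z).card)
  · exact Or.inl hno
  · right
    obtain ⟨hXN, hheavy⟩ := mem_hvy.1 hX
    rcases hheavy with ⟨Y, hY, h2⟩ | h2
    · by_cases hY1 : Y ∈ NB1 r B
      · exfalso
        have hYN : Y ∈ NB r B := (mem_comp.1 hY).1
        have hYc : Y.card = r := (mem_NB.1 hYN).1
        rcases h2 with h2 | h2
        · obtain ⟨L1, hL1, L2, hL2, hne⟩ := Finset.one_lt_card.1 h2
          rw [mem_thrI] at hL1 hL2
          obtain ⟨y1, hy1, _, e1⟩ := D1b_erase hYc (mem_fullI.1 hL1.1).1 hL1.2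
          obtain ⟨y2, hy2, _, e2⟩ := D1b_erase hYc (mem_fullI.1 hL2.1).1 hL2.2
          have hy12 : y1 ≠ y2 := fun e => hne (by rw [e1, e2, e])
          have h3 : y1 ∉ CX B Y := (lineI_iff hYN hy1).1 (e1 ▸ hL1.1)
          have h4 : y2 ∉ CX B Y := (lineI_iff hYN hy2).1 (e2 ▸ hL2.1)
          refine hno ⟨Y, hY, Y, hY1, Or.inl ⟨CX_subset B Y, ?_⟩⟩
          have h5 : CX B Y ⊆ (Y.erase y1).erase y2 := by
            intro w hw
            exact Finset.mem_erase.2 ⟨fun e => h4 (e ▸ hw),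
              Finset.mem_erase.2 ⟨fun e => h3 (e ▸ hw), CX_subset B Y hw⟩⟩
          have h6 := Finset.card_le_card h5
          rw [Finset.card_erase_of_mem (Finset.mem_erase.2 ⟨hy12.symm, hy2⟩),
            Finset.card_erase_of_mem hy1] at h6
          omega
        · obtain ⟨L1, hL1, L2, hL2, hne⟩ := Finset.one_lt_card.1 h2
          rw [mem_thrU] at hL1 hL2
          obtain ⟨z1, _, hz1, e1⟩ := D1b_insert hYc (mem_fullU.1 hL1.1).1 hL1.2
          obtain ⟨z2, _, hz2, e2⟩ := D1b_insert hYc (mem_fullU.1 hL2.1).1 hL2.2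
          have hz12 : z1 ≠ z2 := fun e => hne (by rw [e1, e2, e])
          have h3 : z1 ∉ DX B Y := (lineU_iff hYN hz1).1 (e1 ▸ hL1.1)
          have h4 : z2 ∉ DX B Y := (lineU_iff hYN hz2).1 (e2 ▸ hL2.1)
          refine hno ⟨Y, hY, Y, hY1, Or.inr ⟨subset_HX B Y, ?_⟩⟩
          have h5 : insert z1 (insert z2 Y) ⊆ HX B Y :=
            Finset.insert_subset (mem_HX.2 h3) (Finset.insert_subset (mem_HX.2 h4)
              (subset_HX B Y))
          have h6 := Finset.card_le_card h5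
          rw [Finset.card_insert_of_notMem, Finset.card_insert_of_notMem hz2] at h6
          · omega
          · rw [Finset.mem_insert]
            exact fun e => e.elim hz12 hz1
      · exact D1b_out h hn hno hY hY1
    · refine h2.trans (Nat.pow_le_pow_left (Finset.card_le_card ?_) 2)
      intro L hL
      obtain ⟨hL, Y, hY, hon⟩ := mem_linesOf.1 hL
      exact Finset.mem_filter.2 ⟨D1b_basic h hno hY hL hon, Y, hY, hon⟩

end Pool.Agent.H13.VM
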