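import Pool.Agent.H13.VM.A2
import Pool.Agent.H13.VM.D1a

/-! MODULE D2a (about 150 lines). Elementary facts on lines.

`pts_full_NB`: a member of a full line is a nonbase (an `r`-set `X` containing the `(r-1)`-set `L` is `insert z L`; an `r`-set contained in the `(r+1)`-set `L` is `L.erase y`).
`pts_adj`: two different members of a full line are adjacent (`adj_insert_insert`, `adj_erase_erase`). `card_pts_le`: a full line has at most `n` members (I: injection from
elements outside; U: at most `r + 1 <= n`, or `r + 1 = L.card <= n`). `share`: adjacent nonbases are on a common full line (`local_test`: `X cap Y` or `X cup Y`). `two_lines`: two different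
full lines have at most two common members (two I-lines: `X = L cup L'`; two U-lines: `X = L cap L'`; I-line `L`, U-line `L'`: `L` contained in `X` contained in `L'`, `L' \ L` has two
elements). `pts_hvy`: if a member of a full line is in `P`, all are (`pts_adj` and `hvy_closed`). `onlI`, `onlU`: which of the two cases of `onl` holds.
`eq_inter`, `eq_union`: two different members of a full I-line `L` have intersection `L`; of a U-line: union `L`. -/

open scoped BigOperators
open Filter

namespace Pool.Agent.H13.VM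

open Pool.Agent.H28.Johnson

private theorem d2a_ins {n : ℕ} {L X : Finset (Fin n)} (h : L ⊆ X) (hc : L.card + 1 = X.card) :
    ∃ z, z ∉ L ∧ X = insert z L := by
  classical
  have h1 : (X \ L).card = 1 := by
    rw [Finset.card_sdiff_of_subset h]
    omega
  obtain ⟨z, hz⟩ := Finset.card_eq_one.mp h1
  have hz1 : z ∈ X \ L := hz ▸ Finset.mem_singleton_self z
  refine ⟨z, (Finset.mem_sdiff.mp hz1).2, ?_⟩
  rw [Finset.insert_eq, ← hz, Finset.sdiff_union_of_subset h]

private theorem d2a_era {n : ℕ} {L X : Finset (Fin n)} (h : X ⊆ L) (hc : L.card = X.card + 1) :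
    ∃ y ∈ L, X = L.erase y := by
  classical
  obtain ⟨z, hz, h1⟩ := d2a_ins h hc.symm
  refine ⟨z, h1 ▸ Finset.mem_insert_self z X, ?_⟩
  rw [h1, Finset.erase_insert hz]

theorem onlI {n r : ℕ} {B : Finset (Finset (Fin n))} {L X : Finset (Fin n)} (hL : L ∈ fullI r B) (hX : X.card = r) :
    onl L X ↔ L ⊆ X := by
  rw [mem_fullI] at hL
  refine ⟨fun h => h.resolve_right fun h1 => ?_, Or.inl⟩
  have := Finset.card_le_card h1
  omega

theorem onlU {n r : ℕ} {B : Finset (Finset (Fin n))} {L X : Finset (Fin n)} (hL : L ∈ fullU r B) (hX : X.card = r) :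
    onl L X ↔ X ⊆ L := by
  rw [mem_fullU] at hL
  refine ⟨fun h => h.resolve_left fun h1 => ?_, Or.inr⟩
  have := Finset.card_le_card h1
  omega

theorem pts_full_NB {n r : ℕ} {B : Finset (Finset (Fin n))} {L X : Finset (Fin n)} (hL : L ∈ full r B) (hX : X.card = r)
    (hLX : onl L X) : X ∈ NB r B := by
  rw [mem_NB]
  refine ⟨hX, ?_⟩
  rcases mem_full.mp hL with h | h
  · rw [onlI h hX] at hLX
    rw [mem_fullI] at h
    obtain ⟨z, hz, rfl⟩ := d2a_ins hLX (h.1.trans hX.symm)
    exact h.2 z hz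
  · rw [onlU h hX] at hLX
    rw [mem_fullU] at h
    obtain ⟨y, hy, rfl⟩ := d2a_era hLX (by omega)
    exact h.2 y hy

theorem pts_adj {n r : ℕ} {B : Finset (Finset (Fin n))} {L X Y : Finset (Fin n)} (hL : L ∈ full r B) (hX : X.card = r)
    (hLX : onl L X) (hY : Y.card = r) (hLY : onl L Y) (hXY : X ≠ Y) : adj r X Y := by
  rcases mem_full.mp hL with h | h
  · rw [onlI h hX] at hLX
    rw [onlI h hY] at hLY
    rw [mem_fullI] at h
    obtain ⟨z, hz, rfl⟩ := d2a_ins hLX (h.1.trans hX.symm)
    obtain ⟨w, hw, rfl⟩ := d2a_ins hLY (h.1.trans hY.symm)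
    exact adj_insert_insert h.1 hz hw fun e => hXY (by rw [e])
  · rw [onlU h hX] at hLX
    rw [onlU h hY] at hLY
    rw [mem_fullU] at h
    obtain ⟨z, hz, rfl⟩ := d2a_era hLX (by omega)
    obtain ⟨w, hw, rfl⟩ := d2a_era hLY (by omega)
    exact adj_erase_erase h.1 hz hw fun e => hXY (by rw [e])

theorem eq_inter {n r : ℕ} {B : Finset (Finset (Fin n))} {L X Y : Finset (Fin n)} (hL : L ∈ fullI r B) (hX : X.card = r)
    (hLX : L ⊆ X) (hY : Y.card = r) (hLY : L ⊆ Y) (hXY : X ≠ Y) : X ∩ Y = L := by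
  classical
  rw [mem_fullI] at hL
  symm
  refine Finset.eq_of_subset_of_card_le (Finset.subset_inter hLX hLY) ?_
  have h1 : (X ∩ Y).card < r := by
    rw [← hX]
    refine Finset.card_lt_card (Finset.inter_subset_left.ssubset_of_ne fun h2 => hXY ?_)
    exact Finset.eq_of_subset_of_card_le (Finset.inter_eq_left.mp h2) (by omega)
  omega

theorem eq_union {n r : ℕ} {B : Finset (Finset (Fin n))} {L X Y : Finset (Fin n)} (hL : L ∈ fullU r B) (hX : X.card = r)
    (hLX : X ⊆ L) (hY : Y.card = r) (hLY : Y ⊆ L) (hXY : X ≠ Y) : X ∪ Y = L := by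
  classical
  rw [mem_fullU] at hL
  refine Finset.eq_of_subset_of_card_le (Finset.union_subset hLX hLY) ?_
  have h1 : r < (X ∪ Y).card := by
    rw [← hX]
    refine Finset.card_lt_card (Finset.subset_union_left.ssubset_of_ne fun h2 => hXY ?_)
    exact (Finset.eq_of_subset_of_card_le (Finset.union_eq_left.mp h2.symm) (by omega)).symm
  omega

theorem card_pts_le {n r : ℕ} {B : Finset (Finset (Fin n))} {L : Finset (Fin n)} (hL : L ∈ full r B) : (pts r L).card ≤ n := by
  classical
  rcases mem_full.mp hL with h | h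
  · have h1 : pts r L ⊆ (Finset.univ : Finset (Fin n)).image fun z => insert z L := by
      intro X hX
      rw [mem_pts] at hX
      obtain ⟨hX, hLX⟩ := hX
      rw [onlI h hX] at hLX
      rw [mem_fullI] at h
      obtain ⟨z, hz, rfl⟩ := d2a_ins hLX (h.1.trans hX.symm)
      exact Finset.mem_image.mpr ⟨z, Finset.mem_univ _, rfl⟩
    refine (Finset.card_le_card h1).trans (Finset.card_image_le.trans ?_)
    rw [Finset.card_univ, Fintype.card_fin]
  · have h1 : pts r L ⊆ (Finset.univ : Finset (Fin n)).image fun z => L.erase z := by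
      intro X hX
      rw [mem_pts] at hX
      obtain ⟨hX, hLX⟩ := hX
      rw [onlU h hX] at hLX
      rw [mem_fullU] at h
      obtain ⟨z, hz, rfl⟩ := d2a_era hLX (by omega)
      exact Finset.mem_image.mpr ⟨z, Finset.mem_univ _, rfl⟩
    refine (Finset.card_le_card h1).trans (Finset.card_image_le.trans ?_)
    rw [Finset.card_univ, Fintype.card_fin]

theorem share {n r : ℕ} {B : Finset (Finset (Fin n))} (h : IsMat n r B) {X Y : Finset (Fin n)} (hX : X ∈ NB r B) (hY : Y ∈ NB r B)
    (hXY : adj r X Y) : ∃ L ∈ full r B, onl L X ∧ onl L Y := by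
  rcases local_test h hX hY hXY with h1 | h1
  · exact ⟨_, mem_full.mpr (Or.inl h1), Or.inl Finset.inter_subset_left,
      Or.inl Finset.inter_subset_right⟩
  · exact ⟨_, mem_full.mpr (Or.inr h1), Or.inr Finset.subset_union_left,
      Or.inr Finset.subset_union_right⟩

open Classical in
private theorem d2a_IU {n r : ℕ} {B : Finset (Finset (Fin n))} {L L' : Finset (Fin n)} (hL : L ∈ fullI r B) (hL' : L' ∈ fullU r B) :
    (pts r L ∩ pts r L').card ≤ 2 := by
  rcases (pts r L ∩ pts r L').eq_empty_or_nonempty with h0 | ⟨X0, h0⟩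
  · rw [h0]
    exact Nat.zero_le _
  · have key : ∀ X ∈ pts r L ∩ pts r L', X.card = r ∧ L ⊆ X ∧ X ⊆ L' := by
      intro X hX
      rw [Finset.mem_inter, mem_pts, mem_pts] at hX
      exact ⟨hX.1.1, (onlI hL hX.1.1).mp hX.1.2, (onlU hL' hX.1.1).mp hX.2.2⟩
    have hsub : L ⊆ L' := (key X0 h0).2.1.trans (key X0 h0).2.2
    have h1 : pts r L ∩ pts r L' ⊆ (L' \ L).image fun z => insert z L := by
      intro X hX
      obtain ⟨hc, h1, h2⟩ := key X hX
      obtain ⟨z, hz, rfl⟩ := d2a_ins h1 ((mem_fullI.mp hL).1.trans hc.symm)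
      exact Finset.mem_image.mpr ⟨z, Finset.mem_sdiff.mpr
        ⟨h2 (Finset.mem_insert_self z L), hz⟩, rfl⟩
    refine (Finset.card_le_card h1).trans (Finset.card_image_le.trans ?_)
    rw [Finset.card_sdiff_of_subset hsub]
    have e1 := (mem_fullI.mp hL).1
    have e2 := (mem_fullU.mp hL').1
    omega

open Classical in
theorem two_lines {n r : ℕ} {B : Finset (Finset (Fin n))} {L L' : Finset (Fin n)} (hL : L ∈ full r B) (hL' : L' ∈ full r B)
    (hne : L ≠ L') : (pts r L ∩ pts r L').card ≤ 2 := by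
  rcases mem_full.mp hL with h | h
  · rcases mem_full.mp hL' with h' | h'
    · by_contra hcon
      rw [not_le] at hcon
      obtain ⟨X, Y, hX, hY, hXY⟩ := Finset.one_lt_card_iff.mp (lt_trans one_lt_two hcon)
      rw [Finset.mem_inter, mem_pts, mem_pts] at hX hY
      rw [onlI h hX.1.1, onlI h' hX.1.1] at hX
      rw [onlI h hY.1.1, onlI h' hY.1.1] at hY
      refine hne ?_
      rw [← eq_inter h hX.1.1 hX.1.2 hY.1.1 hY.1.2 hXY,
        ← eq_inter h' hX.1.1 hX.2.2 hY.1.1 hY.2.2 hXY]
    · exact d2a_IU h h'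
  · rcases mem_full.mp hL' with h' | h'
    · rw [Finset.inter_comm]
      exact d2a_IU h' h
    · by_contra hcon
      rw [not_le] at hcon
      obtain ⟨X, Y, hX, hY, hXY⟩ := Finset.one_lt_card_iff.mp (lt_trans one_lt_two hcon)
      rw [Finset.mem_inter, mem_pts, mem_pts] at hX hY
      rw [onlU h hX.1.1, onlU h' hX.1.1] at hX
      rw [onlU h hY.1.1, onlU h' hY.1.1] at hY
      refine hne ?_
      rw [← eq_union h hX.1.1 hX.1.2 hY.1.1 hY.1.2 hXY,
        ← eq_union h' hX.1.1 hX.2.2 hY.1.1 hY.2.2 hXY]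

theorem pts_hvy {n r : ℕ} {B : Finset (Finset (Fin n))} {L X Y : Finset (Fin n)} (hL : L ∈ full r B) (hX : X ∈ hvy r B)
    (hLX : onl L X) (hY : Y.card = r) (hLY : onl L Y) : Y ∈ hvy r B := by
  by_cases hXY : X = Y
  · rwa [← hXY]
  · have hXc : X.card = r := (mem_NB.mp (mem_hvy.mp hX).1).1
    exact (hvy_closed r B).2 X hX Y (pts_full_NB hL hY hLY)
      (pts_adj hL hXc hLX hY hLY hXY)

end Pool.Agent.H13.VM
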