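import Pool.Agent.H13.VM.Defs

/-! # Heavy components: definitions for part D

`P = hvy r B` is the union of the heavy components. `J = J1 cup J2` is the replacement of `P`: `J1` (in `JF1`) has exactly one
private member of each open basic line in `P`, `J2` is a set of members of `P` on no open line (`restP`), all with the same sum of
elements modulo `n` (`restC`). `lab` is the label of the members of `J`: `1` (member of `J1` whose line is an I-line), `2` (`J1`, U-line), `0` (`J2`).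
`KJ r B J` is the new set of nonbases. `A1of`, `A2of` are the two lists (small circuits and revealed I-lines, large
hyperplanes and revealed U-lines), `Kn` the sets which can be recovered from `(KJ, f, A1, A2)`. -/

open scoped BigOperators
open Filter

namespace Pool.Agent.H13.VM

open Pool.Agent.H28.Johnson

variable {n : ℕ}

open Classical in
/-- `J1`: exactly one private member of each open line -/
noncomputable def JF1 (g r : ℕ) (B : Finset (Finset (Fin n))) : Finset (Finset (Finset (Fin n))) :=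
  ((opn g r B).biUnion fun L => privs r B L).powerset.filter fun J =>
    ∀ L ∈ opn g r B, (J ∩ privs r B L).card = 1

open Classical in
/-- the members of `P` on no open line -/
noncomputable def restP (g r : ℕ) (B : Finset (Finset (Fin n))) : Finset (Finset (Fin n)) :=
  (hvy r B).filter fun X => ∀ L ∈ opn g r B, ¬ onl L X

open Classical in
/-- the members of `restP` with sum `a` modulo `n` -/
noncomputable def restC (g r : ℕ) (B : Finset (Finset (Fin n))) (a : ℕ) :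
    Finset (Finset (Fin n)) := (restP g r B).filter fun X => (∑ x ∈ X, (x : ℕ)) % n = a

/-- the pairs `(J1, J2)` -/
noncomputable def JM (g r : ℕ) (B : Finset (Finset (Fin n))) (a : ℕ) :
    Finset (Finset (Finset (Fin n)) × Finset (Finset (Fin n))) :=
  JF1 g r B ×ˢ (restC g r B a).powerset

open Classical in
/-- the labels -/
noncomputable def lab (r : ℕ) (B J1 : Finset (Finset (Fin n))) (u : Finset (Fin n)) : Fin 3 :=
  if u ∈ J1 then (if (thrI r B u).Nonempty then 1 else 2) else 0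

/-- the new nonbases: `P` is replaced by `J` -/
noncomputable def KJ (r : ℕ) (B J : Finset (Finset (Fin n))) : Finset (Finset (Fin n)) :=
  (NB r B \ hvy r B) ∪ J

/-- the data `(J1, J2, f)` -/
structure JData (g r : ℕ) (B J1 J2 : Finset (Finset (Fin n))) (f : Finset (Fin n) → Fin 3) :
    Prop where
  hJ1 : J1 ∈ JF1 g r B
  hJ2 : J2 ⊆ restP g r B
  hf : ∀ u ∈ J1 ∪ J2, f u = lab r B J1 u

open Classical in
/-- small circuits and revealed I-lines -/
noncomputable def A1of (r : ℕ) (B R : Finset (Finset (Fin n))) : Finset (Finset (Fin n)) :=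
  (((NB1 r B).image fun X => CX B X).filter fun C => C.card + 2 ≤ r) ∪
    R.filter fun L => L.card + 1 = r

open Classical in
/-- large hyperplanes and revealed U-lines -/
noncomputable def A2of (r : ℕ) (B R : Finset (Finset (Fin n))) : Finset (Finset (Fin n)) :=
  (((NB1 r B).image fun X => HX B X).filter fun H => r + 2 ≤ H.card) ∪
    R.filter fun L => L.card = r + 1

/-- the `r`-sets which can be recovered from `(K, f, A1, A2)` -/
inductive Kn (r : ℕ) (K : Finset (Finset (Fin n))) (f : Finset (Fin n) → Fin 3)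
    (A1 A2 : Finset (Finset (Fin n))) : Finset (Fin n) → Prop
  | circ {C X : Finset (Fin n)} (hC : C ∈ A1) (hX : X.card = r) (hCX : C ⊆ X) : Kn r K f A1 A2 X
  | hyp {H X : Finset (Fin n)} (hH : H ∈ A2) (hX : X.card = r) (hXH : X ⊆ H) : Kn r K f A1 A2 X
  | labI {X u Y : Finset (Fin n)} (hX : Kn r K f A1 A2 X) (hu : u ∈ K) (ha : adj r X u)
      (hf : f u = 1) (hY : Y.card = r) (hs : X ∩ u ⊆ Y) : Kn r K f A1 A2 Y
  | labU {X u Y : Finset (Fin n)} (hX : Kn r K f A1 A2 X) (hu : u ∈ K) (ha : adj r X u)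
      (hf : f u = 2) (hY : Y.card = r) (hs : Y ⊆ X ∪ u) : Kn r K f A1 A2 Y
  | lineI {I Zs Y : Finset (Fin n)} (hI : I.card + 1 = r) (h3 : 3 ≤ Zs.card)
      (hd : ∀ z ∈ Zs, z ∉ I) (hz : ∀ z ∈ Zs, Kn r K f A1 A2 (insert z I))
      (hA : ∀ H ∈ A2, ¬ I ∪ Zs ⊆ H) (hY : Y.card = r) (hs : I ⊆ Y) : Kn r K f A1 A2 Y
  | lineU {U Ys Y : Finset (Fin n)} (hU : U.card = r + 1) (h3 : 3 ≤ Ys.card)
      (hd : Ys ⊆ U) (hy : ∀ y ∈ Ys, Kn r K f A1 A2 (U.erase y))
      (hA : ∀ C ∈ A1, ¬ C ⊆ U \ Ys) (hY : Y.card = r) (hs : Y ⊆ U) : Kn r K f A1 A2 Y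

/-- the `r`-sets given directly by the lists -/
def Kn0 (r : ℕ) (A1 A2 : Finset (Finset (Fin n))) (X : Finset (Fin n)) : Prop :=
  X.card = r ∧ ((∃ C ∈ A1, C ⊆ X) ∨ ∃ H ∈ A2, X ⊆ H)

open Classical in
/-- test for the I-line `I` at its member `X0` -/
def T1I (r : ℕ) (B A1 A2 : Finset (Finset (Fin n))) (I X0 : Finset (Fin n)) : Prop :=
  3 ≤ (Finset.univ.filter fun z => z ∈ DX B X0 ∧ Kn0 r A1 A2 (insert z I)).card

open Classical in
/-- test for the U-line `U` at its member `X0` -/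
def T1U (r : ℕ) (B A1 A2 : Finset (Finset (Fin n))) (U X0 : Finset (Fin n)) : Prop :=
  3 ≤ (Finset.univ.filter fun y => y ∈ CX B X0 ∧ Kn0 r A1 A2 (U.erase y)).card

/-- the set `R` of revealed lines is good -/
structure LL (g r : ℕ) (B R : Finset (Finset (Fin n))) : Prop where
  sub : R ⊆ basP r B
  l1I : ∀ I ∈ basP r B, I.card + 1 = r → I ∉ opn g r B → I ∈ R ∨
    ∀ X0 ∈ NB1 r B, I ⊆ X0 → T1I r B (A1of r B R) (A2of r B R) I X0
  l1U : ∀ U ∈ basP r B, U.card = r + 1 → U ∉ opn g r B → U ∈ R ∨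
    ∀ X0 ∈ NB1 r B, X0 ⊆ U → T1U r B (A1of r B R) (A2of r B R) U X0
  l2 : ∀ X ∈ hvy r B, ∃ Y ∈ comp r (NB r B) X, Kn0 r (A1of r B R) (A2of r B R) Y

/-! ## membership lemmas -/

lemma mem_JF1 {g r : ℕ} {B J : Finset (Finset (Fin n))} :
    J ∈ JF1 g r B ↔ (∀ X ∈ J, ∃ L ∈ opn g r B, X ∈ privs r B L) ∧
      ∀ L ∈ opn g r B, (J ∩ privs r B L).card = 1 := by
  classical
  rw [JF1, Finset.mem_filter, Finset.mem_powerset]
  constructor
  · rintro ⟨h1, h2⟩
    refine ⟨fun X hX => ?_, fun L hL => by convert h2 L hL⟩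
    obtain ⟨L, hL, h3⟩ := Finset.mem_biUnion.mp (h1 hX)
    exact ⟨L, hL, h3⟩
  · rintro ⟨h1, h2⟩
    refine ⟨fun X hX => ?_, fun L hL => by convert h2 L hL⟩
    obtain ⟨L, hL, h3⟩ := h1 X hX
    exact Finset.mem_biUnion.mpr ⟨L, hL, h3⟩

lemma mem_restP {g r : ℕ} {B : Finset (Finset (Fin n))} {X : Finset (Fin n)} :
    X ∈ restP g r B ↔ X ∈ hvy r B ∧ ∀ L ∈ opn g r B, ¬ onl L X := by
  classical
  rw [restP, Finset.mem_filter]

lemma mem_restC {g r : ℕ} {B : Finset (Finset (Fin n))} {a : ℕ} {X : Finset (Fin n)} :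
    X ∈ restC g r B a ↔ X ∈ restP g r B ∧ (∑ x ∈ X, (x : ℕ)) % n = a := by
  classical
  rw [restC, Finset.mem_filter]

lemma mem_JM {g r : ℕ} {B : Finset (Finset (Fin n))} {a : ℕ}
    {J : Finset (Finset (Fin n)) × Finset (Finset (Fin n))} :
    J ∈ JM g r B a ↔ J.1 ∈ JF1 g r B ∧ J.2 ⊆ restC g r B a := by
  rw [JM, Finset.mem_product, Finset.mem_powerset]

lemma mem_KJ {r : ℕ} {B J : Finset (Finset (Fin n))} {X : Finset (Fin n)} :
    X ∈ KJ r B J ↔ (X ∈ NB r B ∧ X ∉ hvy r B) ∨ X ∈ J := by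
  rw [KJ, Finset.mem_union, Finset.mem_sdiff]

lemma mem_A1of {r : ℕ} {B R : Finset (Finset (Fin n))} {C : Finset (Fin n)} :
    C ∈ A1of r B R ↔ ((∃ X ∈ NB1 r B, CX B X = C) ∧ C.card + 2 ≤ r) ∨
      (C ∈ R ∧ C.card + 1 = r) := by
  classical
  rw [A1of, Finset.mem_union, Finset.mem_filter, Finset.mem_filter, Finset.mem_image]

lemma mem_A2of {r : ℕ} {B R : Finset (Finset (Fin n))} {H : Finset (Fin n)} :
    H ∈ A2of r B R ↔ ((∃ X ∈ NB1 r B, HX B X = H) ∧ r + 2 ≤ H.card) ∨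
      (H ∈ R ∧ H.card = r + 1) := by
  classical
  rw [A2of, Finset.mem_union, Finset.mem_filter, Finset.mem_filter, Finset.mem_image]

lemma Kn0.kn {r : ℕ} {K : Finset (Finset (Fin n))} {f : Finset (Fin n) → Fin 3}
    {A1 A2 : Finset (Finset (Fin n))} {X : Finset (Fin n)} (h : Kn0 r A1 A2 X) :
    Kn r K f A1 A2 X := by
  obtain ⟨h1, ⟨C, hC, h2⟩ | ⟨H, hH, h2⟩⟩ := h
  · exact Kn.circ hC h1 h2
  · exact Kn.hyp hH h1 h2

lemma Kn.card {r : ℕ} {K : Finset (Finset (Fin n))} {f : Finset (Fin n) → Fin 3}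
    {A1 A2 : Finset (Finset (Fin n))} {X : Finset (Fin n)} (h : Kn r K f A1 A2 X) :
    X.card = r := by
  cases h <;> assumption

/-- the lists grow with `R` -/
lemma Kn0.mono {r : ℕ} {B R R' : Finset (Finset (Fin n))} (hR : R ⊆ R') {X : Finset (Fin n)}
    (h : Kn0 r (A1of r B R) (A2of r B R) X) : Kn0 r (A1of r B R') (A2of r B R') X := by
  obtain ⟨h1, ⟨C, hC, h2⟩ | ⟨H, hH, h2⟩⟩ := h
  · refine ⟨h1, Or.inl ⟨C, ?_, h2⟩⟩
    rw [mem_A1of] at hC ⊢
    exact hC.imp_right fun h3 => ⟨hR h3.1, h3.2⟩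
  · refine ⟨h1, Or.inr ⟨H, ?_, h2⟩⟩
    rw [mem_A2of] at hH ⊢
    exact hH.imp_right fun h3 => ⟨hR h3.1, h3.2⟩

lemma T1I.mono {r : ℕ} {B R R' : Finset (Finset (Fin n))} (hR : R ⊆ R') {I X0 : Finset (Fin n)}
    (h : T1I r B (A1of r B R) (A2of r B R) I X0) :
    T1I r B (A1of r B R') (A2of r B R') I X0 := by
  classical
  refine le_trans h (Finset.card_le_card ?_)
  intro z hz
  rw [Finset.mem_filter] at hz ⊢
  exact ⟨hz.1, hz.2.1, hz.2.2.mono hR⟩

lemma T1U.mono {r : ℕ} {B R R' : Finset (Finset (Fin n))} (hR : R ⊆ R') {U X0 : Finset (Fin n)}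
    (h : T1U r B (A1of r B R) (A2of r B R) U X0) :
    T1U r B (A1of r B R') (A2of r B R') U X0 := by
  classical
  refine le_trans h (Finset.card_le_card ?_)
  intro z hz
  rw [Finset.mem_filter] at hz ⊢
  exact ⟨hz.1, hz.2.1, hz.2.2.mono hR⟩

end Pool.Agent.H13.VM
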