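import Pool.Agent.H13.VM.D2a
import Pool.Agent.H13.VM.DDefs

/-! MODULE D2b (about 130 lines). The number of families `J1`.

`privs_disj`: a private member of `L` is on exactly one full line, which is `L` (a member of `opn` is in `bas`, so in `full`); so the private members of two different
lines are different. `JF1_card`: `J` in `JF1` has exactly one member in each of the disjoint sets `privs r B L`, `L` in `opn`, and no others: `J.card = (opn g r B).card`
(`Finset.card_biUnion` for `J = biUnion of J cap privs`). `JF1_many`: the number of `J` is the product of the `(privs r B L).card`, `L` in `opn` (map a choice function, an element of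
`Finset.pi (opn g r B) (privs r B)` or `Fintype.piFinset`, to its image: injective by disjointness; only `>=` is needed), and each factor is at least `g / 2`
(`mem_opn`). `JF1_hvy`: the members of `J1` are in `P`: `L` in `opn`, so in `basP`: some `X` in `hvy` is on `L`: `pts_hvy`.
`JF1_line`: the line of a member `u` of `J1`. -/

open scoped BigOperators
open Filter

namespace Pool.Agent.H13.VM

open Pool.Agent.H28.Johnson

theorem privs_eq {n r : ℕ} {B : Finset (Finset (Fin n))} {L L' X : Finset (Fin n)} (hL : L ∈ full r B) (hX : X ∈ privs r B L)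
    (hL' : L' ∈ full r B) (hX' : onl L' X) : L' = L := by
  rw [mem_privs] at hX
  obtain ⟨M, hM⟩ := Finset.card_eq_one.mp hX.2
  have h1 : L ∈ thr r B X := mem_thr.mpr ⟨hL, hX.1.2⟩
  have h2 : L' ∈ thr r B X := mem_thr.mpr ⟨hL', hX'⟩
  rw [hM, Finset.mem_singleton] at h1 h2
  rw [h1, h2]

private theorem opn_full {n r : ℕ} {B : Finset (Finset (Fin n))} {g : ℕ} {L : Finset (Fin n)} (hL : L ∈ opn g r B) :
    L ∈ full r B := (mem_bas.mp (mem_basP.mp (mem_opn.mp hL).1).1).1

private theorem privs_onl {n r : ℕ} {B : Finset (Finset (Fin n))} {L X : Finset (Fin n)} (hX : X ∈ privs r B L) :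
    onl L X := (mem_privs.mp hX).1.2

theorem JF1_card {n r : ℕ} {B : Finset (Finset (Fin n))} {g : ℕ} {J : Finset (Finset (Fin n))} (hJ : J ∈ JF1 g r B) :
    J.card = (opn g r B).card := by
  classical
  rw [mem_JF1] at hJ
  have h1 : J = (opn g r B).biUnion fun L => J ∩ privs r B L := by
    ext X
    rw [Finset.mem_biUnion]
    constructor
    · intro hX
      obtain ⟨L, hL, hXL⟩ := hJ.1 X hX
      exact ⟨L, hL, Finset.mem_inter.mpr ⟨hX, hXL⟩⟩
    · rintro ⟨L, _, hX⟩
      exact (Finset.mem_inter.mp hX).1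
  have h2 : ((opn g r B).biUnion fun L => J ∩ privs r B L).card =
      ∑ L ∈ opn g r B, (J ∩ privs r B L).card := by
    refine Finset.card_biUnion ?_
    intro L hL L' hL' hne
    refine Finset.disjoint_left.mpr ?_
    intro X hX hX'
    rw [Finset.mem_inter] at hX hX'
    exact hne (privs_eq (opn_full hL') hX'.2 (opn_full hL) (privs_onl hX.2))
  have h3 : ∑ L ∈ opn g r B, (J ∩ privs r B L).card = ∑ _L ∈ opn g r B, 1 :=
    Finset.sum_congr rfl fun L hL => by convert hJ.2 L hL
  rw [Finset.sum_const, smul_eq_mul, mul_one] at h3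
  calc J.card = ((opn g r B).biUnion fun L => J ∩ privs r B L).card := congrArg Finset.card h1
    _ = (opn g r B).card := h2.trans h3

open Classical in
private theorem d2b_pi {n : ℕ} (g r : ℕ) (B : Finset (Finset (Fin n))) :
    ∏ L ∈ opn g r B, (privs r B L).card ≤ (JF1 g r B).card := by
  rw [← Finset.card_pi]
  have hval : ∀ f ∈ (opn g r B).pi (privs r B), ∀ L (hL : L ∈ opn g r B), f L hL ∈ privs r B L :=
    fun f hf L hL => Finset.mem_pi.mp hf L hL
  have huniq : ∀ f ∈ (opn g r B).pi (privs r B), ∀ L (hL : L ∈ opn g r B),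
      ∀ X ∈ (opn g r B).attach.image (fun a => f a.1 a.2), X ∈ privs r B L → X = f L hL := by
    intro f hf L hL X hX hXL
    obtain ⟨⟨L', hL'⟩, _, rfl⟩ := Finset.mem_image.mp hX
    have h1 : L' = L := privs_eq (opn_full hL) hXL (opn_full hL') (privs_onl (hval f hf L' hL'))
    subst h1
    rfl
  refine Finset.card_le_card_of_injOn
    (fun f => (opn g r B).attach.image (fun a => f a.1 a.2)) ?_ ?_
  · intro f hf
    rw [Finset.mem_coe] at hf ⊢
    rw [mem_JF1]
    refine ⟨?_, ?_⟩
    · intro X hX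
      obtain ⟨⟨L', hL'⟩, _, rfl⟩ := Finset.mem_image.mp hX
      exact ⟨L', hL', hval f hf L' hL'⟩
    · intro L hL
      rw [Finset.card_eq_one]
      refine ⟨f L hL, ?_⟩
      ext X
      rw [Finset.mem_inter, Finset.mem_singleton]
      constructor
      · rintro ⟨h1, h2⟩
        exact huniq f hf L hL X h1 h2
      · rintro rfl
        exact ⟨Finset.mem_image.mpr ⟨⟨L, hL⟩, Finset.mem_attach _ _, rfl⟩, hval f hf L hL⟩
  · intro f hf f' hf' hff'
    rw [Finset.mem_coe] at hf hf'
    funext L hL
    refine huniq f' hf' L hL (f L hL) ?_ (hval f hf L hL)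
    have h1 : f L hL ∈ (opn g r B).attach.image (fun a => f a.1 a.2) :=
      Finset.mem_image.mpr ⟨⟨L, hL⟩, Finset.mem_attach _ _, rfl⟩
    have h2 : (opn g r B).attach.image (fun a => f a.1 a.2) =
        (opn g r B).attach.image (fun a => f' a.1 a.2) := hff'
    rw [h2] at h1
    exact h1

theorem JF1_many {n : ℕ} (g r : ℕ) (B : Finset (Finset (Fin n))) :
    ((g : ℝ) / 2) ^ (opn g r B).card ≤ ((JF1 g r B).card : ℝ) := by
  have h1 : ((g : ℝ) / 2) ^ (opn g r B).card ≤ ∏ L ∈ opn g r B, ((privs r B L).card : ℝ) := by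
    rw [← Finset.prod_const]
    refine Finset.prod_le_prod (fun _ _ => by positivity) fun L hL => ?_
    have h2 : (g : ℝ) ≤ 2 * ((privs r B L).card : ℝ) := by
      exact_mod_cast (mem_opn.mp hL).2
    linarith
  refine h1.trans ?_
  rw [← Nat.cast_prod]
  exact Nat.cast_le.mpr (d2b_pi g r B)

theorem JF1_hvy {n r : ℕ} {B : Finset (Finset (Fin n))} {g : ℕ} {J : Finset (Finset (Fin n))} (hJ : J ∈ JF1 g r B) :
    J ⊆ hvy r B := by
  intro X hX
  obtain ⟨L, hL, hXL⟩ := (mem_JF1.mp hJ).1 X hX
  obtain ⟨Y, hY, hLY⟩ := (mem_basP.mp (mem_opn.mp hL).1).2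
  exact pts_hvy (opn_full hL) hY hLY (mem_privs.mp hXL).1.1 (privs_onl hXL)

theorem JF1_line {n r : ℕ} {B : Finset (Finset (Fin n))} {g : ℕ} {J : Finset (Finset (Fin n))} (hJ : J ∈ JF1 g r B)
    {u : Finset (Fin n)} (hu : u ∈ J) :
    ∃ L ∈ opn g r B, u ∈ privs r B L ∧ L ∈ full r B := by
  obtain ⟨L, hL, hXL⟩ := (mem_JF1.mp hJ).1 u hu
  exact ⟨L, hL, hXL, opn_full hL⟩

end Pool.Agent.H13.VM
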