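import Pool.Agent.H13.VM.D2b
import Pool.Agent.H13.VM.A4
import Pool.Agent.H13.VM.A5

/-! MODULE D2c (about 140 lines). `J = J1 cup J2` is stable and `P` can be replaced by `J`.

`J_sub`: `JF1_hvy`, and `J2` is contained in `restC`, `restP`, `P`.
`J_stable`: let `u, v` in `J` be adjacent; both are nonbases (`P` is contained in `NB r B`), so they are on a common full line `L'` (`share`). If `u` in `J1`: `u` is private on an open line `L0`
(`JF1_line`), so `L' = L0` (`privs_eq`). If also `v` in `J1`, then `L' = L1` is the open line of `v`, so `L0 = L1` and `u, v` are both in `J1 cap privs r B L0`, which has one element: `u = v`,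
but adjacent sets are different. If `v` in `J2`: `v` is on the open line `L' = L0`, contradiction with `v` in `restP`. Both in `J2`: `v = ex u y z` (`exists_ex`), the sums of the elements differ by
`z - y`, not divisible by `n` because `y <> z` in `Fin n`; but both sums are `a` modulo `n`.
`J_isMat`: `B cup hvy r B` is a matroid (`add_components`, `hvy_closed`); `J` is contained in it; every neighbour `X` in `Base n r` of a member `S` of `J` is in `B cup hvy r B` (if it is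
not in `B` it is a nonbase adjacent to `S` in `P`): `del_stable`. `J_NB`: the nonbases of `(B cup P) \ J` are `(NB \ P) cup J`. -/

open scoped BigOperators
open Filter

namespace Pool.Agent.H13.VM

open Pool.Agent.H28.Johnson

theorem J_sub {n r : ℕ} {B : Finset (Finset (Fin n))} {g a : ℕ} {J1 J2 : Finset (Finset (Fin n))} (h1 : J1 ∈ JF1 g r B)
    (h2 : J2 ⊆ restC g r B a) : J1 ∪ J2 ⊆ hvy r B :=
  Finset.union_subset (JF1_hvy h1) fun _ hX => (mem_restP.1 (mem_restC.1 (h2 hX)).1).1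

/-- adjacent `r`-sets have different sums modulo `n` -/
private theorem D2c_sum {n r : ℕ} {u v : Finset (Fin n)} (hu : u.card = r) (hv : v.card = r)
    (huv : adj r u v) : (∑ x ∈ u, (x : ℕ)) % n ≠ (∑ x ∈ v, (x : ℕ)) % n := by
  obtain ⟨y, hy, z, hz, _, _, rfl⟩ := exists_ex hu hv huv
  intro he
  have h1 : ∑ x ∈ ex u y z, (x : ℕ) = (z : ℕ) + ∑ x ∈ u.erase y, (x : ℕ) := by
    rw [ex, Finset.sum_insert fun h => hz (Finset.mem_of_mem_erase h)]
  have h2 : ∑ x ∈ u.erase y, (x : ℕ) + (y : ℕ) = ∑ x ∈ u, (x : ℕ) :=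
    Finset.sum_erase_add u (fun x : Fin n => (x : ℕ)) hy
  rw [h1, ← h2, Nat.add_comm (z : ℕ)] at he
  have h3 : (y : ℕ) ≡ (z : ℕ) [MOD n] := Nat.ModEq.add_left_cancel' _ he
  have h4 : (y : ℕ) = (z : ℕ) := Nat.ModEq.eq_of_lt_of_lt h3 y.isLt z.isLt
  exact hz (Fin.ext h4 ▸ hy)

/-- the line through a member of `J1` -/
private theorem D2c_line {n r : ℕ} {B : Finset (Finset (Fin n))} {g : ℕ} {J1 : Finset (Finset (Fin n))}
    (h1 : J1 ∈ JF1 g r B) {L u : Finset (Fin n)} (hu : u ∈ J1) (hL : L ∈ full r B) (hLu : onl L u) :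
    L ∈ opn g r B ∧ u ∈ privs r B L := by
  obtain ⟨L0, hL0, hu0, hL0f⟩ := JF1_line h1 hu
  have he : L = L0 := privs_eq hL0f hu0 hL hLu
  rw [he]
  exact ⟨hL0, hu0⟩

theorem J_stable {n r : ℕ} {B : Finset (Finset (Fin n))} (h : IsMat n r B) {g a : ℕ} {J1 J2 : Finset (Finset (Fin n))} (h1 : J1 ∈ JF1 g r B)
    (h2 : J2 ⊆ restC g r B a) : ∀ u ∈ J1 ∪ J2, ∀ v ∈ J1 ∪ J2, ¬ adj r u v := by
  intro u hu v hv huv
  have hP : ∀ w ∈ J1 ∪ J2, w ∈ NB r B := fun w hw => (mem_hvy.1 (J_sub h1 h2 hw)).1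
  obtain ⟨L, hL, hLu, hLv⟩ := share h (hP u hu) (hP v hv) huv
  have hr2 : ∀ w ∈ J2, w ∈ restP g r B ∧ (∑ x ∈ w, (x : ℕ)) % n = a := fun w hw =>
    mem_restC.1 (h2 hw)
  rcases Finset.mem_union.1 hu with hu1 | hu2 <;> rcases Finset.mem_union.1 hv with hv1 | hv2
  · obtain ⟨hLo, hup⟩ := D2c_line h1 hu1 hL hLu
    obtain ⟨-, hvp⟩ := D2c_line h1 hv1 hL hLv
    have hc := (mem_JF1.1 h1).2 L hLo
    obtain ⟨w, hw⟩ := Finset.card_eq_one.1 hc
    have e1 : u ∈ J1 ∩ privs r B L := Finset.mem_inter.2 ⟨hu1, hup⟩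
    have e2 : v ∈ J1 ∩ privs r B L := Finset.mem_inter.2 ⟨hv1, hvp⟩
    rw [hw, Finset.mem_singleton] at e1 e2
    exact huv.1 (e1.trans e2.symm)
  · obtain ⟨hLo, -⟩ := D2c_line h1 hu1 hL hLu
    exact (mem_restP.1 (hr2 v hv2).1).2 L hLo hLv
  · obtain ⟨hLo, -⟩ := D2c_line h1 hv1 hL hLv
    exact (mem_restP.1 (hr2 u hu2).1).2 L hLo hLu
  · exact D2c_sum (mem_NB.1 (hP u hu)).1 (mem_NB.1 (hP v hv)).1 huv
      ((hr2 u hu2).2.trans (hr2 v hv2).2.symm)

theorem J_isMat {n r : ℕ} {B : Finset (Finset (Fin n))} (h : IsMat n r B) (hr : 1 ≤ r) (hrn : r < n) {g a : ℕ} {J1 J2 : Finset (Finset (Fin n))}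
    (h1 : J1 ∈ JF1 g r B) (h2 : J2 ⊆ restC g r B a) :
    IsMat n r ((B ∪ hvy r B) \ (J1 ∪ J2)) := by
  refine del_stable (add_components h (hvy_closed r B)) hr hrn
    (fun X hX => Finset.mem_union.2 (Or.inr (J_sub h1 h2 hX))) (J_stable h h1 h2) ?_
  intro S hS X hX hadj
  by_cases hXB : X ∈ B
  · exact Finset.mem_union.2 (Or.inl hXB)
  · exact Finset.mem_union.2 (Or.inr ((hvy_closed r B).2 S (J_sub h1 h2 hS) X
      (mem_NB.2 ⟨mem_Base.1 hX, hXB⟩) hadj))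

theorem J_NB {n r : ℕ} {B : Finset (Finset (Fin n))} (h : IsMat n r B) {J : Finset (Finset (Fin n))} (hJ : J ⊆ hvy r B) :
    NB r ((B ∪ hvy r B) \ J) = KJ r B J := by
  ext X
  rw [mem_NB, mem_KJ, Finset.mem_sdiff, Finset.mem_union]
  constructor
  · rintro ⟨hc, hn⟩
    by_cases hXJ : X ∈ J
    · exact Or.inr hXJ
    · left
      refine ⟨mem_NB.2 ⟨hc, fun hB => hn ⟨Or.inl hB, hXJ⟩⟩, fun hH => hn ⟨Or.inr hH, hXJ⟩⟩
  · rintro (⟨h1, h2⟩ | h1)
    · refine ⟨(mem_NB.1 h1).1, ?_⟩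
      rintro ⟨h3 | h3, -⟩
      · exact (mem_NB.1 h1).2 h3
      · exact h2 h3
    · exact ⟨(mem_NB.1 (mem_hvy.1 (hJ h1)).1).1, fun h2 => h2.2 h1⟩

end Pool.Agent.H13.VM
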