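import Pool.Agent.H13.VM.D2b

/-! MODULE D2d (about 130 lines). The weighted number of families `J`.

Let `lam = (opn g r B).card`, `om = (restP g r B).card`. `|P| <= lam n + om`: a member of `P` is in `restP` or on an open line, i.e. in one of the sets `pts r L`, `L` in `opn`
(`opn` is contained in `full`), each of which has at most `n` elements (`card_pts_le`). By the pigeonhole principle some residue `a < n` has `om <= n |restC g r B a|`
(`Finset.exists_le_card_fiber_of_mul_le_card_of_maps_to` or the sum over `a` in `range n`). The sum over `J = (J1, J2)` factors (`Finset.sum_product`, `pow_add`):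
`(sum over J1 of 3^(-|J1|)) (sum over J2 of 3^(-|J2|))`. First factor: `|J1| = lam` (`JF1_card`), so it is `|JF1| 3^(-lam) >= (g/6)^lam >= 2^lam` (`JF1_many`, `12 <= g`). Second factor:
`sum over J2 in powerset of 3^(-|J2|) = (1 + 1/3)^|restC|` (`Finset.prod_one_add`, or `Finset.sum_pow_mul_eq_add_pow`) `>= 2^(0.4 |restC|)` because `2^0.4 <= 4/3` (`2^2 <= (4/3)^5`, i.e.
`4 <= 1024/243`). So the product is `>= 2^(0.4 (lam + |restC|)) >= 2^(0.4 |P| / n)`. -/

open scoped BigOperators
open Filter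

namespace Pool.Agent.H13.VM

open Pool.Agent.H28.Johnson

lemma two_rpow_le : (2 : ℝ) ^ (0.4 : ℝ) ≤ 4 / 3 := by
  have h1 : ((2 : ℝ) ^ (0.4 : ℝ)) ^ 5 = 4 := by
    rw [← Real.rpow_natCast, ← Real.rpow_mul (by norm_num)]
    have : (0.4 : ℝ) * ((5 : ℕ) : ℝ) = ((2 : ℕ) : ℝ) := by norm_num
    rw [this, Real.rpow_natCast]; norm_num
  by_contra h
  push Not at h
  have h2 : ((4 : ℝ) / 3) ^ 5 < ((2 : ℝ) ^ (0.4 : ℝ)) ^ 5 := by
    gcongr
  rw [h1] at h2
  norm_num at h2

theorem J_sum {n : ℕ} {g : ℕ} (r : ℕ) (B : Finset (Finset (Fin n))) (hn : 1 ≤ n) (hg : 12 ≤ g) :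
    ∃ a : ℕ, (2 : ℝ) ^ ((0.4 : ℝ) * (hvy r B).card / n) ≤
      ∑ J ∈ JM g r B a, ((1 : ℝ) / 3) ^ (J.1.card + J.2.card) := by
  classical
  have hfull : ∀ L ∈ opn g r B, L ∈ full r B := by
    intro L hL
    rw [opn, Finset.mem_filter] at hL
    have h1 := hL.1
    rw [basP, Finset.mem_filter] at h1
    have h2 := h1.1
    rw [bas, Finset.mem_filter] at h2
    exact h2.1
  have hP : (hvy r B).card ≤ (opn g r B).card * n + (restP g r B).card := by
    have hsub : hvy r B ⊆ ((opn g r B).biUnion fun L => pts r L) ∪ restP g r B := by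
      intro X hX
      by_cases h : ∃ L ∈ opn g r B, onl L X
      · obtain ⟨L, hL, hLX⟩ := h
        refine Finset.mem_union_left _ (Finset.mem_biUnion.mpr ⟨L, hL, ?_⟩)
        rw [pts, Finset.mem_filter]
        refine ⟨?_, hLX⟩
        have h1 := hX
        rw [hvy, Finset.mem_filter] at h1
        have h2 := h1.1
        rw [NB, Finset.mem_sdiff] at h2
        exact h2.1
      · push Not at h
        exact Finset.mem_union_right _ (mem_restP.mpr ⟨hX, h⟩)
    refine (Finset.card_le_card hsub).trans ((Finset.card_union_le _ _).trans ?_)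
    have := Finset.card_biUnion_le_card_mul (opn g r B) (fun L => pts r L) n
      (fun L hL => card_pts_le (hfull L hL))
    omega
  -- pigeonhole
  have hpig : ∃ a : ℕ, (restP g r B).card ≤ n * (restC g r B a).card := by
    by_contra hcon
    push Not at hcon
    have hsum : (restP g r B).card = ∑ a ∈ Finset.range n, (restC g r B a).card := by
      have h1 := Finset.card_eq_sum_card_fiberwise (s := restP g r B) (t := Finset.range n)
        (f := fun X : Finset (Fin n) => (∑ x ∈ X, (x : ℕ)) % n)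
        (fun X _ => by
          simp only [Finset.coe_range, Set.mem_Iio]
          exact Nat.mod_lt _ hn)
      rw [h1]
      refine Finset.sum_congr rfl fun a _ => ?_
      congr 1
    have hlt : ∑ a ∈ Finset.range n, n * (restC g r B a).card <
        ∑ _a ∈ Finset.range n, (restP g r B).card :=
      Finset.sum_lt_sum_of_nonempty (Finset.nonempty_range_iff.mpr (by omega))
        (fun a _ => hcon a)
    rw [← Finset.mul_sum, ← hsum, Finset.sum_const, Finset.card_range, smul_eq_mul] at hlt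
    exact lt_irrefl _ hlt
  obtain ⟨a, ha⟩ := hpig
  refine ⟨a, ?_⟩
  have hprod : ∑ J ∈ JM g r B a, ((1 : ℝ) / 3) ^ (J.1.card + J.2.card) =
      (∑ J1 ∈ JF1 g r B, ((1 : ℝ) / 3) ^ J1.card) *
        ∑ J2 ∈ (restC g r B a).powerset, ((1 : ℝ) / 3) ^ J2.card := by
    rw [JM, Finset.sum_product, Finset.sum_mul_sum]
    refine Finset.sum_congr rfl fun J1 _ => Finset.sum_congr rfl fun J2 _ => ?_
    rw [pow_add]
  have hfirst : (2 : ℝ) ^ (opn g r B).card ≤ ∑ J1 ∈ JF1 g r B, ((1 : ℝ) / 3) ^ J1.card := by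
    have h1 : ∑ J1 ∈ JF1 g r B, ((1 : ℝ) / 3) ^ J1.card =
        ((JF1 g r B).card : ℝ) * (1 / 3) ^ (opn g r B).card := by
      rw [Finset.sum_congr rfl fun J1 hJ1 => by rw [JF1_card hJ1], Finset.sum_const, nsmul_eq_mul]
    rw [h1]
    have h2 := JF1_many g r B
    have h3 : (12 : ℝ) ≤ g := by exact_mod_cast hg
    calc (2 : ℝ) ^ (opn g r B).card ≤ ((g : ℝ) / 2 * (1 / 3)) ^ (opn g r B).card := by
          gcongr
          linarith
      _ = ((g : ℝ) / 2) ^ (opn g r B).card * (1 / 3) ^ (opn g r B).card := by rw [mul_pow]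
      _ ≤ _ := by gcongr
  have hsecond : (2 : ℝ) ^ ((0.4 : ℝ) * (restC g r B a).card) ≤
      ∑ J2 ∈ (restC g r B a).powerset, ((1 : ℝ) / 3) ^ J2.card := by
    have h1 := Finset.sum_pow_mul_eq_add_pow ((1 : ℝ) / 3) 1 (restC g r B a)
    simp only [one_pow, mul_one] at h1
    rw [h1, Real.rpow_mul (by norm_num), Real.rpow_natCast]
    have h2 : (1 : ℝ) / 3 + 1 = 4 / 3 := by norm_num
    rw [h2]
    exact pow_le_pow_left₀ (by positivity) two_rpow_le _
  rw [hprod]
  calc (2 : ℝ) ^ ((0.4 : ℝ) * (hvy r B).card / n)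
      ≤ (2 : ℝ) ^ (((opn g r B).card : ℝ) + 0.4 * (restC g r B a).card) := by
        apply Real.rpow_le_rpow_of_exponent_le (by norm_num)
        have hn' : (0 : ℝ) < n := by exact_mod_cast hn
        rw [div_le_iff₀ hn']
        have hP' : ((hvy r B).card : ℝ) ≤ (opn g r B).card * n + (restP g r B).card := by
          exact_mod_cast hP
        have ha' : ((restP g r B).card : ℝ) ≤ n * (restC g r B a).card := by exact_mod_cast ha
        have h0 : (0 : ℝ) ≤ (opn g r B).card * n := by positivity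
        nlinarith
    _ = (2 : ℝ) ^ (opn g r B).card * (2 : ℝ) ^ ((0.4 : ℝ) * (restC g r B a).card) := by
        rw [Real.rpow_add (by norm_num), Real.rpow_natCast]
    _ ≤ _ := by gcongr

end Pool.Agent.H13.VM
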