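import Pool.Agent.H13.VM.DDefs
import Pool.Agent.H13.VM.A11

/-! MODULE D3b (about 120 lines). The rules with three known points are sound.

`known_lineI`: suppose `I` is not in `fullI`: `insert x I` in `B` for some `x` not in `I`. Take `z1` in `Zs`, `X = insert z1 I` in `NB r B`; `x <> z1`. `ex X z1 x = insert x I` in `B`, so `X` in `NB1`,
`z1` in `CX B X`, `x` in `DX B X`. For `z` in `Zs`, `z <> z1`: `ex X z1 z = insert z I` is a nonbase, so by `rect` (`z1` in `CX`) `z` is not in `DX B X`. So `I cup Zs` is contained in `HX B X`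
(`I` and `z1` are in `X`, `subset_HX`), which therefore has at least `(r - 1) + 3 = r + 2` elements and is in `A2of r B R`: contradiction with `hA`.
`known_lineU`: suppose `U.erase x` in `B` for some `x` in `U` (so `x` is not in `Ys`). Take `y1` in `Ys`, `X = U.erase y1` in `NB r B`. `ex X x y1 = U.erase x` in `B`: `X` in `NB1`, `x` in `CX B X`, `y1`
in `DX B X`. For `y` in `Ys`, `y <> y1`: `ex X y y1 = U.erase y` is a nonbase, so `y` is not in `CX B X`. So `CX B X` is contained in `U \ Ys`, has at most `r + 1 - 3` elements, and is in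
`A1of r B R`: contradiction with `hA`. -/

open scoped BigOperators
open Filter

namespace Pool.Agent.H13.VM

open Pool.Agent.H28.Johnson

theorem known_lineI {n r : ℕ} {B : Finset (Finset (Fin n))} (h : IsMat n r B) (R : Finset (Finset (Fin n))) {I Zs : Finset (Fin n)}
    (hI : I.card + 1 = r) (h3 : 3 ≤ Zs.card) (hd : ∀ z ∈ Zs, z ∉ I)
    (hz : ∀ z ∈ Zs, insert z I ∈ NB r B) (hA : ∀ H ∈ A2of r B R, ¬ I ∪ Zs ⊆ H) :
    I ∈ fullI r B := by
  by_contra hnf
  have hx : ∃ x, x ∉ I ∧ insert x I ∈ B := by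
    by_contra hcon
    push Not at hcon
    exact hnf (mem_fullI.2 ⟨hI, hcon⟩)
  obtain ⟨x, hxI, hxB⟩ := hx
  obtain ⟨z1, hz1⟩ := Finset.card_pos.1 (show 0 < Zs.card by omega)
  have hz1I := hd z1 hz1
  have hX := hz z1 hz1
  have hxz : x ≠ z1 := by
    rintro rfl
    exact (mem_NB.1 hX).2 hxB
  have hex : ∀ z, ex (insert z1 I) z1 z = insert z I := by
    intro z
    rw [ex, Finset.erase_insert hz1I]
  have hxX : x ∉ insert z1 I := by
    rw [Finset.mem_insert]
    rintro (h1 | h1)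
    · exact hxz h1
    · exact hxI h1
  have hxB' : ex (insert z1 I) z1 x ∈ B := by
    rw [hex]
    exact hxB
  have hX1 : insert z1 I ∈ NB1 r B :=
    mem_NB1.2 ⟨hX, z1, Finset.mem_insert_self _ _, x, hxX, hxB'⟩
  have hz1C : z1 ∈ CX B (insert z1 I) := mem_CX.2 ⟨Finset.mem_insert_self _ _, x, hxX, hxB'⟩
  have hsub : I ∪ Zs ⊆ HX B (insert z1 I) := by
    intro z hzu
    by_cases hzX : z ∈ insert z1 I
    · exact subset_HX B _ hzX
    · have hzZ : z ∈ Zs := by
        rcases Finset.mem_union.1 hzu with h1 | h1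
        · exact absurd (Finset.mem_insert_of_mem h1) hzX
        · exact h1
      rw [mem_HX]
      intro hzD
      have h1 := (rect h hX (Finset.mem_insert_self z1 I) hzX).2 ⟨hz1C, hzD⟩
      rw [hex] at h1
      exact (mem_NB.1 (hz z hzZ)).2 h1
  have hdis : Disjoint I Zs := by
    rw [Finset.disjoint_left]
    exact fun z hzI hzZ => hd z hzZ hzI
  have hc := Finset.card_le_card hsub
  rw [Finset.card_union_of_disjoint hdis] at hc
  exact hA _ (mem_A2of.2 (Or.inl ⟨⟨_, hX1, rfl⟩, by omega⟩)) hsub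

theorem known_lineU {n r : ℕ} {B : Finset (Finset (Fin n))} (h : IsMat n r B) (R : Finset (Finset (Fin n))) {U Ys : Finset (Fin n)}
    (hU : U.card = r + 1) (h3 : 3 ≤ Ys.card) (hd : Ys ⊆ U)
    (hy : ∀ y ∈ Ys, U.erase y ∈ NB r B) (hA : ∀ C ∈ A1of r B R, ¬ C ⊆ U \ Ys) :
    U ∈ fullU r B := by
  by_contra hnf
  have hx : ∃ x ∈ U, U.erase x ∈ B := by
    by_contra hcon
    push Not at hcon
    exact hnf (mem_fullU.2 ⟨hU, hcon⟩)
  obtain ⟨x, hxU, hxB⟩ := hx
  obtain ⟨y1, hy1⟩ := Finset.card_pos.1 (show 0 < Ys.card by omega)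
  have hX := hy y1 hy1
  have hxy : x ≠ y1 := by
    rintro rfl
    exact (mem_NB.1 hX).2 hxB
  have hy1X : y1 ∉ U.erase y1 := Finset.notMem_erase _ _
  have hex : ∀ y, y ≠ y1 → ex (U.erase y1) y y1 = U.erase y := by
    intro y hyy
    ext w
    rw [mem_ex, Finset.mem_erase, Finset.mem_erase]
    constructor
    · rintro (rfl | ⟨h1, h2, h3⟩)
      · exact ⟨Ne.symm hyy, hd hy1⟩
      · exact ⟨h1, h3⟩
    · rintro ⟨h1, h2⟩
      by_cases hw : w = y1
      · exact Or.inl hw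
      · exact Or.inr ⟨h1, hw, h2⟩
  have hxX : x ∈ U.erase y1 := Finset.mem_erase.2 ⟨hxy, hxU⟩
  have hxB' : ex (U.erase y1) x y1 ∈ B := by
    rw [hex x hxy]
    exact hxB
  have hX1 : U.erase y1 ∈ NB1 r B := mem_NB1.2 ⟨hX, x, hxX, y1, hy1X, hxB'⟩
  have hy1D : y1 ∈ DX B (U.erase y1) := mem_DX.2 ⟨hy1X, x, hxX, hxB'⟩
  have hsub : CX B (U.erase y1) ⊆ U \ Ys := by
    intro y hyC
    have hyX := CX_subset B _ hyC
    obtain ⟨hyy, hyU⟩ := Finset.mem_erase.1 hyX
    refine Finset.mem_sdiff.2 ⟨hyU, fun hyY => ?_⟩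
    have h1 := (rect h hX hyX hy1X).2 ⟨hyC, hy1D⟩
    rw [hex y hyy] at h1
    exact (mem_NB.1 (hy y hyY)).2 h1
  have hc := Finset.card_le_card hsub
  have hc2 := Finset.card_sdiff_add_card_eq_card hd
  exact hA _ (mem_A1of.2 (Or.inl ⟨⟨_, hX1, rfl⟩, by omega⟩)) hsub

end Pool.Agent.H13.VM
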