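import Pool.Agent.H13.VM.D3a
import Pool.Agent.H13.VM.D3b

/-! MODULE D3 (about 170 lines). SOUNDNESS: all recovered sets are in `P`, and each of them is on a full line whose members are all recovered.

Induction on `Kn` (write `KN Y` for `Kn r (KJ r B (J1 cup J2)) f (A1of r B R) (A2of r B R) Y`).
* `circ`: `C` in `A1of`, `C` contained in `X`. `mem_A1of`: (1) `C = CX B Z`, `Z` in `NB1`, `C.card + 2 <= r`: `X` in `P` by `small_circuit_hvy`; take `y` in `X`, not in `C`: `L = X.erase y` is a full I-line (all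
  `insert z L` contain `C`: `nb_of_circuit`), on `X`, and every member `Y` of it contains `L`, so `C`: `Kn.circ`. (2) `C` in `R`, so in `basP`, `C.card + 1 = r`: `C` is a full line, some member of it is in
  `P`, so `X` in `P` (`pts_hvy`); the line is `C` itself: it is in `fullI` (its card is `r - 1`, not `r + 1`), its members contain `C` (`onlI`).
* `hyp`: dual: (1) `H = HX B Z`, `r + 2 <= H.card`: `big_hyp_hvy`, `L = insert z X` with `z` in `H`, not in `X`; (2) `H` in `R`, `H.card = r + 1`: the line is `H`.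
* `labI`: by induction `X` in `P`; `lab_lineI`: `X cap u` in `fullI`, on `X` and on `Y`: `Y` in `P` by `pts_hvy`; all members `Y'` of the line contain `X cap u`: `Kn.labI`.
* `labU`: dual with `lab_lineU`, `X cup u`.
* `lineI`: by induction `insert z I` in `P` (so in `NB r B`) for `z` in `Zs`; `known_lineI`: `I` in `fullI`; `Zs` is nonempty, so a member of the line is in `P`, so `Y` in `P`; all members of the line are recovered by
  `Kn.lineI`. * `lineU`: dual. -/

open scoped BigOperators
open Filter

namespace Pool.Agent.H13.VM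

open Pool.Agent.H28.Johnson

theorem Kn_sound {n r : ℕ} {B : Finset (Finset (Fin n))} (h : IsMat n r B) {g : ℕ} {J1 J2 R : Finset (Finset (Fin n))}
    {f : Finset (Fin n) → Fin 3} (hD : JData g r B J1 J2 f) (hR : R ⊆ basP r B)
    {X : Finset (Fin n)} (hX : Kn r (KJ r B (J1 ∪ J2)) f (A1of r B R) (A2of r B R) X) :
    X ∈ hvy r B ∧ ∃ L ∈ full r B, onl L X ∧ ∀ Y : Finset (Fin n), Y.card = r → onl L Y →
      Kn r (KJ r B (J1 ∪ J2)) f (A1of r B R) (A2of r B R) Y := by
  induction hX with
  | @circ C X hC hX hCX =>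
    rcases mem_A1of.1 hC with ⟨⟨Z, hZ, hZC⟩, hc⟩ | ⟨hCR, hc⟩
    · subst hZC
      have hP : X ∈ hvy r B := small_circuit_hvy h hZ hc hX hCX
      obtain ⟨y, hyX, hyC⟩ : ∃ y ∈ X, y ∉ CX B Z := by
        by_contra hcon
        push Not at hcon
        have h1 := Finset.card_le_card (show X ⊆ CX B Z from hcon)
        omega
      have hCL : CX B Z ⊆ X.erase y := by
        intro w hw
        exact Finset.mem_erase.2 ⟨fun h1 => hyC (h1 ▸ hw), hCX hw⟩
      have hLc : (X.erase y).card + 1 = r := by
        rw [Finset.card_erase_of_mem hyX]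
        have := Finset.card_pos.2 ⟨y, hyX⟩
        omega
      have hLI : X.erase y ∈ fullI r B := by
        rw [mem_fullI]
        refine ⟨hLc, fun z hz => ?_⟩
        have h2 : (insert z (X.erase y)).card = r := by
          rw [Finset.card_insert_of_notMem hz]
          exact hLc
        exact (mem_NB.1 (nb_of_circuit h hZ h2 (hCL.trans (Finset.subset_insert _ _)))).2
      refine ⟨hP, X.erase y, mem_full.2 (Or.inl hLI), Or.inl (Finset.erase_subset _ _),
        fun Y hY hon => ?_⟩
      exact Kn.circ hC hY (hCL.trans ((onlI hLI hY).1 hon))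
    · obtain ⟨hb, W, hW, hCW⟩ := mem_basP.1 (hR hCR)
      have hfull := (mem_bas.1 hb).1
      have hI : C ∈ fullI r B := by
        rcases mem_full.1 hfull with h1 | h1
        · exact h1
        · have := (mem_fullU.1 h1).1
          omega
      exact ⟨pts_hvy hfull hW hCW hX (Or.inl hCX), C, hfull, Or.inl hCX,
        fun Y hY hon => Kn.circ hC hY ((onlI hI hY).1 hon)⟩
  | @hyp H X hH hX hXH =>
    rcases mem_A2of.1 hH with ⟨⟨Z, hZ, hZH⟩, hc⟩ | ⟨hHR, hc⟩
    · subst hZH
      have hP : X ∈ hvy r B := big_hyp_hvy h hZ hc hX hXH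
      obtain ⟨z, hzH, hzX⟩ : ∃ z ∈ HX B Z, z ∉ X := by
        by_contra hcon
        push Not at hcon
        have h1 := Finset.card_le_card (show HX B Z ⊆ X from hcon)
        omega
      have hLH : insert z X ⊆ HX B Z := Finset.insert_subset hzH hXH
      have hLc : (insert z X).card = r + 1 := by
        rw [Finset.card_insert_of_notMem hzX, hX]
      have hLU : insert z X ∈ fullU r B := by
        rw [mem_fullU]
        refine ⟨hLc, fun y hy => ?_⟩
        have h2 : ((insert z X).erase y).card = r := by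
          rw [Finset.card_erase_of_mem hy, hLc]
          rfl
        exact (mem_NB.1 (nb_of_hyp h hZ h2 ((Finset.erase_subset _ _).trans hLH))).2
      refine ⟨hP, insert z X, mem_full.2 (Or.inr hLU), Or.inr (Finset.subset_insert _ _),
        fun Y hY hon => ?_⟩
      exact Kn.hyp hH hY (((onlU hLU hY).1 hon).trans hLH)
    · obtain ⟨hb, W, hW, hHW⟩ := mem_basP.1 (hR hHR)
      have hfull := (mem_bas.1 hb).1
      have hU : H ∈ fullU r B := by
        rcases mem_full.1 hfull with h1 | h1
        · have := (mem_fullI.1 h1).1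
          omega
        · exact h1
      exact ⟨pts_hvy hfull hW hHW hX (Or.inr hXH), H, hfull, Or.inr hXH,
        fun Y hY hon => Kn.hyp hH hY ((onlU hU hY).1 hon)⟩
  | @labI X u Y hX hu ha hf hY hs ih =>
    have hL := lab_lineI h hD ih.1 hu ha hf
    have hfull : X ∩ u ∈ full r B := mem_full.2 (Or.inl hL)
    exact ⟨pts_hvy hfull ih.1 (Or.inl Finset.inter_subset_left) hY (Or.inl hs), X ∩ u, hfull,
      Or.inl hs, fun Y' hY' hon => Kn.labI hX hu ha hf hY' ((onlI hL hY').1 hon)⟩
  | @labU X u Y hX hu ha hf hY hs ih =>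
    have hL := lab_lineU h hD ih.1 hu ha hf
    have hfull : X ∪ u ∈ full r B := mem_full.2 (Or.inr hL)
    exact ⟨pts_hvy hfull ih.1 (Or.inr Finset.subset_union_left) hY (Or.inr hs), X ∪ u, hfull,
      Or.inr hs, fun Y' hY' hon => Kn.labU hX hu ha hf hY' ((onlU hL hY').1 hon)⟩
  | @lineI I Zs Y hI h3 hd hz hA hY hs ih =>
    have hL := known_lineI h R hI h3 hd (fun z hz' => (mem_hvy.1 (ih z hz').1).1) hA
    have hfull : I ∈ full r B := mem_full.2 (Or.inl hL)
    obtain ⟨z, hz'⟩ : Zs.Nonempty := by
      rw [← Finset.card_pos]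
      omega
    exact ⟨pts_hvy hfull (ih z hz').1 (Or.inl (Finset.subset_insert _ _)) hY (Or.inl hs), I, hfull,
      Or.inl hs, fun Y' hY' hon => Kn.lineI hI h3 hd hz hA hY' ((onlI hL hY').1 hon)⟩
  | @lineU U Ys Y hU h3 hd hy hA hY hs ih =>
    have hL := known_lineU h R hU h3 hd (fun y hy' => (mem_hvy.1 (ih y hy').1).1) hA
    have hfull : U ∈ full r B := mem_full.2 (Or.inr hL)
    obtain ⟨y, hy'⟩ : Ys.Nonempty := by
      rw [← Finset.card_pos]
      omega
    exact ⟨pts_hvy hfull (ih y hy').1 (Or.inr (Finset.erase_subset _ _)) hY (Or.inr hs), U, hfull,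
      Or.inr hs, fun Y' hY' hon => Kn.lineU hU h3 hd hy hA hY' ((onlU hL hY').1 hon)⟩

end Pool.Agent.H13.VM
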