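import Pool.Agent.H13.VM.D2b

/-! MODULE D3a (about 100 lines). The label rules are sound.

Let `X` in `P`, `u` in `KJ r B (J1 cup J2)` adjacent to `X`. `u` is not in `NB r B \ hvy r B`: otherwise `u` is a nonbase adjacent to `X` in `P`, so in `P` (`hvy_closed`). So `u` in `J1 cup J2`
and `f u = lab r B J1 u`. If `f u = 1` or `f u = 2` then `u` in `J1` (`lab`; `0 <> 1`, `0 <> 2` in `Fin 3`), so `u` is private on an open line `L0` (`JF1_line`), a full line, and `X, u` are nonbases
on a common full line (`local_test`): `X cap u` in `fullI` or `X cup u` in `fullU`; whichever it is, it is a full line on `u`, so equal to `L0` (`privs_eq`; `onl`: `X cap u` is contained in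
`u`, `u` is contained in `X cup u`). If `f u = 1`: `thrI r B u` is nonempty: an I-line on `u`, so it is `L0` (`privs_eq`): `L0` in `fullI`, has `r - 1` elements, so it is not `X cup u` (`r + 1` elements,
`mem_fullU`): it is `X cap u`. If `f u = 2`: `thrI r B u` is empty, so `X cap u` in `fullI` is impossible (it would be in `thrI r B u`). -/

open scoped BigOperators
open Filter

namespace Pool.Agent.H13.VM

open Pool.Agent.H28.Johnson

private theorem D3a_aux {n r : ℕ} {B : Finset (Finset (Fin n))} {g : ℕ} {J1 J2 : Finset (Finset (Fin n))}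
    {f : Finset (Fin n) → Fin 3} (hD : JData g r B J1 J2 f) {X u : Finset (Fin n)}
    (hX : X ∈ hvy r B) (hu : u ∈ KJ r B (J1 ∪ J2)) (ha : adj r X u) (h0 : f u ≠ 0) :
    u ∈ J1 ∧ u ∈ NB r B ∧ f u = (if (thrI r B u).Nonempty then 1 else 2) ∧
      ∃ L ∈ full r B, u ∈ privs r B L := by
  classical
  have hJ : u ∈ J1 ∪ J2 := by
    rcases mem_KJ.mp hu with h1 | h1
    · exact absurd ((hvy_closed r B).2 X hX u h1.1 ha) h1.2
    · exact h1
  have hf := hD.hf u hJ
  have hJ1 : u ∈ J1 := by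
    by_contra hn
    rw [lab, if_neg hn] at hf
    exact h0 hf
  rw [lab, if_pos hJ1] at hf
  obtain ⟨L, _, hp, hL⟩ := JF1_line hD.hJ1 hJ1
  have hN : u ∈ NB r B := (hvy_closed r B).1 (JF1_hvy hD.hJ1 hJ1)
  refine ⟨hJ1, hN, ?_, L, hL, hp⟩
  convert hf using 2

theorem lab_lineI {n r : ℕ} {B : Finset (Finset (Fin n))} (h : IsMat n r B) {g : ℕ} {J1 J2 : Finset (Finset (Fin n))}
    {f : Finset (Fin n) → Fin 3} (hD : JData g r B J1 J2 f) {X u : Finset (Fin n)}
    (hX : X ∈ hvy r B) (hu : u ∈ KJ r B (J1 ∪ J2)) (ha : adj r X u) (h1 : f u = 1) :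
    X ∩ u ∈ fullI r B := by
  classical
  obtain ⟨_, hN, hf, L, hL, hp⟩ := D3a_aux hD hX hu ha (by rw [h1]; decide)
  have hXN : X ∈ NB r B := (hvy_closed r B).1 hX
  rcases local_test h hXN hN ha with h2 | h2
  · exact h2
  · exfalso
    have h3 : (thrI r B u).Nonempty := by
      by_contra hn
      rw [if_neg hn, h1] at hf
      exact absurd hf (by decide)
    obtain ⟨I, hI⟩ := h3
    obtain ⟨hI1, hI2⟩ := mem_thrI.mp hI
    have e1 : I = L := privs_eq hL hp (mem_full.mpr (Or.inl hI1)) (Or.inl hI2)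
    have e2 : X ∪ u = L := privs_eq hL hp (mem_full.mpr (Or.inr h2)) (Or.inr Finset.subset_union_right)
    have c1 := (mem_fullI.mp hI1).1
    have c2 := (mem_fullU.mp h2).1
    rw [e2, ← e1] at c2
    omega

theorem lab_lineU {n r : ℕ} {B : Finset (Finset (Fin n))} (h : IsMat n r B) {g : ℕ} {J1 J2 : Finset (Finset (Fin n))}
    {f : Finset (Fin n) → Fin 3} (hD : JData g r B J1 J2 f) {X u : Finset (Fin n)}
    (hX : X ∈ hvy r B) (hu : u ∈ KJ r B (J1 ∪ J2)) (ha : adj r X u) (h2 : f u = 2) :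
    X ∪ u ∈ fullU r B := by
  classical
  obtain ⟨_, hN, hf, L, hL, hp⟩ := D3a_aux hD hX hu ha (by rw [h2]; decide)
  have hXN : X ∈ NB r B := (hvy_closed r B).1 hX
  rcases local_test h hXN hN ha with h1 | h1
  · exfalso
    have h3 : (thrI r B u).Nonempty := ⟨X ∩ u, mem_thrI.mpr ⟨h1, Finset.inter_subset_right⟩⟩
    rw [if_pos h3, h2] at hf
    exact absurd hf (by decide)
  · exact h1

end Pool.Agent.H13.VM
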