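import Pool.Agent.H13.VM.D3
import Pool.Agent.H13.VM.A10

/-! MODULE D4b (about 170 lines). Closed lines in `P` are recovered.

`NB1_on_basicI`: `I = CX B Z` (`Z` in `NB1`), `I.card + 1 = r`, `X0` in `NB1` contains `I`, `z` in `DX B X0`. Then `CX B X0 = I` (`CX_eq`); `X0 = insert z0 I`. Take `y` in `I` (nonempty: `NB1` gives an element of `CX B X0`).
By `rect` `ex X0 y z` in `B`. It is `ex (insert z I) y z0`, so `insert z I` is adjacent to a base; it contains `CX B Z`, so it is a nonbase (`nb_of_circuit`, card `r`): in `NB1`.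
`NB1_on_basicU`: dual: `U = HX B Z`, `X0` in `NB1`, `X0` contained in `U`, `y` in `CX B X0`: `HX B X0 = U` (`HX_eq`), `X0 = U.erase y0`; take `z` in `DX B X0`; `ex X0 y z` in `B` is `ex (U.erase y) y0 z`; `U.erase y` in `NB1`.
`closed_lineI`: if `I` in `R`: `I` in `A1of` and `Kn.circ`. Otherwise `hL.l1I` gives the tests. `I` is basic: `CX B Z = I` or `HX B Z = I`; the second is impossible (`HX B Z` contains `Z`, `r` elements). `Z` in `NB1`, `Z` contains `I`: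
the test `T1I` at `Z` gives 3 elements `z` in `DX B Z` with `Kn0 (insert z I)`; each `insert z I` in `NB1` (`NB1_on_basicI`). Let `Zs` = all `z` not in `I` with `insert z I` in `NB1` and `Kn0 (insert z I)`; it has at least 3
elements. `Kn.lineI`: all `insert z I`, `z` in `Zs`, are recovered (`Kn0.kn`). Let `H` in `A2of` contain `I cup Zs`, so `H` has at least `r + 2` elements, so `H = HX B Z'`, `Z'` in `NB1` (`mem_A2of`, the second case has
`r + 1` elements). Take `z1` in `Zs`: `insert z1 I` in `NB1` is contained in `HX B Z'`, so `HX B (insert z1 I) = H` (`HX_eq`). The test at `X0 = insert z1 I` gives (at least) one `z` in `DX B X0` with `Kn0 (insert z I)`; `z` in `Zs`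
(`NB1_on_basicI`), so `z` in `H = HX B X0`, the complement of `DX B X0`: contradiction. `closed_lineU` is dual: `Ys` = all `y` in `U` with `U.erase y` in `NB1` and `Kn0 (U.erase y)`; `C` in `A1of`, `C` contained in `U \ Ys`, so
`C` has at most `r - 2` elements, `C = CX B Z'`; `y1` in `Ys`: `C` is contained in `U.erase y1`, so `CX B (U.erase y1) = C` (`CX_eq`); the test at `U.erase y1` gives `y` in `CX B (U.erase y1) = C` with `y` in `Ys`: contradiction. -/

open scoped BigOperators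
open Filter

namespace Pool.Agent.H13.VM

open Pool.Agent.H28.Johnson

private theorem D4b_ins {n r : ℕ} {I X : Finset (Fin n)} (hc : I.card + 1 = r)
    (hX : X.card = r) (hs : I ⊆ X) : ∃ z, z ∉ I ∧ insert z I = X := by
  obtain ⟨a, h1, h2⟩ := Finset.exists_eq_insert_iff.2 ⟨hs, by omega⟩
  exact ⟨a, h1, h2⟩

private theorem D4b_nb {r n : ℕ} {B : Finset (Finset (Fin n))} {X : Finset (Fin n)}
    (h : X ∈ NB1 r B) : X ∈ NB r B := (mem_NB1.mp h).1

private theorem D4b_card {r n : ℕ} {B : Finset (Finset (Fin n))} {X : Finset (Fin n)}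
    (h : X ∈ NB1 r B) : X.card = r := (mem_NB.mp (mem_NB1.mp h).1).1

private theorem D4b_two {r n : ℕ} {B : Finset (Finset (Fin n))} {X : Finset (Fin n)}
    (h : X ∈ NB1 r B) : ∃ y ∈ CX B X, ∃ z, z ∈ DX B X := by
  obtain ⟨_, y, hy, z, hz, hb⟩ := mem_NB1.mp h
  exact ⟨y, mem_CX.mpr ⟨hy, z, hz, hb⟩, z, mem_DX.mpr ⟨hz, y, hy, hb⟩⟩

theorem NB1_on_basicI {n r : ℕ} {B : Finset (Finset (Fin n))} (h : IsMat n r B) {Z X0 : Finset (Fin n)} (hZ : Z ∈ NB1 r B)
    (hc : (CX B Z).card + 1 = r) (hX0 : X0 ∈ NB1 r B) (hs : CX B Z ⊆ X0) {z : Fin n}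
    (hz : z ∈ DX B X0) : z ∉ CX B Z ∧ insert z (CX B Z) ∈ NB1 r B := by
  have he : CX B X0 = CX B Z := CX_eq h hZ hX0 hs
  have hzX : z ∉ X0 := (mem_DX.mp hz).1
  have hzI : z ∉ CX B Z := fun hh => hzX (hs hh)
  refine ⟨hzI, ?_⟩
  obtain ⟨z0, hz0, hX⟩ := D4b_ins hc (D4b_card hX0) hs
  obtain ⟨y, hy, -⟩ := D4b_two hX0
  have hyX : y ∈ X0 := CX_subset B X0 hy
  have hb : ex X0 y z ∈ B := (rect h (D4b_nb hX0) hyX hzX).mpr ⟨hy, hz⟩
  rw [he] at hy
  have hcard : (insert z (CX B Z)).card = r := by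
    rw [Finset.card_insert_of_notMem hzI]; exact hc
  have hnb : insert z (CX B Z) ∈ NB r B :=
    nb_of_circuit h hZ hcard (Finset.subset_insert _ _)
  have hz0X : z0 ∈ X0 := by rw [← hX]; exact Finset.mem_insert_self _ _
  have hne : z0 ≠ z := fun hh => hzX (hh ▸ hz0X)
  refine mem_NB1.mpr ⟨hnb, y, Finset.mem_insert_of_mem hy, z0, ?_, ?_⟩
  · rw [Finset.mem_insert]
    rintro (hh | hh)
    · exact hne hh
    · exact hz0 hh
  · have : ex (insert z (CX B Z)) y z0 = ex X0 y z := by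
      ext x
      have h1 : y ≠ z := fun hh => hzI (hh ▸ hy)
      have h2 : y ≠ z0 := fun hh => hz0 (hh ▸ hy)
      rw [mem_ex, mem_ex, ← hX, Finset.mem_insert, Finset.mem_insert]
      constructor
      · rintro (rfl | ⟨h3, rfl | h4⟩)
        · exact Or.inr ⟨h2.symm, Or.inl rfl⟩
        · exact Or.inl rfl
        · exact Or.inr ⟨h3, Or.inr h4⟩
      · rintro (rfl | ⟨h3, rfl | h4⟩)
        · exact Or.inr ⟨h1.symm, Or.inl rfl⟩
        · exact Or.inl rfl
        · exact Or.inr ⟨h3, Or.inr h4⟩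
    rw [this]; exact hb

theorem NB1_on_basicU {n r : ℕ} {B : Finset (Finset (Fin n))} (h : IsMat n r B) {Z X0 : Finset (Fin n)} (hZ : Z ∈ NB1 r B)
    (hc : (HX B Z).card = r + 1) (hX0 : X0 ∈ NB1 r B) (hs : X0 ⊆ HX B Z) {y : Fin n}
    (hy : y ∈ CX B X0) : y ∈ HX B Z ∧ (HX B Z).erase y ∈ NB1 r B := by
  have he : HX B X0 = HX B Z := HX_eq h hZ hX0 hs
  have hyX : y ∈ X0 := CX_subset B X0 hy
  have hyU : y ∈ HX B Z := hs hyX
  refine ⟨hyU, ?_⟩
  obtain ⟨y0, hy0, hU⟩ := D4b_ins (r := r + 1) (by rw [D4b_card hX0]) hc hs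
  obtain ⟨_, _, z, hz⟩ := D4b_two hX0
  have hzX : z ∉ X0 := (mem_DX.mp hz).1
  have hb : ex X0 y z ∈ B := (rect h (D4b_nb hX0) hyX hzX).mpr ⟨hy, hz⟩
  have hzU : z ∉ HX B Z := by
    rw [← he, mem_HX]; exact fun hh => hh hz
  have hcard : ((HX B Z).erase y).card = r := by
    rw [Finset.card_erase_of_mem hyU, hc]; rfl
  have hnb : (HX B Z).erase y ∈ NB r B := nb_of_hyp h hZ hcard (Finset.erase_subset _ _)
  have hy0U : y0 ∈ HX B Z := by rw [← hU]; exact Finset.mem_insert_self _ _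
  have hne : y0 ≠ y := fun hh => hy0 (hh ▸ hyX)
  refine mem_NB1.mpr ⟨hnb, y0, Finset.mem_erase.mpr ⟨hne, hy0U⟩, z,
    fun hh => hzU (Finset.mem_of_mem_erase hh), ?_⟩
  have : ex ((HX B Z).erase y) y0 z = ex X0 y z := by
    ext x
    rw [mem_ex, mem_ex, ← hU, Finset.mem_erase, Finset.mem_insert]
    constructor
    · rintro (h1 | ⟨h1, h2, h3 | h3⟩)
      · exact Or.inl h1
      · exact absurd h3 h1
      · exact Or.inr ⟨h2, h3⟩
    · rintro (h1 | ⟨h2, h3⟩)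
      · exact Or.inl h1
      · exact Or.inr ⟨fun hh => hy0 (hh ▸ h3), h2, Or.inr h3⟩
  rw [this]; exact hb

theorem closed_lineI {n r : ℕ} {B : Finset (Finset (Fin n))} (h : IsMat n r B) {g : ℕ} {R K : Finset (Finset (Fin n))}
    {f : Finset (Fin n) → Fin 3} (hL : LL g r B R) {I Y : Finset (Fin n)} (hI : I ∈ basP r B)
    (hIr : I.card + 1 = r) (hcl : I ∉ opn g r B) (hY : Y.card = r) (hIY : I ⊆ Y) :
    Kn r K f (A1of r B R) (A2of r B R) Y := by
  classical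
  obtain ⟨hbas, -⟩ := mem_basP.mp hI
  obtain ⟨-, Z, hZ, hZI | hZI⟩ := mem_bas.mp hbas
  swap
  · exfalso
    have h1 := Finset.card_le_card (subset_HX B Z)
    rw [hZI, D4b_card hZ] at h1
    omega
  rcases hL.l1I I hI hIr hcl with hR | hT
  · exact Kn.circ (mem_A1of.mpr (Or.inr ⟨hR, hIr⟩)) hY hIY
  subst hZI
  set Zs : Finset (Fin n) := Finset.univ.filter fun z => z ∉ CX B Z ∧
    insert z (CX B Z) ∈ NB1 r B ∧ Kn0 r (A1of r B R) (A2of r B R) (insert z (CX B Z)) with hZs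
  have mZs : ∀ z, z ∈ Zs ↔ z ∉ CX B Z ∧ insert z (CX B Z) ∈ NB1 r B ∧
      Kn0 r (A1of r B R) (A2of r B R) (insert z (CX B Z)) := by
    intro z; rw [hZs, Finset.mem_filter]; simp
  have key : ∀ X0 ∈ NB1 r B, CX B Z ⊆ X0 → 3 ≤ (Zs ∩ DX B X0).card := by
    intro X0 hX0 hs
    refine le_trans (hT X0 hX0 hs) (Finset.card_le_card ?_)
    intro z hz
    obtain ⟨-, hz1, hz2⟩ := Finset.mem_filter.mp hz
    obtain ⟨h1, h2⟩ := NB1_on_basicI h hZ hIr hX0 hs hz1
    exact Finset.mem_inter.mpr ⟨(mZs z).mpr ⟨h1, h2, hz2⟩, hz1⟩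
  have h3 : 3 ≤ Zs.card :=
    le_trans (key Z hZ (CX_subset B Z)) (Finset.card_le_card Finset.inter_subset_left)
  refine Kn.lineI hIr h3 (fun z hz => ((mZs z).mp hz).1) (fun z hz => ((mZs z).mp hz).2.2.kn)
    ?_ hY hIY
  intro H hH hsub
  have hcardH : r + 2 ≤ H.card := by
    have h4 := Finset.card_le_card hsub
    rw [Finset.card_union_of_disjoint
      (Finset.disjoint_right.mpr fun z hz => ((mZs z).mp hz).1)] at h4
    omega
  obtain ⟨⟨Z', hZ', hH'⟩, -⟩ | ⟨-, hH'⟩ := mem_A2of.mp hH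
  swap
  · omega
  obtain ⟨z1, hz1⟩ : Zs.Nonempty := Finset.card_pos.mp (by omega)
  obtain ⟨h5, h6, h7⟩ := (mZs z1).mp hz1
  have h8 : HX B (insert z1 (CX B Z)) = H := by
    rw [← hH']
    refine HX_eq h hZ' h6 ?_
    rw [hH']
    intro x hx
    rcases Finset.mem_insert.mp hx with rfl | hx
    · exact hsub (Finset.mem_union_right _ hz1)
    · exact hsub (Finset.mem_union_left _ hx)
  obtain ⟨z, hz⟩ : (Zs ∩ DX B (insert z1 (CX B Z))).Nonempty :=
    Finset.card_pos.mp (by have := key _ h6 (Finset.subset_insert _ _); omega)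
  obtain ⟨hz2, hz3⟩ := Finset.mem_inter.mp hz
  have h9 : z ∈ HX B (insert z1 (CX B Z)) := by
    rw [h8]; exact hsub (Finset.mem_union_right _ hz2)
  exact mem_HX.mp h9 hz3

theorem closed_lineU {n r : ℕ} {B : Finset (Finset (Fin n))} (h : IsMat n r B) {g : ℕ} {R K : Finset (Finset (Fin n))}
    {f : Finset (Fin n) → Fin 3} (hL : LL g r B R) {U Y : Finset (Fin n)} (hU : U ∈ basP r B)
    (hUr : U.card = r + 1) (hcl : U ∉ opn g r B) (hY : Y.card = r) (hYU : Y ⊆ U) :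
    Kn r K f (A1of r B R) (A2of r B R) Y := by
  classical
  obtain ⟨hbas, -⟩ := mem_basP.mp hU
  obtain ⟨-, Z, hZ, hZU | hZU⟩ := mem_bas.mp hbas
  · exfalso
    have h1 := Finset.card_le_card (CX_subset B Z)
    rw [hZU, D4b_card hZ] at h1
    omega
  rcases hL.l1U U hU hUr hcl with hR | hT
  · exact Kn.hyp (mem_A2of.mpr (Or.inr ⟨hR, hUr⟩)) hY hYU
  subst hZU
  set Ys : Finset (Fin n) := Finset.univ.filter fun y => y ∈ HX B Z ∧
    (HX B Z).erase y ∈ NB1 r B ∧ Kn0 r (A1of r B R) (A2of r B R) ((HX B Z).erase y) with hYs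
  have mYs : ∀ y, y ∈ Ys ↔ y ∈ HX B Z ∧ (HX B Z).erase y ∈ NB1 r B ∧
      Kn0 r (A1of r B R) (A2of r B R) ((HX B Z).erase y) := by
    intro y; rw [hYs, Finset.mem_filter]; simp
  have key : ∀ X0 ∈ NB1 r B, X0 ⊆ HX B Z → 3 ≤ (Ys ∩ CX B X0).card := by
    intro X0 hX0 hs
    refine le_trans (hT X0 hX0 hs) (Finset.card_le_card ?_)
    intro y hy
    obtain ⟨-, hy1, hy2⟩ := Finset.mem_filter.mp hy
    obtain ⟨h1, h2⟩ := NB1_on_basicU h hZ hUr hX0 hs hy1
    exact Finset.mem_inter.mpr ⟨(mYs y).mpr ⟨h1, h2, hy2⟩, hy1⟩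
  have h3 : 3 ≤ Ys.card :=
    le_trans (key Z hZ (subset_HX B Z)) (Finset.card_le_card Finset.inter_subset_left)
  have hYsU : Ys ⊆ HX B Z := fun y hy => ((mYs y).mp hy).1
  refine Kn.lineU hUr h3 hYsU (fun y hy => ((mYs y).mp hy).2.2.kn) ?_ hY hYU
  intro C hC hsub
  have hcardC : C.card + 2 ≤ r := by
    have h4 := Finset.card_le_card hsub
    rw [Finset.card_sdiff_of_subset hYsU] at h4
    have h5 := Finset.card_le_card hYsU
    omega
  obtain ⟨⟨Z', hZ', hC'⟩, -⟩ | ⟨-, hC'⟩ := mem_A1of.mp hC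
  swap
  · omega
  obtain ⟨y1, hy1⟩ : Ys.Nonempty := Finset.card_pos.mp (by omega)
  obtain ⟨h5, h6, h7⟩ := (mYs y1).mp hy1
  have h8 : CX B ((HX B Z).erase y1) = C := by
    rw [← hC']
    refine CX_eq h hZ' h6 ?_
    rw [hC']
    intro x hx
    obtain ⟨hx1, hx2⟩ := Finset.mem_sdiff.mp (hsub hx)
    exact Finset.mem_erase.mpr ⟨fun hh => hx2 (hh ▸ hy1), hx1⟩
  obtain ⟨y, hy⟩ : (Ys ∩ CX B ((HX B Z).erase y1)).Nonempty :=
    Finset.card_pos.mp (by have := key _ h6 (Finset.erase_subset _ _); omega)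
  obtain ⟨hy2, hy3⟩ := Finset.mem_inter.mp hy
  rw [h8] at hy3
  exact (Finset.mem_sdiff.mp (hsub hy3)).2 hy2

end Pool.Agent.H13.VM
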