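import Pool.Agent.H13.VM.D4b
import Pool.Agent.H13.VM.Cn

/-! MODULE D4c (about 170 lines). COMPLETENESS: every member of `P` is recovered.

Write `KN Y` for `Kn r (KJ r B (J1 cup J2)) f (A1of r B R) (A2of r B R) Y`. Claim: if `Y0` in `P`, `KN Y0`, `L` a full line on `Y0` and `Y` a member of `L` then `KN Y`.
* `L` in `fullI` (`onl` means `L` contained in `Y0`, in `Y`: `onlI`). `fullI_cases`: if `CX B Z` is contained in `L`, `card + 2 <= r`: it is in `A1of`, contained in `Y`: `Kn.circ`. Otherwise `L = CX B Z` is in `bas`, and in `basP`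
  (`Y0` in `P` is on it). If `L` is not in `opn`: `closed_lineI`. If `L` in `opn`: `(J1 cap privs r B L).card = 1`: let `u` be the element. If `u <> Y0`: `Y0` and `u` are adjacent (`pts_adj`), `Y0 cap u = L` (`eq_inter`),
  `f u = lab r B J1 u = 1` (`u` in `J1`, `L` in `thrI r B u`), `u` in `KJ` (it is in `J1`): `Kn.labI`. If `u = Y0`: by `Kn_sound` there is a full line `L'` on `Y0` all of whose members are recovered; `Y0` is
  private on `L`: `L' = L` (`privs_eq`); so `KN Y`.
* `L` in `fullU`: the same with `fullU_cases`, `A2of`, `Kn.hyp`, `closed_lineU`, `eq_union`; `lab r B J1 u = 2`: `u` in `J1` and `thrI r B u` is empty: a member of it would be a full line on `u`, so equal to `L` (`privs_eq`),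
  but it has `r - 1` elements and `L` has `r + 1`. (`opn` is contained in `basP`, `basP` in `bas`, `bas` in `full`.)
Now let `X` in `P`. `hL.l2`: some `Y` in `comp r (NB r B) X` has `Kn0`, so `KN Y` (`Kn0.kn`). `comp r (NB r B) Y = comp r (NB r B) X` (`comp_eq_of_mem`) contains `X` (`self_mem_comp`). `comp_induction` from `Y` with `p = KN`: adjacent `Y0, Z` in the
component (both in `P`: `comp_sub_hvy`, in `NB r B`) share a full line (`share`): the claim gives `KN Z`. -/

open scoped BigOperators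
open Filter

namespace Pool.Agent.H13.VM

open Pool.Agent.H28.Johnson

private theorem D4c_step {n r : ℕ} {B : Finset (Finset (Fin n))} (h : IsMat n r B) {g : ℕ}
    {J1 J2 R : Finset (Finset (Fin n))} {f : Finset (Fin n) → Fin 3} (hD : JData g r B J1 J2 f)
    (hL : LL g r B R) {L Y0 Y : Finset (Fin n)} (hP : Y0 ∈ hvy r B)
    (hK : Kn r (KJ r B (J1 ∪ J2)) f (A1of r B R) (A2of r B R) Y0) (hLf : L ∈ full r B)
    (hL0 : onl L Y0) (hY : Y.card = r) (hLY : onl L Y) :
    Kn r (KJ r B (J1 ∪ J2)) f (A1of r B R) (A2of r B R) Y := by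
  have hY0r : Y0.card = r := hK.card
  rcases mem_full.1 hLf with hI | hU
  · have h0 : L ⊆ Y0 := (onlI hI hY0r).1 hL0
    have h1 : L ⊆ Y := (onlI hI hY).1 hLY
    rcases fullI_cases h hI with ⟨Z, hZ, hCZ⟩ | ⟨Z, hZ, hCZ, hc⟩
    · have hbas : L ∈ bas r B := mem_bas.2 ⟨hLf, Z, hZ, Or.inl hCZ⟩
      have hbasP : L ∈ basP r B := mem_basP.2 ⟨hbas, Y0, hP, hL0⟩
      have hLr := (mem_fullI.1 hI).1
      by_cases hop : L ∈ opn g r B
      · obtain ⟨u, hu⟩ := Finset.card_eq_one.1 ((mem_JF1.1 hD.hJ1).2 L hop)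
        have hu' : u ∈ J1 ∩ privs r B L := by rw [hu]; exact Finset.mem_singleton_self u
        obtain ⟨huJ, hup⟩ := Finset.mem_inter.1 hu'
        obtain ⟨⟨hur, hul⟩, -⟩ := mem_privs.1 hup
        have huL : L ⊆ u := (onlI hI hur).1 hul
        by_cases hue : Y0 = u
        · obtain ⟨_, L', hL', hL'u, hall⟩ := Kn_sound h hD hL.sub hK
          have hLL : L' = L := privs_eq hLf hup hL' (by rw [← hue]; exact hL'u)
          rw [hLL] at hall
          exact hall Y hY hLY
        · have hadj : adj r Y0 u := pts_adj hLf hY0r hL0 hur hul hue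
          have hint : Y0 ∩ u = L := eq_inter hI hY0r h0 hur huL hue
          have hlab : f u = 1 := by
            rw [hD.hf u (Finset.mem_union_left _ huJ)]
            unfold lab
            rw [if_pos huJ, if_pos ⟨L, mem_thrI.2 ⟨hI, huL⟩⟩]
          exact Kn.labI hK (mem_KJ.2 (Or.inr (Finset.mem_union_left _ huJ))) hadj hlab hY
            (by rw [hint]; exact h1)
      · exact closed_lineI h hL hbasP hLr hop hY h1
    · exact Kn.circ (mem_A1of.2 (Or.inl ⟨⟨Z, hZ, rfl⟩, hc⟩)) hY (hCZ.trans h1)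
  · have h0 : Y0 ⊆ L := (onlU hU hY0r).1 hL0
    have h1 : Y ⊆ L := (onlU hU hY).1 hLY
    rcases fullU_cases h hU with ⟨Z, hZ, hCZ⟩ | ⟨Z, hZ, hCZ, hc⟩
    · have hbas : L ∈ bas r B := mem_bas.2 ⟨hLf, Z, hZ, Or.inr hCZ⟩
      have hbasP : L ∈ basP r B := mem_basP.2 ⟨hbas, Y0, hP, hL0⟩
      have hLr := (mem_fullU.1 hU).1
      by_cases hop : L ∈ opn g r B
      · obtain ⟨u, hu⟩ := Finset.card_eq_one.1 ((mem_JF1.1 hD.hJ1).2 L hop)
        have hu' : u ∈ J1 ∩ privs r B L := by rw [hu]; exact Finset.mem_singleton_self u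
        obtain ⟨huJ, hup⟩ := Finset.mem_inter.1 hu'
        obtain ⟨⟨hur, hul⟩, -⟩ := mem_privs.1 hup
        have huL : u ⊆ L := (onlU hU hur).1 hul
        by_cases hue : Y0 = u
        · obtain ⟨_, L', hL', hL'u, hall⟩ := Kn_sound h hD hL.sub hK
          have hLL : L' = L := privs_eq hLf hup hL' (by rw [← hue]; exact hL'u)
          rw [hLL] at hall
          exact hall Y hY hLY
        · have hadj : adj r Y0 u := pts_adj hLf hY0r hL0 hur hul hue
          have hint : Y0 ∪ u = L := eq_union hU hY0r h0 hur huL hue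
          have hlab : f u = 2 := by
            rw [hD.hf u (Finset.mem_union_left _ huJ)]
            unfold lab
            rw [if_pos huJ, if_neg]
            rintro ⟨M, hM⟩
            obtain ⟨hM1, hM2⟩ := mem_thrI.1 hM
            have hML : M = L := privs_eq hLf hup (mem_full.2 (Or.inl hM1)) (Or.inl hM2)
            have hMc := (mem_fullI.1 hM1).1
            rw [hML] at hMc
            omega
          exact Kn.labU hK (mem_KJ.2 (Or.inr (Finset.mem_union_left _ huJ))) hadj hlab hY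
            (by rw [hint]; exact h1)
      · exact closed_lineU h hL hbasP hLr hop hY h1
    · exact Kn.hyp (mem_A2of.2 (Or.inl ⟨⟨Z, hZ, rfl⟩, hc⟩)) hY (h1.trans hCZ)

theorem Kn_complete {n r : ℕ} {B : Finset (Finset (Fin n))} (h : IsMat n r B) {g : ℕ} {J1 J2 R : Finset (Finset (Fin n))}
    {f : Finset (Fin n) → Fin 3} (hD : JData g r B J1 J2 f) (hL : LL g r B R)
    {X : Finset (Fin n)} (hX : X ∈ hvy r B) :
    Kn r (KJ r B (J1 ∪ J2)) f (A1of r B R) (A2of r B R) X := by
  obtain ⟨Y, hYc, hY0⟩ := hL.l2 X hX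
  have hce : comp r (NB r B) Y = comp r (NB r B) X := comp_eq_of_mem hYc
  have hXc : X ∈ comp r (NB r B) Y := by
    rw [hce]; exact self_mem_comp (mem_hvy.1 hX).1
  refine comp_induction
    (fun Z => Kn r (KJ r B (J1 ∪ J2)) f (A1of r B R) (A2of r B R) Z) hY0.kn ?_ X hXc
  intro Y0 hY0c Z hZc hadj hK
  rw [hce] at hY0c hZc
  have hP : Y0 ∈ hvy r B := comp_sub_hvy hX hY0c
  have hN0 : Y0 ∈ NB r B := (mem_comp.1 hY0c).1
  have hNZ : Z ∈ NB r B := (mem_comp.1 hZc).1
  obtain ⟨L, hLf, hL0, hLZ⟩ := share h hN0 hNZ hadj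
  exact D4c_step h hD hL hP hK hLf hL0 (mem_NB.1 hNZ).1 hLZ

end Pool.Agent.H13.VM
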