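import Pool.Agent.H13.VM.D4b

/-! MODULE D5a (about 170 lines). The test for a closed I-line of `P` at one of its members.

`I = CX B Z` for some `Z` in `NB1` (`I` in `basP`, so in `bas`; `HX B Z = I` is impossible because `HX` has at least `r` elements), `I` in `fullI`. `DX B X0` has more than `g` elements (`card_DX`). For `z` in `DX B X0`: `z` is not in
`X0`, so not in `I`; `insert z I` in `NB1`, an `r`-set on `I` (`NB1_on_basicI`), in `P` (`pts_hvy`: `basP` gives a member of the line in `P`). The line is not open: `2 * (privs r B I).card < g`; `z -> insert z I` is injective, so at least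
`g + 1 - (g-1)/2 >= g/2` elements `z` of `DX B X0` have `insert z I` not in `privs r B I`: the number of full lines through `insert z I` is not `1`, and `I` is one of them: there is another full line `L_z <> I`, `onl L_z (insert z I)`.
If `L_z` is not in `bas`: `fullI_cases`/`fullU_cases`: `L_z` contains some `CX B Z'` with `card + 2 <= r` (then `insert z I` contains it: `Kn0` with `A1of`, for every `R`) or is contained in `HX B Z'`, `r + 2 <= card` (`Kn0` with `A2of`, for
every `R`). If at least 3 of the `z` are of this kind: first alternative. Otherwise at least `g/2 - 2` of the `z` have `L_z` in `bas`, so in `basP`; let `S` be the set of these `L_z`; each `L` is `L_z` for at most 2 elements `z` (`two_lines`: the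
`insert z I` are common members of `L` and `I`), so `S.card >= (g/2 - 2)/2`, i.e. `g <= 4 S.card + 8`. If `(R cap S).card >= 3`: choose for each `L` in `R cap S` a `z` with `L_z = L` (different `z` for different `L`); `L` in `R`: if `L` in `fullI`
(`L.card + 1 = r`): `L` in `A1of r B R`, contained in `insert z I`; if `L` in `fullU`: `L` in `A2of r B R`, contains `insert z I`: so `Kn0` for 3 elements. -/

open scoped BigOperators
open Filter

namespace Pool.Agent.H13.VM

open Pool.Agent.H28.Johnson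

open Classical in
private theorem D5a_core {n r : ℕ} {B : Finset (Finset (Fin n))} (h : IsMat n r B) {g : ℕ}
    {L0 : Finset (Fin n)} (hL0 : L0 ∈ full r B) (hP : ∃ X ∈ hvy r B, onl L0 X)
    (hpr : 2 * (privs r B L0).card < g) {D : Finset (Fin n)} {m : Fin n → Finset (Fin n)}
    (hD : g < D.card) (hm : ∀ z ∈ D, (m z).card = r ∧ onl L0 (m z))
    (hinj : ∀ z ∈ D, ∀ w ∈ D, m z = m w → z = w) :
    (∀ R : Finset (Finset (Fin n)),
      3 ≤ (D.filter fun z => Kn0 r (A1of r B R) (A2of r B R) (m z)).card) ∨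
    ∃ S ⊆ basP r B, g ≤ 4 * S.card + 8 ∧ ∀ R : Finset (Finset (Fin n)), 3 ≤ (R ∩ S).card →
      3 ≤ (D.filter fun z => Kn0 r (A1of r B R) (A2of r B R) (m z)).card := by
  have hhv : ∀ z ∈ D, m z ∈ hvy r B := by
    intro z hz
    obtain ⟨X, hX, hLX⟩ := hP
    exact pts_hvy hL0 hX hLX (hm z hz).1 (hm z hz).2
  have hlines : ∀ z ∈ D, m z ∉ privs r B L0 →
      (∀ R : Finset (Finset (Fin n)), Kn0 r (A1of r B R) (A2of r B R) (m z)) ∨
      ∃ L, L ∈ basP r B ∧ L ∈ full r B ∧ L ≠ L0 ∧ onl L (m z) := by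
    intro z hz hnp
    have h0 : L0 ∈ thr r B (m z) := mem_thr.mpr ⟨hL0, (hm z hz).2⟩
    have h1 : (thr r B (m z)).card ≠ 1 := fun hh => hnp (mem_privs.mpr ⟨hm z hz, hh⟩)
    have h2 : 0 < (thr r B (m z)).card := Finset.card_pos.mpr ⟨_, h0⟩
    obtain ⟨L, hL, hne⟩ := Finset.exists_mem_ne (s := thr r B (m z)) (by omega) L0
    obtain ⟨hLf, hLo⟩ := mem_thr.mp hL
    rcases mem_full.mp hLf with hI | hU
    · have hsub : L ⊆ m z := (onlI hI (hm z hz).1).mp hLo
      rcases fullI_cases h hI with ⟨X, hX, hXL⟩ | ⟨X, hX, hXL, hc⟩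
      · exact Or.inr ⟨L, mem_basP.mpr ⟨mem_bas.mpr ⟨hLf, X, hX, Or.inl hXL⟩, m z, hhv z hz, hLo⟩,
          hLf, hne, hLo⟩
      · refine Or.inl fun R => ⟨(hm z hz).1, Or.inl ⟨CX B X, ?_, hXL.trans hsub⟩⟩
        exact mem_A1of.mpr (Or.inl ⟨⟨X, hX, rfl⟩, hc⟩)
    · have hsub : m z ⊆ L := (onlU hU (hm z hz).1).mp hLo
      rcases fullU_cases h hU with ⟨X, hX, hXL⟩ | ⟨X, hX, hXL, hc⟩
      · exact Or.inr ⟨L, mem_basP.mpr ⟨mem_bas.mpr ⟨hLf, X, hX, Or.inr hXL⟩, m z, hhv z hz, hLo⟩,
          hLf, hne, hLo⟩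
      · refine Or.inl fun R => ⟨(hm z hz).1, Or.inr ⟨HX B X, ?_, hsub.trans hXL⟩⟩
        exact mem_A2of.mpr (Or.inl ⟨⟨X, hX, rfl⟩, hc⟩)
  set Q : Finset (Fin n) := D.filter fun z =>
    ∀ R : Finset (Finset (Fin n)), Kn0 r (A1of r B R) (A2of r B R) (m z) with hQ
  set V : Finset (Fin n) := D.filter fun z => m z ∈ privs r B L0 with hV
  set T : Finset (Fin n) := D.filter fun z => m z ∉ privs r B L0 ∧
    ¬ ∀ R : Finset (Finset (Fin n)), Kn0 r (A1of r B R) (A2of r B R) (m z) with hT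
  by_cases hQ3 : 3 ≤ Q.card
  · refine Or.inl fun R => le_trans hQ3 (Finset.card_le_card ?_)
    intro z hz
    obtain ⟨hz1, hz2⟩ := Finset.mem_filter.mp hz
    exact Finset.mem_filter.mpr ⟨hz1, hz2 R⟩
  right
  have hcov : D ⊆ T ∪ (Q ∪ V) := by
    intro z hz
    rw [Finset.mem_union, Finset.mem_union, hT, hQ, hV, Finset.mem_filter, Finset.mem_filter,
      Finset.mem_filter]
    by_cases h1 : m z ∈ privs r B L0
    · exact Or.inr (Or.inr ⟨hz, h1⟩)
    · by_cases h2 : ∀ R : Finset (Finset (Fin n)), Kn0 r (A1of r B R) (A2of r B R) (m z)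
      · exact Or.inr (Or.inl ⟨hz, h2⟩)
      · exact Or.inl ⟨hz, h1, h2⟩
  have hVc : V.card ≤ (privs r B L0).card := by
    refine Finset.card_le_card_of_injOn m (fun z hz => (Finset.mem_filter.mp hz).2) ?_
    intro z hz w hw e
    exact hinj z (Finset.mem_filter.mp hz).1 w (Finset.mem_filter.mp hw).1 e
  have hTc : D.card ≤ T.card + (Q.card + V.card) :=
    (Finset.card_le_card hcov).trans ((Finset.card_union_le _ _).trans
      (Nat.add_le_add_left (Finset.card_union_le _ _) _))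
  have hex : ∀ z ∈ T, ∃ L, L ∈ basP r B ∧ L ∈ full r B ∧ L ≠ L0 ∧ onl L (m z) := by
    intro z hz
    obtain ⟨hz1, hz2, hz3⟩ := Finset.mem_filter.mp hz
    rcases hlines z hz1 hz2 with h4 | h4
    · exact absurd h4 hz3
    · exact h4
  choose! L hL using hex
  have hTS : T.card ≤ 2 * (T.image L).card := by
    refine Finset.card_le_mul_card_image _ _ ?_
    intro L' hL'
    obtain ⟨w, hw, hwL⟩ := Finset.mem_image.mp hL'
    obtain ⟨-, h2, h3, -⟩ := hL w hw
    rw [hwL] at h2 h3
    refine le_trans ?_ (two_lines h2 hL0 h3)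
    refine Finset.card_le_card_of_injOn m ?_ ?_
    · intro z hz
      obtain ⟨hz1, hz2⟩ := Finset.mem_filter.mp hz
      have hz3 := (Finset.mem_filter.mp hz1).1
      have h5 := (hL z hz1).2.2.2
      rw [hz2] at h5
      exact Finset.mem_inter.mpr ⟨mem_pts.mpr ⟨(hm z hz3).1, h5⟩, mem_pts.mpr (hm z hz3)⟩
    · intro z hz v hv e
      exact hinj z (Finset.mem_filter.mp (Finset.mem_filter.mp hz).1).1 v
        (Finset.mem_filter.mp (Finset.mem_filter.mp hv).1).1 e
  refine ⟨T.image L, ?_, by omega, ?_⟩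
  · intro L' hL'
    obtain ⟨w, hw, hwL⟩ := Finset.mem_image.mp hL'
    rw [← hwL]; exact (hL w hw).1
  · intro R hR
    refine le_trans (le_trans hR ?_) (Finset.card_le_card
      (s := T.filter fun z => L z ∈ R) ?_)
    · refine le_trans (Finset.card_le_card ?_) (Finset.card_image_le (f := L))
      intro L' hL'
      obtain ⟨h1, h2⟩ := Finset.mem_inter.mp hL'
      obtain ⟨w, hw, hwL⟩ := Finset.mem_image.mp h2
      exact Finset.mem_image.mpr ⟨w, Finset.mem_filter.mpr ⟨hw, hwL ▸ h1⟩, hwL⟩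
    · intro z hz
      obtain ⟨hz1, hz2⟩ := Finset.mem_filter.mp hz
      have hz3 := (Finset.mem_filter.mp hz1).1
      obtain ⟨-, h2, -, h4⟩ := hL z hz1
      refine Finset.mem_filter.mpr ⟨hz3, (hm z hz3).1, ?_⟩
      rcases mem_full.mp h2 with hI | hU
      · exact Or.inl ⟨L z, mem_A1of.mpr (Or.inr ⟨hz2, (mem_fullI.mp hI).1⟩),
          (onlI hI (hm z hz3).1).mp h4⟩
      · exact Or.inr ⟨L z, mem_A2of.mpr (Or.inr ⟨hz2, (mem_fullU.mp hU).1⟩),
          (onlU hU (hm z hz3).1).mp h4⟩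

theorem testI {n r : ℕ} {B : Finset (Finset (Fin n))} (h : IsMat n r B) {g : ℕ} (hg : GG g B) {I X0 : Finset (Fin n)}
    (hI : I ∈ basP r B) (hIr : I.card + 1 = r) (hcl : I ∉ opn g r B) (hX0 : X0 ∈ NB1 r B)
    (hs : I ⊆ X0) :
    (∀ R : Finset (Finset (Fin n)), T1I r B (A1of r B R) (A2of r B R) I X0) ∨
      ∃ S ⊆ basP r B, g ≤ 4 * S.card + 8 ∧ ∀ R : Finset (Finset (Fin n)),
        3 ≤ (R ∩ S).card → T1I r B (A1of r B R) (A2of r B R) I X0 := by
  classical
  obtain ⟨hbas, hP⟩ := mem_basP.mp hI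
  obtain ⟨hfull, Z, hZ, hZI | hZI⟩ := mem_bas.mp hbas
  swap
  · exfalso
    have h1 := Finset.card_le_card (subset_HX B Z)
    rw [hZI, (mem_NB.mp (mem_NB1.mp hZ).1).1] at h1
    omega
  subst hZI
  have hfI : CX B Z ∈ fullI r B := by
    rcases mem_full.mp hfull with h1 | h1
    · exact h1
    · have := (mem_fullU.mp h1).1
      omega
  have hpr : 2 * (privs r B (CX B Z)).card < g := by
    by_contra hh
    exact hcl (mem_opn.mpr ⟨hI, by omega⟩)
  have hz0 : ∀ z ∈ DX B X0, z ∉ CX B Z := fun z hz hh => (mem_DX.mp hz).1 (hs hh)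
  have hm : ∀ z ∈ DX B X0, (insert z (CX B Z)).card = r ∧ onl (CX B Z) (insert z (CX B Z)) := by
    intro z hz
    exact ⟨by rw [Finset.card_insert_of_notMem (hz0 z hz)]; exact hIr,
      Or.inl (Finset.subset_insert _ _)⟩
  have hinj : ∀ z ∈ DX B X0, ∀ w ∈ DX B X0, insert z (CX B Z) = insert w (CX B Z) → z = w := by
    intro z hz w hw e
    have h1 : z ∈ insert w (CX B Z) := by rw [← e]; exact Finset.mem_insert_self _ _
    rcases Finset.mem_insert.mp h1 with h2 | h2
    · exact h2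
    · exact absurd h2 (hz0 z hz)
  have hconv : ∀ R : Finset (Finset (Fin n)),
      3 ≤ ((DX B X0).filter fun z => Kn0 r (A1of r B R) (A2of r B R) (insert z (CX B Z))).card →
      T1I r B (A1of r B R) (A2of r B R) (CX B Z) X0 := by
    intro R hR
    refine le_trans hR (Finset.card_le_card ?_)
    intro z hz
    obtain ⟨hz1, hz2⟩ := Finset.mem_filter.mp hz
    exact Finset.mem_filter.mpr ⟨Finset.mem_univ _, hz1, hz2⟩
  rcases D5a_core h hfull hP hpr (card_DX h hg hX0) hm hinj with h1 | ⟨S, h1, h2, h3⟩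
  · exact Or.inl fun R => hconv R (h1 R)
  · exact Or.inr ⟨S, h1, h2, fun R hR => hconv R (h3 R hR)⟩

end Pool.Agent.H13.VM
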