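import Pool.Agent.H13.VM.D4b

/-! MODULE D5b (about 170 lines). The test for a closed U-line of `P` at one of its members (dual of D5a).

`U = HX B Z` for some `Z` in `NB1` (`CX B Z = U` is impossible: `CX B Z` has at most `r` elements), `U` in `fullU`. `CX B X0` has more than `g` elements (`card_CX`). For `y` in `CX B X0`: `y` in `X0`, so in `U`; `U.erase y` in `NB1`, an
`r`-set on `U` (`NB1_on_basicU`), in `P`. The line is not open: `2 * (privs r B U).card < g`; so at least `g/2` elements `y` of `CX B X0` have `U.erase y` not in `privs r B U`: there is another full line `L_y <> U` on `U.erase y`. If `L_y` is not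
in `bas`: `U.erase y` contains a small circuit or is in a large hyperplane: `Kn0` for every `R`. If there are at least 3 such `y`: first alternative. Otherwise at least `g/2 - 2` of the `y` have `L_y` in `basP`; `S` = the set of these
`L_y`; each is `L_y` for at most 2 elements (`two_lines`), so `g <= 4 S.card + 8`. If `(R cap S).card >= 3`, three different `y` have `L_y` in `R`, so `Kn0 (U.erase y)`. -/

open scoped BigOperators
open Filter

namespace Pool.Agent.H13.VM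

open Pool.Agent.H28.Johnson

open Classical in
private theorem D5b_core {n r : ℕ} {B : Finset (Finset (Fin n))} (h : IsMat n r B) {g : ℕ}
    {L0 : Finset (Fin n)} (hL0 : L0 ∈ full r B) (hP : ∃ X ∈ hvy r B, onl L0 X)
    (hpr : 2 * (privs r B L0).card < g) {D : Finset (Fin n)} {m : Fin n → Finset (Fin n)}
    (hD : g < D.card) (hm : ∀ z ∈ D, (m z).card = r ∧ onl L0 (m z))
    (hinj : ∀ z ∈ D, ∀ w ∈ D, m z = m w → z = w) :
    (∀ R : Finset (Finset (Fin n)),
      3 ≤ (D.filter fun z => Kn0 r (A1of r B R) (A2of r B R) (m z)).card) ∨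
    ∃ S ⊆ basP r B, g ≤ 4 * S.card + 8 ∧ ∀ R : Finset (Finset (Fin n)), 3 ≤ (R ∩ S).card →
      3 ≤ (D.filter fun z => Kn0 r (A1of r B R) (A2of r B R) (m z)).card := by
  have hhv : ∀ z ∈ D, m z ∈ hvy r B := by
    intro z hz
    obtain ⟨X, hX, hLX⟩ := hP
    exact pts_hvy hL0 hX hLX (hm z hz).1 (hm z hz).2
  have hlines : ∀ z ∈ D, m z ∉ privs r B L0 →
      (∀ R : Finset (Finset (Fin n)), Kn0 r (A1of r B R) (A2of r B R) (m z)) ∨
      ∃ L, L ∈ basP r B ∧ L ∈ full r B ∧ L ≠ L0 ∧ onl L (m z) := by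
    intro z hz hnp
    have h0 : L0 ∈ thr r B (m z) := mem_thr.mpr ⟨hL0, (hm z hz).2⟩
    have h1 : (thr r B (m z)).card ≠ 1 := fun hh => hnp (mem_privs.mpr ⟨hm z hz, hh⟩)
    have h2 : 0 < (thr r B (m z)).card := Finset.card_pos.mpr ⟨_, h0⟩
    obtain ⟨L, hL, hne⟩ := Finset.exists_mem_ne (s := thr r B (m z)) (by omega) L0
    obtain ⟨hLf, hLo⟩ := mem_thr.mp hL
    rcases mem_full.mp hLf with hI | hU
    · have hsub : L ⊆ m z := (onlI hI (hm z hz).1).mp hLo
      rcases fullI_cases h hI with ⟨X, hX, hXL⟩ | ⟨X, hX, hXL, hc⟩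
      · exact Or.inr ⟨L, mem_basP.mpr ⟨mem_bas.mpr ⟨hLf, X, hX, Or.inl hXL⟩, m z, hhv z hz, hLo⟩,
          hLf, hne, hLo⟩
      · refine Or.inl fun R => ⟨(hm z hz).1, Or.inl ⟨CX B X, ?_, hXL.trans hsub⟩⟩
        exact mem_A1of.mpr (Or.inl ⟨⟨X, hX, rfl⟩, hc⟩)
    · have hsub : m z ⊆ L := (onlU hU (hm z hz).1).mp hLo
      rcases fullU_cases h hU with ⟨X, hX, hXL⟩ | ⟨X, hX, hXL, hc⟩
      · exact Or.inr ⟨L, mem_basP.mpr ⟨mem_bas.mpr ⟨hLf, X, hX, Or.inr hXL⟩, m z, hhv z hz, hLo⟩,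
          hLf, hne, hLo⟩
      · refine Or.inl fun R => ⟨(hm z hz).1, Or.inr ⟨HX B X, ?_, hsub.trans hXL⟩⟩
        exact mem_A2of.mpr (Or.inl ⟨⟨X, hX, rfl⟩, hc⟩)
  set Q : Finset (Fin n) := D.filter fun z =>
    ∀ R : Finset (Finset (Fin n)), Kn0 r (A1of r B R) (A2of r B R) (m z) with hQ
  set V : Finset (Fin n) := D.filter fun z => m z ∈ privs r B L0 with hV
  set T : Finset (Fin n) := D.filter fun z => m z ∉ privs r B L0 ∧
    ¬ ∀ R : Finset (Finset (Fin n)), Kn0 r (A1of r B R) (A2of r B R) (m z) with hT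
  by_cases hQ3 : 3 ≤ Q.card
  · refine Or.inl fun R => le_trans hQ3 (Finset.card_le_card ?_)
    intro z hz
    obtain ⟨hz1, hz2⟩ := Finset.mem_filter.mp hz
    exact Finset.mem_filter.mpr ⟨hz1, hz2 R⟩
  right
  have hcov : D ⊆ T ∪ (Q ∪ V) := by
    intro z hz
    rw [Finset.mem_union, Finset.mem_union, hT, hQ, hV, Finset.mem_filter, Finset.mem_filter,
      Finset.mem_filter]
    by_cases h1 : m z ∈ privs r B L0
    · exact Or.inr (Or.inr ⟨hz, h1⟩)
    · by_cases h2 : ∀ R : Finset (Finset (Fin n)), Kn0 r (A1of r B R) (A2of r B R) (m z)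
      · exact Or.inr (Or.inl ⟨hz, h2⟩)
      · exact Or.inl ⟨hz, h1, h2⟩
  have hVc : V.card ≤ (privs r B L0).card := by
    refine Finset.card_le_card_of_injOn m (fun z hz => (Finset.mem_filter.mp hz).2) ?_
    intro z hz w hw e
    exact hinj z (Finset.mem_filter.mp hz).1 w (Finset.mem_filter.mp hw).1 e
  have hTc : D.card ≤ T.card + (Q.card + V.card) :=
    (Finset.card_le_card hcov).trans ((Finset.card_union_le _ _).trans
      (Nat.add_le_add_left (Finset.card_union_le _ _) _))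
  have hex : ∀ z ∈ T, ∃ L, L ∈ basP r B ∧ L ∈ full r B ∧ L ≠ L0 ∧ onl L (m z) := by
    intro z hz
    obtain ⟨hz1, hz2, hz3⟩ := Finset.mem_filter.mp hz
    rcases hlines z hz1 hz2 with h4 | h4
    · exact absurd h4 hz3
    · exact h4
  choose! L hL using hex
  have hTS : T.card ≤ 2 * (T.image L).card := by
    refine Finset.card_le_mul_card_image _ _ ?_
    intro L' hL'
    obtain ⟨w, hw, hwL⟩ := Finset.mem_image.mp hL'
    obtain ⟨-, h2, h3, -⟩ := hL w hw
    rw [hwL] at h2 h3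
    refine le_trans ?_ (two_lines h2 hL0 h3)
    refine Finset.card_le_card_of_injOn m ?_ ?_
    · intro z hz
      obtain ⟨hz1, hz2⟩ := Finset.mem_filter.mp hz
      have hz3 := (Finset.mem_filter.mp hz1).1
      have h5 := (hL z hz1).2.2.2
      rw [hz2] at h5
      exact Finset.mem_inter.mpr ⟨mem_pts.mpr ⟨(hm z hz3).1, h5⟩, mem_pts.mpr (hm z hz3)⟩
    · intro z hz v hv e
      exact hinj z (Finset.mem_filter.mp (Finset.mem_filter.mp hz).1).1 v
        (Finset.mem_filter.mp (Finset.mem_filter.mp hv).1).1 e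
  refine ⟨T.image L, ?_, by omega, ?_⟩
  · intro L' hL'
    obtain ⟨w, hw, hwL⟩ := Finset.mem_image.mp hL'
    rw [← hwL]; exact (hL w hw).1
  · intro R hR
    refine le_trans (le_trans hR ?_) (Finset.card_le_card
      (s := T.filter fun z => L z ∈ R) ?_)
    · refine le_trans (Finset.card_le_card ?_) (Finset.card_image_le (f := L))
      intro L' hL'
      obtain ⟨h1, h2⟩ := Finset.mem_inter.mp hL'
      obtain ⟨w, hw, hwL⟩ := Finset.mem_image.mp h2
      exact Finset.mem_image.mpr ⟨w, Finset.mem_filter.mpr ⟨hw, hwL ▸ h1⟩, hwL⟩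
    · intro z hz
      obtain ⟨hz1, hz2⟩ := Finset.mem_filter.mp hz
      have hz3 := (Finset.mem_filter.mp hz1).1
      obtain ⟨-, h2, -, h4⟩ := hL z hz1
      refine Finset.mem_filter.mpr ⟨hz3, (hm z hz3).1, ?_⟩
      rcases mem_full.mp h2 with hI | hU
      · exact Or.inl ⟨L z, mem_A1of.mpr (Or.inr ⟨hz2, (mem_fullI.mp hI).1⟩),
          (onlI hI (hm z hz3).1).mp h4⟩
      · exact Or.inr ⟨L z, mem_A2of.mpr (Or.inr ⟨hz2, (mem_fullU.mp hU).1⟩),
          (onlU hU (hm z hz3).1).mp h4⟩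

theorem testU {n r : ℕ} {B : Finset (Finset (Fin n))} (h : IsMat n r B) {g : ℕ} (hg : GG g B) {U X0 : Finset (Fin n)}
    (hU : U ∈ basP r B) (hUr : U.card = r + 1) (hcl : U ∉ opn g r B) (hX0 : X0 ∈ NB1 r B)
    (hs : X0 ⊆ U) :
    (∀ R : Finset (Finset (Fin n)), T1U r B (A1of r B R) (A2of r B R) U X0) ∨
      ∃ S ⊆ basP r B, g ≤ 4 * S.card + 8 ∧ ∀ R : Finset (Finset (Fin n)),
        3 ≤ (R ∩ S).card → T1U r B (A1of r B R) (A2of r B R) U X0 := by
  classical
  obtain ⟨hbas, hP⟩ := mem_basP.mp hU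
  obtain ⟨hfull, Z, hZ, hZU | hZU⟩ := mem_bas.mp hbas
  · exfalso
    have h1 := Finset.card_le_card (CX_subset B Z)
    rw [hZU, (mem_NB.mp (mem_NB1.mp hZ).1).1] at h1
    omega
  subst hZU
  have hpr : 2 * (privs r B (HX B Z)).card < g := by
    by_contra hh
    exact hcl (mem_opn.mpr ⟨hU, by omega⟩)
  have hy0 : ∀ y ∈ CX B X0, y ∈ HX B Z := fun y hy => hs (CX_subset B X0 hy)
  have hm : ∀ y ∈ CX B X0, ((HX B Z).erase y).card = r ∧ onl (HX B Z) ((HX B Z).erase y) := by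
    intro y hy
    exact ⟨by rw [Finset.card_erase_of_mem (hy0 y hy), hUr]; rfl,
      Or.inr (Finset.erase_subset _ _)⟩
  have hinj : ∀ y ∈ CX B X0, ∀ w ∈ CX B X0, (HX B Z).erase y = (HX B Z).erase w → y = w := by
    intro y hy w hw e
    by_contra hne
    have h1 : y ∈ (HX B Z).erase w := Finset.mem_erase.mpr ⟨hne, hy0 y hy⟩
    rw [← e] at h1
    exact Finset.notMem_erase _ _ h1
  have hconv : ∀ R : Finset (Finset (Fin n)),
      3 ≤ ((CX B X0).filter fun y => Kn0 r (A1of r B R) (A2of r B R) ((HX B Z).erase y)).card →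
      T1U r B (A1of r B R) (A2of r B R) (HX B Z) X0 := by
    intro R hR
    refine le_trans hR (Finset.card_le_card ?_)
    intro y hy
    obtain ⟨hy1, hy2⟩ := Finset.mem_filter.mp hy
    exact Finset.mem_filter.mpr ⟨Finset.mem_univ _, hy1, hy2⟩
  rcases D5b_core h hfull hP hpr (card_CX h hg hX0) hm hinj with h1 | ⟨S, h1, h2, h3⟩
  · exact Or.inl fun R => hconv R (h1 R)
  · exact Or.inr ⟨S, h1, h2, fun R hR => hconv R (h3 R hR)⟩

end Pool.Agent.H13.VM
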