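import Pool.Agent.H13.VM.DDefs

/-! MODULE D6a (about 120 lines). A random subset with few unlucky tests (finite, no matroids).

For `R` in `S0.powerset` put `w(R) = p^|R| (1-p)^(|S0|-|R|)`; the sum of the `w(R)` is 1 (`Finset.sum_pow_mul_eq_add_pow`). The sum of `w(R) |R|` is `p |S0|` (exchange the sums: for each `x` in `S0` the weight of the `R` containing `x` is `p`).
For a test `T` (`a <= T.card`, `T` contained in `S0`) choose `T'` in `T` with exactly `a` elements. The weight of `{R : |R cap T| <= 2}` is at most that of `{R : |R cap T'| <= 2}`, which is the sum over `Q` contained in `T'`, `|Q| <= 2`, of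
`p^|Q| (1-p)^(a-|Q|)` (split `R = Q cup R'`, `R'` contained in `S0 \ T'`: total weight 1), each term is at most `(1-p)^(a-2)`, and there are `1 + a + a(a-1)/2 <= (a+1)^2` sets `Q`. So the weighted mean of `|R| + number of unlucky tests` is at most
the right hand side, so some `R` is at most the mean. -/

open scoped BigOperators
open Filter

namespace Pool.Agent.H13.VM

open Pool.Agent.H28.Johnson

/-- the weights -/
private noncomputable def D6a_w {α : Type*} (p : ℝ) (S0 R : Finset α) : ℝ :=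
  p ^ R.card * (1 - p) ^ (S0.card - R.card)

open Classical in
private lemma D6a_disj {α : Type*} (S0 U : Finset α) (hU : U ⊆ S0) (p : ℝ) :
    ∑ R ∈ S0.powerset.filter (fun R => Disjoint R U), D6a_w p S0 R = (1 - p) ^ U.card := by
  have h1 : S0.powerset.filter (fun R => Disjoint R U) = (S0 \ U).powerset := by
    ext R
    rw [Finset.mem_filter, Finset.mem_powerset, Finset.mem_powerset, Finset.subset_sdiff]
  rw [h1]
  have h2 : ∀ R ∈ (S0 \ U).powerset, D6a_w p S0 R =
      (1 - p) ^ U.card * (p ^ R.card * (1 - p) ^ ((S0 \ U).card - R.card)) := by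
    intro R hR
    have hc := Finset.card_le_card (Finset.mem_powerset.1 hR)
    have hs : (S0 \ U).card + U.card = S0.card := Finset.card_sdiff_add_card_eq_card hU
    unfold D6a_w
    rw [show S0.card - R.card = U.card + ((S0 \ U).card - R.card) by omega, pow_add]
    ring
  rw [Finset.sum_congr rfl h2, ← Finset.mul_sum, Finset.sum_pow_mul_eq_add_pow,
    add_sub_cancel, one_pow, mul_one]

private lemma D6a_total {α : Type*} (S0 : Finset α) (p : ℝ) :
    ∑ R ∈ S0.powerset, D6a_w p S0 R = 1 := by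
  unfold D6a_w
  rw [Finset.sum_pow_mul_eq_add_pow, add_sub_cancel, one_pow]

private lemma D6a_nonneg {α : Type*} (S0 R : Finset α) {p : ℝ} (hp0 : 0 ≤ p) (hp1 : p ≤ 1) :
    0 ≤ D6a_w p S0 R :=
  mul_nonneg (pow_nonneg hp0 _) (pow_nonneg (by linarith) _)

open Classical in
private lemma D6a_mean {α : Type*} (S0 : Finset α) (p : ℝ) :
    ∑ R ∈ S0.powerset, D6a_w p S0 R * (R.card : ℝ) = p * S0.card := by
  have h1 : ∀ R ∈ S0.powerset, D6a_w p S0 R * (R.card : ℝ) =
      ∑ x ∈ S0, (D6a_w p S0 R - if Disjoint R {x} then D6a_w p S0 R else 0) := by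
    intro R hR
    have hRS := Finset.mem_powerset.1 hR
    have h2 : ∀ x ∈ S0, (D6a_w p S0 R - if Disjoint R {x} then D6a_w p S0 R else 0) =
        if x ∈ R then D6a_w p S0 R else 0 := by
      intro x _
      by_cases hx : x ∈ R
      · rw [if_pos hx, if_neg (by rw [Finset.disjoint_singleton_right]; exact not_not.2 hx),
          sub_zero]
      · rw [if_neg hx, if_pos (Finset.disjoint_singleton_right.2 hx), sub_self]
    rw [Finset.sum_congr rfl h2, ← Finset.sum_filter, Finset.sum_const, nsmul_eq_mul, mul_comm]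
    congr 2
    congr 1
    ext x
    rw [Finset.mem_filter]
    exact ⟨fun hx => ⟨hRS hx, hx⟩, fun hx => hx.2⟩
  rw [Finset.sum_congr rfl h1, Finset.sum_comm]
  have h3 : ∀ x ∈ S0, ∑ R ∈ S0.powerset,
      (D6a_w p S0 R - if Disjoint R {x} then D6a_w p S0 R else 0) = p := by
    intro x hx
    rw [Finset.sum_sub_distrib, D6a_total, ← Finset.sum_filter,
      D6a_disj S0 {x} (Finset.singleton_subset_iff.2 hx), Finset.card_singleton, pow_one]
    ring
  rw [Finset.sum_congr rfl h3, Finset.sum_const, nsmul_eq_mul, mul_comm]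

private lemma D6a_bi {β γ : Type*} [DecidableEq γ] (s : Finset β) (t : β → Finset γ) (f : γ → ℝ)
    (hf : ∀ x, 0 ≤ f x) : ∑ x ∈ s.biUnion t, f x ≤ ∑ i ∈ s, ∑ x ∈ t i, f x := by
  classical
  induction s using Finset.induction_on with
  | empty => simp
  | insert i s hi ih =>
    rw [Finset.biUnion_insert, Finset.sum_insert hi]
    have h1 := Finset.sum_union_inter (s₁ := t i) (s₂ := s.biUnion t) (f := f)
    have h2 : 0 ≤ ∑ x ∈ t i ∩ s.biUnion t, f x := Finset.sum_nonneg fun x _ => hf x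
    linarith

open Classical in
private lemma D6a_tail {α : Type*} (S0 T : Finset α) {a : ℕ} (ha : 2 ≤ a) (hT : T ⊆ S0)
    (hTa : a ≤ T.card) {p : ℝ} (hp0 : 0 ≤ p) (hp1 : p ≤ 1) :
    ∑ R ∈ S0.powerset.filter (fun R => (R ∩ T).card ≤ 2), D6a_w p S0 R ≤
      ((a : ℝ) + 1) ^ 2 * (1 - p) ^ (a - 2) := by
  obtain ⟨T', hT', hc⟩ := Finset.exists_subset_card_eq hTa
  have hsub : S0.powerset.filter (fun R => (R ∩ T).card ≤ 2) ⊆
      (T'.powersetCard 2).biUnion fun Q => S0.powerset.filter (fun R => Disjoint R (T' \ Q)) := by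
    intro R hR
    rw [Finset.mem_filter] at hR
    have h1 : (R ∩ T').card ≤ 2 :=
      le_trans (Finset.card_le_card (Finset.inter_subset_inter_left hT')) hR.2
    obtain ⟨Q, hQ1, hQ2, hQ3⟩ := Finset.exists_subsuperset_card_eq
      (Finset.inter_subset_right (s₁ := R) (s₂ := T')) h1 (by rw [hc]; exact ha)
    rw [Finset.mem_biUnion]
    refine ⟨Q, Finset.mem_powersetCard.2 ⟨hQ2, hQ3⟩, Finset.mem_filter.2 ⟨hR.1, ?_⟩⟩
    rw [Finset.disjoint_left]
    intro x hxR hxT
    rw [Finset.mem_sdiff] at hxT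
    exact hxT.2 (hQ1 (Finset.mem_inter.2 ⟨hxR, hxT.1⟩))
  have hq : 0 ≤ 1 - p := by linarith
  calc ∑ R ∈ S0.powerset.filter (fun R => (R ∩ T).card ≤ 2), D6a_w p S0 R
      ≤ ∑ R ∈ (T'.powersetCard 2).biUnion
          fun Q => S0.powerset.filter (fun R => Disjoint R (T' \ Q)), D6a_w p S0 R :=
        Finset.sum_le_sum_of_subset_of_nonneg hsub fun R _ _ => D6a_nonneg S0 R hp0 hp1
    _ ≤ ∑ Q ∈ T'.powersetCard 2,
          ∑ R ∈ S0.powerset.filter (fun R => Disjoint R (T' \ Q)), D6a_w p S0 R :=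
        D6a_bi _ _ _ fun R => D6a_nonneg S0 R hp0 hp1
    _ = ∑ Q ∈ T'.powersetCard 2, (1 - p) ^ (a - 2) := by
        refine Finset.sum_congr rfl fun Q hQ => ?_
        rw [Finset.mem_powersetCard] at hQ
        rw [D6a_disj S0 (T' \ Q) (Finset.sdiff_subset.trans (hT'.trans hT)),
          Finset.card_sdiff_of_subset hQ.1, hc, hQ.2]
    _ = (a.choose 2 : ℝ) * (1 - p) ^ (a - 2) := by
        rw [Finset.sum_const, Finset.card_powersetCard, hc, nsmul_eq_mul]
    _ ≤ ((a : ℝ) + 1) ^ 2 * (1 - p) ^ (a - 2) := by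
        refine mul_le_mul_of_nonneg_right ?_ (pow_nonneg hq _)
        have h1 : a.choose 2 ≤ (a + 1) ^ 2 := by
          refine le_trans (Nat.choose_le_pow a 2) ?_
          exact Nat.pow_le_pow_left (Nat.le_succ a) 2
        exact_mod_cast h1

open Classical in
theorem sample {α ι : Type*} (S0 : Finset α) (I : Finset ι) (T : ι → Finset α) {a : ℕ}
    (ha : 2 ≤ a) (hT : ∀ i ∈ I, T i ⊆ S0 ∧ a ≤ (T i).card) {p : ℝ} (hp0 : 0 ≤ p) (hp1 : p ≤ 1) :
    ∃ R ⊆ S0, (R.card : ℝ) + ((I.filter fun i => (R ∩ T i).card ≤ 2).card : ℝ) ≤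
      p * S0.card + I.card * (((a : ℝ) + 1) ^ 2 * (1 - p) ^ (a - 2)) := by
  set v : Finset α → ℝ := fun R =>
    (R.card : ℝ) + ((I.filter fun i => (R ∩ T i).card ≤ 2).card : ℝ) with hv
  obtain ⟨R0, hR0, hmin⟩ := Finset.exists_min_image S0.powerset v
    ⟨∅, Finset.empty_mem_powerset S0⟩
  refine ⟨R0, Finset.mem_powerset.1 hR0, ?_⟩
  have h1 : v R0 ≤ ∑ R ∈ S0.powerset, D6a_w p S0 R * v R := by
    calc v R0 = ∑ R ∈ S0.powerset, D6a_w p S0 R * v R0 := by
          rw [← Finset.sum_mul, D6a_total, one_mul]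
      _ ≤ _ := Finset.sum_le_sum fun R hR =>
          mul_le_mul_of_nonneg_left (hmin R hR) (D6a_nonneg S0 R hp0 hp1)
  refine le_trans h1 ?_
  have h2 : ∀ R ∈ S0.powerset, D6a_w p S0 R * v R = D6a_w p S0 R * (R.card : ℝ) +
      ∑ i ∈ I, (if (R ∩ T i).card ≤ 2 then D6a_w p S0 R else 0) := by
    intro R _
    rw [hv]
    simp only
    rw [mul_add, ← Finset.sum_filter, Finset.sum_const, nsmul_eq_mul,
      mul_comm (D6a_w p S0 R) ((Finset.card _ : ℕ) : ℝ)]
    ring
  rw [Finset.sum_congr rfl h2, Finset.sum_add_distrib, D6a_mean, Finset.sum_comm]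
  refine add_le_add le_rfl ?_
  calc ∑ i ∈ I, ∑ R ∈ S0.powerset, (if (R ∩ T i).card ≤ 2 then D6a_w p S0 R else 0)
      ≤ ∑ i ∈ I, (((a : ℝ) + 1) ^ 2 * (1 - p) ^ (a - 2)) := by
        refine Finset.sum_le_sum fun i hi => ?_
        rw [← Finset.sum_filter]
        exact D6a_tail S0 (T i) ha (hT i hi).1 (hT i hi).2 hp0 hp1
    _ = _ := by rw [Finset.sum_const, nsmul_eq_mul]

end Pool.Agent.H13.VM
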