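import Pool.Agent.H13.VM.D5a
import Pool.Agent.H13.VM.D5b
import Pool.Agent.H13.VM.D6a
import Pool.Agent.H13.VM.D1b

/-! MODULE D6b (about 170 lines). Existence of a good short list.

Tests, all given by subsets `T` of `S0 = basP r B` with at least `a` elements:
(1) pairs `(L, X0)`, `L` in `basP`, `L` not in `opn`, `X0` in `NB1` on `L` (at most `n` members for each `L`: `card_pts_le`), for which `testI`/`testU` gives the second alternative `S`: `a <= S.card` because `g <= 4 S.card + 8`, `4 a + 8 <= g`;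
(2) `X` in `hvy` for which the first alternative of `hvy_cases` fails: `S` = the basic lines meeting `comp r (NB r B) X`; they are in `basP` (`comp_sub_hvy`), `n <= S.card ^ 2` and `a ^ 2 <= n` give `a <= S.card`.
(For instance `I` = a subset of `(basP r B).sigma (fun L => pts r L)` disjoint-union `hvy r B`, or use `sample` with `ι = Finset (Fin n) x Option (Finset (Fin n))`.) The number of tests is at most `n |basP| + |hvy|`.
`sample` gives `R0`. For every unlucky test put one more line into `R`: for (1) `L` itself, for (2) any member of `S` (nonempty since `a >= 2`). `R` = `R0` and these: `R.card <= R0.card + number of unlucky tests`. `R` is good: `sub` clear. `l1I`: if the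
test `(I, X0)` was unlucky for some `X0` then `I` in `R`. Otherwise for every `X0` either the first alternative of `testI` holds or `3 <= (R0 cap S).card`: `T1I` for `R0`, so for `R` (`T1I.mono`). `l1U` the same. `l2`: first alternative of
`hvy_cases`: `Y` in the component contains `CX B Z` (in `A1of`) or is in `HX B Z` (in `A2of`): `Kn0`. Otherwise some line `L` in `S` is in `R`, it meets the component in `Y`: `Kn0 Y` (`L` in `A1of` or `A2of` according to `fullI`, `fullU`). -/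

open scoped BigOperators
open Filter

namespace Pool.Agent.H13.VM

open Pool.Agent.H28.Johnson

/-- what a test for a line gives -/
private def g1 {n : ℕ} (r : ℕ) (B : Finset (Finset (Fin n))) (p : Finset (Fin n) × Finset (Fin n))
    (R : Finset (Finset (Fin n))) : Prop :=
  (p.1.card + 1 = r → p.1 ⊆ p.2 → T1I r B (A1of r B R) (A2of r B R) p.1 p.2) ∧
    (p.1.card = r + 1 → p.2 ⊆ p.1 → T1U r B (A1of r B R) (A2of r B R) p.1 p.2)

/-- what a test for a heavy nonbase gives -/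
private def g2 {n : ℕ} (r : ℕ) (B : Finset (Finset (Fin n))) (X : Finset (Fin n))
    (R : Finset (Finset (Fin n))) : Prop :=
  ∃ Y ∈ comp r (NB r B) X, Kn0 r (A1of r B R) (A2of r B R) Y

private lemma basP_full {n r : ℕ} {B : Finset (Finset (Fin n))} {L : Finset (Fin n)}
    (h : L ∈ basP r B) : L ∈ full r B := (mem_bas.mp (mem_basP.mp h).1).1

private lemma test1 {n r : ℕ} {B : Finset (Finset (Fin n))} (h : IsMat n r B) {g : ℕ} (hg : GG g B)
    {a : ℕ} (hag : 4 * a + 8 ≤ g) {p : Finset (Fin n) × Finset (Fin n)} (hL : p.1 ∈ basP r B)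
    (hcl : p.1 ∉ opn g r B) (hX : p.2 ∈ NB1 r B) (ho : onl p.1 p.2)
    (hno : ¬ ∀ R, g1 r B p R) :
    ∃ S : Finset (Finset (Fin n)), S ⊆ basP r B ∧ a ≤ S.card ∧
      ∀ R, 3 ≤ (R ∩ S).card → g1 r B p R := by
  have hXr : p.2.card = r := (mem_NB.mp (mem_NB1.mp hX).1).1
  rcases mem_full.mp (basP_full hL) with hI | hU
  · have hIr := (mem_fullI.mp hI).1
    have hs : p.1 ⊆ p.2 := (onlI hI hXr).mp ho
    rcases testI h hg hL hIr hcl hX hs with h1 | ⟨S, hS, hgS, h1⟩
    · exact absurd (fun R => ⟨fun _ _ => h1 R, fun h2 => absurd h2 (by omega)⟩) hno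
    · exact ⟨S, hS, by omega, fun R hR => ⟨fun _ _ => h1 R hR, fun h2 => absurd h2 (by omega)⟩⟩
  · have hUr := (mem_fullU.mp hU).1
    have hs : p.2 ⊆ p.1 := (onlU hU hXr).mp ho
    rcases testU h hg hL hUr hcl hX hs with h1 | ⟨S, hS, hgS, h1⟩
    · exact absurd (fun R => ⟨fun h2 => absurd h2 (by omega), fun _ _ => h1 R⟩) hno
    · exact ⟨S, hS, by omega, fun R hR => ⟨fun h2 => absurd h2 (by omega), fun _ _ => h1 R hR⟩⟩

private lemma test2 {n r : ℕ} {B : Finset (Finset (Fin n))} (h : IsMat n r B) (hr : 2 ≤ r)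
    (hn : n ≤ r ^ 2) {a : ℕ} (han : a ^ 2 ≤ n) {X : Finset (Fin n)} (hX : X ∈ hvy r B)
    (hno : ¬ ∀ R, g2 r B X R) :
    ∃ S : Finset (Finset (Fin n)), S ⊆ basP r B ∧ a ≤ S.card ∧
      ∀ R, (R ∩ S).Nonempty → g2 r B X R := by
  classical
  have hcard : ∀ Y ∈ comp r (NB r B) X, Y.card = r := fun Y hY =>
    (mem_NB.mp (mem_comp.mp hY).1).1
  rcases hvy_cases h hr hn hX with ⟨Y, hY, Z, hZ, h1⟩ | h1
  · refine absurd (fun R => ⟨Y, hY, hcard Y hY, ?_⟩) hno
    rcases h1 with ⟨h2, h3⟩ | ⟨h2, h3⟩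
    · exact Or.inl ⟨CX B Z, mem_A1of.mpr (Or.inl ⟨⟨Z, hZ, rfl⟩, h3⟩), h2⟩
    · exact Or.inr ⟨HX B Z, mem_A2of.mpr (Or.inl ⟨⟨Z, hZ, rfl⟩, h3⟩), h2⟩
  · refine ⟨(bas r B).filter fun L => ∃ Y ∈ comp r (NB r B) X, onl L Y, ?_, ?_, ?_⟩
    · intro L hL
      rw [Finset.mem_filter] at hL
      obtain ⟨hL1, Y, hY, hLY⟩ := hL
      exact mem_basP.mpr ⟨hL1, Y, comp_sub_hvy hX hY, hLY⟩
    · by_contra hlt
      push Not at hlt
      have h2 : ((bas r B).filter fun L => ∃ Y ∈ comp r (NB r B) X, onl L Y).card ^ 2 < a ^ 2 :=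
        Nat.pow_lt_pow_left hlt (by norm_num)
      have h3 : n ≤ ((bas r B).filter fun L => ∃ Y ∈ comp r (NB r B) X, onl L Y).card ^ 2 := by
        convert h1
      omega
    · rintro R ⟨L, hL⟩
      rw [Finset.mem_inter, Finset.mem_filter] at hL
      obtain ⟨hLR, hLb, Y, hY, hLY⟩ := hL
      refine ⟨Y, hY, hcard Y hY, ?_⟩
      rcases mem_full.mp (mem_bas.mp hLb).1 with hI | hU
      · exact Or.inl ⟨L, mem_A1of.mpr (Or.inr ⟨hLR, (mem_fullI.mp hI).1⟩),
          (onlI hI (hcard Y hY)).mp hLY⟩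
      · exact Or.inr ⟨L, mem_A2of.mpr (Or.inr ⟨hLR, (mem_fullU.mp hU).1⟩),
          (onlU hU (hcard Y hY)).mp hLY⟩

open Classical in
/-- the tests for lines -/
private noncomputable def I1 {n : ℕ} (g r : ℕ) (B : Finset (Finset (Fin n))) :
    Finset (Finset (Fin n) × Finset (Fin n)) :=
  ((basP r B) ×ˢ (NB1 r B)).filter fun p => p.1 ∉ opn g r B ∧ onl p.1 p.2 ∧ ¬ ∀ R, g1 r B p R

open Classical in
/-- the tests for heavy nonbases -/
private noncomputable def I2 {n : ℕ} (r : ℕ) (B : Finset (Finset (Fin n))) :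
    Finset (Finset (Fin n)) := (hvy r B).filter fun X => ¬ ∀ R, g2 r B X R

private lemma mem_I1 {n g r : ℕ} {B : Finset (Finset (Fin n))}
    {p : Finset (Fin n) × Finset (Fin n)} :
    p ∈ I1 g r B ↔ (p.1 ∈ basP r B ∧ p.2 ∈ NB1 r B) ∧ p.1 ∉ opn g r B ∧ onl p.1 p.2 ∧
      ¬ ∀ R, g1 r B p R := by
  classical
  rw [I1, Finset.mem_filter, Finset.mem_product]

private lemma mem_I2 {n r : ℕ} {B : Finset (Finset (Fin n))} {X : Finset (Fin n)} :
    X ∈ I2 r B ↔ X ∈ hvy r B ∧ ¬ ∀ R, g2 r B X R := by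
  classical
  rw [I2, Finset.mem_filter]

private lemma card_I1 {n g r : ℕ} {B : Finset (Finset (Fin n))} :
    (I1 g r B).card ≤ (basP r B).card * n := by
  classical
  have hsub : I1 g r B ⊆ (basP r B).biUnion fun L => (pts r L).image fun X => (L, X) := by
    intro p hp
    obtain ⟨⟨h1, h2⟩, -, h3, -⟩ := mem_I1.mp hp
    rw [Finset.mem_biUnion]
    refine ⟨p.1, h1, Finset.mem_image.mpr ⟨p.2, ?_, rfl⟩⟩
    exact mem_pts.mpr ⟨(mem_NB.mp (mem_NB1.mp h2).1).1, h3⟩
  refine (Finset.card_le_card hsub).trans (Finset.card_biUnion_le_card_mul _ _ _ ?_)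
  intro L hL
  exact Finset.card_image_le.trans (card_pts_le (basP_full hL))

theorem exists_list {n r : ℕ} {B : Finset (Finset (Fin n))} (h : IsMat n r B) {g : ℕ} (hg : GG g B) (hr : 2 ≤ r) (hn : n ≤ r ^ 2) {a : ℕ}
    (ha : 2 ≤ a) (hag : 4 * a + 8 ≤ g) (han : a ^ 2 ≤ n) {p : ℝ} (hp0 : 0 ≤ p) (hp1 : p ≤ 1) :
    ∃ R : Finset (Finset (Fin n)), LL g r B R ∧ (R.card : ℝ) ≤ p * (basP r B).card +
      (n * (basP r B).card + (hvy r B).card) * (((a : ℝ) + 1) ^ 2 * (1 - p) ^ (a - 2)) := by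
  classical
  -- the sets of the tests
  have e1 : ∀ q : Finset (Fin n) × Finset (Fin n), ∃ S : Finset (Finset (Fin n)), q ∈ I1 g r B →
      S ⊆ basP r B ∧ a ≤ S.card ∧ ∀ R, 3 ≤ (R ∩ S).card → g1 r B q R := by
    intro q
    by_cases hq : q ∈ I1 g r B
    · obtain ⟨⟨h1, h2⟩, h3, h4, h5⟩ := mem_I1.mp hq
      obtain ⟨S, hS⟩ := test1 h hg hag h1 h3 h2 h4 h5
      exact ⟨S, fun _ => hS⟩
    · exact ⟨∅, fun h' => absurd h' hq⟩
  have e2 : ∀ X : Finset (Fin n), ∃ S : Finset (Finset (Fin n)), X ∈ I2 r B →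
      S ⊆ basP r B ∧ a ≤ S.card ∧ ∀ R, (R ∩ S).Nonempty → g2 r B X R := by
    intro X
    by_cases hX : X ∈ I2 r B
    · obtain ⟨h1, h2⟩ := mem_I2.mp hX
      obtain ⟨S, hS⟩ := test2 h hr hn han h1 h2
      exact ⟨S, fun _ => hS⟩
    · exact ⟨∅, fun h' => absurd h' hX⟩
  choose T1 hT1 using e1
  choose T2 hT2 using e2
  -- a line for every test
  have e3 : ∀ X : Finset (Fin n), ∃ L : Finset (Fin n), X ∈ I2 r B → L ∈ T2 X := by
    intro X
    by_cases hX : X ∈ I2 r B
    · have h1 := (hT2 X hX).2.1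
      have h2 : (T2 X).Nonempty := by
        rw [← Finset.card_pos]; omega
      obtain ⟨L, hL⟩ := h2
      exact ⟨L, fun _ => hL⟩
    · exact ⟨∅, fun h' => absurd h' hX⟩
  choose lin hlin using e3
  set T : (Finset (Fin n) × Finset (Fin n)) ⊕ Finset (Fin n) → Finset (Finset (Fin n)) :=
    Sum.elim T1 T2 with hT
  set rho : (Finset (Fin n) × Finset (Fin n)) ⊕ Finset (Fin n) → Finset (Fin n) :=
    Sum.elim Prod.fst lin with hrho
  set I := (I1 g r B).disjSum (I2 r B) with hI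
  have hTI : ∀ i ∈ I, T i ⊆ basP r B ∧ a ≤ (T i).card := by
    intro i hi
    rw [hI, Finset.mem_disjSum] at hi
    rcases hi with ⟨q, hq, rfl⟩ | ⟨X, hX, rfl⟩
    · exact ⟨(hT1 q hq).1, (hT1 q hq).2.1⟩
    · exact ⟨(hT2 X hX).1, (hT2 X hX).2.1⟩
  obtain ⟨R0, hR0, hR0c⟩ := sample (basP r B) I T ha hTI hp0 hp1
  set U := I.filter fun i => (R0 ∩ T i).card ≤ 2 with hU
  set R := R0 ∪ U.image rho with hR
  have hRR : R0 ⊆ R := Finset.subset_union_left
  have hUR : ∀ i ∈ U, rho i ∈ R := fun i hi =>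
    Finset.mem_union_right _ (Finset.mem_image_of_mem _ hi)
  have hrhoI : ∀ i ∈ I, rho i ∈ basP r B := by
    intro i hi
    have hi' := hi
    rw [hI, Finset.mem_disjSum] at hi'
    rcases hi' with ⟨q, hq, rfl⟩ | ⟨X, hX, rfl⟩
    · exact (mem_I1.mp hq).1.1
    · exact (hT2 X hX).1 (hlin X hX)
  have hlucky : ∀ i ∈ I, i ∉ U → 3 ≤ (R ∩ T i).card := by
    intro i hi hiU
    have h1 : ¬ (R0 ∩ T i).card ≤ 2 := fun h2 => hiU (Finset.mem_filter.mpr ⟨hi, h2⟩)
    have h2 : (R0 ∩ T i).card ≤ (R ∩ T i).card :=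
      Finset.card_le_card (Finset.inter_subset_inter_right hRR)
    omega
  -- the conclusion for all tests
  have k1 : ∀ L ∈ basP r B, L ∉ opn g r B → L ∉ R → ∀ X0 ∈ NB1 r B, onl L X0 →
      g1 r B (L, X0) R := by
    intro L hL hcl hLR X0 hX0 ho
    by_cases hall : ∀ R, g1 r B (L, X0) R
    · exact hall R
    · have hq : (L, X0) ∈ I1 g r B := mem_I1.mpr ⟨⟨hL, hX0⟩, hcl, ho, hall⟩
      have hi : Sum.inl (L, X0) ∈ I := by
        rw [hI, Finset.mem_disjSum]; exact Or.inl ⟨_, hq, rfl⟩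
      by_cases hiU : Sum.inl (L, X0) ∈ U
      · exact absurd (hUR _ hiU) hLR
      · exact (hT1 _ hq).2.2 R (hlucky _ hi hiU)
  refine ⟨R, ⟨?_, ?_, ?_, ?_⟩, ?_⟩
  · intro L hL
    rw [hR, Finset.mem_union, Finset.mem_image] at hL
    rcases hL with hL | ⟨i, hi, rfl⟩
    · exact hR0 hL
    · exact hrhoI i (Finset.mem_filter.mp hi).1
  · intro L hL hLr hcl
    by_cases hLR : L ∈ R
    · exact Or.inl hLR
    · exact Or.inr fun X0 hX0 hs => (k1 L hL hcl hLR X0 hX0 (Or.inl hs)).1 hLr hs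
  · intro L hL hLr hcl
    by_cases hLR : L ∈ R
    · exact Or.inl hLR
    · exact Or.inr fun X0 hX0 hs => (k1 L hL hcl hLR X0 hX0 (Or.inr hs)).2 hLr hs
  · intro X hX
    by_cases hall : ∀ R, g2 r B X R
    · exact hall R
    · have hq : X ∈ I2 r B := mem_I2.mpr ⟨hX, hall⟩
      have hi : Sum.inr X ∈ I := by
        rw [hI, Finset.mem_disjSum]; exact Or.inr ⟨_, hq, rfl⟩
      refine (hT2 _ hq).2.2 R ?_
      by_cases hiU : Sum.inr X ∈ U
      · exact ⟨lin X, Finset.mem_inter.mpr ⟨hUR _ hiU, hlin X hq⟩⟩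
      · rw [← Finset.card_pos]
        have := hlucky _ hi hiU
        have h3 : T (Sum.inr X) = T2 X := rfl
        rw [h3] at this
        omega
  · have c1 : (R.card : ℝ) ≤ (R0.card : ℝ) + (U.card : ℝ) := by
      have := Finset.card_union_le R0 (U.image rho)
      have h2 : (U.image rho).card ≤ U.card := Finset.card_image_le
      have h3 : R.card ≤ R0.card + U.card := by rw [hR]; omega
      exact_mod_cast h3
    have c2 : (I.card : ℝ) ≤ n * (basP r B).card + (hvy r B).card := by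
      have h1 : I.card = (I1 g r B).card + (I2 r B).card := by
        rw [hI, Finset.card_disjSum]
      have h2 : (I1 g r B).card ≤ (basP r B).card * n := card_I1
      have h3 : (I2 r B).card ≤ (hvy r B).card := by
        rw [I2]; exact Finset.card_filter_le _ _
      have h4 : I.card ≤ n * (basP r B).card + (hvy r B).card := by
        rw [h1, mul_comm n]; omega
      exact_mod_cast h4
    have c3 : 0 ≤ ((a : ℝ) + 1) ^ 2 * (1 - p) ^ (a - 2) :=
      mul_nonneg (by positivity) (pow_nonneg (by linarith) _)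
    have c4 := mul_le_mul_of_nonneg_right c2 c3
    have c5 : (R0.card : ℝ) + (U.card : ℝ) ≤
        p * (basP r B).card + I.card * (((a : ℝ) + 1) ^ 2 * (1 - p) ^ (a - 2)) := by
      refine le_trans (le_of_eq ?_) hR0c
      congr 2
      refine congrArg Finset.card (Finset.ext fun i => ?_)
      rw [hU, Finset.mem_filter, Finset.mem_filter]
      refine and_congr_right fun _ => ?_
      refine iff_of_eq (congrArg (fun m : ℕ => m ≤ 2) ?_)
      refine congrArg Finset.card (Finset.ext fun x => ?_)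
      exact Finset.mem_inter.trans
        (@Finset.mem_inter _ (fun a b => Classical.propDecidable (a = b)) _ _ _).symm
    linarith

end Pool.Agent.H13.VM
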