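import Pool.Agent.H13.VM.A12
import Pool.Agent.H13.VM.D2a

/-! MODULE D6c (about 110 lines). Numbers of basic lines, small circuits, large hyperplanes in terms of `|P|`.

`card_basP`: a line `L` in `basP` is in `full`; if it is in `fullI` then `CX B X = L` for some `X` in `NB1` (`HX B X = L` is impossible: `HX B X` contains `X`, so it has at least `r` elements), and `own_circuit` gives at least `g` members `X'` of `NB1`
with `CX B X' = L`; they contain `L` (`CX_subset`), so they are on the line, so in `P` (`pts_hvy`). For different `L` these sets of `X'` are disjoint. So `g` times the number of I-lines in `basP` is at most `|P|`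
(`Finset.card_nsmul_le_card_of_...`, or `Finset.sum_card_...`/`Finset.card_eq_sum_card_fiberwise` for the map `X' -> CX B X'`); the same for the U-lines (`own_hyp`, `HX B X' = L`). Together `g |basP| <= 2 |P|`.
`card_small`: for `C = CX B X`, `card + 2 <= r`: at least `g^2/2` members `X'` of `NB1` with `CX B X' = C` (`own_circuit2`), all in `P` (`small_circuit_hvy`). `card_big`: `own_hyp2`, `big_hyp_hvy`. -/

open scoped BigOperators
open Filter

namespace Pool.Agent.H13.VM

open Pool.Agent.H28.Johnson

open Classical in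
private lemma D6c_count {n : ℕ} {S : Finset (Finset (Fin n))} {f : Finset (Fin n) → Finset (Fin n)}
    {T : Finset (Finset (Fin n))} {a k : ℕ}
    (h : ∀ t ∈ T, a ≤ k * (S.filter fun x => f x = t).card) : a * T.card ≤ k * S.card := by
  calc a * T.card = ∑ _t ∈ T, a := by rw [Finset.sum_const, smul_eq_mul, mul_comm]
    _ ≤ ∑ t ∈ T, k * (S.filter fun x => f x = t).card := Finset.sum_le_sum h
    _ = k * ∑ t ∈ T, (S.filter fun x => f x = t).card := by rw [Finset.mul_sum]
    _ = k * (T.biUnion fun t => S.filter fun x => f x = t).card := by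
        rw [Finset.card_biUnion]
        intro t _ t' _ hne
        rw [Function.onFun, Finset.disjoint_left]
        intro x hx hx'
        exact hne ((Finset.mem_filter.mp hx).2.symm.trans (Finset.mem_filter.mp hx').2)
    _ ≤ k * S.card := by
        refine Nat.mul_le_mul le_rfl (Finset.card_le_card ?_)
        intro x hx
        obtain ⟨t, _, hx⟩ := Finset.mem_biUnion.mp hx
        exact (Finset.mem_filter.mp hx).1

private lemma D6c_cardX {n r : ℕ} {B : Finset (Finset (Fin n))} {X : Finset (Fin n)}
    (hX : X ∈ NB1 r B) : X.card = r := (mem_NB.mp (mem_NB1.mp hX).1).1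

theorem card_basP {n r : ℕ} {B : Finset (Finset (Fin n))} (h : IsMat n r B) {g : ℕ} (hg : GG g B) :
    g * (basP r B).card ≤ 2 * (hvy r B).card := by
  classical
  have h1 : g * ((basP r B).filter fun L => L ∈ fullI r B).card ≤ 1 * (hvy r B).card := by
    refine D6c_count (f := fun X => CX B X) ?_
    intro L hL
    rw [Finset.mem_filter] at hL
    obtain ⟨hb, X0, hX0, hLX0⟩ := mem_basP.mp hL.1
    obtain ⟨hfull, X, hX, hXL⟩ := mem_bas.mp hb
    have hLc := (mem_fullI.mp hL.2).1
    have hC : CX B X = L := by
      rcases hXL with h2 | h2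
      · exact h2
      · exfalso
        have h3 := Finset.card_le_card (subset_HX B X)
        rw [h2, D6c_cardX hX] at h3
        omega
    have h4 := own_circuit h hg hX (by rw [hC]; omega)
    rw [hC] at h4
    rw [one_mul]
    refine h4.trans (Finset.card_le_card ?_)
    intro X' hX'
    rw [Finset.mem_filter] at hX' ⊢
    refine ⟨pts_hvy hfull hX0 hLX0 (D6c_cardX hX'.1) (Or.inl ?_), hX'.2⟩
    rw [← hX'.2]
    exact CX_subset B X'
  have h2 : g * ((basP r B).filter fun L => L ∈ fullU r B).card ≤ 1 * (hvy r B).card := by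
    refine D6c_count (f := fun X => HX B X) ?_
    intro L hL
    rw [Finset.mem_filter] at hL
    obtain ⟨hb, X0, hX0, hLX0⟩ := mem_basP.mp hL.1
    obtain ⟨hfull, X, hX, hXL⟩ := mem_bas.mp hb
    have hLc := (mem_fullU.mp hL.2).1
    have hC : HX B X = L := by
      rcases hXL with h2 | h2
      · exfalso
        have h3 := Finset.card_le_card (CX_subset B X)
        rw [h2, D6c_cardX hX] at h3
        omega
      · exact h2
    have h4 := own_hyp h hg hX (by rw [hC]; omega)
    rw [hC] at h4
    rw [one_mul]
    refine h4.trans (Finset.card_le_card ?_)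
    intro X' hX'
    rw [Finset.mem_filter] at hX' ⊢
    refine ⟨pts_hvy hfull hX0 hLX0 (D6c_cardX hX'.1) (Or.inr ?_), hX'.2⟩
    rw [← hX'.2]
    exact subset_HX B X'
  have h3 : (basP r B).card ≤ ((basP r B).filter fun L => L ∈ fullI r B).card +
      ((basP r B).filter fun L => L ∈ fullU r B).card := by
    refine le_trans (Finset.card_le_card ?_) (Finset.card_union_le _ _)
    intro L hL
    rw [Finset.mem_union, Finset.mem_filter, Finset.mem_filter]
    rcases mem_full.mp (mem_bas.mp (mem_basP.mp hL).1).1 with h4 | h4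
    · exact Or.inl ⟨hL, h4⟩
    · exact Or.inr ⟨hL, h4⟩
  calc g * (basP r B).card ≤ g * (((basP r B).filter fun L => L ∈ fullI r B).card +
      ((basP r B).filter fun L => L ∈ fullU r B).card) := Nat.mul_le_mul le_rfl h3
    _ = g * ((basP r B).filter fun L => L ∈ fullI r B).card +
        g * ((basP r B).filter fun L => L ∈ fullU r B).card := by rw [mul_add]
    _ ≤ 1 * (hvy r B).card + 1 * (hvy r B).card := Nat.add_le_add h1 h2
    _ = 2 * (hvy r B).card := by ring

open Classical in
theorem card_small {n r : ℕ} {B : Finset (Finset (Fin n))} (h : IsMat n r B) {g : ℕ} (hg : GG g B) :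
    g ^ 2 * (((NB1 r B).image fun X => CX B X).filter fun C => C.card + 2 ≤ r).card ≤
      2 * (hvy r B).card := by
  refine D6c_count (f := fun X => CX B X) ?_
  intro C hC
  rw [Finset.mem_filter, Finset.mem_image] at hC
  obtain ⟨⟨X, hX, hXC⟩, hc⟩ := hC
  have hXC' : CX B X = C := hXC
  have h4 := own_circuit2 h hg hX (by rw [hXC']; exact hc)
  rw [hXC'] at h4
  refine h4.trans (Nat.mul_le_mul le_rfl (Finset.card_le_card ?_))
  intro X' hX'
  rw [Finset.mem_filter] at hX' ⊢
  exact ⟨small_circuit_hvy h hX'.1 (by rw [hX'.2]; exact hc) (D6c_cardX hX'.1)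
    (CX_subset B X'), hX'.2⟩

open Classical in
theorem card_big {n r : ℕ} {B : Finset (Finset (Fin n))} (h : IsMat n r B) {g : ℕ} (hg : GG g B) :
    g ^ 2 * (((NB1 r B).image fun X => HX B X).filter fun H => r + 2 ≤ H.card).card ≤
      2 * (hvy r B).card := by
  refine D6c_count (f := fun X => HX B X) ?_
  intro C hC
  rw [Finset.mem_filter, Finset.mem_image] at hC
  obtain ⟨⟨X, hX, hXC⟩, hc⟩ := hC
  have hXC' : HX B X = C := hXC
  have h4 := own_hyp2 h hg hX (by rw [hXC']; exact hc)
  rw [hXC'] at h4
  refine h4.trans (Nat.mul_le_mul le_rfl (Finset.card_le_card ?_))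
  intro X' hX'
  rw [Finset.mem_filter] at hX' ⊢
  exact ⟨big_hyp_hvy h hX'.1 (by rw [hX'.2]; exact hc) (D6c_cardX hX'.1)
    (subset_HX B X'), hX'.2⟩

end Pool.Agent.H13.VM
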