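import Pool.Agent.H13.VM.D6b
import Pool.Agent.H13.VM.D6c

/-! # The lists are short (module D6d, proved by helper96)

The lists have at most `4 |P| n^(-1.09)` members each.

`p = n^(-0.1)`, `a = floor(sqrt n)` (`Nat.sqrt n`), `g = gg n = floor(n^0.99)`. For large `n`: `2 <= a`, `4 a + 8 <= g`, `a^2 <= n`, `n <= r^2` (`49 n <= 100 r`), `2 <= r`, and the error factor `e = (a+1)^2 (1-p)^(a-2) <= (a+1)^2 exp(-p (a-2)) <=
n^(-3)` (`p (a - 2) >= n^0.4 - 3`). `exists_list` gives `R`. With `s = |P|`: `|basP| <= 2 s / g <= 2.5 s n^(-0.99)` (`card_basP`; `g >= n^0.99 - 1`), so `|R| <= 2.5 s n^(-1.09) + (2.5 s n + s) n^(-3) <= 3 s n^(-1.09)`.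
`A1of` has at most `2 s / g^2 + |R| <= 3.2 s n^(-1.98) + 3 s n^(-1.09) <= 4 s n^(-1.09)` members (`card_small`, `Finset.card_union_le`, the filter of `R` is contained in `R`); the same for `A2of` (`card_big`). -/

open scoped BigOperators
open Filter

namespace Pool.Agent.H13.VM

open Pool.Agent.H28.Johnson

/-- the error factor -/
private lemma D6d_err {n : ℕ} (hn : 1 ≤ n)
    (hE : (n : ℝ) ^ 4 * Real.exp (-((n : ℝ) ^ (0.4 : ℝ))) ≤ 1 / (4 * Real.exp 3)) :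
    (((Nat.sqrt n : ℕ) : ℝ) + 1) ^ 2 * (1 - (n : ℝ) ^ (-0.1 : ℝ)) ^ (Nat.sqrt n - 2) ≤
      1 / (n : ℝ) ^ 3 := by
  have hn1 : (1 : ℝ) ≤ n := by exact_mod_cast hn
  have hn0 : (0 : ℝ) < n := by linarith
  set p : ℝ := (n : ℝ) ^ (-0.1 : ℝ) with hp
  have hp0 : 0 < p := Real.rpow_pos_of_pos hn0 _
  have hp1 : p ≤ 1 := Real.rpow_le_one_of_one_le_of_nonpos hn1 (by norm_num)
  set a := Nat.sqrt n with ha
  have ha1 : Real.sqrt n ≤ (a : ℝ) + 1 := by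
    have h1 : n < (a + 1) ^ 2 := Nat.lt_succ_sqrt' n
    have h2 : (n : ℝ) ≤ ((a : ℝ) + 1) ^ 2 := by exact_mod_cast h1.le
    exact Real.sqrt_le_iff.mpr ⟨by positivity, h2⟩
  have ha2 : (a : ℝ) ≤ Real.sqrt n := by
    have h1 : a ^ 2 ≤ n := Nat.sqrt_le' n
    have h2 : (a : ℝ) ^ 2 ≤ n := by exact_mod_cast h1
    exact Real.le_sqrt_of_sq_le h2
  have hs1 : (1 : ℝ) ≤ Real.sqrt n := Real.one_le_sqrt.mpr hn1
  have hsq : Real.sqrt n ^ 2 = n := Real.sq_sqrt hn0.le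
  have h1 : ((a : ℝ) + 1) ^ 2 ≤ 4 * n := by
    have : (a : ℝ) + 1 ≤ 2 * Real.sqrt n := by linarith
    calc ((a : ℝ) + 1) ^ 2 ≤ (2 * Real.sqrt n) ^ 2 := pow_le_pow_left₀ (by positivity) this 2
      _ = 4 * n := by rw [mul_pow, hsq]; norm_num
  have h2 : (1 - p) ^ (a - 2) ≤ Real.exp (-(p * ((a - 2 : ℕ) : ℝ))) := by
    have h3 : 1 - p ≤ Real.exp (-p) := by
      have := Real.add_one_le_exp (-p)
      linarith
    calc (1 - p) ^ (a - 2) ≤ (Real.exp (-p)) ^ (a - 2) := pow_le_pow_left₀ (by linarith) h3 _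
      _ = Real.exp (-(p * ((a - 2 : ℕ) : ℝ))) := by
        rw [← Real.exp_nat_mul]
        congr 1
        ring
  have h3 : (n : ℝ) ^ (0.4 : ℝ) - 3 ≤ p * ((a - 2 : ℕ) : ℝ) := by
    have h4 : Real.sqrt n - 3 ≤ ((a - 2 : ℕ) : ℝ) := by
      have h5 : (a : ℝ) ≤ ((a - 2 : ℕ) : ℝ) + 2 := by
        exact_mod_cast (by omega : a ≤ (a - 2) + 2)
      linarith
    have h6 : p * (Real.sqrt n - 3) ≤ p * ((a - 2 : ℕ) : ℝ) := mul_le_mul_of_nonneg_left h4 hp0.le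
    have h7 : p * Real.sqrt n = (n : ℝ) ^ (0.4 : ℝ) := by
      rw [hp, Real.sqrt_eq_rpow, ← Real.rpow_add hn0]
      norm_num
    have h8 : p * (Real.sqrt n - 3) = (n : ℝ) ^ (0.4 : ℝ) - 3 * p := by rw [← h7]; ring
    rw [h8] at h6
    linarith
  have h4 : (1 - p) ^ (a - 2) ≤ Real.exp 3 * Real.exp (-((n : ℝ) ^ (0.4 : ℝ))) := by
    rw [← Real.exp_add]
    refine h2.trans (Real.exp_le_exp.mpr ?_)
    linarith
  have h5 : ((a : ℝ) + 1) ^ 2 * (1 - p) ^ (a - 2) ≤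
      4 * n * (Real.exp 3 * Real.exp (-((n : ℝ) ^ (0.4 : ℝ)))) :=
    mul_le_mul h1 h4 (pow_nonneg (by linarith) _) (by positivity)
  refine h5.trans ?_
  rw [le_div_iff₀ (by positivity)]
  have h6 : 4 * n * (Real.exp 3 * Real.exp (-((n : ℝ) ^ (0.4 : ℝ)))) * (n : ℝ) ^ 3 =
      (4 * Real.exp 3) * ((n : ℝ) ^ 4 * Real.exp (-((n : ℝ) ^ (0.4 : ℝ)))) := by ring
  rw [h6]
  have h7 : (0 : ℝ) < 4 * Real.exp 3 := by positivity
  calc (4 * Real.exp 3) * ((n : ℝ) ^ 4 * Real.exp (-((n : ℝ) ^ (0.4 : ℝ))))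
      ≤ (4 * Real.exp 3) * (1 / (4 * Real.exp 3)) := mul_le_mul_of_nonneg_left hE h7.le
    _ = 1 := by rw [mul_one_div, div_self h7.ne']

private lemma D6d_ev {ε : ℝ} (hε : 0 < ε) :
    ∀ᶠ n : ℕ in atTop, (n : ℝ) ^ 4 * Real.exp (-((n : ℝ) ^ (0.4 : ℝ))) ≤ ε := by
  have h1 : Tendsto (fun n : ℕ => (n : ℝ) ^ (0.4 : ℝ)) atTop atTop :=
    (tendsto_rpow_atTop (by norm_num)).comp tendsto_natCast_atTop_atTop
  have h2 := (Real.tendsto_pow_mul_exp_neg_atTop_nhds_zero 10).comp h1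
  have h3 := h2.eventually_le_const hε
  refine h3.mono fun n hn => ?_
  refine le_trans (le_of_eq ?_) hn
  simp only [Function.comp]
  rw [← Real.rpow_natCast ((n : ℝ) ^ (0.4 : ℝ)), ← Real.rpow_mul (Nat.cast_nonneg _)]
  norm_num

/-- the final numbers -/
private lemma D6d_num {x s b R A g e : ℝ} (hx : 13 ≤ x ^ (0.49 : ℝ)) (hx1 : 1 ≤ x) (hs : 0 ≤ s)
    (hb0 : 0 ≤ b) (hg : x ^ (0.99 : ℝ) - 1 ≤ g) (hb : g * b ≤ 2 * s)
    (he : e ≤ 1 / x ^ 3) (hR : R ≤ x ^ (-0.1 : ℝ) * b + (x * b + s) * e)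
    (hA : g ^ 2 * A ≤ 2 * s) : A + R ≤ 4 * s * x ^ (-1.09 : ℝ) := by
  have hx0 : 0 < x := by linarith
  have e1 : ∀ c : ℝ, 0.49 ≤ c → 13 ≤ x ^ c := fun c hc =>
    hx.trans (Real.rpow_le_rpow_of_exponent_le hx1 hc)
  have h99 := e1 0.99 (by norm_num)
  have hg8 : 0.8 * x ^ (0.99 : ℝ) ≤ g := by linarith
  have hg0 : 0 < g := by linarith
  -- the number of basic lines
  have hxm : x ^ (0.99 : ℝ) * x ^ (-0.99 : ℝ) = 1 := by
    rw [← Real.rpow_add hx0]; norm_num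
  have hm0 : 0 < x ^ (-0.99 : ℝ) := Real.rpow_pos_of_pos hx0 _
  have hb1 : b ≤ 2.5 * s * x ^ (-0.99 : ℝ) := by
    have h1 : 0.8 * x ^ (0.99 : ℝ) * b ≤ 2 * s := (mul_le_mul_of_nonneg_right hg8 hb0).trans hb
    have h2 : x ^ (-0.99 : ℝ) * (0.8 * x ^ (0.99 : ℝ) * b) ≤ x ^ (-0.99 : ℝ) * (2 * s) :=
      mul_le_mul_of_nonneg_left h1 hm0.le
    have h3 : x ^ (-0.99 : ℝ) * (0.8 * x ^ (0.99 : ℝ) * b) =
        0.8 * b * (x ^ (0.99 : ℝ) * x ^ (-0.99 : ℝ)) := by ring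
    rw [h3, hxm] at h2
    linarith
  have hm1 : x ^ (-0.99 : ℝ) ≤ 1 := Real.rpow_le_one_of_one_le_of_nonpos hx1 (by norm_num)
  have hT0 : 0 < x ^ (-1.09 : ℝ) := Real.rpow_pos_of_pos hx0 _
  -- first term of R
  have r1 : x ^ (-0.1 : ℝ) * b ≤ 2.5 * s * x ^ (-1.09 : ℝ) := by
    have h1 : x ^ (-0.1 : ℝ) * b ≤ x ^ (-0.1 : ℝ) * (2.5 * s * x ^ (-0.99 : ℝ)) :=
      mul_le_mul_of_nonneg_left hb1 (Real.rpow_pos_of_pos hx0 _).le
    have h2 : x ^ (-1.09 : ℝ) = x ^ (-0.1 : ℝ) * x ^ (-0.99 : ℝ) := by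
      rw [← Real.rpow_add hx0]; norm_num
    rw [h2]
    linarith
  -- second term of R
  have hb2 : b ≤ 2.5 * s := by
    have : 2.5 * s * x ^ (-0.99 : ℝ) ≤ 2.5 * s * 1 :=
      mul_le_mul_of_nonneg_left hm1 (by positivity)
    linarith
  have r2 : (x * b + s) * e ≤ 0.5 * s * x ^ (-1.09 : ℝ) := by
    have h1 : x * b + s ≤ 3.5 * s * x := by
      have h2 : x * b ≤ x * (2.5 * s) := mul_le_mul_of_nonneg_left hb2 hx0.le
      have h3 : s ≤ s * x := le_mul_of_one_le_right hs hx1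
      linarith
    have h0 : 0 ≤ x * b + s := by positivity
    have h4 : (x * b + s) * e ≤ (x * b + s) * (1 / x ^ 3) := mul_le_mul_of_nonneg_left he h0
    have h5 : (x * b + s) * (1 / x ^ 3) ≤ (3.5 * s * x) * (1 / x ^ 3) :=
      mul_le_mul_of_nonneg_right h1 (by positivity)
    have h6 : (3.5 * s * x) * (1 / x ^ 3) = 0.5 * s * (7 * (1 / x ^ 2)) := by
      field_simp
      ring
    have h7 : 7 * (1 / x ^ 2) ≤ x ^ (-1.09 : ℝ) := by
      have h8 : 1 / x ^ 2 = x ^ (-2 : ℝ) := by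
        rw [Real.rpow_neg hx0.le, one_div]
        norm_num
      have h9 : x ^ (-1.09 : ℝ) = x ^ (0.91 : ℝ) * x ^ (-2 : ℝ) := by
        rw [← Real.rpow_add hx0]; norm_num
      rw [h8, h9]
      exact mul_le_mul_of_nonneg_right (by linarith [e1 0.91 (by norm_num)])
        (Real.rpow_pos_of_pos hx0 _).le
    have h10 : 0.5 * s * (7 * (1 / x ^ 2)) ≤ 0.5 * s * x ^ (-1.09 : ℝ) :=
      mul_le_mul_of_nonneg_left h7 (by positivity)
    linarith
  -- the small circuits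
  have r3 : A ≤ s * x ^ (-1.09 : ℝ) := by
    have hg2 : 0.64 * x ^ (1.98 : ℝ) ≤ g ^ 2 := by
      have h1 : (0.8 * x ^ (0.99 : ℝ)) ^ 2 ≤ g ^ 2 := pow_le_pow_left₀ (by positivity) hg8 2
      have h2 : (0.8 * x ^ (0.99 : ℝ)) ^ 2 = 0.64 * x ^ (1.98 : ℝ) := by
        rw [mul_pow, ← Real.rpow_natCast (x ^ (0.99 : ℝ)), ← Real.rpow_mul hx0.le]
        norm_num
      linarith
    have hg2' : 0 < g ^ 2 := by positivity
    have h3 : A ≤ 2 * s / g ^ 2 := by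
      rw [le_div_iff₀ hg2']
      linarith
    refine h3.trans ?_
    rw [div_le_iff₀ hg2']
    have h4 : 2 * s ≤ s * x ^ (-1.09 : ℝ) * (0.64 * x ^ (1.98 : ℝ)) := by
      have h5 : x ^ (-1.09 : ℝ) * x ^ (1.98 : ℝ) = x ^ (0.89 : ℝ) := by
        rw [← Real.rpow_add hx0]; norm_num
      have h6 : s * x ^ (-1.09 : ℝ) * (0.64 * x ^ (1.98 : ℝ)) = s * (0.64 * x ^ (0.89 : ℝ)) := by
        rw [← h5]; ring
      rw [h6]
      have h7 := e1 0.89 (by norm_num)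
      have : s * 2 ≤ s * (0.64 * x ^ (0.89 : ℝ)) := mul_le_mul_of_nonneg_left (by linarith) hs
      linarith
    exact h4.trans (mul_le_mul_of_nonneg_left hg2 (by positivity))
  linarith

theorem lists_small : ∀ᶠ n : ℕ in atTop, ∀ r : ℕ, Cen n r → ∀ B : Finset (Finset (Fin n)),
    IsMat n r B → GG (gg n) B → ∃ R : Finset (Finset (Fin n)), LL (gg n) r B R ∧
      ((A1of r B R).card : ℝ) ≤ 4 * (hvy r B).card * (n : ℝ) ^ (-1.09 : ℝ) ∧
      ((A2of r B R).card : ℝ) ≤ 4 * (hvy r B).card * (n : ℝ) ^ (-1.09 : ℝ) := by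
  classical
  have e1 := D6d_ev (ε := 1 / (4 * Real.exp 3)) (by positivity)
  have e2 : ∀ᶠ n : ℕ in atTop, (13 : ℝ) ≤ (n : ℝ) ^ (0.49 : ℝ) :=
    ((tendsto_rpow_atTop (by norm_num)).comp tendsto_natCast_atTop_atTop).eventually_ge_atTop 13
  filter_upwards [e1, e2, eventually_ge_atTop 5] with n hE h13 hn5 r hC B hB hG
  have hn1 : (1 : ℝ) ≤ n := by exact_mod_cast (by omega : 1 ≤ n)
  have hn0 : (0 : ℝ) < n := by linarith
  have hgge : (n : ℝ) ^ (0.99 : ℝ) - 1 ≤ (gg n : ℝ) := (Nat.sub_one_lt_floor _).le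
  have hr : 49 * n ≤ 100 * r := hC.2.1
  have hr2 : 2 ≤ r := by omega
  have hnr : n ≤ r ^ 2 := by nlinarith
  have ha2 : 2 ≤ Nat.sqrt n := by
    rw [Nat.le_sqrt']
    omega
  have han : (Nat.sqrt n) ^ 2 ≤ n := Nat.sqrt_le' n
  have hag : 4 * Nat.sqrt n + 8 ≤ gg n := by
    have h1 : ((Nat.sqrt n : ℕ) : ℝ) ≤ Real.sqrt n := by
      have h2 : (((Nat.sqrt n : ℕ) : ℝ)) ^ 2 ≤ n := by exact_mod_cast han
      exact Real.le_sqrt_of_sq_le h2
    have hs1 : (1 : ℝ) ≤ Real.sqrt n := Real.one_le_sqrt.mpr hn1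
    have h3 : (n : ℝ) ^ (0.99 : ℝ) = Real.sqrt n * (n : ℝ) ^ (0.49 : ℝ) := by
      rw [Real.sqrt_eq_rpow, ← Real.rpow_add hn0]; norm_num
    have h4 : Real.sqrt n * 13 ≤ Real.sqrt n * (n : ℝ) ^ (0.49 : ℝ) :=
      mul_le_mul_of_nonneg_left h13 (Real.sqrt_nonneg _)
    have h5 : (4 * (Nat.sqrt n : ℕ) + 8 : ℝ) ≤ (gg n : ℝ) := by
      rw [h3] at hgge
      linarith
    exact_mod_cast h5
  obtain ⟨R, hL, hR⟩ := exists_list hB hG hr2 hnr ha2 hag han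
    (p := (n : ℝ) ^ (-0.1 : ℝ)) (Real.rpow_pos_of_pos hn0 _).le
    (Real.rpow_le_one_of_one_le_of_nonpos hn1 (by norm_num))
  have herr := D6d_err (by omega) hE
  have hbas : ((gg n : ℝ)) * ((basP r B).card : ℝ) ≤ 2 * ((hvy r B).card : ℝ) := by
    exact_mod_cast card_basP hB hG
  refine ⟨R, hL, ?_, ?_⟩
  · have hA := card_small hB hG
    have hA' : ((gg n : ℝ)) ^ 2 *
        (((((NB1 r B).image fun X => CX B X).filter fun C => C.card + 2 ≤ r).card : ℕ) : ℝ) ≤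
        2 * ((hvy r B).card : ℝ) := by
      exact_mod_cast hA
    have h1 := D6d_num h13 hn1 (Nat.cast_nonneg _) (Nat.cast_nonneg _) hgge hbas herr hR hA'
    refine le_trans ?_ h1
    have h2 := Finset.card_union_le (((NB1 r B).image fun X => CX B X).filter
      fun C => C.card + 2 ≤ r) (R.filter fun L => L.card + 1 = r)
    have h3 := Finset.card_filter_le R fun L => L.card + 1 = r
    have h4 : (A1of r B R).card ≤ (((NB1 r B).image fun X => CX B X).filter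
      fun C => C.card + 2 ≤ r).card + R.card := by
      rw [A1of]
      exact h2.trans (Nat.add_le_add_left h3 _)
    exact_mod_cast h4
  · have hA := card_big hB hG
    have hA' : ((gg n : ℝ)) ^ 2 *
        (((((NB1 r B).image fun X => HX B X).filter fun H => r + 2 ≤ H.card).card : ℕ) : ℝ) ≤
        2 * ((hvy r B).card : ℝ) := by
      exact_mod_cast hA
    have h1 := D6d_num h13 hn1 (Nat.cast_nonneg _) (Nat.cast_nonneg _) hgge hbas herr hR hA'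
    refine le_trans ?_ h1
    have h2 := Finset.card_union_le (((NB1 r B).image fun X => HX B X).filter
      fun H => r + 2 ≤ H.card) (R.filter fun L => L.card = r + 1)
    have h3 := Finset.card_filter_le R fun L => L.card = r + 1
    have h4 : (A2of r B R).card ≤ (((NB1 r B).image fun X => HX B X).filter
      fun H => r + 2 ≤ H.card).card + R.card := by
      rw [A2of]
      exact h2.trans (Nat.add_le_add_left h3 _)
    exact_mod_cast h4

end Pool.Agent.H13.VM
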