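import Pool.Agent.H13.VM.D4c
import Pool.Agent.H13.VM.D2c

/-! MODULE D7a (about 200 lines). THE COUNTING INEQUALITY.

Let `F = Finset (Fin n) -> Fin 3` (all label functions), `|F| = 3^(2^n)`. For `B` in `D` and `J = (J1, J2)` in `JM g r B (a B)` the number of `f` in `F` with `f u = lab r B J1 u` for all `u` in `J1 cup J2` is `3^(2^n - |J1 cup J2|)`
(`Fintype.card_pi` type argument: a function is free outside `J1 cup J2`; e.g. `Fintype.piFinset (fun u => if u in J1 cup J2 then {lab ..} else univ)`, `Fintype.card_piFinset`), which is `>= |F| (1/3)^(|J1| + |J2|)`. So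
`|F| * (left side) <=` the number of triples `(B, J, f)`. The map `(B, J, f) -> ((B cup hvy r B) \\ (J1 cup J2), f, A1of r B (R B), A2of r B (R B))` goes to `Mats n r x F x (sets with at most k members)^2` (`J_isMat`). It is injective: let two triples have
the same image. By `J_NB` (`J_sub`) the sets `KJ` are the same set `K`. By `Kn_complete` and `Kn_sound` (`JData` from `mem_JM`, `restC` is contained in `restP`): `X` in `hvy r B` iff `Kn r K f A1 A2 X`: so `hvy r B = hvy r B' = P`. `NB r B = (K \\ P) cup P`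
because `J` is contained in `P`, so `NB r B = NB r B'`, so `B = B'` (`B = Base n r \\ NB r B`). `J1 cup J2 = K cap P` is the same for both; `J2 = (J1 cup J2) cap restP`, `J1 = (J1 cup J2) \\ restP` (a member of `J1` is on an open line:
`JF1_line`, `mem_privs`). Conclude `|F| LHS <= m |F| k-sets^2` and divide by `|F|`. -/

open scoped BigOperators
open Filter

namespace Pool.Agent.H13.VM

open Pool.Agent.H28.Johnson

open Classical in
private lemma D7a_count {n : ℕ} (J : Finset (Finset (Fin n))) (l : Finset (Fin n) → Fin 3) :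
    ((Finset.univ.filter fun f : Finset (Fin n) → Fin 3 => ∀ u ∈ J, f u = l u).card : ℝ) =
      (Fintype.card (Finset (Fin n) → Fin 3) : ℝ) * ((1 : ℝ) / 3) ^ J.card := by
  have h1 : (Finset.univ.filter fun f : Finset (Fin n) → Fin 3 => ∀ u ∈ J, f u = l u) =
      Fintype.piFinset (fun u => if u ∈ J then {l u} else Finset.univ) := by
    ext f
    rw [Finset.mem_filter, Fintype.mem_piFinset]
    constructor
    · rintro ⟨_, h⟩ u
      by_cases hu : u ∈ J
      · rw [if_pos hu, Finset.mem_singleton]; exact h u hu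
      · rw [if_neg hu]; exact Finset.mem_univ _
    · intro h
      refine ⟨Finset.mem_univ _, fun u hu => ?_⟩
      have := h u
      rw [if_pos hu, Finset.mem_singleton] at this
      exact this
  rw [h1, Fintype.card_piFinset]
  have h2 : ∀ u : Finset (Fin n),
      (if u ∈ J then ({l u} : Finset (Fin 3)) else Finset.univ).card = if u ∈ J then 1 else 3 := by
    intro u
    split_ifs
    · exact Finset.card_singleton _
    · rfl
  rw [Finset.prod_congr rfl fun u _ => h2 u]
  push_cast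
  have h3 : ∀ u : Finset (Fin n), (if u ∈ J then (1 : ℝ) else 3) =
      3 * (if u ∈ J then (1 / 3 : ℝ) else 1) := by
    intro u
    split_ifs <;> norm_num
  rw [Finset.prod_congr rfl fun u _ => h3 u, Finset.prod_mul_distrib, Finset.prod_ite_mem,
    Finset.univ_inter, Finset.prod_const, Finset.prod_const, Finset.card_univ, Fintype.card_fun,
    Fintype.card_fin]
  push_cast
  ring

private lemma D7a_data {n r g a : ℕ} {B J1 J2 : Finset (Finset (Fin n))}
    {f : Finset (Fin n) → Fin 3} (hJ : (J1, J2) ∈ JM g r B a)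
    (hf : ∀ u ∈ J1 ∪ J2, f u = lab r B J1 u) : JData g r B J1 J2 f := by
  rw [mem_JM] at hJ
  exact ⟨hJ.1, fun u hu => (mem_restC.1 (hJ.2 hu)).1, hf⟩

/-- `P` is recovered -/
private lemma D7a_hvy {n r g a a' : ℕ} {B B' J1 J2 J1' J2' R R' : Finset (Finset (Fin n))}
    {f : Finset (Fin n) → Fin 3} (h : IsMat n r B) (h' : IsMat n r B')
    (hJ : (J1, J2) ∈ JM g r B a) (hJ' : (J1', J2') ∈ JM g r B' a')
    (hf : ∀ u ∈ J1 ∪ J2, f u = lab r B J1 u) (hf' : ∀ u ∈ J1' ∪ J2', f u = lab r B' J1' u)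
    (hL : LL g r B R) (hL' : LL g r B' R') (hK : KJ r B (J1 ∪ J2) = KJ r B' (J1' ∪ J2'))
    (h1 : A1of r B R = A1of r B' R') (h2 : A2of r B R = A2of r B' R') :
    hvy r B ⊆ hvy r B' := by
  intro X hX
  have h3 := Kn_complete h (D7a_data hJ hf) hL hX
  rw [hK, h1, h2] at h3
  exact (Kn_sound h' (D7a_data hJ' hf') hL'.sub h3).1

private lemma D7a_NB {n r : ℕ} {B J : Finset (Finset (Fin n))} (hJ : J ⊆ hvy r B) :
    NB r B = (KJ r B J \ hvy r B) ∪ hvy r B := by
  ext X
  rw [Finset.mem_union, Finset.mem_sdiff, mem_KJ]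
  constructor
  · intro h
    by_cases hX : X ∈ hvy r B
    · exact Or.inr hX
    · exact Or.inl ⟨Or.inl ⟨h, hX⟩, hX⟩
  · rintro (⟨h | h, h'⟩ | h)
    · exact h.1
    · exact absurd (hJ h) h'
    · exact (mem_hvy.1 h).1

private lemma D7a_base {n r : ℕ} {B B' : Finset (Finset (Fin n))} (h : IsMat n r B)
    (h' : IsMat n r B') (hN : NB r B = NB r B') : B = B' := by
  have key : ∀ {C C' : Finset (Finset (Fin n))}, IsMat n r C → NB r C = NB r C' → C ⊆ C' := by
    intro C C' hC hN X hX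
    by_contra hX'
    have h1 : X ∈ NB r C' := mem_NB.2 ⟨hC.card_eq hX, hX'⟩
    rw [← hN] at h1
    exact (mem_NB.1 h1).2 hX
  exact Finset.Subset.antisymm (key h hN) (key h' hN.symm)

private lemma D7a_J {n r : ℕ} {B J : Finset (Finset (Fin n))} (hJ : J ⊆ hvy r B) :
    J = KJ r B J ∩ hvy r B := by
  ext X
  rw [Finset.mem_inter, mem_KJ]
  constructor
  · intro h
    exact ⟨Or.inr h, hJ h⟩
  · rintro ⟨h | h, h'⟩
    · exact absurd h' h.2
    · exact h

private lemma D7a_J1 {n r g a : ℕ} {B J1 J2 : Finset (Finset (Fin n))}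
    (hJ : (J1, J2) ∈ JM g r B a) :
    J1 = (J1 ∪ J2) \ restP g r B ∧ J2 = (J1 ∪ J2) ∩ restP g r B := by
  rw [mem_JM] at hJ
  have h1 : ∀ u ∈ J1, u ∉ restP g r B := by
    intro u hu hr
    obtain ⟨L, hL, hp, _⟩ := JF1_line hJ.1 hu
    exact (mem_restP.1 hr).2 L hL (mem_privs.1 hp).1.2
  have h2 : ∀ u ∈ J2, u ∈ restP g r B := fun u hu => (mem_restC.1 (hJ.2 hu)).1
  constructor
  · ext u
    rw [Finset.mem_sdiff, Finset.mem_union]
    constructor
    · intro h
      exact ⟨Or.inl h, h1 u h⟩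
    · rintro ⟨h | h, h'⟩
      · exact h
      · exact absurd (h2 u h) h'
  · ext u
    rw [Finset.mem_inter, Finset.mem_union]
    constructor
    · intro h
      exact ⟨Or.inr h, h2 u h⟩
    · rintro ⟨h | h, h'⟩
      · exact absurd h' (h1 u h)
      · exact h

open Classical in
theorem heavy_count {n r g k : ℕ} (hr : 1 ≤ r) (hrn : r < n)
    (D : Finset (Finset (Finset (Fin n)))) (hD : ∀ B ∈ D, IsMat n r B)
    (R : Finset (Finset (Fin n)) → Finset (Finset (Fin n))) (hR : ∀ B ∈ D, LL g r B (R B))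
    (hk : ∀ B ∈ D, (A1of r B (R B)).card ≤ k ∧ (A2of r B (R B)).card ≤ k)
    (a : Finset (Finset (Fin n)) → ℕ) :
    ∑ B ∈ D, ∑ J ∈ JM g r B (a B), ((1 : ℝ) / 3) ^ (J.1.card + J.2.card) ≤
      (Mats n r).card *
        ((Finset.univ.filter fun A : Finset (Finset (Fin n)) => A.card ≤ k).card : ℝ) ^ 2 := by
  set Q : Finset (Finset (Finset (Fin n))) :=
    Finset.univ.filter fun A : Finset (Finset (Fin n)) => A.card ≤ k with hQ
  set FF : ℝ := (Fintype.card (Finset (Fin n) → Fin 3) : ℝ) with hFF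
  have hFpos : 0 < FF := by
    rw [hFF]
    exact_mod_cast Fintype.card_pos
  let S := D.sigma fun B => (JM g r B (a B)).sigma fun J =>
    Finset.univ.filter fun f : Finset (Fin n) → Fin 3 => ∀ u ∈ J.1 ∪ J.2, f u = lab r B J.1 u
  have hS : FF * ∑ B ∈ D, ∑ J ∈ JM g r B (a B), ((1 : ℝ) / 3) ^ (J.1.card + J.2.card) ≤
      (S.card : ℝ) := by
    have h1 : S.card = ∑ B ∈ D, ∑ J ∈ JM g r B (a B),
        (Finset.univ.filter fun f : Finset (Fin n) → Fin 3 =>
          ∀ u ∈ J.1 ∪ J.2, f u = lab r B J.1 u).card := by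
      rw [Finset.card_sigma]
      refine Finset.sum_congr rfl fun B _ => ?_
      rw [Finset.card_sigma]
    rw [h1]
    push_cast
    rw [Finset.mul_sum]
    refine Finset.sum_le_sum fun B _ => ?_
    rw [Finset.mul_sum]
    refine Finset.sum_le_sum fun J _ => ?_
    have h2 := D7a_count (J.1 ∪ J.2) (fun u => lab r B J.1 u)
    rw [h2]
    refine mul_le_mul_of_nonneg_left ?_ hFpos.le
    exact pow_le_pow_of_le_one (by norm_num) (by norm_num) (Finset.card_union_le _ _)
  have hT : S.card ≤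
      ((Mats n r) ×ˢ ((Finset.univ : Finset (Finset (Fin n) → Fin 3)) ×ˢ (Q ×ˢ Q))).card := by
    refine Finset.card_le_card_of_injOn
      (fun t => ((t.1 ∪ hvy r t.1) \ (t.2.1.1 ∪ t.2.1.2), t.2.2, A1of r t.1 (R t.1),
        A2of r t.1 (R t.1))) ?_ ?_
    · rintro ⟨B, ⟨J1, J2⟩, f⟩ ht
      rw [Finset.mem_coe, Finset.mem_sigma, Finset.mem_sigma, Finset.mem_filter] at ht
      obtain ⟨hB, hJ, -, hf⟩ := ht
      simp only at hB hJ hf
      have hJ' := mem_JM.1 hJ
      rw [Finset.mem_coe, Finset.mem_product, Finset.mem_product, Finset.mem_product]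
      refine ⟨mem_Mats.2 (J_isMat (hD B hB) hr hrn hJ'.1 hJ'.2), Finset.mem_univ _, ?_, ?_⟩
      · exact Finset.mem_filter.2 ⟨Finset.mem_univ _, (hk B hB).1⟩
      · exact Finset.mem_filter.2 ⟨Finset.mem_univ _, (hk B hB).2⟩
    · rintro ⟨B, ⟨J1, J2⟩, f⟩ ht ⟨B', ⟨J1', J2'⟩, f'⟩ ht' heq
      rw [Finset.mem_coe, Finset.mem_sigma, Finset.mem_sigma, Finset.mem_filter] at ht ht'
      obtain ⟨hB, hJ, -, hf⟩ := ht
      obtain ⟨hB', hJ', -, hf'⟩ := ht'
      simp only at hB hJ hf hB' hJ' hf'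
      simp only [Prod.mk.injEq] at heq
      obtain ⟨e1, e2, e3, e4⟩ := heq
      subst e2
      have hJm := mem_JM.1 hJ
      have hJm' := mem_JM.1 hJ'
      have hsub := J_sub hJm.1 hJm.2
      have hsub' := J_sub hJm'.1 hJm'.2
      have hK : KJ r B (J1 ∪ J2) = KJ r B' (J1' ∪ J2') := by
        rw [← J_NB (hD B hB) hsub, ← J_NB (hD B' hB') hsub', e1]
      have hP : hvy r B = hvy r B' := Finset.Subset.antisymm
        (D7a_hvy (hD B hB) (hD B' hB') hJ hJ' hf hf' (hR B hB) (hR B' hB') hK e3 e4)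
        (D7a_hvy (hD B' hB') (hD B hB) hJ' hJ hf' hf (hR B' hB') (hR B hB) hK.symm e3.symm
          e4.symm)
      have hN : NB r B = NB r B' := by
        rw [D7a_NB hsub, D7a_NB hsub', hK, hP]
      have hBB := D7a_base (hD B hB) (hD B' hB') hN
      subst hBB
      have hJJ : J1 ∪ J2 = J1' ∪ J2' := by
        rw [D7a_J hsub, D7a_J hsub', hK]
      have hj := D7a_J1 hJ
      have hj' := D7a_J1 hJ'
      have hj1 : J1 = J1' := by rw [hj.1, hj'.1, hJJ]
      have hj2 : J2 = J2' := by rw [hj.2, hj'.2, hJJ]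
      subst hj1 hj2
      rfl
  have hcard : (((Mats n r) ×ˢ
      ((Finset.univ : Finset (Finset (Fin n) → Fin 3)) ×ˢ (Q ×ˢ Q))).card : ℝ) =
      FF * ((Mats n r).card * (Q.card : ℝ) ^ 2) := by
    rw [Finset.card_product, Finset.card_product, Finset.card_product, Finset.card_univ]
    push_cast
    rw [hFF]
    ring
  have hfin : FF * ∑ B ∈ D, ∑ J ∈ JM g r B (a B), ((1 : ℝ) / 3) ^ (J.1.card + J.2.card) ≤
      FF * ((Mats n r).card * (Q.card : ℝ) ^ 2) := by
    refine hS.trans ?_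
    rw [← hcard]
    exact_mod_cast hT
  exact le_of_mul_le_mul_left hfin hFpos

end Pool.Agent.H13.VM
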