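import Pool.Agent.H13.VM.DDefs

/-! MODULE D7b (about 50 lines). Number of sets with at most `k` elements (no matroids): for `0 < x <= 1`,
`#{A : |A| <= k} <= sum over all A of x^(|A| - k) = x^(-k) (1 + x)^M <= exp(k log(1/x) + x M)`, `M` the number of points (`Finset.sum_pow_mul_eq_add_pow` or `Finset.prod_one_add`; `1 + x <= exp x`). -/

open scoped BigOperators
open Filter

namespace Pool.Agent.H13.VM

open Pool.Agent.H28.Johnson

open Classical in
theorem few_lists {α : Type*} [Fintype α] (k : ℕ) {x : ℝ} (hx0 : 0 < x) (hx1 : x ≤ 1) :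
    ((Finset.univ.filter fun A : Finset α => A.card ≤ k).card : ℝ) ≤
      Real.exp (k * Real.log (1 / x) + x * Fintype.card α) := by
  have hxk : 0 < x ^ k := pow_pos hx0 k
  -- the weighted sum
  have h1 : ∑ s : Finset α, x ^ s.card = (1 + x) ^ Fintype.card α := by
    have h := Fintype.sum_pow_mul_eq_add_pow α x 1
    rw [add_comm 1 x, ← h]
    refine Finset.sum_congr rfl fun s _ => ?_
    rw [one_pow, mul_one]
  have h2 : ((Finset.univ.filter fun A : Finset α => A.card ≤ k).card : ℝ) * x ^ k ≤
      (1 + x) ^ Fintype.card α := by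
    rw [← h1]
    calc ((Finset.univ.filter fun A : Finset α => A.card ≤ k).card : ℝ) * x ^ k
        = ∑ _A ∈ Finset.univ.filter fun A : Finset α => A.card ≤ k, x ^ k := by
          rw [Finset.sum_const, nsmul_eq_mul]
      _ ≤ ∑ A ∈ Finset.univ.filter fun A : Finset α => A.card ≤ k, x ^ A.card := by
          refine Finset.sum_le_sum fun A hA => ?_
          rw [Finset.mem_filter] at hA
          exact pow_le_pow_of_le_one hx0.le hx1 hA.2
      _ ≤ ∑ A : Finset α, x ^ A.card :=
          Finset.sum_le_sum_of_subset_of_nonneg (Finset.filter_subset _ _)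
            fun A _ _ => (pow_pos hx0 _).le
  have h3 : (1 + x) ^ Fintype.card α ≤ Real.exp (x * Fintype.card α) := by
    have h4 : 1 + x ≤ Real.exp x := by
      have := Real.add_one_le_exp x
      linarith
    calc (1 + x) ^ Fintype.card α ≤ Real.exp x ^ Fintype.card α :=
          pow_le_pow_left₀ (by linarith) h4 _
      _ = Real.exp (x * Fintype.card α) := by
          rw [← Real.exp_nat_mul, mul_comm]
  have h5 : Real.exp (k * Real.log (1 / x)) * x ^ k = 1 := by
    have h6 : x ^ k = Real.exp (k * Real.log x) := by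
      rw [Real.exp_nat_mul, Real.exp_log hx0]
    rw [h6, ← Real.exp_add, one_div, Real.log_inv]
    simp
  rw [Real.exp_add]
  have h7 : Real.exp (k * Real.log (1 / x)) * Real.exp (x * Fintype.card α) * x ^ k =
      Real.exp (x * Fintype.card α) := by
    calc _ = (Real.exp (k * Real.log (1 / x)) * x ^ k) * Real.exp (x * Fintype.card α) := by ring
      _ = _ := by rw [h5, one_mul]
  refine le_of_mul_le_mul_right ?_ hxk
  rw [h7]
  exact h2.trans h3

end Pool.Agent.H13.VM
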