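import Pool.Agent.H13.VM.D6d
import Pool.Agent.H13.VM.D7a
import Pool.Agent.H13.VM.D7b
import Pool.Agent.H13.VM.D2d

/-! MODULE D7c (about 150 lines). One value of `|P|`. Here `s0 n r = N 2^(-n^0.05)`, `N = n.choose r`.

Let `D` = the `B` in `Mats n r` with `GG (gg n) B` and `|hvy r B| = s`. `lists_small` gives `R B`, `k = floor(4 s n^(-1.09))`; `J_sum` (`12 <= gg n`) gives `a B` with the sum over `J` at least `2^(0.4 s/n)`. `heavy_count`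
(`1 <= r < n` from `Cen`): `|D| 2^(0.4 s/n) <= m Q^2`, `Q` the number of sets `A` of subsets of `Fin n` with at most `k` members. `few_lists` with `x = 2^(-n^0.06)`, `|Finset (Fin n)| = 2^n`: `log Q <= k n^0.06 log 2 + 2^(-n^0.06) 2^n`.
Since `s >= N 2^(-n^0.05) >= 2^n n^(-3) 2^(-n^0.05)` (`Cen`): `2^(-n^0.06) 2^n <= s n^3 2^(n^0.05 - n^0.06) <= s n^(-3)` for large `n`. So
`2 log Q <= 8 s n^(-1.03) log 2 + 2 s n^(-3) <= 0.1 (log 2) s/n` for large `n`. So `|D| <= m 2^(-0.3 s/n)`. -/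

open scoped BigOperators
open Filter

namespace Pool.Agent.H13.VM

open Pool.Agent.H28.Johnson

/-- large `n`: `n^(-0.03)` is small -/
private lemma D7c_E1 : ∀ᶠ n : ℕ in atTop, 8 * (n : ℝ) ^ (-0.03 : ℝ) ≤ 0.05 := by
  have h := (tendsto_rpow_neg_atTop (by norm_num : (0 : ℝ) < 0.03)).comp
    tendsto_natCast_atTop_atTop
  have h2 := h.eventually_le_const (show (0 : ℝ) < 0.05 / 8 by norm_num)
  filter_upwards [h2] with n hn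
  simp only [Function.comp_apply] at hn
  linarith

/-- large `n`: `2 * 2^(-n^0.06) n^4` is much smaller than `2^(-n^0.05)` -/
private lemma D7c_E2 : ∀ᶠ n : ℕ in atTop, 2 * (2 : ℝ) ^ (-((n : ℝ) ^ (0.06 : ℝ))) * (n : ℝ) ^ 4 ≤
    0.05 * Real.log 2 * (2 : ℝ) ^ (-((n : ℝ) ^ (0.05 : ℝ))) := by
  have hl2 : 0 < Real.log 2 := Real.log_pos (by norm_num)
  have h06 : Tendsto (fun n : ℕ => (n : ℝ) ^ (0.06 : ℝ)) atTop atTop :=
    (tendsto_rpow_atTop (by norm_num : (0 : ℝ) < 0.06)).comp tendsto_natCast_atTop_atTop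
  have h01 : Tendsto (fun n : ℕ => (n : ℝ) ^ (0.01 : ℝ)) atTop atTop :=
    (tendsto_rpow_atTop (by norm_num : (0 : ℝ) < 0.01)).comp tendsto_natCast_atTop_atTop
  have h := (tendsto_rpow_mul_exp_neg_mul_atTop_nhds_zero (200 / 3) (Real.log 2 / 2)
    (by positivity)).comp h06
  have h2 := h.eventually_le_const (show (0 : ℝ) < 0.05 * Real.log 2 / 2 by positivity)
  filter_upwards [h2, h01.eventually_ge_atTop 2, eventually_ge_atTop 1] with n hn hn2 hn1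
  simp only [Function.comp_apply] at hn
  have hn0 : (0 : ℝ) < n := by exact_mod_cast hn1
  have e1 : ((n : ℝ) ^ (0.06 : ℝ)) ^ ((200 : ℝ) / 3) = (n : ℝ) ^ 4 := by
    rw [← Real.rpow_mul hn0.le]
    norm_num
  rw [e1] at hn
  have e2 : (n : ℝ) ^ (0.06 : ℝ) = (n : ℝ) ^ (0.05 : ℝ) * (n : ℝ) ^ (0.01 : ℝ) := by
    rw [← Real.rpow_add hn0]
    norm_num
  have h05 : 0 ≤ (n : ℝ) ^ (0.05 : ℝ) := by positivity
  have e3 : 2 * (n : ℝ) ^ (0.05 : ℝ) ≤ (n : ℝ) ^ (0.06 : ℝ) := by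
    rw [e2]
    nlinarith
  have e4 : (2 : ℝ) ^ (-((n : ℝ) ^ (0.06 : ℝ))) ≤
      Real.exp (-(Real.log 2 / 2) * (n : ℝ) ^ (0.06 : ℝ)) *
        (2 : ℝ) ^ (-((n : ℝ) ^ (0.05 : ℝ))) := by
    have t : ∀ x : ℝ, (2 : ℝ) ^ x = Real.exp (Real.log 2 * x) := fun x =>
      Real.rpow_def_of_pos (by norm_num) x
    rw [t, t, ← Real.exp_add]
    apply Real.exp_le_exp.mpr
    nlinarith
  have h0 : (0 : ℝ) < (2 : ℝ) ^ (-((n : ℝ) ^ (0.05 : ℝ))) := by positivity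
  have h4 : (0 : ℝ) ≤ (n : ℝ) ^ 4 := by positivity
  calc 2 * (2 : ℝ) ^ (-((n : ℝ) ^ (0.06 : ℝ))) * (n : ℝ) ^ 4
      ≤ 2 * (Real.exp (-(Real.log 2 / 2) * (n : ℝ) ^ (0.06 : ℝ)) *
        (2 : ℝ) ^ (-((n : ℝ) ^ (0.05 : ℝ)))) * (n : ℝ) ^ 4 := by gcongr
    _ = 2 * ((n : ℝ) ^ 4 * Real.exp (-(Real.log 2 / 2) * (n : ℝ) ^ (0.06 : ℝ))) *
        (2 : ℝ) ^ (-((n : ℝ) ^ (0.05 : ℝ))) := by ring
    _ ≤ 2 * (0.05 * Real.log 2 / 2) * (2 : ℝ) ^ (-((n : ℝ) ^ (0.05 : ℝ))) := by gcongr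
    _ = 0.05 * Real.log 2 * (2 : ℝ) ^ (-((n : ℝ) ^ (0.05 : ℝ))) := by ring

private lemma D7c_gg : ∀ᶠ n : ℕ in atTop, 12 ≤ gg n := by
  have h := (tendsto_rpow_atTop (by norm_num : (0 : ℝ) < 0.99)).comp tendsto_natCast_atTop_atTop
  filter_upwards [h.eventually_ge_atTop (12 : ℝ)] with n hn
  simp only [Function.comp_apply] at hn
  exact Nat.le_floor (by exact_mod_cast hn)

/-- `Cen`: `s0 n r / n` is at least `2^n n^(-4) 2^(-n^0.05)` -/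
lemma D7c_s0 {n r : ℕ} (_hn : 1 ≤ n) (hc : Cen n r) :
    (2 : ℝ) ^ n * (2 : ℝ) ^ (-((n : ℝ) ^ (0.05 : ℝ))) ≤ s0 n r * (n : ℝ) ^ 3 := by
  have h1 : (2 : ℝ) ^ n ≤ (n : ℝ) ^ 3 * (n.choose r : ℝ) := by exact_mod_cast hc.1
  have h0 : (0 : ℝ) < (2 : ℝ) ^ (-((n : ℝ) ^ (0.05 : ℝ))) := by positivity
  unfold s0
  nlinarith

/-- the exponent estimate -/
private lemma D7c_num {n r s k : ℕ} (hn1 : 1 ≤ n) (hc : Cen n r)
    (h1 : 8 * (n : ℝ) ^ (-0.03 : ℝ) ≤ 0.05)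
    (h2 : 2 * (2 : ℝ) ^ (-((n : ℝ) ^ (0.06 : ℝ))) * (n : ℝ) ^ 4 ≤
      0.05 * Real.log 2 * (2 : ℝ) ^ (-((n : ℝ) ^ (0.05 : ℝ)))) (hs : s0 n r ≤ s)
    (hk : (k : ℝ) ≤ 4 * s * (n : ℝ) ^ (-1.09 : ℝ)) :
    2 * ((k : ℝ) * Real.log (1 / (2 : ℝ) ^ (-((n : ℝ) ^ (0.06 : ℝ)))) +
      (2 : ℝ) ^ (-((n : ℝ) ^ (0.06 : ℝ))) * (2 : ℝ) ^ n) ≤ Real.log 2 * (0.1 * s / n) := by
  have hl2 : 0 < Real.log 2 := Real.log_pos (by norm_num)
  have hn0 : (0 : ℝ) < n := by exact_mod_cast hn1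
  have hs0 : (0 : ℝ) ≤ s := Nat.cast_nonneg s
  have e1 : Real.log (1 / (2 : ℝ) ^ (-((n : ℝ) ^ (0.06 : ℝ)))) =
      (n : ℝ) ^ (0.06 : ℝ) * Real.log 2 := by
    rw [one_div, ← Real.rpow_neg (by norm_num), neg_neg, Real.log_rpow (by norm_num)]
  rw [e1]
  -- first part
  have p1 : 2 * ((k : ℝ) * ((n : ℝ) ^ (0.06 : ℝ) * Real.log 2)) ≤
      Real.log 2 * (0.05 * s / n) := by
    have h06 : (0 : ℝ) ≤ (n : ℝ) ^ (0.06 : ℝ) := by positivity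
    have e2 : (n : ℝ) ^ (-1.09 : ℝ) * (n : ℝ) ^ (0.06 : ℝ) = (n : ℝ) ^ (-0.03 : ℝ) / n := by
      rw [← Real.rpow_add hn0]
      rw [eq_div_iff hn0.ne']
      nth_rewrite 2 [← Real.rpow_one (n : ℝ)]
      rw [← Real.rpow_add hn0]
      norm_num
    calc 2 * ((k : ℝ) * ((n : ℝ) ^ (0.06 : ℝ) * Real.log 2))
        ≤ 2 * ((4 * s * (n : ℝ) ^ (-1.09 : ℝ)) * ((n : ℝ) ^ (0.06 : ℝ) * Real.log 2)) := by
          gcongr
      _ = Real.log 2 * (s * (8 * ((n : ℝ) ^ (-1.09 : ℝ) * (n : ℝ) ^ (0.06 : ℝ)))) := by ring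
      _ = Real.log 2 * (s * (8 * (n : ℝ) ^ (-0.03 : ℝ)) / n) := by rw [e2]; ring
      _ ≤ Real.log 2 * (s * 0.05 / n) := by gcongr
      _ = Real.log 2 * (0.05 * s / n) := by ring
  have p2 : 2 * ((2 : ℝ) ^ (-((n : ℝ) ^ (0.06 : ℝ))) * (2 : ℝ) ^ n) ≤
      Real.log 2 * (0.05 * s / n) := by
    have q1 := D7c_s0 hn1 hc
    have q2 : (2 : ℝ) ^ n * (2 : ℝ) ^ (-((n : ℝ) ^ (0.05 : ℝ))) ≤ s * (n : ℝ) ^ 3 :=
      q1.trans (by gcongr)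
    have hne : (0 : ℝ) < (n : ℝ) ^ 4 := by positivity
    have q3 : 2 * ((2 : ℝ) ^ (-((n : ℝ) ^ (0.06 : ℝ))) * (2 : ℝ) ^ n) * (n : ℝ) ^ 4 ≤
        (Real.log 2 * (0.05 * s / n)) * (n : ℝ) ^ 4 := by
      calc 2 * ((2 : ℝ) ^ (-((n : ℝ) ^ (0.06 : ℝ))) * (2 : ℝ) ^ n) * (n : ℝ) ^ 4
          = (2 * (2 : ℝ) ^ (-((n : ℝ) ^ (0.06 : ℝ))) * (n : ℝ) ^ 4) * (2 : ℝ) ^ n := by ring
        _ ≤ (0.05 * Real.log 2 * (2 : ℝ) ^ (-((n : ℝ) ^ (0.05 : ℝ)))) * (2 : ℝ) ^ n := by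
            gcongr
        _ = 0.05 * Real.log 2 * ((2 : ℝ) ^ n * (2 : ℝ) ^ (-((n : ℝ) ^ (0.05 : ℝ)))) := by ring
        _ ≤ 0.05 * Real.log 2 * (s * (n : ℝ) ^ 3) := by gcongr
        _ = (Real.log 2 * (0.05 * s / n)) * (n : ℝ) ^ 4 := by
            field_simp
    exact le_of_mul_le_mul_right q3 hne
  calc 2 * ((k : ℝ) * ((n : ℝ) ^ (0.06 : ℝ) * Real.log 2) +
      (2 : ℝ) ^ (-((n : ℝ) ^ (0.06 : ℝ))) * (2 : ℝ) ^ n)
      = 2 * ((k : ℝ) * ((n : ℝ) ^ (0.06 : ℝ) * Real.log 2)) +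
        2 * ((2 : ℝ) ^ (-((n : ℝ) ^ (0.06 : ℝ))) * (2 : ℝ) ^ n) := by ring
    _ ≤ Real.log 2 * (0.05 * s / n) + Real.log 2 * (0.05 * s / n) := add_le_add p1 p2
    _ = Real.log 2 * (0.1 * s / n) := by ring

open Classical in
theorem heavy_s : ∀ᶠ n : ℕ in atTop, ∀ r : ℕ, Cen n r → ∀ s : ℕ, s0 n r ≤ s →
    (((Mats n r).filter fun B => GG (gg n) B ∧ (hvy r B).card = s).card : ℝ) ≤
      (2 : ℝ) ^ (-(0.3 : ℝ) * s / n) * (Mats n r).card := by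
  filter_upwards [lists_small, D7c_E1, D7c_E2, D7c_gg, eventually_ge_atTop 3] with n hL h1 h2 hg hn3
  intro r hc s hs
  have hn1 : 1 ≤ n := by omega
  have hn0 : (0 : ℝ) < n := by exact_mod_cast hn1
  have hr : 1 ≤ r := by have := hc.2.1; omega
  have hrn : r < n := by have := hc.2.2; omega
  set D := (Mats n r).filter fun B => GG (gg n) B ∧ (hvy r B).card = s with hDdef
  have hDm : ∀ B ∈ D, IsMat n r B ∧ GG (gg n) B ∧ (hvy r B).card = s := by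
    intro B hB
    rw [hDdef, Finset.mem_filter] at hB
    exact ⟨mem_Mats.mp hB.1, hB.2.1, hB.2.2⟩
  have hR1 : ∀ B : Finset (Finset (Fin n)), ∃ R : Finset (Finset (Fin n)), B ∈ D →
      (LL (gg n) r B R ∧
      ((A1of r B R).card : ℝ) ≤ 4 * (hvy r B).card * (n : ℝ) ^ (-1.09 : ℝ) ∧
      ((A2of r B R).card : ℝ) ≤ 4 * (hvy r B).card * (n : ℝ) ^ (-1.09 : ℝ)) := by
    intro B
    by_cases hB : B ∈ D
    · obtain ⟨R, hR⟩ := hL r hc B (hDm B hB).1 (hDm B hB).2.1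
      exact ⟨R, fun _ => hR⟩
    · exact ⟨∅, fun h => absurd h hB⟩
  choose R hR using hR1
  have hA : ∀ B : Finset (Finset (Fin n)), ∃ a : ℕ,
      (2 : ℝ) ^ ((0.4 : ℝ) * (hvy r B).card / n) ≤
      ∑ J ∈ JM (gg n) r B a, ((1 : ℝ) / 3) ^ (J.1.card + J.2.card) :=
    fun B => J_sum r B hn1 hg
  choose a ha using hA
  set k := ⌊4 * (s : ℝ) * (n : ℝ) ^ (-1.09 : ℝ)⌋₊ with hk
  have hcount := heavy_count (g := gg n) (k := k) hr hrn D (fun B hB => (hDm B hB).1) R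
    (fun B hB => (hR B hB).1) (fun B hB => ⟨Nat.le_floor (by
      have := (hR B hB).2.1; rw [(hDm B hB).2.2] at this; exact this), Nat.le_floor (by
      have := (hR B hB).2.2; rw [(hDm B hB).2.2] at this; exact this)⟩) a
  have hx0 : (0 : ℝ) < (2 : ℝ) ^ (-((n : ℝ) ^ (0.06 : ℝ))) := by positivity
  have hx1 : (2 : ℝ) ^ (-((n : ℝ) ^ (0.06 : ℝ))) ≤ 1 := by
    apply Real.rpow_le_one_of_one_le_of_nonpos (by norm_num)
    have : 0 ≤ (n : ℝ) ^ (0.06 : ℝ) := by positivity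
    linarith
  have hfew := few_lists (α := Finset (Fin n)) k hx0 hx1
  have hcard : (Fintype.card (Finset (Fin n)) : ℝ) = (2 : ℝ) ^ n := by
    rw [Fintype.card_finset, Fintype.card_fin]
    push_cast
    rfl
  rw [hcard] at hfew
  have hkle : (k : ℝ) ≤ 4 * s * (n : ℝ) ^ (-1.09 : ℝ) := Nat.floor_le (by positivity)
  have hnum := D7c_num (k := k) hn1 hc h1 h2 hs hkle
  set Q := ((Finset.univ.filter fun A : Finset (Finset (Fin n)) => A.card ≤ k).card : ℝ) with hQ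
  have hQ0 : 0 ≤ Q := Nat.cast_nonneg _
  have hQ2 : Q ^ 2 ≤ (2 : ℝ) ^ ((0.1 : ℝ) * s / n) := by
    calc Q ^ 2 ≤ (Real.exp ((k : ℝ) * Real.log (1 / (2 : ℝ) ^ (-((n : ℝ) ^ (0.06 : ℝ)))) +
          (2 : ℝ) ^ (-((n : ℝ) ^ (0.06 : ℝ))) * (2 : ℝ) ^ n)) ^ 2 := by
            apply pow_le_pow_left₀ hQ0 hfew
      _ = Real.exp (2 * ((k : ℝ) * Real.log (1 / (2 : ℝ) ^ (-((n : ℝ) ^ (0.06 : ℝ)))) +
          (2 : ℝ) ^ (-((n : ℝ) ^ (0.06 : ℝ))) * (2 : ℝ) ^ n)) := by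
            rw [← Real.exp_nat_mul]
            norm_num
      _ ≤ Real.exp (Real.log 2 * (0.1 * s / n)) := Real.exp_le_exp.mpr hnum
      _ = (2 : ℝ) ^ ((0.1 : ℝ) * s / n) := by rw [Real.rpow_def_of_pos (by norm_num)]
  have hlow : (D.card : ℝ) * (2 : ℝ) ^ ((0.4 : ℝ) * s / n) ≤
      ∑ B ∈ D, ∑ J ∈ JM (gg n) r B (a B), ((1 : ℝ) / 3) ^ (J.1.card + J.2.card) := by
    rw [← nsmul_eq_mul]
    apply Finset.card_nsmul_le_sum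
    intro B hB
    have := ha B
    rw [(hDm B hB).2.2] at this
    exact this
  have hfin : (D.card : ℝ) * (2 : ℝ) ^ ((0.4 : ℝ) * s / n) ≤
      (Mats n r).card * (2 : ℝ) ^ ((0.1 : ℝ) * s / n) :=
    (hlow.trans hcount).trans (by gcongr)
  have hpos : (0 : ℝ) < (2 : ℝ) ^ ((0.4 : ℝ) * s / n) := by positivity
  have hmul : (2 : ℝ) ^ (-(0.3 : ℝ) * s / n) * (Mats n r).card * (2 : ℝ) ^ ((0.4 : ℝ) * s / n) =
      (Mats n r).card * (2 : ℝ) ^ ((0.1 : ℝ) * s / n) := by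
    rw [mul_right_comm, ← Real.rpow_add (by norm_num : (0 : ℝ) < 2), mul_comm]
    congr 2
    ring
  rw [← hmul] at hfin
  exact le_of_mul_le_mul_right hfin hpos

end Pool.Agent.H13.VM
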