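import Mathlib
import Pool.Agent.H28.Johnson

/-! # Almost every matroid has a Vamos minor: definitions (project `h13_vamos_paper.md`)

A matroid of rank `r` on `Fin n` is given by its family `B` of bases, a family of `r`-sets with the
exchange property (`IsMat n r B`); `Mats n r` is the finite set of all of them, `m = (Mats n r).card`,
`N = n.choose r`. `NB r B` is the set of nonbases. `Base n r` (all `r`-sets) and `adj r X Y`
(adjacency in the Johnson graph: `X <> Y` and `r <= |X cap Y| + 1`) come from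
`Pool.Agent.H28.Johnson`. A line is given by an `(r-1)`-set `L` (members `L + z`) or an
`(r+1)`-set `L` (members `L - y`); `onl L X` says that the `r`-set `X` is on the line `L`. -/

open scoped BigOperators
open Filter

namespace Pool.Agent.H13.VM

open Pool.Agent.H28.Johnson

variable {n : ℕ}

/-- families of bases of matroids of rank `r` on `Fin n` -/
def IsMat (n r : ℕ) (B : Finset (Finset (Fin n))) : Prop :=
  B ⊆ Base n r ∧ B.Nonempty ∧
    ∀ X ∈ B, ∀ Y ∈ B, ∀ x ∈ X \ Y, ∃ y ∈ Y \ X, insert y (X.erase x) ∈ B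

open Classical in
/-- all matroids of rank `r` on `Fin n` (families of bases) -/
noncomputable def Mats (n r : ℕ) : Finset (Finset (Finset (Fin n))) :=
  (Base n r).powerset.filter fun B => IsMat n r B

/-- the nonbases -/
def NB (r : ℕ) (B : Finset (Finset (Fin n))) : Finset (Finset (Fin n)) := Base n r \ B

/-- `X - y + z` -/
def ex (X : Finset (Fin n)) (y z : Fin n) : Finset (Fin n) := insert z (X.erase y)

/-- `S` is contained in no base -/
def Dep (B : Finset (Finset (Fin n))) (S : Finset (Fin n)) : Prop := ∀ X ∈ B, ¬ S ⊆ X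

/-- `S` meets every base (the complement of `S` contains no base) -/
def Codep (B : Finset (Finset (Fin n))) (S : Finset (Fin n)) : Prop := ∀ X ∈ B, ¬ Disjoint S X

/-- condition (G): no dependent and no codependent set with at most `g` elements -/
def GG (g : ℕ) (B : Finset (Finset (Fin n))) : Prop :=
  (∀ S : Finset (Fin n), Dep B S → g < S.card) ∧ ∀ S : Finset (Fin n), Codep B S → g < S.card

/-- the threshold `g = floor(n^0.99)` -/
noncomputable def gg (n : ℕ) : ℕ := ⌊(n : ℝ) ^ (0.99 : ℝ)⌋₊

/-- central ranks -/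
def Cen (n r : ℕ) : Prop := 2 ^ n ≤ n ^ 3 * n.choose r ∧ 49 * n ≤ 100 * r ∧ 100 * r ≤ 51 * n

/-! ## lines -/

/-- the `r`-set `X` is on the line `L` -/
def onl (L X : Finset (Fin n)) : Prop := L ⊆ X ∨ X ⊆ L

open Classical in
/-- full I-lines: `(r-1)`-sets `I` with all `I + z` nonbases -/
noncomputable def fullI (r : ℕ) (B : Finset (Finset (Fin n))) : Finset (Finset (Fin n)) :=
  Finset.univ.filter fun I => I.card + 1 = r ∧ ∀ z, z ∉ I → insert z I ∉ B

open Classical in
/-- full U-lines: `(r+1)`-sets `U` with all `U - y` nonbases -/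
noncomputable def fullU (r : ℕ) (B : Finset (Finset (Fin n))) : Finset (Finset (Fin n)) :=
  Finset.univ.filter fun U => U.card = r + 1 ∧ ∀ y ∈ U, U.erase y ∉ B

/-- all full lines -/
noncomputable def full (r : ℕ) (B : Finset (Finset (Fin n))) : Finset (Finset (Fin n)) :=
  fullI r B ∪ fullU r B

open Classical in
/-- the members of the line `L` -/
noncomputable def pts (r : ℕ) (L : Finset (Fin n)) : Finset (Finset (Fin n)) :=
  (Base n r).filter fun X => onl L X

open Classical in
/-- the full lines through `X` -/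
noncomputable def thr (r : ℕ) (B : Finset (Finset (Fin n))) (X : Finset (Fin n)) :
    Finset (Finset (Fin n)) := (full r B).filter fun L => onl L X

open Classical in
/-- the full I-lines through `X` -/
noncomputable def thrI (r : ℕ) (B : Finset (Finset (Fin n))) (X : Finset (Fin n)) :
    Finset (Finset (Fin n)) := (fullI r B).filter fun L => L ⊆ X

open Classical in
/-- the full U-lines through `X` -/
noncomputable def thrU (r : ℕ) (B : Finset (Finset (Fin n))) (X : Finset (Fin n)) :
    Finset (Finset (Fin n)) := (fullU r B).filter fun L => X ⊆ L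

/-! ## components, flips -/

/-- reachability in the Johnson graph induced on `S` -/
def Conn (r : ℕ) (S : Finset (Finset (Fin n))) : Finset (Fin n) → Finset (Fin n) → Prop :=
  Relation.ReflTransGen fun X Y => X ∈ S ∧ Y ∈ S ∧ adj r X Y

open Classical in
/-- the connected component of `X` in the Johnson graph induced on `S` -/
noncomputable def comp (r : ℕ) (S : Finset (Finset (Fin n))) (X : Finset (Fin n)) :
    Finset (Finset (Fin n)) := S.filter fun Y => Conn r S X Y

/-- `G` is a union of connected components of the Johnson graph induced on `S` -/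
def Closed (r : ℕ) (S G : Finset (Finset (Fin n))) : Prop :=
  G ⊆ S ∧ ∀ X ∈ G, ∀ Y ∈ S, adj r X Y → Y ∈ G

open Classical in
/-- the nonbases `X` with `c` in `X`, `t` not in `X`, `X - c + t` a base -/
noncomputable def Sct (r : ℕ) (B : Finset (Finset (Fin n))) (c t : Fin n) :
    Finset (Finset (Fin n)) := (NB r B).filter fun X => c ∈ X ∧ t ∉ X ∧ ex X c t ∈ B

/-- the flip at `X0`: the component of `X0` in `Sct` becomes bases -/
noncomputable def fl (r : ℕ) (B : Finset (Finset (Fin n))) (c t : Fin n) (X0 : Finset (Fin n)) :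
    Finset (Finset (Fin n)) := B ∪ comp r (Sct r B c t) X0

/-! ## fundamental circuits and cocircuits -/

open Classical in
/-- the zeros of the base `X`: pairs `(y, z)` with `X - y + z` a nonbase -/
noncomputable def zer (B : Finset (Finset (Fin n))) (X : Finset (Fin n)) :
    Finset (Fin n × Fin n) := (X ×ˢ Xᶜ).filter fun p => ex X p.1 p.2 ∉ B

open Classical in
/-- fundamental circuit of `z` outside the base `X` -/
noncomputable def cir (B : Finset (Finset (Fin n))) (X : Finset (Fin n)) (z : Fin n) :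
    Finset (Fin n) := insert z (X.filter fun y => ex X y z ∈ B)

open Classical in
/-- fundamental cocircuit of `y` in the base `X` -/
noncomputable def coc (B : Finset (Finset (Fin n))) (X : Finset (Fin n)) (y : Fin n) :
    Finset (Fin n) := insert y (Xᶜ.filter fun z => ex X y z ∈ B)

open Classical in
/-- nonbases adjacent to a base (rank `r - 1`) -/
noncomputable def NB1 (r : ℕ) (B : Finset (Finset (Fin n))) : Finset (Finset (Fin n)) :=
  (NB r B).filter fun X => ∃ y ∈ X, ∃ z, z ∉ X ∧ ex X y z ∈ B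

open Classical in
/-- the circuit inside the nonbase `X` (of rank `r - 1`) -/
noncomputable def CX (B : Finset (Finset (Fin n))) (X : Finset (Fin n)) : Finset (Fin n) :=
  X.filter fun y => ∃ z, z ∉ X ∧ ex X y z ∈ B

open Classical in
/-- complement of the hyperplane spanned by the nonbase `X` -/
noncomputable def DX (B : Finset (Finset (Fin n))) (X : Finset (Fin n)) : Finset (Fin n) :=
  Xᶜ.filter fun z => ∃ y ∈ X, ex X y z ∈ B

/-- the hyperplane spanned by the nonbase `X` -/
noncomputable def HX (B : Finset (Finset (Fin n))) (X : Finset (Fin n)) : Finset (Fin n) :=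
  (DX B X)ᶜ

/-! ## heavy components, basic lines -/

open Classical in
/-- the full lines which meet `G` -/
noncomputable def linesOf (r : ℕ) (B G : Finset (Finset (Fin n))) : Finset (Finset (Fin n)) :=
  (full r B).filter fun L => ∃ X ∈ G, onl L X

/-- a set of nonbases is heavy if it has a member on two full I-lines or on two full U-lines, or if
it meets at least `sqrt n` full lines -/
def Heavy (r : ℕ) (B G : Finset (Finset (Fin n))) : Prop :=
  (∃ X ∈ G, 2 ≤ (thrI r B X).card ∨ 2 ≤ (thrU r B X).card) ∨ n ≤ (linesOf r B G).card ^ 2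

open Classical in
/-- the union `P` of the heavy components of the nonbases -/
noncomputable def hvy (r : ℕ) (B : Finset (Finset (Fin n))) : Finset (Finset (Fin n)) :=
  (NB r B).filter fun X => Heavy r B (comp r (NB r B) X)

open Classical in
/-- basic lines: `(r-1)`-sets `CX B X` and `(r+1)`-sets `HX B X` -/
noncomputable def bas (r : ℕ) (B : Finset (Finset (Fin n))) : Finset (Finset (Fin n)) :=
  (full r B).filter fun L => ∃ X ∈ NB1 r B, CX B X = L ∨ HX B X = L

open Classical in
/-- the basic lines inside `P` -/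
noncomputable def basP (r : ℕ) (B : Finset (Finset (Fin n))) : Finset (Finset (Fin n)) :=
  (bas r B).filter fun L => ∃ X ∈ hvy r B, onl L X

open Classical in
/-- the private members of the line `L` -/
noncomputable def privs (r : ℕ) (B : Finset (Finset (Fin n))) (L : Finset (Fin n)) :
    Finset (Finset (Fin n)) := (pts r L).filter fun X => (thr r B X).card = 1

open Classical in
/-- the open basic lines inside `P` -/
noncomputable def opn (g r : ℕ) (B : Finset (Finset (Fin n))) : Finset (Finset (Fin n)) :=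
  (basP r B).filter fun L => g ≤ 2 * (privs r B L).card

/-! ## isolated nonbases and the rest -/

open Classical in
/-- isolated nonbases -/
noncomputable def iso (r : ℕ) (B : Finset (Finset (Fin n))) : Finset (Finset (Fin n)) :=
  (NB r B).filter fun X => ∀ Y ∈ NB r B, ¬ adj r X Y

/-- the other nonbases -/
noncomputable def WW (r : ℕ) (B : Finset (Finset (Fin n))) : Finset (Finset (Fin n)) :=
  NB r B \ iso r B

open Classical in
/-- the `r`-sets outside `W` without neighbour in `W` -/
noncomputable def reg (r : ℕ) (W : Finset (Finset (Fin n))) : Finset (Finset (Fin n)) :=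
  (Base n r).filter fun X => X ∉ W ∧ ∀ Y ∈ W, ¬ adj r X Y

open Classical in
/-- the stable subsets of the region `R` -/
noncomputable def stabs (r : ℕ) (R : Finset (Finset (Fin n))) :
    Finset (Finset (Finset (Fin n))) :=
  R.powerset.filter fun I => ∀ a ∈ I, ∀ b ∈ I, ¬ adj r a b

/-- the mass bound `N 2^(-n^0.05)` -/
noncomputable def s0 (n r : ℕ) : ℝ := (n.choose r : ℝ) * (2 : ℝ) ^ (-((n : ℝ) ^ (0.05 : ℝ)))

/-! ## membership lemmas -/

lemma mem_NB {r : ℕ} {B : Finset (Finset (Fin n))} {X : Finset (Fin n)} :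
    X ∈ NB r B ↔ X.card = r ∧ X ∉ B := by
  rw [NB, Finset.mem_sdiff, mem_Base]

lemma mem_Mats {r : ℕ} {B : Finset (Finset (Fin n))} : B ∈ Mats n r ↔ IsMat n r B := by
  classical
  rw [Mats, Finset.mem_filter, Finset.mem_powerset]
  exact ⟨fun h => h.2, fun h => ⟨h.1, h⟩⟩

lemma IsMat.card_eq {r : ℕ} {B : Finset (Finset (Fin n))} (h : IsMat n r B) {X : Finset (Fin n)}
    (hX : X ∈ B) : X.card = r := mem_Base.mp (h.1 hX)

lemma mem_fullI {r : ℕ} {B : Finset (Finset (Fin n))} {I : Finset (Fin n)} :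
    I ∈ fullI r B ↔ I.card + 1 = r ∧ ∀ z, z ∉ I → insert z I ∉ B := by
  classical
  simp [fullI]

lemma mem_fullU {r : ℕ} {B : Finset (Finset (Fin n))} {U : Finset (Fin n)} :
    U ∈ fullU r B ↔ U.card = r + 1 ∧ ∀ y ∈ U, U.erase y ∉ B := by
  classical
  simp [fullU]

lemma mem_full {r : ℕ} {B : Finset (Finset (Fin n))} {L : Finset (Fin n)} :
    L ∈ full r B ↔ L ∈ fullI r B ∨ L ∈ fullU r B := by
  classical
  rw [full, Finset.mem_union]

lemma mem_pts {r : ℕ} {L X : Finset (Fin n)} : X ∈ pts r L ↔ X.card = r ∧ onl L X := by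
  classical
  rw [pts, Finset.mem_filter, mem_Base]

lemma mem_thr {r : ℕ} {B : Finset (Finset (Fin n))} {L X : Finset (Fin n)} :
    L ∈ thr r B X ↔ L ∈ full r B ∧ onl L X := by
  classical
  rw [thr, Finset.mem_filter]

lemma mem_thrI {r : ℕ} {B : Finset (Finset (Fin n))} {L X : Finset (Fin n)} :
    L ∈ thrI r B X ↔ L ∈ fullI r B ∧ L ⊆ X := by
  classical
  rw [thrI, Finset.mem_filter]

lemma mem_thrU {r : ℕ} {B : Finset (Finset (Fin n))} {L X : Finset (Fin n)} :
    L ∈ thrU r B X ↔ L ∈ fullU r B ∧ X ⊆ L := by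
  classical
  rw [thrU, Finset.mem_filter]

lemma mem_comp {r : ℕ} {S : Finset (Finset (Fin n))} {X Y : Finset (Fin n)} :
    Y ∈ comp r S X ↔ Y ∈ S ∧ Conn r S X Y := by
  classical
  rw [comp, Finset.mem_filter]

lemma mem_Sct {r : ℕ} {B : Finset (Finset (Fin n))} {c t : Fin n} {X : Finset (Fin n)} :
    X ∈ Sct r B c t ↔ X ∈ NB r B ∧ c ∈ X ∧ t ∉ X ∧ ex X c t ∈ B := by
  classical
  rw [Sct, Finset.mem_filter]

lemma mem_fl {r : ℕ} {B : Finset (Finset (Fin n))} {c t : Fin n} {X0 X : Finset (Fin n)} :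
    X ∈ fl r B c t X0 ↔ X ∈ B ∨ X ∈ comp r (Sct r B c t) X0 := by
  classical
  rw [fl, Finset.mem_union]

lemma mem_zer {B : Finset (Finset (Fin n))} {X : Finset (Fin n)} {p : Fin n × Fin n} :
    p ∈ zer B X ↔ p.1 ∈ X ∧ p.2 ∉ X ∧ ex X p.1 p.2 ∉ B := by
  classical
  rw [zer, Finset.mem_filter, Finset.mem_product, Finset.mem_compl, and_assoc]

lemma mem_cir {B : Finset (Finset (Fin n))} {X : Finset (Fin n)} {z y : Fin n} :
    y ∈ cir B X z ↔ y = z ∨ (y ∈ X ∧ ex X y z ∈ B) := by
  classical
  rw [cir, Finset.mem_insert, Finset.mem_filter]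

lemma mem_coc {B : Finset (Finset (Fin n))} {X : Finset (Fin n)} {z y : Fin n} :
    z ∈ coc B X y ↔ z = y ∨ (z ∉ X ∧ ex X y z ∈ B) := by
  classical
  rw [coc, Finset.mem_insert, Finset.mem_filter, Finset.mem_compl]

lemma mem_NB1 {r : ℕ} {B : Finset (Finset (Fin n))} {X : Finset (Fin n)} :
    X ∈ NB1 r B ↔ X ∈ NB r B ∧ ∃ y ∈ X, ∃ z, z ∉ X ∧ ex X y z ∈ B := by
  classical
  rw [NB1, Finset.mem_filter]

lemma mem_CX {B : Finset (Finset (Fin n))} {X : Finset (Fin n)} {y : Fin n} :
    y ∈ CX B X ↔ y ∈ X ∧ ∃ z, z ∉ X ∧ ex X y z ∈ B := by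
  classical
  rw [CX, Finset.mem_filter]

lemma mem_DX {B : Finset (Finset (Fin n))} {X : Finset (Fin n)} {z : Fin n} :
    z ∈ DX B X ↔ z ∉ X ∧ ∃ y ∈ X, ex X y z ∈ B := by
  classical
  rw [DX, Finset.mem_filter, Finset.mem_compl]

lemma mem_HX {B : Finset (Finset (Fin n))} {X : Finset (Fin n)} {z : Fin n} :
    z ∈ HX B X ↔ z ∉ DX B X := by
  classical
  rw [HX, Finset.mem_compl]

lemma mem_linesOf {r : ℕ} {B G : Finset (Finset (Fin n))} {L : Finset (Fin n)} :
    L ∈ linesOf r B G ↔ L ∈ full r B ∧ ∃ X ∈ G, onl L X := by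
  classical
  rw [linesOf, Finset.mem_filter]

lemma mem_hvy {r : ℕ} {B : Finset (Finset (Fin n))} {X : Finset (Fin n)} :
    X ∈ hvy r B ↔ X ∈ NB r B ∧ Heavy r B (comp r (NB r B) X) := by
  classical
  rw [hvy, Finset.mem_filter]

lemma mem_bas {r : ℕ} {B : Finset (Finset (Fin n))} {L : Finset (Fin n)} :
    L ∈ bas r B ↔ L ∈ full r B ∧ ∃ X ∈ NB1 r B, CX B X = L ∨ HX B X = L := by
  classical
  rw [bas, Finset.mem_filter]

lemma mem_basP {r : ℕ} {B : Finset (Finset (Fin n))} {L : Finset (Fin n)} :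
    L ∈ basP r B ↔ L ∈ bas r B ∧ ∃ X ∈ hvy r B, onl L X := by
  classical
  rw [basP, Finset.mem_filter]

lemma mem_privs {r : ℕ} {B : Finset (Finset (Fin n))} {L X : Finset (Fin n)} :
    X ∈ privs r B L ↔ (X.card = r ∧ onl L X) ∧ (thr r B X).card = 1 := by
  classical
  rw [privs, Finset.mem_filter, mem_pts]

lemma mem_opn {g r : ℕ} {B : Finset (Finset (Fin n))} {L : Finset (Fin n)} :
    L ∈ opn g r B ↔ L ∈ basP r B ∧ g ≤ 2 * (privs r B L).card := by
  classical
  rw [opn, Finset.mem_filter]

lemma mem_iso {r : ℕ} {B : Finset (Finset (Fin n))} {X : Finset (Fin n)} :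
    X ∈ iso r B ↔ X ∈ NB r B ∧ ∀ Y ∈ NB r B, ¬ adj r X Y := by
  classical
  rw [iso, Finset.mem_filter]

lemma mem_WW {r : ℕ} {B : Finset (Finset (Fin n))} {X : Finset (Fin n)} :
    X ∈ WW r B ↔ X ∈ NB r B ∧ X ∉ iso r B := by
  rw [WW, Finset.mem_sdiff]

lemma mem_reg {r : ℕ} {W : Finset (Finset (Fin n))} {X : Finset (Fin n)} :
    X ∈ reg r W ↔ X.card = r ∧ X ∉ W ∧ ∀ Y ∈ W, ¬ adj r X Y := by
  classical
  rw [reg, Finset.mem_filter, mem_Base]

lemma mem_stabs {r : ℕ} {R I : Finset (Finset (Fin n))} :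
    I ∈ stabs r R ↔ I ⊆ R ∧ ∀ a ∈ I, ∀ b ∈ I, ¬ adj r a b := by
  classical
  rw [stabs, Finset.mem_filter, Finset.mem_powerset]

end Pool.Agent.H13.VM
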